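import Pool.Agent.Helper55.UNF.FSt

/-!
# Geometry of the steps (owner helper18)

* `state_unique`: in a manifold a state is determined by its east edge and its north direction;
* `exists_state_of_adj`: adjacent facets are neighbours across the east edge of some state;
* `facet_const`: a predicate on the facets of a connected closed orthogonal surface that changes only
  across edges parallel to `y` is constant;
* `exists_turn`: the walk to the east turns.
-/

set_option autoImplicit false
set_option linter.unusedSectionVars false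

namespace Pool.Agent.MP42.Geo

open Pool.Agent.Helper55.UNF Pool.Agent.Helper55.UNF.GridSolid

variable {P : GridSolid}

/-- the step to the east keeps the north direction -/
lemma stE_n (s : P.FSt) : s.stE.1.n = s.1.n := P.stepE_n s.1 s.2.2

lemma r2_n (s : P.FSt) : s.r2.1.n = opp s.1.n := cross_opp_right _ _ s.2.2

/-! ### The edge and the corner of a state -/

lemma shift_eq (c : Fin 3 → ℤ) (d : Dir) (a : Fin 3) :
    shift c d a = c a + (if a = d.1 then (if d.2 then 1 else -1) else 0) := by
  by_cases h : a = d.1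
  · subst h; rw [shift_same]; simp
  · rw [shift_ne _ _ h]; simp [h]

/-- the offset of the east edge -/
def offE (d e : Dir) (a : Fin 3) : ℤ := if (a, true) = d ∨ (a, true) = e then 1 else 0

/-- the start of the east edge of a state -/
def ed (s : St) (a : Fin 3) : ℤ := s.c a + offE s.d s.e a

/-- the north-east corner of a state -/
def cor (s : St) (a : Fin 3) : ℤ := ed s a + (if (a, true) = s.n then 1 else 0)

lemma ed_concave : ∀ d e : Dir, d.1 ≠ e.1 → ∀ a : Fin 3,
    (if a = e.1 then (if e.2 then 1 else -1) else 0) +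
    (if a = d.1 then (if d.2 then 1 else -1) else 0) + offE (opp e) (opp d) a = offE d e a := by
  unfold offE; decide

lemma ed_flat : ∀ d e : Dir, d.1 ≠ e.1 → ∀ a : Fin 3,
    (if a = e.1 then (if e.2 then 1 else -1) else 0) + offE d (opp e) a = offE d e a := by
  unfold offE; decide

lemma ed_convex : ∀ d e : Dir, d.1 ≠ e.1 → ∀ a : Fin 3, offE e (opp (opp d)) a = offE d e a := by
  unfold offE; decide

/-- a state and the reversed neighbour have the same east edge -/
lemma ed_stepE (s : St) (hde : s.d.1 ≠ s.e.1) : ed ((s.stepE P).rot2) = ed s := by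
  funext a
  obtain ⟨c, d, e⟩ := s
  simp only at hde
  unfold St.stepE St.rot2 ed
  simp only
  split_ifs with h1 h2
  · simp only
    rw [shift_eq, shift_eq, add_assoc, add_assoc, ← add_assoc (ite _ _ _), ed_concave d e hde a]
  · simp only
    rw [shift_eq, add_assoc, ed_flat d e hde a]
  · simp only
    rw [ed_convex d e hde a]

/-- the corner of the state turned around the corner -/
lemma cor_ed : ∀ d e : Dir, d.1 ≠ e.1 → ∀ a : Fin 3,
    offE d (cross d e) a + (if (a, true) = cross d (cross d e) then 1 else 0) =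
      offE d (opp e) a + (if (a, true) = cross d e then (1 : ℤ) else 0) := by
  unfold offE; decide

lemma cor_rotL (s : St) (hde : s.d.1 ≠ s.e.1) (a : Fin 3) :
    cor s.rotL a = ed s.rot2 a + (if (a, true) = s.n then 1 else 0) := by
  obtain ⟨c, d, e⟩ := s
  simp only at hde
  unfold cor ed St.rotL St.rot2 St.n
  simp only
  rw [add_assoc, add_assoc, cor_ed d e hde a]

/-- the rotation around the north-east corner keeps the corner -/
lemma cor_kappa (s : St) (hde : s.d.1 ≠ s.e.1) : cor ((s.stepE P).rotL) = cor s := by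
  funext a
  rw [cor_rotL _ (P.stepE_perp s hde), ed_stepE s hde, P.stepE_n s hde]
  rfl

lemma quad : ∀ d e d' e' : Dir, d.1 ≠ e.1 → d'.1 ≠ e'.1 → cross d e = cross d' e' →
    (d' = d ∧ e' = e) ∨ (d' = opp d ∧ e' = opp e) ∨ (d' = e ∧ e' = opp d) ∨
      (d' = opp e ∧ e' = d) := by decide

lemma quad_a : ∀ d e : Dir, d.1 ≠ e.1 → ∀ a : Fin 3,
    offE d e a - offE (opp d) (opp e) a = (if a = d.1 then (if d.2 then 1 else -1) else 0) +
    (if a = e.1 then (if e.2 then 1 else -1) else 0) := by
  unfold offE; decide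

lemma quad_b : ∀ d e : Dir, d.1 ≠ e.1 → ∀ a : Fin 3,
    offE d e a - offE e (opp d) a = (if a = d.1 then (if d.2 then 1 else -1) else 0) := by
  unfold offE; decide

lemma quad_c : ∀ d e : Dir, d.1 ≠ e.1 → ∀ a : Fin 3,
    offE d e a - offE (opp e) d a = (if a = e.1 then (if e.2 then 1 else -1) else 0) := by
  unfold offE; decide

/-- In a manifold a state is determined by its east edge and its north direction. -/
lemma state_unique (hP : P.IsManifold) (s t : P.FSt) (hn : s.1.n = t.1.n)
    (hed : ed s.1 = ed t.1) : s = t := by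
  obtain ⟨⟨c, d, e⟩, ⟨h1, h2⟩, h3⟩ := s
  obtain ⟨⟨c', d', e'⟩, ⟨h1', h2'⟩, h3'⟩ := t
  simp only at h1 h2 h3 h1' h2' h3'
  have hn' : cross d e = cross d' e' := hn
  have hc : ∀ a, c' a = c a + (offE d e a - offE d' e' a) := by
    intro a
    have := congrFun hed a
    unfold ed at this
    simp only at this
    linarith
  apply FSt.ext'
  rcases quad d e d' e' h3 h3' hn' with ⟨rfl, rfl⟩ | ⟨rfl, rfl⟩ | ⟨rfl, rfl⟩ | ⟨rfl, rfl⟩
  · have : c' = c := by
      funext a
      rw [hc a]; ring
    subst this
    rfl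
  · exfalso
    have h4 : c' = shift (shift c d) e := by
      funext a
      rw [hc a, shift_eq, shift_eq, quad_a d e h3 a]
      ring
    have h5 : shift (shift c (d.1, d.2)) (e.1, e.2) ∈ P.cells := by
      rw [← h4]; exact h1'
    rcases hP.1 c d.1 e.1 d.2 e.2 h3 h1 h5 with h6 | h6
    · exact h2 h6
    · apply h2'
      have h7 : shift c' (opp d) = shift c e := by
        rw [h4, shift_comm c h3, shift_opp]
      rw [h7]
      exact h6
  · exfalso
    apply h2
    have h4 : c' = shift c d := by
      funext a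
      rw [hc a, shift_eq, quad_b d d' h3 a]
    rw [← h4]
    exact h1'
  · exfalso
    apply h2'
    have h4 : c' = shift c e := by
      funext a
      rw [hc a, shift_eq, quad_c e' e h3 a]
    have h5 : shift c' (opp e) = c := by
      rw [h4, shift_opp]
    rw [h5]
    exact h1

/-! ### Adjacent facets -/

/-- the start point of a grid edge -/
noncomputable def gpt (P : GridSolid) (v : Fin 3 → ℤ) : EuclideanSpace ℝ (Fin 3) :=
  WithLp.toLp 2 (fun a => P.crd a (v a))

lemma gpt_apply (v : Fin 3 → ℤ) (a : Fin 3) : gpt P v a = P.crd a (v a) := rfl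

lemma gpt_mem (a : Fin 3) (v : Fin 3 → ℤ) : gpt P v ∈ P.gridEdge a v := by
  refine ⟨⟨le_rfl, ?_⟩, fun b _ => rfl⟩
  exact ((P.mono a).monotone (by omega))

lemma gpt_mem' (a : Fin 3) (v : Fin 3 → ℤ) :
    gpt P (Function.update v a (v a + 1)) ∈ P.gridEdge a v := by
  refine ⟨⟨?_, ?_⟩, fun b hb => ?_⟩
  · rw [gpt_apply, Function.update_self]
    exact ((P.mono a).monotone (by omega))
  · rw [gpt_apply, Function.update_self]
  · rw [gpt_apply, Function.update_of_ne hb]

/-- a grid edge in the rectangle of a facet is the east edge of a frame of the facet -/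
lemma exists_state_of_edge (f : P.Facet) (a : Fin 3) (v : Fin 3 → ℤ)
    (h : P.gridEdge a v ⊆ P.rect f.1) :
    ∃ s : P.FSt, s.facet = f ∧ s.1.n.1 = a ∧ ed s.1 = v := by
  obtain ⟨⟨c, d⟩, hf⟩ := f
  have m1 := h (gpt_mem a v)
  have m2 := h (gpt_mem' a v)
  obtain ⟨p1, p2⟩ := m1
  obtain ⟨q1, q2⟩ := m2
  simp only [gpt_apply] at p1 p2 q1 q2
  have inj := fun b : Fin 3 => (P.mono b).injective
  have le : ∀ (b : Fin 3) {i j : ℤ}, P.crd b i ≤ P.crd b j ↔ i ≤ j :=
    fun b _ _ => (P.mono b).le_iff_le
  have had : d.1 ≠ a := by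
    intro had
    subst had
    rw [Function.update_self] at q1
    have := inj d.1 p1
    have := inj d.1 q1
    omega
  have hvd : v d.1 = c d.1 + (if d.2 then 1 else 0) := inj d.1 p1
  have hva : v a = c a := by
    have k1 := (le a).1 (p2 a had.symm).1
    have k2 := (q2 a had.symm).2
    rw [Function.update_self] at k2
    have k3 := (le a).1 k2
    omega
  -- the third axis
  obtain ⟨b, hbd, hba, hall⟩ : ∃ b : Fin 3, b ≠ d.1 ∧ b ≠ a ∧ ∀ x, x = d.1 ∨ x = a ∨ x = b := by
    have : ∀ x y : Fin 3, x ≠ y → ∃ b : Fin 3, b ≠ x ∧ b ≠ y ∧ ∀ z, z = x ∨ z = y ∨ z = b := by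
      decide
    exact this d.1 a had
  have hvb : v b = c b ∨ v b = c b + 1 := by
    have k1 := (le b).1 (p2 b hbd).1
    have k2 := (le b).1 (p2 b hbd).2
    omega
  have hn : ∀ e : Dir, e.1 = b → (cross d e).1 = a := by
    have : ∀ (d e : Dir) (a : Fin 3), d.1 ≠ a → e.1 ≠ d.1 → e.1 ≠ a → (cross d e).1 = a := by
      decide
    intro e he
    exact this d e a had (by rw [he]; exact hbd) (by rw [he]; exact hba)
  rcases hvb with hvb | hvb
  · refine ⟨⟨⟨c, d, (b, false)⟩, hf, hbd.symm⟩, rfl, hn _ rfl, ?_⟩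
    funext x
    unfold ed offE
    simp only
    rcases hall x with rfl | rfl | rfl
    · rw [hvd]
      rcases d with ⟨dx, ds⟩
      cases ds <;> simp
    · rw [hva]
      have h1 : ¬ ((x, true) = d ∨ ((x, true) : Dir) = (b, false)) := by
        rintro (h1 | h1)
        · apply had; rw [← h1]
        · simp at h1
      rw [if_neg h1]; ring
    · rw [hvb]
      have h1 : ¬ ((x, true) = d ∨ ((x, true) : Dir) = (x, false)) := by
        rintro (h1 | h1)
        · apply hbd; rw [← h1]
        · simp at h1
      rw [if_neg h1]; ring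
  · refine ⟨⟨⟨c, d, (b, true)⟩, hf, hbd.symm⟩, rfl, hn _ rfl, ?_⟩
    funext x
    unfold ed offE
    simp only
    rcases hall x with rfl | rfl | rfl
    · rw [hvd]
      rcases d with ⟨dx, ds⟩
      have h1 : ¬ (dx = b) := fun h1 => hbd h1.symm
      cases ds <;> simp [h1]
    · rw [hva]
      have h1 : ¬ ((x, true) = d ∨ ((x, true) : Dir) = (b, true)) := by
        rintro (h1 | h1)
        · apply had; rw [← h1]
        · rw [Prod.mk.injEq] at h1; exact hba h1.1.symm
      rw [if_neg h1]; ring
    · rw [hvb, if_pos (Or.inr rfl)]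

/-- adjacent facets are neighbours across an east edge -/
lemma exists_state_of_adj (hP : P.IsManifold) {f g : P.Facet} (h : P.Adjacent f g) :
    ∃ s : P.FSt, s.facet = f ∧ s.stE.facet = g := by
  obtain ⟨hne, a, v, hv⟩ := h
  obtain ⟨s, hs, hsn, hse⟩ := exists_state_of_edge f a v (fun p hp => (hv hp).1)
  obtain ⟨t, ht, htn, hte⟩ := exists_state_of_edge g a v (fun p hp => (hv hp).2)
  refine ⟨s, hs, ?_⟩
  have h1 : s.1.n ≠ t.1.n := by
    intro h1
    apply hne
    rw [← hs, ← ht, state_unique hP s t h1 (by rw [hse, hte])]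
  have h2 : s.stE.r2.1.n = t.1.n := by
    rw [r2_n]
    have h3 : s.stE.1.n = s.1.n := stE_n s
    rw [h3]
    have : ∀ p q : Dir, p.1 = q.1 → p ≠ q → opp p = q := by decide
    exact this _ _ (by rw [hsn, htn]) h1
  have h3 : s.stE.r2 = t := by
    apply state_unique hP _ _ h2
    rw [hte, ← hse]
    exact ed_stepE s.1 s.2.2
  have h4 : s.stE.r2.facet = t.facet := by rw [h3]
  rw [FSt.facet_r2] at h4
  rw [h4, ht]

/-! ### Connectivity of facets without crossing the lanes' ends -/

/-- the rotation around the north-east corner -/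
def kappa (s : P.FSt) : P.FSt := s.stE.rL

lemma kappa_injective : Function.Injective (kappa : P.FSt → P.FSt) := by
  intro s t h
  have h1 : s.stE = t.stE := by
    have := congrArg FSt.rR h
    unfold kappa at this
    rwa [FSt.rL_rR, FSt.rL_rR] at this
  exact pE.injective h1

lemma kappa_facet (s : P.FSt) : (kappa s).facet = s.stE.facet := rfl

lemma kappa_cor (s : P.FSt) : cor (kappa s).1 = cor s.1 := cor_kappa s.1 s.2.2

lemma kappa_iter_cor (s : P.FSt) (i : ℕ) : cor (kappa^[i] s).1 = cor s.1 := by
  induction i with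
  | zero => rfl
  | succ i ih => rw [Function.iterate_succ_apply', kappa_cor, ih]

/-- If there is a change across the east edge of `s`, there is another one around the corner. -/
lemma exists_second_change (Ψ : P.Facet → Prop) (s : P.FSt)
    (hs : ¬ (Ψ s.facet ↔ Ψ s.stE.facet)) :
    ∃ t : P.FSt, t ≠ s ∧ cor t.1 = cor s.1 ∧ ¬ (Ψ t.facet ↔ Ψ t.stE.facet) := by
  by_contra hcon
  push Not at hcon
  have hfin : s ∈ Function.periodicPts (kappa : P.FSt → P.FSt) :=
    Function.Injective.mem_periodicPts kappa_injective s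
  set m := Function.minimalPeriod kappa s with hm
  have hpos : 0 < m := Function.minimalPeriod_pos_of_mem_periodicPts hfin
  have hper : kappa^[m] s = s := Function.iterate_minimalPeriod
  have key : ∀ i, i + 1 ≤ m → (Ψ (kappa^[i + 1] s).facet ↔ Ψ s.stE.facet) := by
    intro i
    induction i with
    | zero => intro _; rfl
    | succ i ih =>
      intro hi
      rw [← ih (by omega), Function.iterate_succ_apply' kappa (i + 1) s, kappa_facet]
      have hne : kappa^[i + 1] s ≠ s := by
        intro h
        have h2 : Function.IsPeriodicPt kappa (i + 1) s := h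
        have := h2.minimalPeriod_le (by omega)
        omega
      exact (hcon _ hne (kappa_iter_cor s (i + 1))).symm
  have h2 := key (m - 1) (by omega)
  rw [Nat.sub_add_cancel hpos, hper] at h2
  exact hs h2

/-- A predicate on facets that changes only across edges parallel to `y` is constant across all
edges. -/
lemma no_change (hP : P.IsManifold) (Ψ : P.Facet → Prop)
    (h : ∀ s : P.FSt, s.1.n.1 ≠ 1 → (Ψ s.facet ↔ Ψ s.stE.facet)) (s : P.FSt) :
    Ψ s.facet ↔ Ψ s.stE.facet := by
  classical
  by_contra hs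
  -- normalise
  have hbad : ∃ s : P.FSt, s.1.n = (1, true) ∧ ¬ (Ψ s.facet ↔ Ψ s.stE.facet) := by
    have hn : s.1.n.1 = 1 := by
      by_contra hn; exact hs (h s hn)
    have hcase : s.1.n = (1, true) ∨ s.1.n = opp (1, true) := by
      rcases hb : s.1.n with ⟨a, b⟩
      rw [hb] at hn
      have hn' : a = 1 := hn
      subst hn'
      cases b
      · right; rfl
      · left; rfl
    rcases hcase with hn1 | hn1
    · exact ⟨s, hn1, hs⟩
    · refine ⟨s.stE.r2, ?_, ?_⟩
      · rw [r2_n]
        have h3 : s.stE.1.n = s.1.n := stE_n s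
        rw [h3, hn1, opp_opp]
      · rw [FSt.stE_inv, FSt.facet_r2, FSt.facet_r2]
        intro h4; exact hs h4.symm
  obtain ⟨s, ⟨hsn, hs⟩, hmax⟩ := (Set.toFinite {s : P.FSt | s.1.n = (1, true) ∧
    ¬ (Ψ s.facet ↔ Ψ s.stE.facet)}).exists_maximalFor (fun s => s.1.c 1) _ hbad
  obtain ⟨t, hts, htc, htb⟩ := exists_second_change Ψ s hs
  have htn : t.1.n.1 = 1 := by
    by_contra hn; exact htb (h t hn)
  have hcase : t.1.n = (1, true) ∨ t.1.n = opp (1, true) := by
    rcases hb : t.1.n with ⟨a, b⟩
    rw [hb] at htn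
    have hn' : a = 1 := htn
    subst hn'
    cases b
    · right; rfl
    · left; rfl
  rcases hcase with hn1 | hn1
  · apply hts
    apply state_unique hP t s (by rw [hn1, hsn])
    funext a
    have := congrFun htc a
    unfold cor at this
    rw [hn1, hsn] at this
    linarith
  · -- further north
    have h1 : t.stE.r2.1.n = (1, true) := by
      rw [r2_n]
      have h3 : t.stE.1.n = t.1.n := stE_n t
      rw [h3, hn1, opp_opp]
    have h2 : ¬ (Ψ t.stE.r2.facet ↔ Ψ t.stE.r2.stE.facet) := by
      rw [FSt.stE_inv, FSt.facet_r2, FSt.facet_r2]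
      intro h4; exact htb h4.symm
    have h3 : t.stE.r2.1.c 1 = t.1.c 1 := by
      have hd : t.1.d.1 ≠ 1 := by
        have := cross_axis_left t.1.d t.1.e t.2.2
        have h5 : (cross t.1.d t.1.e).1 = 1 := htn
        rw [h5] at this; exact this.symm
      have he : t.1.e.1 ≠ 1 := by
        have := cross_axis_right t.1.d t.1.e t.2.2
        have h5 : (cross t.1.d t.1.e).1 = 1 := htn
        rw [h5] at this; exact this.symm
      exact P.stepE_third t.1 hd.symm he.symm
    have off0 : ∀ d e : Dir, d.1 ≠ e.1 → (cross d e).1 = 1 → offE d e 1 = 0 := by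
      unfold offE; decide
    have h4 : t.1.c 1 = s.1.c 1 + 1 := by
      have := congrFun htc 1
      unfold cor ed at this
      rw [hn1, hsn, off0 _ _ t.2.2 htn, off0 _ _ s.2.2 (by
        show s.1.n.1 = 1; rw [hsn])] at this
      have e1 : ((1, true) : Dir) = (1, true) := rfl
      have e2 : ¬ (((1, true) : Dir) = opp (1, true)) := by decide
      rw [if_neg e2, if_pos e1] at this
      linarith
    have h5 := hmax (j := t.stE.r2) ⟨h1, h2⟩ (by
      show s.1.c 1 ≤ t.stE.r2.1.c 1
      rw [h3, h4]; omega)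
    have h6 : t.stE.r2.1.c 1 ≤ s.1.c 1 := h5
    rw [h3, h4] at h6
    omega

/-- A predicate on the facets of a connected closed orthogonal surface that changes only across
edges parallel to `y` is constant. -/
theorem facet_const (hP : P.IsManifold) (hc : P.surfaceGraph.Connected) (Ψ : P.Facet → Prop)
    (h : ∀ s : P.FSt, s.1.n.1 ≠ 1 → (Ψ s.facet ↔ Ψ s.stE.facet)) (f g : P.Facet) :
    Ψ f ↔ Ψ g := by
  obtain ⟨w⟩ := hc.preconnected f g
  induction w with
  | nil => exact Iff.rfl
  | cons hadj _ ih =>
    obtain ⟨s, hs1, hs2⟩ := exists_state_of_adj hP hadj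
    rw [← ih, ← hs1, ← hs2]
    exact no_change hP Ψ h s


/-! ### The walk to the east turns -/

/-- a flat step -/
lemma stepE_flat_of_axis (s : St) (hde : s.d.1 ≠ s.e.1) (h : (s.stepE P).d.1 = s.d.1) :
    (s.stepE P).d = s.d ∧ (s.stepE P).e = s.e ∧ (s.stepE P).c = shift s.c s.e := by
  unfold St.stepE at h ⊢
  split_ifs at h ⊢ with h1 h2
  · exact absurd h.symm hde
  · exact ⟨rfl, rfl, rfl⟩
  · exact absurd h.symm hde

/-- the walk to the east does not stay on facets with parallel normals -/
lemma exists_turn (s : P.FSt) : ∃ j : ℕ, ((pE ^ j) s).1.d.1 ≠ s.1.d.1 := by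
  by_contra hcon
  push Not at hcon
  have key : ∀ j : ℕ, ((pE ^ j) s).1.d = s.1.d ∧ ((pE ^ j) s).1.e = s.1.e ∧
      ((pE ^ j) s).1.c s.1.e.1 = s.1.c s.1.e.1 + j * (if s.1.e.2 then 1 else -1) := by
    intro j
    induction j with
    | zero => simp
    | succ j ih =>
      obtain ⟨h1, h2, h3⟩ := ih
      have hs : (pE ^ (j + 1)) s = pE ((pE ^ j) s) := by
        rw [pow_succ', Equiv.Perm.mul_apply]
      have h4 := stepE_flat_of_axis (P := P) ((pE ^ j) s).1 ((pE ^ j) s).2.2 (by
        have h5 := hcon (j + 1)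
        rw [hs] at h5
        have h6 := hcon j
        rw [h6]
        exact h5)
      obtain ⟨k1, k2, k3⟩ := h4
      rw [hs]
      refine ⟨by rw [← h1]; exact k1, by rw [← h2]; exact k2, ?_⟩
      have k4 : (pE ((pE ^ j) s)).1.c = shift ((pE ^ j) s).1.c ((pE ^ j) s).1.e := k3
      rw [k4, h2, shift_same, h3]
      push_cast
      ring
  have h := key (orderOf (pE : Equiv.Perm P.FSt))
  have hpos : 0 < orderOf (pE : Equiv.Perm P.FSt) := orderOf_pos _
  rw [pow_orderOf_eq_one] at h
  have h3 := h.2.2
  simp only [Equiv.Perm.coe_one, id_eq] at h3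
  have hpos' : (0 : ℤ) < (orderOf (pE : Equiv.Perm P.FSt) : ℤ) := by exact_mod_cast hpos
  split_ifs at h3 <;> omega

/-- powers of `pN` and `pE` -/
lemma pN_pow (s : P.FSt) (j : ℕ) : (pN ^ j) s = ((pE ^ j) s.rL).rR := by
  induction j with
  | zero => simp
  | succ j ih =>
    rw [pow_succ', Equiv.Perm.mul_apply, ih, pow_succ', Equiv.Perm.mul_apply]
    show (((pE ^ j) s.rL).rR).rL.stE.rR = _
    rw [FSt.rR_rL]
    rfl

end Pool.Agent.MP42.Geo
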