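import Pool.Agent.MP42.Vals
import Pool.Agent.MP42.Geo

/-!
# A1: structure lemmas (owner helper18)

Everything follows from `FSt.stE_inv`, `FSt.stN_inv`, `FSt.stN_e`, `stepE_n`, `retFun_conj` and the
finiteness of the set of cells; `conn_darts` also from `Geo.facet_const`.
-/

set_option autoImplicit false
set_option linter.unusedSectionVars false

namespace Pool.Agent.MP42

open Pool.Agent.Helper55.UNF Pool.Agent.Helper55.UNF.GridSolid

/-! ### First returns and cycles -/

section Ret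

variable {X : Type*} [Finite X]

lemma ret_sameCycle' {π : Equiv.Perm X} {p : X → Prop} (y : {x // p x}) :
    ∀ (n : ℕ) (x : {x // p x}), (π ^ n) x.1 = y.1 → (ret π p).SameCycle x y := by
  intro n
  induction n using Nat.strong_induction_on with
  | _ n ih =>
    intro x hx
    rcases Nat.eq_zero_or_pos n with h0 | h0
    · subst h0
      have : x = y := Subtype.ext (by simpa using hx)
      rw [this]
    · have h1 : retN π p x.1 + 1 ≤ n := by
        by_contra hlt
        refine retN_not (π := π) (p := p) (x := x.1) (j := n - 1) (by omega) ?_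
        rw [Nat.sub_add_cancel h0, hx]
        exact y.2
      rw [← Equiv.Perm.sameCycle_apply_left]
      apply ih (n - (retN π p x.1 + 1)) (by omega)
      rw [ret_val, retFun_eq, ← Equiv.Perm.mul_apply, ← pow_add, Nat.sub_add_cancel h1, hx]

/-- elements of `p` in one cycle of `π` are in one cycle of the first return -/
lemma ret_sameCycle {π : Equiv.Perm X} {p : X → Prop} {x y : {x // p x}}
    (h : π.SameCycle x.1 y.1) : (ret π p).SameCycle x y := by
  obtain ⟨n, hn⟩ := h.exists_nat_pow_eq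
  exact ret_sameCycle' y n x hn

/-- a predicate on darts invariant under the first return is constant on cycles -/
lemma ret_const {π : Equiv.Perm X} {p : X → Prop} {ψ : {x // p x} → Prop}
    (h : ∀ x, ψ (ret π p x) ↔ ψ x) {x y : {x // p x}} (hxy : π.SameCycle x.1 y.1) :
    ψ x ↔ ψ y := by
  obtain ⟨n, hn⟩ := (ret_sameCycle hxy).exists_nat_pow_eq
  have key : ∀ n : ℕ, ψ ((ret π p ^ n) x) ↔ ψ x := by
    intro n
    induction n with
    | zero => simp
    | succ n ih => rw [pow_succ', Equiv.Perm.mul_apply, h, ih]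
  rw [← hn, key]

end Ret

variable {P : GridSolid}

lemma stN_e' (s : P.FSt) : (pN s).1.e = s.1.e := FSt.stN_e s

lemma retFun_pN_e (s : P.FSt) (p : P.FSt → Prop) : (retFun pN p s).1.e = s.1.e := by
  rw [retFun_eq]
  generalize retN pN p s + 1 = n
  induction n with
  | zero => simp
  | succ n ih => rw [pow_succ', Equiv.Perm.mul_apply, stN_e', ih]

lemma IsW_pow (s : P.FSt) (h : IsW s) (j : ℕ) : IsW ((pE ^ j) s) := by
  induction j with
  | zero => simpa using h
  | succ j ih =>
    rw [pow_succ', Equiv.Perm.mul_apply]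
    exact (IsW_stE _).2 ih

lemma IsW_dart {s : P.FSt} (h : IsW s) (h1 : s.1.d.1 = 1) : IsDart s := by
  refine ⟨h1, ?_⟩
  have key : ∀ d e : Dir, d.1 ≠ e.1 → cross d e = (2, true) → d.1 = 1 → e.1 = 0 := by decide
  exact key _ _ s.2.2 h h1

lemma IsW_axis {s : P.FSt} (h : IsW s) : s.1.d.1 = 0 ∨ s.1.d.1 = 1 := by
  have key : ∀ d e : Dir, d.1 ≠ e.1 → cross d e = (2, true) → d.1 = 0 ∨ d.1 = 1 := by decide
  exact key _ _ s.2.2 h

/-- a state is determined by its facet and its north direction -/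
lemma eq_of_facet_n {s t : P.FSt} (h : s.facet = t.facet) (hn : s.1.n = t.1.n) : s = t := by
  apply FSt.ext'
  obtain ⟨⟨c, d, e⟩, hs⟩ := s
  obtain ⟨⟨c', d', e'⟩, ht⟩ := t
  have h1 := congrArg Subtype.val h
  simp only [FSt.facet, Prod.mk.injEq] at h1
  obtain ⟨rfl, rfl⟩ := h1
  have key : ∀ d e e' : Dir, d.1 ≠ e.1 → d.1 ≠ e'.1 → cross d e = cross d e' → e = e' := by
    decide
  have : e = e' := key d e e' hs.2 ht.2 hn
  subst this
  rfl

/-- a state is determined by its facet and its east direction -/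
lemma eq_of_facet_e {s t : P.FSt} (h : s.facet = t.facet) (he : s.1.e = t.1.e) : s = t := by
  apply FSt.ext'
  obtain ⟨⟨c, d, e⟩, hs⟩ := s
  obtain ⟨⟨c', d', e'⟩, ht⟩ := t
  have h1 := congrArg Subtype.val h
  simp only [FSt.facet, Prod.mk.injEq] at h1
  obtain ⟨rfl, rfl⟩ := h1
  have : e = e' := he
  subst this
  rfl

variable (P)

theorem theta_theta (d : Dart P) : theta P (theta P d) = d := by
  apply Subtype.ext
  exact retFun_conj (π := (pN : Equiv.Perm P.FSt)) (p := IsDart) (r := FSt.r2)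
    FSt.r2_r2 FSt.stN_inv (fun s => IsDart_r2 s) d.2

theorem theta_e (d : Dart P) : (theta P d).1.1.e = opp d.1.1.e := by
  show opp (retFun pN IsDart d.1).1.e = _
  rw [retFun_pN_e]

theorem theta_ne (d : Dart P) : theta P d ≠ d := by
  intro h
  have h1 := theta_e P d
  rw [h] at h1
  have key : ∀ e : Dir, e ≠ opp e := by decide
  exact key _ h1

theorem phi_r2 (d : Dart P) : phi P (r2D P (phi P d)) = r2D P d := by
  apply Subtype.ext
  have h := retFun_conj (π := (pE : Equiv.Perm P.FSt)) (p := IsDart) (r := FSt.r2)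
    FSt.r2_r2 FSt.stE_inv (fun s => IsDart_r2 s) d.2
  have h1 := congrArg FSt.r2 h
  rw [FSt.r2_r2] at h1
  exact h1

/-- every closed walk along the walls contains a `y`-facet -/
theorem exists_dart (s : Wl P) : ∃ j : ℕ, IsDart ((pE ^ j) s.1) := by
  rcases IsW_axis s.2 with h | h
  · obtain ⟨j, hj⟩ := Geo.exists_turn s.1
    refine ⟨j, IsW_dart (IsW_pow _ s.2 j) ?_⟩
    rcases IsW_axis (IsW_pow _ s.2 j) with h1 | h1
    · exact absurd (h1.trans h.symm) hj
    · exact h1
  · exact ⟨0, IsW_dart s.2 h⟩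

lemma sig_pow (s : Wl P) (j : ℕ) : ((sig P ^ j) s).1 = (pE ^ j) s.1 := by
  induction j with
  | zero => rfl
  | succ j ih =>
    rw [pow_succ', Equiv.Perm.mul_apply, pow_succ', Equiv.Perm.mul_apply, ← ih]
    rfl

/-- ... and an `x`-facet -/
theorem exists_xfacet (s : Wl P) : ∃ a, (sig P).SameCycle s a ∧ a.1.1.d.1 = 0 := by
  rcases IsW_axis s.2 with h | h
  · exact ⟨s, Equiv.Perm.SameCycle.refl _ _, h⟩
  · obtain ⟨j, hj⟩ := Geo.exists_turn s.1
    refine ⟨(sig P ^ j) s, ⟨j, by simp⟩, ?_⟩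
    rw [sig_pow]
    rcases IsW_axis (IsW_pow _ s.2 j) with h1 | h1
    · exact h1
    · exact absurd (h1.trans h.symm) hj

/-- every ring contains a `y`-facet -/
theorem exists_dart_ring (f : P.Facet) (h : f.1.2.1 ≠ 0) (b : Bool) :
    ∃ j : ℕ, IsDart (((if b then pN else pN.symm) ^ j) (can f)) := by
  have hcan : (can f).1.e = (0, true) := by
    show canE f.1.2 = _
    unfold canE
    rw [if_neg h]
  have main : ∃ j : ℕ, IsDart ((pN ^ j) (can f)) := by
    have he : ∀ j : ℕ, ((pN ^ j) (can f)).1.e = (0, true) := by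
      intro j
      induction j with
      | zero => simpa using hcan
      | succ j ih => rw [pow_succ', Equiv.Perm.mul_apply, stN_e', ih]
    by_cases h1 : f.1.2.1 = 1
    · exact ⟨0, h1, by
        show (can f).1.e.1 = 0
        rw [hcan]⟩
    · obtain ⟨j, hj⟩ := Geo.exists_turn (can f).rL
      refine ⟨j, ?_, by rw [he j]⟩
      have h2 : ((pN ^ j) (can f)).1.d = ((pE ^ j) (can f).rL).1.d := by
        rw [Geo.pN_pow]
        rfl
      have h3 := ((pN ^ j) (can f)).2.2
      rw [he j] at h3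
      rw [h2] at h3 ⊢
      have h4 : (can f).rL.1.d.1 = f.1.2.1 := rfl
      rw [h4] at hj
      have key : ∀ a b : Fin 3, a ≠ 0 → a ≠ 1 → b ≠ 0 → b ≠ a → b = 1 := by decide
      exact key _ _ h h1 h3 hj
  cases b
  · obtain ⟨j, hj⟩ := main
    refine ⟨orderOf (pN : Equiv.Perm P.FSt) * j - j, ?_⟩
    have hle : j ≤ orderOf (pN : Equiv.Perm P.FSt) * j :=
      Nat.le_mul_of_pos_left j (orderOf_pos _)
    have h1 : (pN ^ (orderOf (pN : Equiv.Perm P.FSt) * j - j)) ((pN ^ j) (can f)) = can f := by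
      rw [← Equiv.Perm.mul_apply, ← pow_add, Nat.sub_add_cancel hle, pow_mul,
        pow_orderOf_eq_one, one_pow]
      rfl
    have h2 : ((if false = true then pN else pN.symm : Equiv.Perm P.FSt) ^
        (orderOf (pN : Equiv.Perm P.FSt) * j - j)) (can f) = (pN ^ j) (can f) := by
      have h3 : (if false = true then pN else pN.symm : Equiv.Perm P.FSt) = pN⁻¹ := rfl
      rw [h3, inv_pow]
      conv_lhs => rw [← h1]
      exact (pN ^ (orderOf (pN : Equiv.Perm P.FSt) * j - j)).symm_apply_apply _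
    rw [h2]
    exact hj
  · exact main

theorem phi_cycle (d : Dart P) (h : IsW d.1) : ∃ h' : IsW (phi P d).1,
    (sig P).SameCycle ⟨d.1, h⟩ ⟨(phi P d).1, h'⟩ := by
  have h1 : (phi P d).1 = (pE ^ (retN pE IsDart d.1 + 1)) d.1 := retFun_eq _ _ _
  have h2 : IsW (phi P d).1 := by rw [h1]; exact IsW_pow _ h _
  refine ⟨h2, ((retN pE IsDart d.1 + 1 : ℕ) : ℤ), ?_⟩
  rw [zpow_natCast]
  apply Subtype.ext
  rw [sig_pow]
  exact h1.symm

/-- a dart is a wall state or its half turn is one -/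
theorem dart_cases (d : Dart P) : (IsW d.1 ∧ ¬ IsW d.1.r2) ∨ (¬ IsW d.1 ∧ IsW d.1.r2) := by
  have key : ∀ d e : Dir, d.1 = 1 → e.1 = 0 →
      (cross d e = (2, true) ∧ ¬ cross d (opp e) = (2, true)) ∨
      (¬ cross d e = (2, true) ∧ cross d (opp e) = (2, true)) := by decide
  exact key _ _ d.2.1 d.2.2

lemma sig_same_iff (s t : Wl P) : (sig P).SameCycle s t ↔ pE.SameCycle s.1 t.1 := by
  constructor
  · intro h
    obtain ⟨n, hn⟩ := h.exists_nat_pow_eq
    refine ⟨n, ?_⟩
    rw [zpow_natCast, ← sig_pow, hn]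
  · intro h
    obtain ⟨n, hn⟩ := h.exists_nat_pow_eq
    refine ⟨n, ?_⟩
    rw [zpow_natCast]
    apply Subtype.ext
    rw [sig_pow, hn]

lemma phi_same_iff (d d' : Dart P) : (phi P).SameCycle d d' ↔ pE.SameCycle d.1 d'.1 := by
  constructor
  · intro h
    obtain ⟨n, hn⟩ := h.exists_nat_pow_eq
    have key : ∀ n : ℕ, pE.SameCycle d.1 ((phi P ^ n) d).1 := by
      intro n
      induction n with
      | zero => exact Equiv.Perm.SameCycle.refl _ _
      | succ n ih =>
        rw [pow_succ', Equiv.Perm.mul_apply]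
        refine ih.trans ?_
        refine ⟨((retN pE IsDart ((phi P ^ n) d).1 + 1 : ℕ) : ℤ), ?_⟩
        rw [zpow_natCast]
        exact (retFun_eq _ _ _).symm
    rw [← hn]
    exact key n
  · exact ret_sameCycle

lemma r2_same {s t : P.FSt} (h : pE.SameCycle s t) : pE.SameCycle s.r2 t.r2 := by
  obtain ⟨n, hn⟩ := h.exists_nat_pow_eq
  have key : ∀ n : ℕ, pE.SameCycle s.r2 ((pE ^ n) s).r2 := by
    intro n
    induction n with
    | zero => exact Equiv.Perm.SameCycle.refl _ _
    | succ n ih =>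
      rw [pow_succ', Equiv.Perm.mul_apply]
      refine ih.trans ?_
      have h1 : pE (pE ((pE ^ n) s)).r2 = ((pE ^ n) s).r2 := FSt.stE_inv _
      rw [← h1, Equiv.Perm.sameCycle_apply_left]
  rw [← hn]
  exact key n

lemma r2_same_iff {s t : P.FSt} : pE.SameCycle s.r2 t.r2 ↔ pE.SameCycle s t :=
  ⟨fun h => by
    have := r2_same P h
    rwa [FSt.r2_r2, FSt.r2_r2] at this, r2_same P⟩

variable {P}

open Classical in
lemma sum_ft (A : Arb (theta P) (phi P)) (d : Dart P) :
    ∑ e ∈ Finset.univ.filter (fun e => (phi P).SameCycle d e), A.ft e = 2 := by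
  have h := A.feet d
  unfold Arb.ft
  rw [← h]
  rw [Finset.sum_add_distrib, Finset.sum_add_distrib, Finset.sum_add_distrib]
  refine congrArg₂ (· + ·) ?_ (Finset.sum_congr (by ext e; simp) fun _ _ => rfl)
  have h2 : ∑ e ∈ Finset.univ.filter (fun e => (phi P).SameCycle d e),
      (if A.S ((phi P).symm e) then 1 else 0) =
      ∑ e ∈ Finset.univ.filter (fun e => (phi P).SameCycle d e), (if A.S e then 1 else 0) := by
    refine Finset.sum_equiv (phi P).symm ?_ ?_
    · intro e
      simp only [Finset.mem_filter, Finset.mem_univ, true_and]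
      have : (phi P).SameCycle d ((phi P).symm e) ↔ (phi P).SameCycle d e :=
        Equiv.Perm.sameCycle_symm_apply_right
      rw [this]
    · intro e _
      rfl
  rw [h2, ← Finset.sum_add_distrib]
  refine Finset.sum_congr (by ext e; simp) ?_
  intro e _
  split_ifs <;> rfl

lemma ext0_pos {R : Type*} [Zero R] (g : Dart P → R) {s : P.FSt} (h : IsDart s) :
    ext0 g s = g ⟨s, h⟩ := by
  unfold ext0
  rw [dif_pos h]

lemma ext0_neg {R : Type*} [Zero R] (g : Dart P → R) {s : P.FSt} (h : ¬ IsDart s) :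
    ext0 g s = 0 := by
  unfold ext0
  rw [dif_neg h]

open Classical in
theorem feet_top (A : Arb (theta P) (phi P)) (s : Wl P) :
    ∑ a ∈ Finset.univ.filter (fun a : Wl P => (sig P).SameCycle s a), ext0 A.ft a.1 = 2 := by
  obtain ⟨j, hj⟩ := exists_dart P s
  set d : Dart P := ⟨(pE ^ j) s.1, hj⟩ with hd
  have hsd : pE.SameCycle s.1 d.1 := ⟨j, by simp [hd]⟩
  rw [← sum_ft A d]
  refine Finset.sum_bij_ne_zero (fun a _ ha => (⟨a.1, by
    by_contra hn; exact ha (ext0_neg _ hn)⟩ : Dart P)) ?_ ?_ ?_ ?_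
  · intro a ha hne
    simp only [Finset.mem_filter, Finset.mem_univ, true_and] at ha ⊢
    rw [sig_same_iff] at ha
    rw [phi_same_iff]
    exact hsd.symm.trans ha
  · intro a _ _ b _ _ h
    have := congrArg Subtype.val h
    exact Subtype.ext this
  · intro e he hne
    simp only [Finset.mem_filter, Finset.mem_univ, true_and] at he
    rw [phi_same_iff] at he
    have hse : pE.SameCycle s.1 e.1 := hsd.trans he
    have hw : IsW e.1 := by
      obtain ⟨n, hn⟩ := hse.exists_nat_pow_eq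
      rw [← hn]
      exact IsW_pow _ s.2 n
    refine ⟨⟨e.1, hw⟩, ?_, ?_, rfl⟩
    · simp only [Finset.mem_filter, Finset.mem_univ, true_and]
      rw [sig_same_iff]
      exact hse
    · rw [ext0_pos _ e.2]
      exact hne
  · intro a _ hne
    have : IsDart a.1 := by
      by_contra hn; exact hne (ext0_neg _ hn)
    exact ext0_pos _ this

open Classical in
theorem feet_bot (A : Arb (theta P) (phi P)) (s : Wl P) :
    ∑ a ∈ Finset.univ.filter (fun a : Wl P => (sig P).SameCycle s a), ext0 A.ft a.1.r2 = 2 := by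
  obtain ⟨j, hj⟩ := exists_dart P s
  set d : Dart P := ⟨((pE ^ j) s.1).r2, hj⟩ with hd
  have hsd : pE.SameCycle s.1.r2 d.1 := r2_same P ⟨j, by simp⟩
  rw [← sum_ft A d]
  refine Finset.sum_bij_ne_zero (fun a _ ha => (⟨a.1.r2, by
    by_contra hn; exact ha (ext0_neg _ hn)⟩ : Dart P)) ?_ ?_ ?_ ?_
  · intro a ha hne
    simp only [Finset.mem_filter, Finset.mem_univ, true_and] at ha ⊢
    rw [sig_same_iff] at ha
    rw [phi_same_iff]
    exact hsd.symm.trans (r2_same P ha)
  · intro a _ _ b _ _ h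
    have := congrArg FSt.r2 (congrArg Subtype.val h)
    simp only [FSt.r2_r2] at this
    exact Subtype.ext this
  · intro e he hne
    simp only [Finset.mem_filter, Finset.mem_univ, true_and] at he
    rw [phi_same_iff] at he
    have hse : pE.SameCycle s.1 e.1.r2 := by
      rw [← r2_same_iff, FSt.r2_r2]
      exact hsd.trans he
    have hw : IsW e.1.r2 := by
      obtain ⟨n, hn⟩ := hse.exists_nat_pow_eq
      rw [← hn]
      exact IsW_pow _ s.2 n
    refine ⟨⟨e.1.r2, hw⟩, ?_, ?_, Subtype.ext (FSt.r2_r2 _)⟩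
    · simp only [Finset.mem_filter, Finset.mem_univ, true_and]
      rw [sig_same_iff]
      exact hse
    · have h1 : ext0 A.ft e.1.r2.r2 = A.ft e := by
        rw [FSt.r2_r2, ext0_pos _ e.2]
      show ext0 A.ft e.1.r2.r2 ≠ 0
      rw [h1]
      exact hne
  · intro a _ hne
    have : IsDart a.1.r2 := by
      by_contra hn; exact hne (ext0_neg _ hn)
    exact ext0_pos _ this

variable (P)

/-- sides, strips and bands connect everything -/
theorem conn_darts (hM : P.IsManifold) (hP : P.surfaceGraph.Connected) (ψ : Dart P → Prop)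
    (h1 : ∀ d, ψ (phi P d) ↔ ψ d) (h2 : ∀ d, ψ (theta P d) ↔ ψ d) (h3 : ∀ d, ψ (r2D P d) ↔ ψ d)
    (d d' : Dart P) : ψ d ↔ ψ d' := by
  classical
  have heta : ∀ d, ψ (rN P d) ↔ ψ d := by
    intro d
    rw [← h3]
    exact h2 d
  have hE : ∀ d d' : Dart P, pE.SameCycle d.1 d'.1 → (ψ d ↔ ψ d') :=
    fun d d' h => ret_const (π := pE) (p := IsDart) (ψ := ψ) h1 h
  have hN : ∀ d d' : Dart P, pN.SameCycle d.1 d'.1 → (ψ d ↔ ψ d') :=
    fun d d' h => ret_const (π := pN) (p := IsDart) (ψ := ψ) heta h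
  -- darts with the same facet
  have hsame : ∀ d d' : Dart P, d.1.facet = d'.1.facet → (ψ d ↔ ψ d') := by
    intro d d' h
    have key : ∀ e e' : Dir, e.1 = 0 → e'.1 = 0 → e = e' ∨ opp e = e' := by decide
    rcases key d.1.1.e d'.1.1.e d.2.2 d'.2.2 with he | he
    · rw [Subtype.ext (eq_of_facet_e h he)]
    · rw [← h3 d, Subtype.ext (eq_of_facet_e (s := (r2D P d).1) (t := d'.1) h he)]
  -- the extension to all facets
  let A : P.Facet → Prop := fun f => ∃ (s : P.FSt) (d : Dart P), s.facet = f ∧ IsW s ∧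
    pE.SameCycle s d.1 ∧ ψ d
  let B : P.Facet → Prop := fun f => ∃ (s : P.FSt) (d : Dart P), s.facet = f ∧
    s.1.e = (0, true) ∧ pN.SameCycle s d.1 ∧ ψ d
  have hA : ∀ d : Dart P, A d.1.facet ↔ ψ d := by
    intro d
    constructor
    · rintro ⟨s, d', a1, a2, a3, a4⟩
      have a5 : IsDart s := by
        apply IsW_dart a2
        have a6 : s.1.d = d.1.1.d := congrArg (fun f : P.Facet => f.1.2) a1
        rw [a6]; exact d.2.1
      rw [← hsame ⟨s, a5⟩ d a1]
      exact (hE ⟨s, a5⟩ d' a3).2 a4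
    · intro h
      rcases dart_cases P d with ⟨a1, -⟩ | ⟨-, a1⟩
      · exact ⟨d.1, d, rfl, a1, Equiv.Perm.SameCycle.refl _ _, h⟩
      · exact ⟨d.1.r2, r2D P d, rfl, a1, Equiv.Perm.SameCycle.refl _ _, (h3 d).2 h⟩
  have hB : ∀ d : Dart P, B d.1.facet ↔ ψ d := by
    intro d
    constructor
    · rintro ⟨s, d', a1, a2, a3, a4⟩
      have a5 : IsDart s := by
        refine ⟨?_, by rw [a2]⟩
        have a6 : s.1.d = d.1.1.d := congrArg (fun f : P.Facet => f.1.2) a1
        rw [a6]; exact d.2.1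
      rw [← hsame ⟨s, a5⟩ d a1]
      exact (hN ⟨s, a5⟩ d' a3).2 a4
    · intro h
      have key : ∀ e : Dir, e.1 = 0 → e = (0, true) ∨ opp e = (0, true) := by decide
      rcases key _ d.2.2 with a1 | a1
      · exact ⟨d.1, d, rfl, a1, Equiv.Perm.SameCycle.refl _ _, h⟩
      · exact ⟨d.1.r2, r2D P d, rfl, a1, Equiv.Perm.SameCycle.refl _ _, (h3 d).2 h⟩
  let Ψ : P.Facet → Prop := fun f => if f.1.2.1 = 2 then B f else A f
  have hΨA : ∀ f : P.Facet, f.1.2.1 ≠ 2 → (Ψ f ↔ A f) := by
    intro f hf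
    show (if f.1.2.1 = 2 then B f else A f) ↔ A f
    rw [if_neg hf]
  have hΨB : ∀ f : P.Facet, f.1.2.1 ≠ 0 → (Ψ f ↔ B f) := by
    intro f hf
    show (if f.1.2.1 = 2 then B f else A f) ↔ B f
    split_ifs with h2
    · rfl
    · have h1 : f.1.2.1 = 1 := by
        have : ∀ a : Fin 3, a ≠ 0 → a ≠ 2 → a = 1 := by decide
        exact this _ hf h2
      have h4 : IsDart (can f) := isDart_can h1
      have h5 := hA ⟨can f, h4⟩
      have h6 := hB ⟨can f, h4⟩
      have h7 : (can f).facet = f := can_facet f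
      rw [show (⟨can f, h4⟩ : Dart P).1.facet = f from h7] at h5 h6
      rw [h5, h6]
  have step1 : ∀ s : P.FSt, s.1.n = (2, true) → (Ψ s.facet ↔ Ψ s.stE.facet) := by
    intro s hs
    have k1 : s.facet.1.2.1 ≠ 2 := by
      have : s.1.d.1 = 0 ∨ s.1.d.1 = 1 := IsW_axis (s := s) hs
      show s.1.d.1 ≠ 2
      rcases this with h | h <;> rw [h] <;> decide
    have hs' : IsW s.stE := (IsW_stE s).2 hs
    have k2 : s.stE.facet.1.2.1 ≠ 2 := by
      have : s.stE.1.d.1 = 0 ∨ s.stE.1.d.1 = 1 := IsW_axis hs'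
      show s.stE.1.d.1 ≠ 2
      rcases this with h | h <;> rw [h] <;> decide
    rw [hΨA _ k1, hΨA _ k2]
    constructor
    · rintro ⟨t, d, a1, a2, a3, a4⟩
      have a5 : t = s := eq_of_facet_n a1 (a2.trans hs.symm)
      subst a5
      refine ⟨t.stE, d, rfl, hs', ?_, a4⟩
      rw [← pE_apply, Equiv.Perm.sameCycle_apply_left]; exact a3
    · rintro ⟨t, d, a1, a2, a3, a4⟩
      have a5 : t = s.stE := eq_of_facet_n a1 (a2.trans hs'.symm)
      subst a5
      refine ⟨s, d, rfl, hs, ?_, a4⟩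
      rw [← pE_apply, Equiv.Perm.sameCycle_apply_left] at a3; exact a3
  have step2 : ∀ s : P.FSt, s.1.e = (0, true) → (Ψ s.facet ↔ Ψ s.stN.facet) := by
    intro s hs
    have hs' : s.stN.1.e = (0, true) := by rw [FSt.stN_e, hs]
    have k1 : s.facet.1.2.1 ≠ 0 := by
      have := s.2.2
      rw [hs] at this; exact this
    have k2 : s.stN.facet.1.2.1 ≠ 0 := by
      have := s.stN.2.2
      rw [hs'] at this; exact this
    rw [hΨB _ k1, hΨB _ k2]
    constructor
    · rintro ⟨t, d, a1, a2, a3, a4⟩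
      have a5 : t = s := eq_of_facet_e a1 (a2.trans hs.symm)
      subst a5
      refine ⟨t.stN, d, rfl, hs', ?_, a4⟩
      rw [← pN_apply, Equiv.Perm.sameCycle_apply_left]; exact a3
    · rintro ⟨t, d, a1, a2, a3, a4⟩
      have a5 : t = s.stN := eq_of_facet_e a1 (a2.trans hs'.symm)
      subst a5
      refine ⟨s, d, rfl, hs, ?_, a4⟩
      rw [← pN_apply, Equiv.Perm.sameCycle_apply_left] at a3; exact a3
  have flip : ∀ s : P.FSt, (Ψ s.stE.r2.facet ↔ Ψ s.stE.r2.stE.facet) →
      (Ψ s.facet ↔ Ψ s.stE.facet) := by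
    intro s hs
    rw [FSt.stE_inv, FSt.facet_r2, FSt.facet_r2] at hs
    exact hs.symm
  have stepx : ∀ s : P.FSt, s.1.n = (0, false) → (Ψ s.facet ↔ Ψ s.stE.facet) := by
    intro s hs
    have k1 := step2 s.rR (by
      show opp (cross s.1.d s.1.e) = (0, true)
      have : cross s.1.d s.1.e = (0, false) := hs
      rw [this]; rfl)
    have k2 : s.rR.stN = s.stE.rR := by
      show s.rR.rL.stE.rR = _
      rw [FSt.rR_rL]
    rw [k2] at k1
    exact k1
  have main : ∀ s : P.FSt, s.1.n.1 ≠ 1 → (Ψ s.facet ↔ Ψ s.stE.facet) := by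
    intro s hs
    have hn2 : s.stE.r2.1.n = opp s.1.n := by
      rw [Geo.r2_n, Geo.stE_n]
    have hcase : s.1.n = (2, true) ∨ s.1.n = (2, false) ∨ s.1.n = (0, true) ∨
        s.1.n = (0, false) := by
      have : ∀ w : Dir, w.1 ≠ 1 → w = (2, true) ∨ w = (2, false) ∨ w = (0, true) ∨
        w = (0, false) := by decide
      exact this _ hs
    rcases hcase with k | k | k | k
    · exact step1 s k
    · exact flip s (step1 _ (by rw [hn2, k]; rfl))
    · exact flip s (stepx _ (by rw [hn2, k]; rfl))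
    · exact stepx s k
  have hd : ∀ d : Dart P, ψ d ↔ Ψ d.1.facet := by
    intro d
    have k1 : d.1.facet.1.2.1 ≠ 2 := by
      show d.1.1.d.1 ≠ 2
      rw [d.2.1]; decide
    rw [hΨA _ k1, hA d]
  rw [hd d, hd d']
  exact Geo.facet_const hM hP Ψ main _ _

end Pool.Agent.MP42
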