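import Mathlib

/-!
The arborescence lemma.  `D` is the finite type of darts, `θ` the fixed point free involution that
changes the side of a strip, `φ` goes to the next side along the same face.  The orbits of
`ν = θ ∘ φ` are the leaves; all of them have at most three elements.  Then the faces can be
inserted one after the other, each one at a leaf of its own.
-/

namespace Pool.Agent.MP42

namespace Arbor

variable {D : Type*} (θ φ : Equiv.Perm D)

/-- the rotation around a leaf -/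
def nu (d : D) : D := θ (φ d)

/-- same component -/
def comp (d e : D) : Prop :=
  ∀ ψ : D → Prop, (∀ x, ψ (φ x) ↔ ψ x) → (∀ x, ψ (θ x) ↔ ψ x) → (ψ d ↔ ψ e)

/-- the component relation as a setoid -/
def compSetoid : Setoid D where
  r := comp θ φ
  iseqv :=
    { refl := fun _ _ _ _ => Iff.rfl
      symm := fun h ψ h1 h2 => (h ψ h1 h2).symm
      trans := fun h h' ψ h1 h2 => (h ψ h1 h2).trans (h' ψ h1 h2) }

/-- the root dart of a component -/
noncomputable def root (d : D) : D := (Quotient.mk (compSetoid θ φ) d).out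

variable {θ φ}

lemma comp_root (d : D) : comp θ φ (root θ φ d) d :=
  Quotient.exact (s := compSetoid θ φ) (Quotient.out_eq _)

lemma root_eq_of_comp {d e : D} (h : comp θ φ d e) : root θ φ d = root θ φ e := by
  unfold root
  rw [Quotient.sound (s := compSetoid θ φ) h]

lemma root_root (d : D) : root θ φ (root θ φ d) = root θ φ d :=
  root_eq_of_comp (comp_root d)

lemma comp_φ (d : D) : comp θ φ (φ d) d := fun _ h1 _ => h1 d

lemma comp_θ (d : D) : comp θ φ (θ d) d := fun _ _ h2 => h2 d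

lemma inv_sameCycle {ψ : D → Prop} (h : ∀ x, ψ (φ x) ↔ ψ x) {d e : D} (hs : φ.SameCycle d e) :
    ψ d ↔ ψ e := by
  obtain ⟨i, rfl⟩ := hs
  induction i using Int.induction_on with
  | zero => simp
  | succ i ih => rw [add_comm, zpow_add, zpow_one, Equiv.Perm.mul_apply, h]; exact ih
  | pred i ih =>
    have := h ((φ ^ (-(i : ℤ) - 1)) d)
    rw [← Equiv.Perm.mul_apply, ← zpow_one_add] at this
    rw [← this]
    have e : (1 : ℤ) + (-(i : ℤ) - 1) = -(i : ℤ) := by ring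
    rw [e]
    exact ih

lemma comp_of_sameCycle {d e : D} (hs : φ.SameCycle d e) : comp θ φ d e :=
  fun _ h1 _ => inv_sameCycle h1 hs

variable (θ φ)

/-- A solution on the union `K` of some faces. -/
structure Part (K S : Set D) (h : D → ℕ) : Prop where
  K_φ : ∀ d, φ d ∈ K ↔ d ∈ K
  root_mem : ∀ d, root θ φ d ∈ K
  root_mem' : ∀ d, θ (root θ φ d) ∈ K
  S_K : ∀ d ∈ S, d ∈ K
  S_par : ∀ d ∈ S, nu θ φ d ∈ K
  S_lt : ∀ d ∈ S, h (nu θ φ d) < h d
  S_1 : ∀ d ∈ S, nu θ φ d ∉ S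
  S_2 : ∀ d ∈ S, nu θ φ (nu θ φ d) ∉ S
  S_n1 : ∀ d ∈ S, nu θ φ d ≠ d
  S_n2 : ∀ d ∈ S, nu θ φ (nu θ φ d) ≠ d
  S_n3 : ∀ d ∈ S, nu θ φ (nu θ φ (nu θ φ d)) = d
  h_φ : ∀ d, h (φ d) = h d
  uniq : ∀ d ∈ S, ∀ e ∈ S, φ.SameCycle d e → d = e
  no_root : ∀ d ∈ S, ∀ e, ¬ φ.SameCycle d (root θ φ e) ∧ ¬ φ.SameCycle d (θ (root θ φ e))
  face : ∀ d ∈ K, (∃ s ∈ S, φ.SameCycle d s) ∨
    φ.SameCycle d (root θ φ d) ∨ φ.SameCycle d (θ (root θ φ d))

variable {θ φ}

lemma Part.h_same {K S : Set D} {h : D → ℕ} (p : Part θ φ K S h) {d e : D}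
    (hs : φ.SameCycle d e) : h d = h e :=
  ((inv_sameCycle (ψ := fun x => h x = h d) (fun x => by rw [p.h_φ]) hs).1 rfl).symm

lemma Part.K_same {K S : Set D} {h : D → ℕ} (p : Part θ φ K S h) {d e : D}
    (hs : φ.SameCycle d e) : d ∈ K ↔ e ∈ K :=
  inv_sameCycle (ψ := fun x => x ∈ K) p.K_φ hs

/-- There is a free site at the boundary of `K`. -/
lemma Part.exists_site [Finite D] (hθ : ∀ d, θ (θ d) = d)
    (hν : ∀ d, nu θ φ d = d ∨ nu θ φ (nu θ φ d) = d ∨ nu θ φ (nu θ φ (nu θ φ d)) = d)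
    {K S : Set D} {h : D → ℕ} (p : Part θ φ K S h) {d0 : D} (hd0 : d0 ∉ K) :
    ∃ d, d ∉ K ∧ nu θ φ d ∈ K ∧ nu θ φ (nu θ φ d) ≠ d ∧
      nu θ φ (nu θ φ (nu θ φ d)) = d ∧ nu θ φ d ∉ S ∧ nu θ φ (nu θ φ d) ∉ S := by
  by_contra hno
  push Not at hno
  -- boundary darts
  have hex : ∃ q, q ∉ K ∧ θ q ∈ K := by
    by_contra hq
    push Not at hq
    have hinv : ∀ x, θ x ∈ K ↔ x ∈ K := by
      intro x
      constructor
      · intro hx
        by_contra hx'
        exact hq x hx' hx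
      · intro hx
        by_contra hx'
        have := hq (θ x) hx'
        rw [hθ] at this
        exact this hx
    exact hd0 ((comp_root (θ := θ) (φ := φ) d0 (fun x => x ∈ K) p.K_φ hinv).1 (p.root_mem d0))
  obtain ⟨q0, hq0, hmin⟩ : ∃ q, (q ∉ K ∧ θ q ∈ K) ∧
      ∀ q', (q' ∉ K ∧ θ q' ∈ K) → h (θ q) ≤ h (θ q') := by
    obtain ⟨q1, hq1⟩ := hex
    classical
    let P : ℕ → Prop := fun n => ∃ q, (q ∉ K ∧ θ q ∈ K) ∧ h (θ q) = n
    have hP : ∃ n, P n := ⟨_, q1, hq1, rfl⟩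
    obtain ⟨q, hq, hqn⟩ := Nat.find_spec hP
    refine ⟨q, hq, ?_⟩
    intro q' hq'
    rw [hqn]
    exact Nat.find_min' hP ⟨q', hq', rfl⟩
  -- one step backwards
  have step : ∀ q, (q ∉ K ∧ θ q ∈ K ∧ h (θ q) = h (θ q0)) →
      (φ.symm q ∉ K ∧ θ (φ.symm q) ∈ K ∧ h (θ (φ.symm q)) = h (θ q0)) ∧
        φ (θ q) = θ (φ.symm q) := by
    rintro q ⟨hqK, hqK', hqh⟩
    set d := φ.symm q with hd
    have hφd : φ d = q := by rw [hd, Equiv.apply_symm_apply]
    have hdK : d ∉ K := by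
      rw [← p.K_φ, hφd]; exact hqK
    have hn1 : nu θ φ d = θ q := by unfold nu; rw [hφd]
    have hn1K : nu θ φ d ∈ K := by rw [hn1]; exact hqK'
    have hne1 : nu θ φ d ≠ d := by
      intro h'; rw [h'] at hn1K; exact hdK hn1K
    have hn2 : nu θ φ (nu θ φ d) = θ (φ (θ q)) := by rw [hn1]; rfl
    by_cases h2 : nu θ φ (nu θ φ d) = d
    · -- bivalent
      have e1 : φ (θ q) = θ d := by
        rw [hn2] at h2
        rw [← h2, hθ]
      refine ⟨⟨hdK, ?_, ?_⟩, e1⟩
      · rw [← e1, p.K_φ]; exact hqK'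
      · rw [← e1, p.h_φ]; exact hqh
    · -- trivalent
      have h3 : nu θ φ (nu θ φ (nu θ φ d)) = d := by
        rcases hν d with h' | h' | h'
        · exact absurd h' hne1
        · exact absurd h' h2
        · exact h'
      have e3 : φ (nu θ φ (nu θ φ d)) = θ d := by
        have : θ (φ (nu θ φ (nu θ φ d))) = d := h3
        rw [← this, hθ, this]
      exfalso
      by_cases hS1 : nu θ φ d ∈ S
      · have hlt := p.S_lt _ hS1
        have hK2 := p.S_par _ hS1
        have hb : θ d ∈ K := by rw [← e3, p.K_φ]; exact hK2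
        have := hmin d ⟨hdK, hb⟩
        rw [← e3, p.h_φ, ← hqh, ← hn1] at this
        omega
      · have hS2 := hno d hdK hn1K h2 h3 hS1
        have := p.S_par _ hS2
        rw [h3] at this
        exact hdK this
  -- all the way around
  have hall : ∀ n : ℕ, (φ.symm ^ n) q0 ∉ K ∧ θ ((φ.symm ^ n) q0) ∈ K ∧
      h (θ ((φ.symm ^ n) q0)) = h (θ q0) := by
    intro n
    induction n with
    | zero => exact ⟨hq0.1, hq0.2, rfl⟩
    | succ n ih =>
      rw [pow_succ', Equiv.Perm.mul_apply]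
      exact (step _ ih).1
  have hcyc : ∀ e, φ.SameCycle q0 e → e ∉ K ∧ φ (θ e) = θ (φ.symm e) := by
    intro e he
    have he' : Equiv.Perm.SameCycle (φ⁻¹ : Equiv.Perm D) q0 e := Equiv.Perm.sameCycle_inv.2 he
    obtain ⟨n, hn⟩ := he'.exists_nat_pow_eq
    have hn : (φ.symm ^ n) q0 = e := hn
    have := step _ (hall n)
    rw [hn] at this
    exact ⟨by have := (hall n).1; rwa [hn] at this, this.2⟩
  -- the component
  let ψ : D → Prop := fun x => φ.SameCycle q0 x ∨ φ.SameCycle q0 (θ x)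
  have h1 : ∀ x, ψ (φ x) ↔ ψ x := by
    intro x
    show (_ ∨ _) ↔ (_ ∨ _)
    rw [Equiv.Perm.sameCycle_apply_right]
    apply or_congr Iff.rfl
    constructor
    · intro he
      have he' : φ.SameCycle q0 (φ (θ (φ x))) := Equiv.Perm.sameCycle_apply_right.2 he
      have := (hcyc _ he').2
      rw [Equiv.symm_apply_apply, hθ] at this
      have h4 : θ (φ (θ (φ x))) = x := φ.injective this
      rw [← h4, hθ]
      exact he'
    · intro he
      have := (hcyc _ he).2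
      rw [hθ] at this
      rw [this, hθ]
      exact Equiv.Perm.sameCycle_inv.1 (Equiv.Perm.sameCycle_apply_right.2
        (Equiv.Perm.sameCycle_inv.2 he))
  have h2 : ∀ x, ψ (θ x) ↔ ψ x := by
    intro x
    show (_ ∨ _) ↔ (_ ∨ _)
    rw [hθ]
    exact or_comm
  have h3 : ψ (root θ φ q0) := (comp_root q0 ψ h1 h2).2 (Or.inl (Equiv.Perm.SameCycle.refl _ _))
  rcases h3 with h3 | h3
  · exact (hcyc _ h3).1 (p.root_mem q0)
  · exact (hcyc _ h3).1 (p.root_mem' q0)

open Classical in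
/-- Insert a face. -/
lemma Part.grow [Finite D] (hθ : ∀ d, θ (θ d) = d)
    (hν : ∀ d, nu θ φ d = d ∨ nu θ φ (nu θ φ d) = d ∨ nu θ φ (nu θ φ (nu θ φ d)) = d)
    {K S : Set D} {h : D → ℕ} (p : Part θ φ K S h) {d0 : D} (hd0 : d0 ∉ K) :
    ∃ (K' S' : Set D) (h' : D → ℕ), Part θ φ K' S' h' ∧ K ⊆ K' ∧ ∃ d, d ∈ K' ∧ d ∉ K := by
  obtain ⟨d, hdK, hpK, hn2, hn3, hS1, hS2⟩ := p.exists_site hθ hν hd0
  have hKF : ∀ e ∈ K, ¬ φ.SameCycle d e := by
    intro e he hs
    exact hdK ((p.K_same hs).2 he)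
  have hn1 : nu θ φ d ≠ d := fun h' => hdK (h' ▸ hpK)
  have hSd : d ∉ S := fun h' => hdK (p.S_K _ h')
  -- elements of `S` whose leaf contains `d`
  have hL1 : ∀ e ∈ S, nu θ φ e ≠ d := by
    intro e he h'
    have h3 := p.S_n3 e he
    rw [h'] at h3
    exact hS2 (h3 ▸ he)
  have hL2 : ∀ e ∈ S, nu θ φ (nu θ φ e) ≠ d := by
    intro e he h'
    have h3 := p.S_n3 e he
    rw [h'] at h3
    exact hS1 (h3 ▸ he)
  refine ⟨K ∪ {e | φ.SameCycle d e}, insert d S,
    fun e => if φ.SameCycle d e then h (nu θ φ d) + 1 else h e, ?_, Set.subset_union_left,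
    d, Or.inr (Equiv.Perm.SameCycle.refl _ _), hdK⟩
  constructor
  · intro x
    simp only [Set.mem_union, Set.mem_ofPred_eq, Equiv.Perm.sameCycle_apply_right, p.K_φ]
  · exact fun x => Or.inl (p.root_mem x)
  · exact fun x => Or.inl (p.root_mem' x)
  · rintro x (rfl | hx)
    · exact Or.inr (Equiv.Perm.SameCycle.refl _ _)
    · exact Or.inl (p.S_K x hx)
  · rintro x (rfl | hx)
    · exact Or.inl hpK
    · exact Or.inl (p.S_par x hx)
  · rintro x (rfl | hx)
    · rw [if_neg (hKF _ hpK), if_pos (Equiv.Perm.SameCycle.refl _ _)]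
      omega
    · rw [if_neg (hKF _ (p.S_par x hx)), if_neg (hKF _ (p.S_K x hx))]
      exact p.S_lt x hx
  · rintro x (rfl | hx)
    · rintro (h' | h')
      · exact hn1 h'
      · exact hS1 h'
    · rintro (h' | h')
      · exact hL1 x hx h'
      · exact p.S_1 x hx h'
  · rintro x (rfl | hx)
    · rintro (h' | h')
      · exact hn2 h'
      · exact hS2 h'
    · rintro (h' | h')
      · exact hL2 x hx h'
      · exact p.S_2 x hx h'
  · rintro x (rfl | hx)
    · exact hn1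
    · exact p.S_n1 x hx
  · rintro x (rfl | hx)
    · exact hn2
    · exact p.S_n2 x hx
  · rintro x (rfl | hx)
    · exact hn3
    · exact p.S_n3 x hx
  · intro x
    simp only [Equiv.Perm.sameCycle_apply_right, p.h_φ]
  · rintro x (rfl | hx) y (rfl | hy) hs
    · rfl
    · exact absurd hs (hKF _ (p.S_K y hy))
    · exact absurd hs.symm (hKF _ (p.S_K x hx))
    · exact p.uniq x hx y hy hs
  · rintro x (rfl | hx) e
    · exact ⟨hKF _ (p.root_mem e), hKF _ (p.root_mem' e)⟩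
    · exact p.no_root x hx e
  · rintro x (hx | hx)
    · rcases p.face x hx with ⟨s, hs, hs'⟩ | hs
      · exact Or.inl ⟨s, Or.inr hs, hs'⟩
      · exact Or.inr hs
    · exact Or.inl ⟨d, Or.inl rfl, hx.symm⟩

lemma Part.full [Finite D] (hθ : ∀ d, θ (θ d) = d)
    (hν : ∀ d, nu θ φ d = d ∨ nu θ φ (nu θ φ d) = d ∨ nu θ φ (nu θ φ (nu θ φ d)) = d) :
    ∀ (n : ℕ) (K S : Set D) (h : D → ℕ), Part θ φ K S h → (Kᶜ).ncard ≤ n →
      ∃ (S' : Set D) (h' : D → ℕ), Part θ φ Set.univ S' h' := by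
  intro n
  induction n with
  | zero =>
    intro K S h p hn
    have h0 : Kᶜ = ∅ := by
      rw [← Set.ncard_eq_zero (Set.toFinite _)]; omega
    have : K = Set.univ := Set.compl_empty_iff.1 h0
    subst this
    exact ⟨S, h, p⟩
  | succ n ih =>
    intro K S h p hn
    by_cases hK : K = Set.univ
    · subst hK; exact ⟨S, h, p⟩
    · obtain ⟨d0, hd0⟩ := (Set.ne_univ_iff_exists_notMem K).1 hK
      obtain ⟨K', S', h', p', hsub, d, hd, hd'⟩ := p.grow hθ hν hd0
      apply ih K' S' h' p'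
      have : (K'ᶜ).ncard < (Kᶜ).ncard := by
        apply Set.ncard_lt_ncard _ (Set.toFinite _)
        refine ⟨Set.compl_subset_compl.2 hsub, ?_⟩
        intro hsup
        exact hsup hd' hd
      omega

/-- The root faces alone. -/
lemma Part.start :
    Part θ φ {x | φ.SameCycle x (root θ φ x) ∨ φ.SameCycle x (θ (root θ φ x))} ∅
      (fun _ => 0) := by
  have hθr : ∀ d, root θ φ (θ (root θ φ d)) = root θ φ d := by
    intro d
    rw [root_eq_of_comp (comp_θ _), root_root]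
  constructor
  · intro d
    simp only [Set.mem_ofPred_eq, Equiv.Perm.sameCycle_apply_left, root_eq_of_comp (comp_φ d)]
  · intro d
    left
    rw [root_root]
  · intro d
    right
    rw [hθr]
  · simp
  · simp
  · simp
  · simp
  · simp
  · simp
  · simp
  · simp
  · simp
  · simp
  · simp
  · intro d hd
    exact Or.inr hd

end Arbor

open Arbor

/-- **The arborescence lemma.** -/
theorem arbor {D : Type*} [Finite D] (θ φ : Equiv.Perm D) (hθ : ∀ d, θ (θ d) = d)
    (hne : ∀ d, θ d ≠ d)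
    (hν : ∀ d, θ (φ d) = d ∨ θ (φ (θ (φ d))) = d ∨ θ (φ (θ (φ (θ (φ d))))) = d) :
    ∃ (S R : Set D) (h : D → ℕ),
      -- sites
      (∀ d ∈ S, θ (φ d) ∉ S ∧ θ (φ (θ (φ d))) ∉ S ∧ θ (φ d) ≠ d ∧ θ (φ (θ (φ d))) ≠ d ∧
        θ (φ (θ (φ (θ (φ d))))) = d ∧ h (θ (φ d)) < h d) ∧
      (∀ d, h (φ d) = h d) ∧
      -- every face has at most one site, and a face with a site has no root
      (∀ d ∈ S, ∀ e ∈ S, φ.SameCycle d e → d = e) ∧
      (∀ d ∈ S, ∀ r ∈ R, ¬ φ.SameCycle d r ∧ ¬ φ.SameCycle d (θ r)) ∧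
      -- every face has a site or a root
      (∀ d, (∃ s ∈ S, φ.SameCycle d s) ∨ ∃ r ∈ R, φ.SameCycle d r ∨ φ.SameCycle d (θ r)) ∧
      -- at most one root near every face
      (∀ r ∈ R, ∀ r' ∈ R, (φ.SameCycle r r' ∨ φ.SameCycle r (θ r') ∨ φ.SameCycle (θ r) r' ∨
        φ.SameCycle (θ r) (θ r')) → r = r') ∧
      (∀ r ∈ R, θ r ∉ R) ∧
      -- connection
      (∀ ψ : D → Prop, (∀ d, ψ (φ d) ↔ ψ d) → (∀ d ∈ S, ψ d ↔ ψ (θ (φ d))) →
        (∀ r ∈ R, ψ r ↔ ψ (θ r)) → ∀ d, ψ d ↔ ψ (θ d)) := by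
  obtain ⟨S, h, p⟩ := Part.full (θ := θ) (φ := φ) hθ hν _ _ _ _ Part.start le_rfl
  have hroot : ∀ r ∈ Set.range (root θ φ), root θ φ r = r := by
    rintro _ ⟨d, rfl⟩; exact root_root d
  have huniq : ∀ r ∈ Set.range (root θ φ), ∀ r' ∈ Set.range (root θ φ), comp θ φ r r' →
      r = r' := by
    intro r hr r' hr' hc
    rw [← hroot r hr, ← hroot r' hr', root_eq_of_comp hc]
  have htr : ∀ {a b c : D}, comp θ φ a b → comp θ φ b c → comp θ φ a c :=
    fun h1 h2 ψ k1 k2 => (h1 ψ k1 k2).trans (h2 ψ k1 k2)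
  have hsy : ∀ {a b : D}, comp θ φ a b → comp θ φ b a :=
    fun h1 ψ k1 k2 => (h1 ψ k1 k2).symm
  refine ⟨S, Set.range (root θ φ), h, ?_, p.h_φ, p.uniq, ?_, ?_, ?_, ?_, ?_⟩
  · intro d hd
    exact ⟨p.S_1 d hd, p.S_2 d hd, p.S_n1 d hd, p.S_n2 d hd, p.S_n3 d hd, p.S_lt d hd⟩
  · rintro d hd _ ⟨e, rfl⟩
    exact p.no_root d hd e
  · intro d
    rcases p.face d (Set.mem_univ d) with h' | h'
    · exact Or.inl h'
    · exact Or.inr ⟨_, ⟨d, rfl⟩, h'⟩
  · intro r hr r' hr' h'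
    apply huniq r hr r' hr'
    rcases h' with h' | h' | h' | h'
    · exact comp_of_sameCycle h'
    · exact htr (comp_of_sameCycle h') (comp_θ _)
    · exact htr (hsy (comp_θ _)) (comp_of_sameCycle h')
    · exact htr (hsy (comp_θ _)) (htr (comp_of_sameCycle h') (comp_θ _))
  · intro r hr hr'
    exact hne r (huniq _ hr' _ hr (comp_θ r))
  · intro ψ h1 h2 h3
    have key : ∀ n d, h d = n → (ψ d ↔ ψ (root θ φ d)) := by
      intro n
      induction n using Nat.strong_induction_on with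
      | _ n ih =>
        intro d hd
        rcases p.face d (Set.mem_univ d) with ⟨s, hs, hs'⟩ | h' | h'
        · rw [inv_sameCycle h1 hs', h2 s hs]
          have hlt := p.S_lt s hs
          rw [← p.h_same hs', hd] at hlt
          change ψ (nu θ φ s) ↔ _
          rw [ih _ hlt (nu θ φ s) rfl]
          have hc : comp θ φ (nu θ φ s) d :=
            htr (comp_θ _) (htr (comp_φ _) (hsy (comp_of_sameCycle hs')))
          rw [root_eq_of_comp hc]
        · exact inv_sameCycle h1 h'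
        · rw [inv_sameCycle h1 h']
          exact (h3 _ ⟨d, rfl⟩).symm
    intro d
    rw [key _ d rfl, key _ (θ d) rfl, root_eq_of_comp (comp_θ d)]

end Pool.Agent.MP42
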