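import Pool.Agent.MP42.Defs
import Pool.Agent.MP42.Arbor

/-!
# A2: existence of the arborescence

The combinatorial part is `arbor` in `Pool.Agent.MP42.Arbor`.  In every component (generated by `φ` and
`θ`) one strip `{r, θ r}` is the root strip; it gets one root lane if `r` and `θ r` are in the same face,
else two.
-/

set_option autoImplicit false

namespace Pool.Agent.MP42

theorem exists_arb {D : Type*} [Fintype D] (θ φ : Equiv.Perm D) (hθ : ∀ d, θ (θ d) = d)
    (hθ0 : ∀ d, θ d ≠ d)
    (h3 : ∀ d, nu θ φ d = d ∨ nu θ φ (nu θ φ d) = d ∨ nu θ φ (nu θ φ (nu θ φ d)) = d) :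
    Nonempty (Arb θ φ) := by
  classical
  obtain ⟨S, R, h, hS, hh, hSu, hSR, hface, hRu, hRθ, hconn⟩ := arbor θ φ hθ hθ0 h3
  -- root darts
  have hR0 : ∀ e, (e ∈ R ∨ θ e ∈ R) → ∃ r ∈ R, e = r ∨ e = θ r := by
    rintro e (he | he)
    · exact ⟨e, he, Or.inl rfl⟩
    · exact ⟨θ e, he, Or.inr (hθ e).symm⟩
  have hR1 : ∀ r ∈ R, (r ∈ R ∨ θ r ∈ R) := fun r hr => Or.inl hr
  have hR2 : ∀ r ∈ R, (θ r ∈ R ∨ θ (θ r) ∈ R) := fun r hr => Or.inr ((hθ r).symm ▸ hr)
  let rt : D → ℕ := fun e => if e ∈ R ∨ θ e ∈ R then (if φ.SameCycle e (θ e) then 1 else 2) else 0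
  have rt_zero : ∀ e, ¬ (e ∈ R ∨ θ e ∈ R) → rt e = 0 := fun e he => if_neg he
  have rt_one : ∀ e, (e ∈ R ∨ θ e ∈ R) → φ.SameCycle e (θ e) → rt e = 1 := by
    intro e he hs
    show (if _ then _ else _) = _
    rw [if_pos he, if_pos hs]
  have rt_two : ∀ e, (e ∈ R ∨ θ e ∈ R) → ¬ φ.SameCycle e (θ e) → rt e = 2 := by
    intro e he hs
    show (if _ then _ else _) = _
    rw [if_pos he, if_neg hs]
  have hsθ : ∀ e, φ.SameCycle (θ e) (θ (θ e)) ↔ φ.SameCycle e (θ e) := by
    intro e
    rw [hθ]
    exact ⟨fun h => h.symm, fun h => h.symm⟩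
  refine ⟨{ S := fun d => d ∈ S, rt := rt, h := h, S3 := ?_, S1 := ?_, hφ := hh, hS := ?_,
            rtθ := ?_, feet := ?_, conn := ?_ }⟩
  · intro d hd
    exact ⟨(hS d hd).2.2.1, (hS d hd).2.2.2.2.1⟩
  · intro d hd
    exact ⟨(hS d hd).1, (hS d hd).2.1⟩
  · intro d hd
    exact (hS d hd).2.2.2.2.2
  · intro d
    by_cases hd : d ∈ R ∨ θ d ∈ R
    · have hd' : θ d ∈ R ∨ θ (θ d) ∈ R := by rw [hθ]; exact hd.symm
      by_cases hs : φ.SameCycle d (θ d)
      · rw [rt_one _ hd hs, rt_one _ hd' ((hsθ d).2 hs)]
      · rw [rt_two _ hd hs, rt_two _ hd' (fun h' => hs ((hsθ d).1 h'))]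
    · have hd' : ¬ (θ d ∈ R ∨ θ (θ d) ∈ R) := by
        rw [hθ]; exact fun h' => hd h'.symm
      rw [rt_zero _ hd, rt_zero _ hd']
  · intro d
    have hmem : ∀ e, e ∈ Finset.univ.filter (fun e => φ.SameCycle d e) ↔ φ.SameCycle d e := by
      intro e; simp
    by_cases hs : ∃ s ∈ S, φ.SameCycle d s
    · obtain ⟨s, hs, hs'⟩ := hs
      have hno : ∀ e, φ.SameCycle d e → ¬ (e ∈ R ∨ θ e ∈ R) := by
        intro e he he'
        obtain ⟨r, hr, hr'⟩ := hR0 e he'
        have := hSR s hs r hr
        rcases hr' with rfl | rfl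
        · exact this.1 (hs'.symm.trans he)
        · exact this.2 (hs'.symm.trans he)
      rw [Finset.sum_eq_single s]
      · rw [if_pos hs, rt_zero _ (hno s hs')]
      · intro e he hne
        rw [hmem] at he
        have : e ∉ S := fun h' => hne (hSu s hs e h' (hs'.symm.trans he)).symm
        rw [if_neg this, rt_zero _ (hno e he), add_zero]
      · intro h'
        exact absurd ((hmem s).2 hs') h'
    · have hnS : ∀ e, φ.SameCycle d e → e ∉ S := fun e he h' => hs ⟨e, h', he⟩
      obtain ⟨r, hr, hr'⟩ := (hface d).resolve_left hs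
      -- all root darts of the face are `r` or `θ r`
      have hun : ∀ e, φ.SameCycle d e → (e ∈ R ∨ θ e ∈ R) → e = r ∨ e = θ r := by
        intro e he he'
        obtain ⟨r', hr1, hr2⟩ := hR0 e he'
        have : r = r' := by
          apply hRu r hr r' hr1
          rcases hr' with hr' | hr' <;> rcases hr2 with rfl | rfl
          · exact Or.inl (hr'.symm.trans he)
          · exact Or.inr (Or.inl (hr'.symm.trans he))
          · exact Or.inr (Or.inr (Or.inl (hr'.symm.trans he)))
          · exact Or.inr (Or.inr (Or.inr (hr'.symm.trans he)))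
        subst this
        exact hr2
      by_cases hsame : φ.SameCycle r (θ r)
      · have hd1 : φ.SameCycle d r := by
          rcases hr' with hr' | hr'
          · exact hr'
          · exact hr'.trans hsame.symm
        have hd2 : φ.SameCycle d (θ r) := hd1.trans hsame
        rw [Finset.sum_eq_add r (θ r) (hθ0 r).symm]
        · rw [if_neg (hnS r hd1), if_neg (hnS _ hd2), rt_one _ (hR1 r hr) hsame,
            rt_one _ (hR2 r hr) ((hsθ r).2 hsame)]
        · intro e he hne
          rw [hmem] at he
          rw [if_neg (hnS e he), rt_zero e, add_zero]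
          intro h'
          rcases hun e he h' with h'' | h''
          · exact hne.1 h''
          · exact hne.2 h''
        · intro h'; exact absurd ((hmem _).2 hd1) h'
        · intro h'; exact absurd ((hmem _).2 hd2) h'
      · rcases hr' with hr' | hr'
        · rw [Finset.sum_eq_single r]
          · rw [if_neg (hnS r hr'), rt_two _ (hR1 r hr) hsame]
          · intro e he hne
            rw [hmem] at he
            rw [if_neg (hnS e he), rt_zero e, add_zero]
            intro h'
            rcases hun e he h' with h'' | h''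
            · exact hne h''
            · subst h''
              exact hsame (hr'.symm.trans he)
          · intro h'
            exact absurd ((hmem _).2 hr') h'
        · rw [Finset.sum_eq_single (θ r)]
          · rw [if_neg (hnS _ hr'), rt_two _ (hR2 r hr) (fun h' => hsame ((hsθ r).1 h'))]
          · intro e he hne
            rw [hmem] at he
            rw [if_neg (hnS e he), rt_zero e, add_zero]
            intro h'
            rcases hun e he h' with h'' | h''
            · subst h''
              exact hsame (he.symm.trans hr')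
            · exact hne h''
          · intro h'
            exact absurd ((hmem _).2 hr') h'
  · intro ψ h1 h2 h3'
    apply hconn ψ h1
    · intro d hd
      exact h2 d hd
    · intro r hr
      apply h3'
      by_cases hs : φ.SameCycle r (θ r)
      · rw [rt_one _ (hR1 r hr) hs]; norm_num
      · rw [rt_two _ (hR1 r hr) hs]; norm_num

end Pool.Agent.MP42
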