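import Pool.Agent.MP42.A3y

/-!
# A3: choice of the parities, abstract connectivity (owner helper48)

Flags: beginning and end of the base strand of every side, feet, ports.  `exists_switch` gives `t` with
`vp e ↔ vp e'` for the two box feet `e`, `e'` of every face.  Then by induction on the rank
(children first) all values in a face are equal: at a gap corner `d` with child corner
`c = ν⁻¹ d`: `vb d ↔ va c` and (through the pass corner) `va d ↔ vb c`.  So child and parent have
the same value, `conn` and `conn_darts` finish.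
-/

set_option autoImplicit false
set_option linter.unusedSectionVars false

namespace Pool.Agent.MP42

open Pool.Agent.Helper55.UNF Pool.Agent.Helper55.UNF.GridSolid

theorem exists_parity {P : GridSolid} (hP : P.IsOrthogonalPolyhedron) (E : Data P) :
    ∃ (t : Wl P → Bool) (ht : ∀ s, t (sig P s) = t s), ∀ v : Vals (Dart P), v.Loc E.A →
      v.Across (E.withT t ht) → v.Const E.A := by
  classical
  -- bands
  let B := Quotient (Equiv.Perm.SameCycle.setoid (sig P))
  let cl : Wl P → B := fun s => Quotient.mk _ s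
  have hcl : ∀ s s', cl s = cl s' ↔ (sig P).SameCycle s s' := by
    intro s s'
    exact Quotient.eq (r := Equiv.Perm.SameCycle.setoid (sig P))
  have hout : ∀ b : B, cl b.out = b := fun b => Quotient.out_eq b
  -- numbering of the box feet
  have hf : ∀ z : B × Bool × Bool, ∃ e, E.A.IsEv e ∧ OnRim z.1.out z.2.1 (e.side (phi P)) ∧
      E.lab e = if z.2.2 then 1 else 0 := by
    intro z
    apply exists_foot
    split_ifs <;> omega
  choose f hf1 hf2 hf3 using hf
  have hfinj : Function.Injective f := by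
    rintro ⟨b, s, i⟩ ⟨b', s', i'⟩ h
    have h1 := hf2 (b, s, i)
    have h2 := hf2 (b', s', i')
    rw [h] at h1
    obtain ⟨h3, h4⟩ := onRim_unique h1 h2
    simp only at h3 h4
    have h5 : b = b' := by
      rw [← hout b, ← hout b']
      exact (hcl _ _).2 h3
    have h6 := hf3 (b, s, i)
    have h7 := hf3 (b', s', i')
    rw [h, h7] at h6
    have h8 : i = i' := by
      cases i <;> cases i' <;> simp_all
    rw [h4, h5, h8]
  have hfsurj' : ∀ e, E.A.IsEv e → ∀ (b : Wl P) (s : Bool), OnRim b s (e.side (phi P)) →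
      ∃ i, f (cl b, s, i) = e := by
    intro e he b s hr
    have h1 := lab_lt3 E he
    have h2 : (sig P).SameCycle b (cl b).out := (hcl _ _).1 (hout (cl b)).symm
    refine ⟨decide (E.lab e = 1), ?_⟩
    refine foot_unique E (cl b).out s (hf1 _) he (hf2 (cl b, s, decide (E.lab e = 1)))
      ((onRim_congr h2).1 hr) ?_
    rw [hf3]
    by_cases h3 : E.lab e = 1
    · simp [h3]
    · have h4 : E.lab e = 0 := by omega
      simp [h4]
  have hfsurj : ∀ e, E.A.IsEv e → ∃ z, f z = e := by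
    intro e he
    obtain ⟨b, s, hr⟩ := exists_rim (e.side (phi P))
    obtain ⟨i, hi⟩ := hfsurj' e he b s hr
    exact ⟨_, hi⟩
  obtain ⟨τ, hτ⟩ := Arb.exists_switch E.A (theta_theta P) (theta_ne P) f hfinj hf1 hfsurj
  let t : Wl P → Bool := fun s => !τ (cl s)
  have ht : ∀ s, t (sig P s) = t s := by
    intro s
    have h1 : cl (sig P s) = cl s :=
      (hcl _ _).2 (Equiv.Perm.sameCycle_apply_left.2 (Equiv.Perm.SameCycle.refl _ _))
    show (!τ (cl (sig P s))) = (!τ (cl s))
    rw [h1]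
  refine ⟨t, ht, fun v hv hac => ?_⟩
  have hac' : ∀ b i, v.vp (f (b, false, i)) ↔ v.vp (f (b, true, xor i (τ b))) := by
    intro b i
    obtain ⟨h1, h2⟩ := hf2 (b, false, i)
    obtain ⟨h1', h2'⟩ := hf2 (b, true, xor i (τ b))
    refine hac _ _ h1' (hf1 _) (hf1 _) ⟨h1, h1', h2.symm.trans h2'⟩ ?_
    have h3 : cl ⟨(Ev.side (phi P) (f (b, true, xor i (τ b)))).1, h1'⟩ = b := by
      exact ((hcl _ _).2 h2'.symm).trans (hout b)
    show (E.lab (f (b, true, xor i (τ b))) = E.lab (f (b, false, i)) ↔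
      (!τ (cl ⟨(Ev.side (phi P) (f (b, true, xor i (τ b)))).1, h1'⟩)) = true)
    rw [h3, hf3, hf3]
    cases τ b <;> cases i <;> simp
  have hsw := hτ v hv hac'
  -- all ports of a face have the same value
  have hp : ∀ e e', E.A.IsEv e → E.A.IsEv e' →
      (phi P).SameCycle (e.side (phi P)) (e'.side (phi P)) → (v.vp e ↔ v.vp e') := by
    intro e e' he he' hs
    obtain ⟨b, s, hr⟩ := exists_rim (e.side (phi P))
    obtain ⟨i, hi⟩ := hfsurj' e he b s hr
    obtain ⟨i', hi'⟩ := hfsurj' e' he' b s (onRim_phi_same hs hr)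
    rw [← hi, ← hi']
    have h1 := hsw (cl b) s
    cases i <;> cases i' <;> tauto
  obtain ⟨Q, Qφ, Qg, Qg', Qp, Qbox, Qgap⟩ := Arb.propagate E.A hv hp
  have Qsame : ∀ d d', (phi P).SameCycle d d' → (Q d ↔ Q d') := by
    intro d d' hd
    obtain ⟨n, hn⟩ := hd.exists_nat_pow_eq
    have key : ∀ n : ℕ, Q (((phi P) ^ n) d) ↔ Q d := by
      intro n
      induction n with
      | zero => simp
      | succ n ih => rw [pow_succ', Equiv.Perm.mul_apply, Qφ, ih]
    rw [← hn, key]
  -- lanes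
  have QS : ∀ d, E.A.S d → (Q d ↔ Q (nu (theta P) (phi P) d)) := by
    intro d hd
    have h1 : E.A.S ((nu (theta P) (phi P)).symm (nu (theta P) (phi P) d)) := by
      rw [Equiv.symm_apply_apply]; exact hd
    have h2 := hv.lane (nu (theta P) (phi P) d) ((E.A.lam_ne3 _).2 (Or.inr (Or.inl h1)))
    rw [Equiv.symm_apply_apply] at h2
    rw [← (Qbox d hd).1, ← h2]
    exact (Qgap _ h1).2
  have Qr : ∀ d, (1 ≤ E.A.rt d → (v.vr d false ↔ Q d)) ∧ (2 ≤ E.A.rt d → (v.vr d true ↔ Q d)) := by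
    intro d
    have h1 := E.A.rt_le_two3 d
    constructor
    · intro h2
      rw [← Qg d]
      have h3 : E.A.rt d = 1 ∨ E.A.rt d = 2 := by omega
      rcases h3 with h3 | h3
      · exact (hv.side1 d h3).1.symm
      · exact (hv.side2 d h3).1.symm
    · intro h2
      have h3 : E.A.rt d = 2 := by omega
      rw [← (hv.side2 d h3).2.1]
      exact Qp (.r d false) (by show 1 ≤ E.A.rt d; omega)
  have QR : ∀ d, 0 < E.A.rt d → (Q d ↔ Q (theta P d)) := by
    intro d hd
    have h1 := E.A.rt_le_two3 d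
    have h2 : E.A.rt d = 1 ∨ E.A.rt d = 2 := by omega
    have h3 := E.A.rtθ d
    rcases h2 with h2 | h2
    · rw [← (Qr d).1 hd, hv.root1 d h2]
      exact (Qr _).1 (by omega)
    · rw [← (Qr d).1 hd, hv.root2 d h2]
      exact (Qr _).2 (by omega)
  have Qθ : ∀ d, Q (theta P d) ↔ Q d := fun d => (E.A.conn Q Qφ QS QR d).symm
  -- through strands
  have Q2 : ∀ (b : B) (s : Bool) (d : Dart P), OnRim b.out s d →
      (Q d ↔ v.vp (f (b, s, false))) := by
    intro b s d hd
    rw [Qp _ (hf1 _)]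
    exact Qsame _ _ (phi_same_of_onRim hd (hf2 (b, s, false)))
  have Q3 : ∀ b : B, v.vp (f (b, false, false)) ↔ v.vp (f (b, true, false)) := by
    intro b
    have h1 := hac' b false
    have h2 := hsw b true
    cases hb : τ b
    · rw [hb] at h1
      exact h1
    · rw [hb] at h1
      exact h1.trans h2.symm
  have Qr2 : ∀ d, Q (r2D P d) ↔ Q d := by
    intro d
    rcases dart_cases P d with ⟨h1, -⟩ | ⟨-, h1⟩
    · have e1 : OnRim (cl ⟨d.1, h1⟩).out true d :=
        (onRim_congr ((hcl _ _).1 (hout (cl ⟨d.1, h1⟩)).symm)).1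
          ⟨h1, Equiv.Perm.SameCycle.refl _ _⟩
      have h2 : IsW (r2D P d).1.r2 := by
        show IsW d.1.r2.r2
        rw [FSt.r2_r2]; exact h1
      have h3 : (⟨(r2D P d).1.r2, h2⟩ : Wl P) = ⟨d.1, h1⟩ := Subtype.ext (FSt.r2_r2 _)
      have e2 : OnRim (cl ⟨d.1, h1⟩).out false (r2D P d) := by
        refine (onRim_congr ((hcl _ _).1 (hout (cl ⟨d.1, h1⟩)).symm)).1 ⟨h2, ?_⟩
        rw [h3]
      rw [Q2 _ _ _ e1, Q2 _ _ _ e2]
      exact Q3 _
    · have e1 : OnRim (cl ⟨d.1.r2, h1⟩).out false d :=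
        (onRim_congr ((hcl _ _).1 (hout (cl ⟨d.1.r2, h1⟩)).symm)).1
          ⟨h1, Equiv.Perm.SameCycle.refl _ _⟩
      have e2 : OnRim (cl ⟨d.1.r2, h1⟩).out true (r2D P d) :=
        (onRim_congr ((hcl _ _).1 (hout (cl ⟨d.1.r2, h1⟩)).symm)).1
          ⟨h1, Equiv.Perm.SameCycle.refl _ _⟩
      rw [Q2 _ _ _ e1, Q2 _ _ _ e2]
      exact (Q3 _).symm
  have Qall : ∀ d d', Q d ↔ Q d' := conn_darts P hP.1 hP.2 Q Qφ Qθ Qr2
  refine ⟨∃ d, Q d, fun d => ?_⟩
  have hc : (∃ d', Q d') ↔ Q d := ⟨fun ⟨d', hd'⟩ => (Qall d' d).1 hd', fun h => ⟨d, h⟩⟩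
  rw [hc]
  have Qva : ∀ c, E.A.S c ∨ E.A.S ((nu (theta P) (phi P)).symm c) →
      ((v.va c ↔ Q d) ∧ (v.vb c ↔ Q d)) := by
    intro c hc'
    rw [Qall d c]
    rcases hc' with h | h
    · exact Qbox c h
    · exact Qgap c h
  have Qvb : ∀ c, E.A.act c → (v.vb c ↔ Q d) := by
    intro c hc'
    rcases hc' with h | h | h
    · exact (Qva c (Or.inl h)).2
    · exact (Qva c (Or.inr h)).2
    · rw [hv.lane c ((E.A.lam_ne3 c).2 (Or.inr (Or.inr h)))]
      refine (Qva _ (Or.inr ?_)).1
      have h3 : (nu (theta P) (phi P)).symm ((nu (theta P) (phi P)).symm c) =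
          nu (theta P) (phi P) c := by
        rw [Arb.symm_of_pass3 h, Equiv.symm_apply_apply]
      rw [h3]; exact h
  refine ⟨Qg d, Qg' d, fun h => Qvb d ((E.A.lam_ne3 d).1 h), fun h => ?_, fun h => (Qr d).1 h,
    fun h => (Qr d).2 h, fun e he => ?_⟩
  · have h1 : E.A.act d := Arb.act_nu_iff.1 ((E.A.lam_ne3 _).1 h)
    rcases h1 with h1 | h1 | h1
    · exact (Qva d (Or.inl h1)).1
    · exact (Qva d (Or.inr h1)).1
    · rw [← hv.pass d h1]
      exact Qvb d (Or.inr (Or.inr h1))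
  · rw [Qp e he]
    exact Qall _ _

end Pool.Agent.MP42
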