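import Pool.Agent.MP42.Vals
import Pool.Agent.Helper48.UNF.Switch

/-!
# A3, abstract part: flags, switch theorem, propagation of values
-/

set_option autoImplicit false
set_option linter.unusedSectionVars false

namespace Pool.Agent.MP42

open Pool.Agent.Helper55.UNF Pool.Agent.Helper48.UNF

section Abs

variable {D : Type*} [Fintype D] {θ φ : Equiv.Perm D} (A : Arb θ φ)

/-- nodes: the values of `Vals` -/
inductive Nd (D : Type*)
  | g (d : D)
  | g' (d : D)
  | vb (d : D)
  | va (d : D)
  | vr (d : D) (i : Bool)
  | vp (e : Ev D)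

/-- the value of `v` at a node -/
def Vals.val {D : Type*} (v : Vals D) : Nd D → Prop
  | .g d => v.g d
  | .g' d => v.g' d
  | .vb d => v.vb d
  | .va d => v.va d
  | .vr d i => v.vr d i
  | .vp e => v.vp e

/-- box corner, gap corner or pass corner -/
def Arb.act (d : D) : Prop := A.S d ∨ A.S ((nu θ φ).symm d) ∨ A.S (nu θ φ d)

lemma Arb.lam_ne3 (d : D) : A.lam d ≠ Ln.o ↔ A.act d := by
  classical
  unfold Arb.lam Arb.act
  by_cases h1 : A.S d ∨ A.S ((nu θ φ).symm d)
  · rw [if_pos h1]
    constructor
    · intro _; tauto
    · intro _; decide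
  · rw [if_neg h1]
    by_cases h2 : A.S (nu θ φ d)
    · rw [if_pos h2]
      constructor
      · intro _; tauto
      · intro _; decide
    · rw [if_neg h2]
      constructor
      · intro h; exact absurd rfl h
      · intro h; tauto

/-- the node exists -/
def Arb.nact : Nd D → Prop
  | .g _ => True
  | .g' _ => True
  | .vb d => A.act d
  | .va d => A.act d
  | .vr d false => 1 ≤ A.rt d
  | .vr d true => 2 ≤ A.rt d
  | .vp e => A.IsEv e

variable {A}

lemma Arb.nu_three3 {d : D} (h : A.S d) : nu θ φ (nu θ φ (nu θ φ d)) = d := (A.S3 d h).2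

/-- around a site -/
lemma Arb.symm_of_pass3 {d : D} (h : A.S (nu θ φ d)) :
    (nu θ φ).symm d = nu θ φ (nu θ φ d) := by
  rw [Equiv.symm_apply_eq]
  have := Arb.nu_three3 h
  exact ((nu θ φ).injective this).symm

lemma Arb.symm_of_box3 {d : D} (h : A.S d) : (nu θ φ).symm d = nu θ φ (nu θ φ d) := by
  rw [Equiv.symm_apply_eq]
  exact (Arb.nu_three3 h).symm

lemma Arb.nu2_of_gap {d : D} (h : A.S ((nu θ φ).symm d)) :
    nu θ φ (nu θ φ d) = (nu θ φ).symm d := by
  have := Arb.nu_three3 h
  simpa using this

lemma Arb.gap_not_box3 {d : D} (h : A.S ((nu θ φ).symm d)) : ¬ A.S d := by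
  have := (A.S1 _ h).1
  simpa using this

lemma Arb.gap_not_pass3 {d : D} (h : A.S ((nu θ φ).symm d)) : ¬ A.S (nu θ φ d) := by
  have := (A.S1 _ h).2
  simpa using this

lemma Arb.box_not_pass3 {d : D} (h : A.S d) : ¬ A.S (nu θ φ d) := (A.S1 _ h).1

lemma Arb.box_not_gap3 {d : D} (h : A.S d) : ¬ A.S ((nu θ φ).symm d) :=
  fun h' => Arb.gap_not_box3 h' h

lemma Arb.act_nu {d : D} (h : A.act d) : A.act (nu θ φ d) := by
  unfold Arb.act at h ⊢
  rcases h with h | h | h
  · right; left; rw [Equiv.symm_apply_apply]; exact h
  · right; right; rw [Arb.nu2_of_gap h]; exact h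
  · left; exact h

lemma Arb.act_nu_symm {d : D} (h : A.act d) : A.act ((nu θ φ).symm d) := by
  unfold Arb.act at h ⊢
  rcases h with h | h | h
  · right; right; rw [Equiv.apply_symm_apply]; exact h
  · left; exact h
  · right; left
    have h3 : (nu θ φ).symm ((nu θ φ).symm d) = nu θ φ d := by
      rw [Arb.symm_of_pass3 h, Equiv.symm_apply_apply]
    rw [h3]; exact h

lemma Arb.act_nu_iff {d : D} : A.act (nu θ φ d) ↔ A.act d := by
  constructor
  · intro h
    have := Arb.act_nu_symm h
    rw [Equiv.symm_apply_apply] at this
    exact this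
  · exact Arb.act_nu

variable (A)

/-- the other end of the link at a flag of a node (`false`: corner or row side, `true`: the side of
the lane or of the deep strand; for `g` the row, for `g'` the corner) -/
noncomputable def Arb.lk (opp : Ev D → Ev D) : Nd D × Bool → Nd D × Bool
  | (.g d, false) =>
    open Classical in
    if A.S (φ.symm d) then (.vp (.a (φ.symm d)), false)
    else if A.S ((nu θ φ).symm (φ.symm d)) then (.va (φ.symm d), false)
    else (.g' (φ.symm d), true)
  | (.g d, true) => if A.rt d = 0 then (.g' d, false) else (.vr d false, false)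
  | (.g' d, false) =>
    if A.rt d = 0 then (.g d, true) else if A.rt d = 1 then (.vp (.r d false), false)
    else (.vp (.r d true), false)
  | (.g' d, true) =>
    open Classical in
    if A.S d ∨ A.S ((nu θ φ).symm d) then (.vb d, false) else (.g (φ d), false)
  | (.vb d, false) =>
    open Classical in if A.S (nu θ φ d) then (.va d, false) else (.g' d, true)
  | (.vb d, true) => (.va ((nu θ φ).symm d), true)
  | (.va d, false) =>
    open Classical in
    if A.S d then (.vp (.b d), false) else if A.S ((nu θ φ).symm d) then (.g (φ d), false)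
    else (.vb d, false)
  | (.va d, true) => (.vb (nu θ φ d), true)
  | (.vr d false, false) => (.g d, true)
  | (.vr d true, false) => (.vp (.r d false), false)
  | (.vr d false, true) => if A.rt d = 1 then (.vr (θ d) false, true) else (.vr (θ d) true, true)
  | (.vr d true, true) => (.vr (θ d) false, true)
  | (.vp (.b d), false) => (.va d, false)
  | (.vp (.a d), false) => (.g (φ d), false)
  | (.vp (.r d false), false) => if A.rt d = 1 then (.g' d, false) else (.vr d true, false)
  | (.vp (.r d true), false) => (.g' d, false)
  | (.vp e, true) => (.vp (opp e), true)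

variable {A}
variable {opp : Ev D → Ev D}

lemma Arb.lk_vp_true (e : Ev D) : A.lk opp (.vp e, true) = (.vp (opp e), true) := by
  cases e with
  | b d => rfl
  | a d => rfl
  | r d i => cases i <;> rfl

lemma Arb.lk_act (hopp : ∀ e, A.IsEv e → A.IsEv (opp e) ∧ opp (opp e) = e ∧ opp e ≠ e)
    {x : Nd D × Bool} (hx : A.nact x.1) : A.nact (A.lk opp x).1 := by
  classical
  obtain ⟨n, b⟩ := x
  cases n with
  | g d =>
    cases b with
    | false =>
      simp only [Arb.lk]
      split_ifs with h1 h2
      · exact h1
      · exact Or.inr (Or.inl h2)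
      · trivial
    | true =>
      simp only [Arb.lk]
      split_ifs with h1
      · trivial
      · show 1 ≤ A.rt d; omega
  | g' d =>
    cases b with
    | false =>
      simp only [Arb.lk]
      split_ifs with h1 h2
      · trivial
      · show 1 ≤ A.rt d; omega
      · show 2 ≤ A.rt d; omega
    | true =>
      simp only [Arb.lk]
      split_ifs with h1
      · show A.act d
        unfold Arb.act; tauto
      · trivial
  | vb d =>
    have hx' : A.act d := hx
    cases b with
    | false =>
      simp only [Arb.lk]
      split_ifs with h1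
      · exact hx'
      · trivial
    | true => exact Arb.act_nu_symm hx'
  | va d =>
    have hx' : A.act d := hx
    cases b with
    | false =>
      simp only [Arb.lk]
      split_ifs with h1 h2
      · exact h1
      · trivial
      · exact hx'
    | true => exact Arb.act_nu hx'
  | vr d i =>
    cases i with
    | false =>
      have hx' : 1 ≤ A.rt d := hx
      cases b with
      | false => trivial
      | true =>
        simp only [Arb.lk]
        split_ifs with h1
        · show 1 ≤ A.rt (θ d)
          rw [A.rtθ]; exact hx'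
        · show 2 ≤ A.rt (θ d)
          rw [A.rtθ]; omega
    | true =>
      have hx' : 2 ≤ A.rt d := hx
      cases b with
      | false => show 1 ≤ A.rt d; omega
      | true =>
        show 1 ≤ A.rt (θ d)
        rw [A.rtθ]; omega
  | vp e =>
    have hx' : A.IsEv e := hx
    cases b with
    | true =>
      rw [Arb.lk_vp_true]
      exact (hopp e hx').1
    | false =>
      cases e with
      | b d => exact Or.inl hx'
      | a d => trivial
      | r d i =>
        cases i with
        | false =>
          have hx'' : 1 ≤ A.rt d := hx'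
          simp only [Arb.lk]
          split_ifs with h1
          · trivial
          · show 2 ≤ A.rt d; omega
        | true => trivial

lemma Arb.lk_lk (hθ : ∀ d, θ (θ d) = d)
    (hopp : ∀ e, A.IsEv e → A.IsEv (opp e) ∧ opp (opp e) = e ∧ opp e ≠ e)
    {x : Nd D × Bool} (hx : A.nact x.1) : A.lk opp (A.lk opp x) = x := by
  classical
  obtain ⟨n, b⟩ := x
  cases n with
  | g d =>
    cases b with
    | false =>
      by_cases h1 : A.S (φ.symm d)
      · simp [Arb.lk, h1]
      · by_cases h2 : A.S ((nu θ φ).symm (φ.symm d))
        · simp [Arb.lk, h1, h2]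
        · simp [Arb.lk, h1, h2]
    | true =>
      by_cases h1 : A.rt d = 0
      · simp [Arb.lk, h1]
      · simp [Arb.lk, h1]
  | g' d =>
    cases b with
    | false =>
      by_cases h1 : A.rt d = 0
      · simp [Arb.lk, h1]
      · by_cases h2 : A.rt d = 1
        · simp [Arb.lk, h2]
        · simp [Arb.lk, h1, h2]
    | true =>
      by_cases h1 : A.S d ∨ A.S ((nu θ φ).symm d)
      · have h2 : ¬ A.S (nu θ φ d) := by
          rcases h1 with h1 | h1
          · exact Arb.box_not_pass3 h1
          · exact Arb.gap_not_pass3 h1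
        have e1 : A.lk opp (Nd.g' d, true) = (.vb d, false) := by simp [Arb.lk, h1]
        have e2 : A.lk opp (Nd.vb d, false) = (.g' d, true) := by
          simp only [Arb.lk]; rw [if_neg h2]
        rw [e1, e2]
      · have e1 : A.lk opp (Nd.g' d, true) = (.g (φ d), false) := by simp [Arb.lk, h1]
        push Not at h1
        have e2 : A.lk opp (Nd.g (φ d), false) = (.g' d, true) := by
          simp [Arb.lk, h1.1, h1.2]
        rw [e1, e2]
  | vb d =>
    have hx' : A.act d := hx
    cases b with
    | false =>
      by_cases h1 : A.S (nu θ φ d)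
      · have h2 : ¬ A.S d := fun h => Arb.box_not_pass3 h h1
        have h3 : ¬ A.S ((nu θ φ).symm d) := fun h => Arb.gap_not_pass3 h h1
        have e1 : A.lk opp (Nd.vb d, false) = (.va d, false) := by
          simp only [Arb.lk]; rw [if_pos h1]
        have e2 : A.lk opp (Nd.va d, false) = (.vb d, false) := by
          simp only [Arb.lk]; rw [if_neg h2, if_neg h3]
        rw [e1, e2]
      · have h2 : A.S d ∨ A.S ((nu θ φ).symm d) := by
          unfold Arb.act at hx'; tauto
        have e1 : A.lk opp (Nd.vb d, false) = (.g' d, true) := by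
          simp only [Arb.lk]; rw [if_neg h1]
        have e2 : A.lk opp (Nd.g' d, true) = (.vb d, false) := by
          simp only [Arb.lk]; rw [if_pos h2]
        rw [e1, e2]
    | true =>
      have e1 : A.lk opp (Nd.vb d, true) = (.va ((nu θ φ).symm d), true) := rfl
      have e2 : A.lk opp (Nd.va ((nu θ φ).symm d), true) =
        (.vb (nu θ φ ((nu θ φ).symm d)), true) := rfl
      rw [e1, e2, Equiv.apply_symm_apply]
  | va d =>
    have hx' : A.act d := hx
    cases b with
    | false =>
      by_cases h1 : A.S d
      · have e1 : A.lk opp (Nd.va d, false) = (.vp (.b d), false) := by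
          simp only [Arb.lk]; rw [if_pos h1]
        rw [e1]; rfl
      · by_cases h2 : A.S ((nu θ φ).symm d)
        · have e1 : A.lk opp (Nd.va d, false) = (.g (φ d), false) := by
            simp only [Arb.lk]; rw [if_neg h1, if_pos h2]
          have e2 : A.lk opp (Nd.g (φ d), false) = (.va d, false) := by
            simp only [Arb.lk, Equiv.symm_apply_apply]; rw [if_neg h1, if_pos h2]
          rw [e1, e2]
        · have h3 : A.S (nu θ φ d) := by
            unfold Arb.act at hx'; tauto
          have e1 : A.lk opp (Nd.va d, false) = (.vb d, false) := by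
            simp only [Arb.lk]; rw [if_neg h1, if_neg h2]
          have e2 : A.lk opp (Nd.vb d, false) = (.va d, false) := by
            simp only [Arb.lk]; rw [if_pos h3]
          rw [e1, e2]
    | true =>
      have e1 : A.lk opp (Nd.va d, true) = (.vb (nu θ φ d), true) := rfl
      have e2 : A.lk opp (Nd.vb (nu θ φ d), true) =
        (.va ((nu θ φ).symm (nu θ φ d)), true) := rfl
      rw [e1, e2, Equiv.symm_apply_apply]
  | vr d i =>
    cases i with
    | false =>
      have hx' : 1 ≤ A.rt d := hx
      cases b with
      | false =>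
        have h1 : A.rt d ≠ 0 := by omega
        simp [Arb.lk, h1]
      | true =>
        by_cases h1 : A.rt d = 1
        · have h2 : A.rt (θ d) = 1 := by rw [A.rtθ]; exact h1
          simp [Arb.lk, h1, h2, hθ]
        · have e1 : A.lk opp (Nd.vr d false, true) = (.vr (θ d) true, true) := by
            simp only [Arb.lk]; rw [if_neg h1]
          have e2 : A.lk opp (Nd.vr (θ d) true, true) = (.vr (θ (θ d)) false, true) := rfl
          rw [e1, e2, hθ]
    | true =>
      have hx' : 2 ≤ A.rt d := hx
      cases b with
      | false =>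
        have h1 : A.rt d ≠ 1 := by omega
        simp [Arb.lk, h1]
      | true =>
        have h2 : A.rt (θ d) ≠ 1 := by rw [A.rtθ]; omega
        have e1 : A.lk opp (Nd.vr d true, true) = (.vr (θ d) false, true) := rfl
        have e2 : A.lk opp (Nd.vr (θ d) false, true) = (.vr (θ (θ d)) true, true) := by
          simp only [Arb.lk]; rw [if_neg h2]
        rw [e1, e2, hθ]
  | vp e =>
    have hx' : A.IsEv e := hx
    cases b with
    | true =>
      rw [Arb.lk_vp_true, Arb.lk_vp_true, (hopp e hx').2.1]
    | false =>
      cases e with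
      | b d =>
        have hx'' : A.S d := hx'
        simp [Arb.lk, hx'']
      | a d =>
        have hx'' : A.S d := hx'
        simp [Arb.lk, hx'']
      | r d i =>
        cases i with
        | false =>
          have hx'' : 1 ≤ A.rt d := hx'
          by_cases h1 : A.rt d = 1
          · simp [Arb.lk, h1]
          · simp [Arb.lk, h1]
        | true =>
          have hx'' : 2 ≤ A.rt d := hx'
          have h1 : A.rt d ≠ 0 := by omega
          have h2 : A.rt d ≠ 1 := by omega
          simp [Arb.lk, h1, h2]

lemma Arb.lk_ne (hθ0 : ∀ d, θ d ≠ d)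
    (hopp : ∀ e, A.IsEv e → A.IsEv (opp e) ∧ opp (opp e) = e ∧ opp e ≠ e)
    {x : Nd D × Bool} (hx : A.nact x.1) : A.lk opp x ≠ x := by
  classical
  obtain ⟨n, b⟩ := x
  cases n with
  | g d =>
    cases b with
    | false =>
      simp only [Arb.lk]
      split_ifs <;> simp
    | true =>
      simp only [Arb.lk]
      split_ifs <;> simp
  | g' d =>
    cases b with
    | false =>
      simp only [Arb.lk]
      split_ifs <;> simp
    | true =>
      simp only [Arb.lk]
      split_ifs <;> simp
  | vb d =>
    cases b with
    | false =>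
      simp only [Arb.lk]
      split_ifs <;> simp
    | true => simp [Arb.lk]
  | va d =>
    cases b with
    | false =>
      simp only [Arb.lk]
      split_ifs <;> simp
    | true => simp [Arb.lk]
  | vr d i =>
    cases i with
    | false =>
      cases b with
      | false => simp [Arb.lk]
      | true =>
        simp only [Arb.lk]
        split_ifs
        · simp [hθ0]
        · simp
    | true =>
      cases b with
      | false => simp [Arb.lk]
      | true => simp [Arb.lk]
  | vp e =>
    have hx' : A.IsEv e := hx
    cases b with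
    | true =>
      rw [Arb.lk_vp_true]
      intro h
      have h1 : Nd.vp (opp e) = Nd.vp e := congrArg Prod.fst h
      injection h1 with h2
      exact (hopp e hx').2.2 h2
    | false =>
      cases e with
      | b d => simp [Arb.lk]
      | a d => simp [Arb.lk]
      | r d i =>
        cases i with
        | false =>
          simp only [Arb.lk]
          split_ifs <;> simp
        | true => simp [Arb.lk]

variable (A) in
lemma Arb.rt_le_two3 (d : D) : A.rt d ≤ 2 := by
  classical
  rw [← A.feet d]
  have h1 : A.rt d ≤ (if A.S d then 2 else 0) + A.rt d := by omega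
  refine h1.trans ?_
  exact Finset.single_le_sum (f := fun e => (if A.S e then 2 else 0) + A.rt e)
    (fun _ _ => Nat.zero_le _) (by simp [Equiv.Perm.SameCycle.refl])

/-- The values of `v` do not change along links other than the through strands. -/
lemma Arb.val_lk (hθ : ∀ d, θ (θ d) = d) {v : Vals D} (hv : v.Loc A) {x : Nd D × Bool} (hx : A.nact x.1)
    (hx2 : ∀ e, x ≠ (.vp e, true)) : v.val x.1 ↔ v.val (A.lk opp x).1 := by
  classical
  obtain ⟨n, b⟩ := x
  cases n with
  | g d =>
    cases b with
    | false =>
      simp only [Arb.lk]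
      split_ifs with h1 h2
      · have := (hv.box _ h1).2.2
        rw [Equiv.apply_symm_apply] at this
        exact this.symm
      · have := (hv.gap _ h2).2
        rw [Equiv.apply_symm_apply] at this
        exact this.symm
      · have := hv.plain _ h1 h2
        rw [Equiv.apply_symm_apply] at this
        exact this.symm
    | true =>
      simp only [Arb.lk]
      split_ifs with h1
      · exact hv.side0 d h1
      · have h2 := A.rt_le_two3 d
        have h3 : A.rt d = 1 ∨ A.rt d = 2 := by omega
        rcases h3 with h3 | h3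
        · exact (hv.side1 d h3).1
        · exact (hv.side2 d h3).1
  | g' d =>
    cases b with
    | false =>
      simp only [Arb.lk]
      split_ifs with h1 h2
      · exact (hv.side0 d h1).symm
      · exact (hv.side1 d h2).2.symm
      · have h3 := A.rt_le_two3 d
        exact (hv.side2 d (by omega)).2.2.symm
    | true =>
      simp only [Arb.lk]
      split_ifs with h1
      · rcases h1 with h1 | h1
        · exact (hv.box d h1).1
        · exact (hv.gap d h1).1
      · push Not at h1
        exact hv.plain d h1.1 h1.2
  | vb d =>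
    have hx' : A.act d := hx
    cases b with
    | false =>
      simp only [Arb.lk]
      split_ifs with h1
      · exact hv.pass d h1
      · have h2 : A.S d ∨ A.S ((nu θ φ).symm d) := by
          unfold Arb.act at hx'; tauto
        rcases h2 with h2 | h2
        · exact (hv.box d h2).1.symm
        · exact (hv.gap d h2).1.symm
    | true => exact hv.lane d ((A.lam_ne3 d).2 hx')
  | va d =>
    have hx' : A.act d := hx
    cases b with
    | false =>
      simp only [Arb.lk]
      split_ifs with h1 h2
      · exact (hv.box d h1).2.1.symm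
      · exact (hv.gap d h2).2
      · have h3 : A.S (nu θ φ d) := by
          unfold Arb.act at hx'; tauto
        exact (hv.pass d h3).symm
    | true =>
      have := hv.lane (nu θ φ d) ((A.lam_ne3 _).2 (Arb.act_nu hx'))
      rw [Equiv.symm_apply_apply] at this
      exact this.symm
  | vr d i =>
    cases i with
    | false =>
      have hx' : 1 ≤ A.rt d := hx
      have h2 := A.rt_le_two3 d
      have h3 : A.rt d = 1 ∨ A.rt d = 2 := by omega
      cases b with
      | false =>
        rcases h3 with h3 | h3
        · exact (hv.side1 d h3).1.symm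
        · exact (hv.side2 d h3).1.symm
      | true =>
        simp only [Arb.lk]
        split_ifs with h1
        · exact hv.root1 d h1
        · exact hv.root2 d (by omega)
    | true =>
      have hx' : 2 ≤ A.rt d := hx
      have h2 := A.rt_le_two3 d
      have h3 : A.rt d = 2 := by omega
      cases b with
      | false => exact (hv.side2 d h3).2.1.symm
      | true =>
        show v.vr d true ↔ v.vr (θ d) false
        have h4 := hv.root2 (θ d) (by rw [A.rtθ]; exact h3)
        rw [hθ] at h4
        exact h4.symm
  | vp e =>
    cases b with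
    | true => exact absurd rfl (hx2 e)
    | false =>
      have hx' : A.IsEv e := hx
      cases e with
      | b d => exact (hv.box d hx').2.1
      | a d => exact (hv.box d hx').2.2
      | r d i =>
        cases i with
        | false =>
          have hx'' : 1 ≤ A.rt d := hx'
          simp only [Arb.lk]
          split_ifs with h1
          · exact (hv.side1 d h1).2
          · have h2 := A.rt_le_two3 d
            exact (hv.side2 d (by omega)).2.1
        | true =>
          have hx'' : 2 ≤ A.rt d := hx'
          have h2 := A.rt_le_two3 d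
          exact (hv.side2 d (by omega)).2.2

/-- **The switch.**  If the box feet are numbered by bands, rims and labels, then for suitable
parities the two deep ports of every rim have the same value. -/
theorem Arb.exists_switch {B : Type*} (A : Arb θ φ) (hθ : ∀ d, θ (θ d) = d)
    (hθ0 : ∀ d, θ d ≠ d) (f : B × Bool × Bool → Ev D) (hf : Function.Injective f)
    (hf1 : ∀ z, A.IsEv (f z)) (hf2 : ∀ e, A.IsEv e → ∃ z, f z = e) :
    ∃ t : B → Bool, ∀ v : Vals D, v.Loc A →
      (∀ b i, v.vp (f (b, false, i)) ↔ v.vp (f (b, true, xor i (t b)))) →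
      ∀ b s, v.vp (f (b, s, false)) ↔ v.vp (f (b, s, true)) := by
  classical
  -- the opposite port
  let opp : Ev D → Ev D := fun e =>
    if h : ∃ z, f z = e then f (h.choose.1, !h.choose.2.1, h.choose.2.2) else e
  have opp_f : ∀ b s i, opp (f (b, s, i)) = f (b, !s, i) := by
    intro b s i
    have h : ∃ z, f z = f (b, s, i) := ⟨_, rfl⟩
    have h1 := hf h.choose_spec
    show (if h : ∃ z, f z = f (b, s, i) then f (h.choose.1, !h.choose.2.1, h.choose.2.2)
      else f (b, s, i)) = _
    rw [dif_pos h]
    have h2 : h.choose.1 = b := by rw [h1]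
    have h3 : h.choose.2.1 = s := by rw [h1]
    have h4 : h.choose.2.2 = i := by rw [h1]
    rw [h2, h3, h4]
  have hopp : ∀ e, A.IsEv e → A.IsEv (opp e) ∧ opp (opp e) = e ∧ opp e ≠ e := by
    intro e he
    obtain ⟨⟨b, s, i⟩, rfl⟩ := hf2 e he
    rw [opp_f, opp_f]
    refine ⟨hf1 _, by simp, fun h => ?_⟩
    have h1 := congrArg (fun z : B × Bool × Bool => z.2.1) (hf h)
    revert h1
    cases s <;> simp
  let X := {x : Nd D × Bool // A.nact x.1}
  have hnd : Finite (Nd D) := by
    let F : Nd D → (Fin 6 × D) × (Fin 3 × Bool) := fun n => match n with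
      | .g d => ((0, d), (0, false))
      | .g' d => ((1, d), (0, false))
      | .vb d => ((2, d), (0, false))
      | .va d => ((3, d), (0, false))
      | .vr d i => ((4, d), (0, i))
      | .vp (.b d) => ((5, d), (0, false))
      | .vp (.a d) => ((5, d), (1, false))
      | .vp (.r d i) => ((5, d), (2, i))
    refine Finite.of_injective F ?_
    intro x y h
    rcases x with d | d | d | d | ⟨d, i⟩ | (d | d | ⟨d, i⟩) <;>
      rcases y with d' | d' | d' | d' | ⟨d', i'⟩ | (d' | d' | ⟨d', i'⟩) <;>
      simp_all [F]
  let m : X → X := fun x => ⟨(x.1.1, !x.1.2), x.2⟩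
  let p : X → X := fun x => ⟨A.lk opp x.1, Arb.lk_act hopp x.2⟩
  have hm : ∀ x, m (m x) = x := fun x => Subtype.ext (by simp [m])
  have hm0 : ∀ x, m x ≠ x := by
    intro x h
    have h1 := congrArg (fun y : X => y.1.2) h
    simp [m] at h1
  have hp : ∀ x, p (p x) = x := fun x => Subtype.ext (Arb.lk_lk hθ hopp x.2)
  have hp0 : ∀ x, p x ≠ x := fun x h => Arb.lk_ne hθ0 hopp x.2 (congrArg Subtype.val h)
  let q : B × Bool × Bool → X := fun z => ⟨(.vp (f z), true), hf1 z⟩
  have hq : Function.Injective q := by
    intro z z' h
    have h1 : Nd.vp (f z) = Nd.vp (f z') := congrArg (fun y : X => y.1.1) h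
    injection h1 with h2
    exact hf h2
  have hpq : ∀ b s i, p (q (b, s, i)) = q (b, !s, i) := by
    intro b s i
    apply Subtype.ext
    show A.lk opp (.vp (f (b, s, i)), true) = (.vp (f (b, !s, i)), true)
    rw [Arb.lk_vp_true, opp_f]
  have hX : Finite X := inferInstanceAs (Finite {x : Nd D × Bool // A.nact x.1})
  have hB : Finite B := Finite.of_injective (fun b => q (b, false, false)) (fun b b' h => by
    have h1 := hq h
    exact congrArg Prod.fst h1)
  obtain ⟨t, ht⟩ := Pool.Agent.Helper48.UNF.exists_switch hm hm0 hp hp0 hq hpq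
  refine ⟨t, fun v hv hac b s => ?_⟩
  refine ht (fun x => v.val x.1.1) ?_ ?_ ?_ b s
  · intro x; exact Iff.rfl
  · intro x hx
    refine Arb.val_lk hθ hv x.2 ?_
    intro e he
    obtain ⟨⟨b, s, i⟩, hz⟩ := hf2 e (by
      have := x.2
      rw [he] at this
      exact this)
    apply hx b s i
    apply Subtype.ext
    show (Nd.vp (f (b, s, i)), true) = x.1
    rw [he, hz]
  · intro b i
    exact hac b i

/-- **Propagation.**  If all deep ports of a face have the same value, then all values of a face
are equal. -/
theorem Arb.propagate (A : Arb θ φ) {v : Vals D} (hv : v.Loc A)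
    (hp : ∀ e e', A.IsEv e → A.IsEv e' → φ.SameCycle (e.side φ) (e'.side φ) → (v.vp e ↔ v.vp e')) :
    ∃ Q : D → Prop, (∀ d, Q (φ d) ↔ Q d) ∧ (∀ d, v.g d ↔ Q d) ∧ (∀ d, v.g' d ↔ Q d) ∧
      (∀ e, A.IsEv e → (v.vp e ↔ Q (e.side φ))) ∧
      (∀ d, A.S d → (v.va d ↔ Q d) ∧ (v.vb d ↔ Q d)) ∧
      (∀ d, A.S ((nu θ φ).symm d) → (v.va d ↔ Q d) ∧ (v.vb d ↔ Q d)) := by
  classical
  let Q : D → Prop := fun d => ∃ e, A.IsEv e ∧ φ.SameCycle (e.side φ) d ∧ v.vp e
  have hQe : ∀ e d, A.IsEv e → φ.SameCycle (e.side φ) d → (v.vp e ↔ Q d) := by
    intro e d he hd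
    constructor
    · intro h; exact ⟨e, he, hd, h⟩
    · rintro ⟨e', he', hd', h⟩
      exact (hp e' e he' he (hd'.trans hd.symm)).1 h
  have hQφ : ∀ d, Q (φ d) ↔ Q d := by
    intro d
    constructor
    · rintro ⟨e, he, hd, h⟩
      exact ⟨e, he, Equiv.Perm.sameCycle_apply_right.1 hd, h⟩
    · rintro ⟨e, he, hd, h⟩
      exact ⟨e, he, Equiv.Perm.sameCycle_apply_right.2 hd, h⟩
  have hQsame : ∀ d d', φ.SameCycle d d' → (Q d ↔ Q d') := by
    intro d d' hd
    constructor
    · rintro ⟨e, he, h1, h⟩
      exact ⟨e, he, h1.trans hd, h⟩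
    · rintro ⟨e, he, h1, h⟩
      exact ⟨e, he, h1.trans hd.symm, h⟩
  have hself : ∀ d, φ.SameCycle d d := Equiv.Perm.SameCycle.refl φ
  have hside_a : ∀ d, φ.SameCycle ((Ev.a d).side φ) d := fun d =>
    Equiv.Perm.sameCycle_apply_left.2 (hself d)
  have hhφ : ∀ d d', φ.SameCycle d d' → A.h d = A.h d' := by
    intro d d' hd
    obtain ⟨n, -, hn⟩ := hd.exists_pow_eq'
    have : ∀ m : ℕ, A.h ((φ ^ m) d) = A.h d := by
      intro m
      induction m with
      | zero => rfl
      | succ m ih => rw [pow_succ', Equiv.Perm.mul_apply, A.hφ, ih]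
    rw [← hn, this]
  -- every face has a box foot
  have hfoot : ∀ d, ∃ e, A.IsEv e ∧ φ.SameCycle (e.side φ) d := by
    intro d
    have h1 := A.feet d
    have h2 : ∃ c ∈ Finset.univ.filter (fun e => φ.SameCycle d e),
        ((if A.S c then 2 else 0) + A.rt c) ≠ 0 := by
      by_contra hcon
      push Not at hcon
      rw [Finset.sum_eq_zero hcon] at h1
      omega
    obtain ⟨c, hc, hne⟩ := h2
    have hc' : φ.SameCycle d c := by simpa using hc
    by_cases hS : A.S c
    · exact ⟨.b c, hS, hc'.symm⟩
    · rw [if_neg hS] at hne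
      exact ⟨.r c false, by show 1 ≤ A.rt c; omega, hc'.symm⟩
  -- induction on the rank, children first
  have main : ∀ d, (v.g d ↔ Q d) ∧ (v.g' d ↔ Q d) := by
    let Rl : D → D → Prop := fun x y => A.h y < A.h x
    have hwf : WellFounded Rl := by
      have : IsTrans D Rl := ⟨fun a b c (h1 : A.h b < A.h a) (h2 : A.h c < A.h b) =>
        lt_trans h2 h1⟩
      have : Std.Irrefl Rl := ⟨fun a => lt_irrefl _⟩
      exact Finite.wellFounded_of_trans_of_irrefl Rl
    intro d
    induction d using hwf.induction with
    | _ d ih =>
      -- gaps in this face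
      have hgap : ∀ c, φ.SameCycle d c → A.S ((nu θ φ).symm c) → (v.vb c ↔ v.va c) := by
        intro c hc hS
        set k := (nu θ φ).symm c with hk
        have hck : nu θ φ k = c := by rw [hk, Equiv.apply_symm_apply]
        have hlt : A.h d < A.h k := by
          rw [hhφ d c hc, ← hck]
          exact A.hS k hS
        have h1 : v.vb c ↔ v.va k := hv.lane c ((A.lam_ne3 c).2 (Or.inr (Or.inl hS)))
        have h2 : v.vb k ↔ v.va ((nu θ φ).symm k) := hv.lane k ((A.lam_ne3 k).2 (Or.inl hS))
        have h3 : v.vb ((nu θ φ).symm k) ↔ v.va ((nu θ φ).symm k) :=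
          hv.pass _ (by rw [Equiv.apply_symm_apply]; exact hS)
        have h4 : v.vb ((nu θ φ).symm k) ↔ v.va c := by
          have h5 : (nu θ φ).symm ((nu θ φ).symm k) = c := by
            have h6 := Arb.symm_of_box3 hS
            rw [h6, Equiv.symm_apply_apply, hck]
          have h7 := hv.lane ((nu θ φ).symm k) ((A.lam_ne3 _).2
            (Or.inr (Or.inr (by rw [Equiv.apply_symm_apply]; exact hS))))
          rw [h5] at h7
          exact h7
        have h8 : v.va k ↔ Q k := by
          rw [← (hv.box k hS).2.1]
          exact hQe (.b k) k hS (hself k)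
        have h9 : v.vb k ↔ Q k := by
          rw [← (hv.box k hS).1]
          exact (ih k hlt).2
        rw [h1, h8, ← h9, h2, ← h3, h4]
      have hA : ∀ c, φ.SameCycle d c → (v.g c ↔ Q c) → (v.g' c ↔ Q c) := by
        intro c hc hg
        have h2 := A.rt_le_two3 c
        have h3 : A.rt c = 0 ∨ A.rt c = 1 ∨ A.rt c = 2 := by omega
        rcases h3 with h3 | h3 | h3
        · rw [← hv.side0 c h3]; exact hg
        · rw [← (hv.side1 c h3).2]
          exact hQe (.r c false) c (by show 1 ≤ A.rt c; omega) (hself c)
        · rw [← (hv.side2 c h3).2.2]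
          exact hQe (.r c true) c (by show 2 ≤ A.rt c; omega) (hself c)
      have hB : ∀ c, φ.SameCycle d c → (v.g' c ↔ Q c) → (v.g (φ c) ↔ Q (φ c)) := by
        intro c hc hg
        rw [hQφ]
        by_cases h1 : A.S c
        · rw [← (hv.box c h1).2.2]
          exact hQe (.a c) c h1 (hside_a c)
        · by_cases h2 : A.S ((nu θ φ).symm c)
          · rw [← (hv.gap c h2).2, ← hgap c hc h2, ← (hv.gap c h2).1]
            exact hg
          · rw [← hv.plain c h1 h2]
            exact hg
      -- a start
      obtain ⟨e, he, hed⟩ := hfoot d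
      have hstart : ∃ c, φ.SameCycle d c ∧ (v.g c ↔ Q c) := by
        cases e with
        | b c =>
          have hc : φ.SameCycle d c := hed.symm
          refine ⟨φ c, Equiv.Perm.sameCycle_apply_right.2 hc, ?_⟩
          rw [hQφ, ← (hv.box c he).2.2]
          exact hQe (.a c) c he (hside_a c)
        | a c =>
          have hc : φ.SameCycle d c := (Equiv.Perm.sameCycle_apply_left.1 hed).symm
          refine ⟨φ c, Equiv.Perm.sameCycle_apply_right.2 hc, ?_⟩
          rw [hQφ, ← (hv.box c he).2.2]
          exact hQe (.a c) c he (hside_a c)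
        | r c i =>
          have hc : φ.SameCycle d c := hed.symm
          have h1 : 1 ≤ A.rt c := by
            cases i with
            | false => exact he
            | true => have : 2 ≤ A.rt c := he; omega
          have h2 := A.rt_le_two3 c
          refine ⟨φ c, Equiv.Perm.sameCycle_apply_right.2 hc, ?_⟩
          apply hB c hc
          have h3 : A.rt c = 1 ∨ A.rt c = 2 := by omega
          rcases h3 with h3 | h3
          · rw [← (hv.side1 c h3).2]
            exact hQe (.r c false) c (by show 1 ≤ A.rt c; omega) (hself c)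
          · rw [← (hv.side2 c h3).2.2]
            exact hQe (.r c true) c (by show 2 ≤ A.rt c; omega) (hself c)
      obtain ⟨c, hc, hgc⟩ := hstart
      have hall : ∀ n : ℕ, φ.SameCycle d ((φ ^ n) c) ∧ (v.g ((φ ^ n) c) ↔ Q ((φ ^ n) c)) := by
        intro n
        induction n with
        | zero => exact ⟨hc, hgc⟩
        | succ n ihn =>
          rw [pow_succ', Equiv.Perm.mul_apply]
          exact ⟨Equiv.Perm.sameCycle_apply_right.2 ihn.1, hB _ ihn.1 (hA _ ihn.1 ihn.2)⟩
      obtain ⟨n, -, hn⟩ := hc.symm.exists_pow_eq'
      have h1 := (hall n).2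
      rw [hn] at h1
      exact ⟨h1, hA d (hself d) h1⟩
  refine ⟨Q, hQφ, fun d => (main d).1, fun d => (main d).2, fun e he => hQe e _ he (hself _),
    fun d hd => ⟨?_, ?_⟩, fun d hd => ⟨?_, ?_⟩⟩
  · rw [← (hv.box d hd).2.1]
    exact hQe (.b d) d hd (hself d)
  · rw [← (hv.box d hd).1]
    exact (main d).2
  · rw [(hv.gap d hd).2, ← hQφ]
    exact (main (φ d)).1
  · rw [← (hv.gap d hd).1]
    exact (main d).2

end Abs

end Pool.Agent.MP42
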