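import Pool.Agent.MP42.A1
import Pool.Agent.MP42.A3x

/-!
# A3, concrete part: numbering of the box feet
-/

set_option autoImplicit false
set_option linter.unusedSectionVars false

namespace Pool.Agent.MP42

open Pool.Agent.Helper55.UNF Pool.Agent.Helper55.UNF.GridSolid

/-! ### A walk with one special element -/

section Walk

variable {W : Type*} [Finite W] {σ : Equiv.Perm W} {sp : W → Prop} {u g : W → ℕ}

/-- the walk starts behind the special element `a` -/
lemma walk_aux (hsp : ∀ s, ∃! a, σ.SameCycle s a ∧ sp a)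
    (h0 : ∀ s, sp s → u (σ s) = 0) (hst : ∀ s, ¬ sp s → u (σ s) = u s + g s) (a : W) (ha : sp a)
    (j : ℕ) (hj : ∀ i < j, (σ ^ i) (σ a) ≠ a) :
    u ((σ ^ j) (σ a)) = ∑ i ∈ Finset.range j, g ((σ ^ i) (σ a)) := by
  induction j with
  | zero => simpa using h0 a ha
  | succ j ih =>
    rw [Finset.sum_range_succ, ← ih (fun i hi => hj i (by omega)), pow_succ',
      Equiv.Perm.mul_apply, hst]
    intro hs
    have h1 : σ.SameCycle a ((σ ^ j) (σ a)) :=
      ⟨((j + 1 : ℕ) : ℤ), by rw [zpow_natCast, pow_succ]; rfl⟩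
    have h2 := (hsp a).unique ⟨Equiv.Perm.SameCycle.refl _ _, ha⟩ ⟨h1, hs⟩
    exact hj j (by omega) h2.symm

/-- the position of an element -/
lemma walk_pos (hsp : ∀ s, ∃! a, σ.SameCycle s a ∧ sp a)
    (h0 : ∀ s, sp s → u (σ s) = 0) (hst : ∀ s, ¬ sp s → u (σ s) = u s + g s) (a : W) (ha : sp a)
    (s : W) (hs : σ.SameCycle a s) : ∃ j : ℕ, (σ ^ j) (σ a) = s ∧
      (∀ i < j, (σ ^ i) (σ a) ≠ s) ∧ (∀ i < j, (σ ^ i) (σ a) ≠ a) ∧
      u s = ∑ i ∈ Finset.range j, g ((σ ^ i) (σ a)) := by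
  classical
  have hex : ∃ j : ℕ, (σ ^ j) (σ a) = s := by
    obtain ⟨n, hn⟩ := (Equiv.Perm.sameCycle_apply_left.2 hs).exists_nat_pow_eq
    exact ⟨n, hn⟩
  set j := Nat.find hex with hjdef
  have h1 : (σ ^ j) (σ a) = s := Nat.find_spec hex
  have h2 : ∀ i < j, (σ ^ i) (σ a) ≠ s := fun i hi => Nat.find_min hex hi
  have h3 : ∀ i < j, (σ ^ i) (σ a) ≠ a := by
    intro i hi hcon
    -- then `σ ^ (i + 1)` fixes `σ a`
    have h4 : (σ ^ (i + 1)) (σ a) = σ a := by
      rw [pow_succ', Equiv.Perm.mul_apply, hcon]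
    refine h2 (j - (i + 1)) (by omega) ?_
    rw [← h1]
    conv_rhs => rw [show j = (j - (i + 1)) + (i + 1) by omega, pow_add, Equiv.Perm.mul_apply, h4]
  refine ⟨j, h1, h2, h3, ?_⟩
  rw [← walk_aux hsp h0 hst a ha j h3, h1]

/-- the intervals `[u s, u s + g s)` are disjoint -/
lemma walk_disj (hsp : ∀ s, ∃! a, σ.SameCycle s a ∧ sp a)
    (h0 : ∀ s, sp s → u (σ s) = 0) (hst : ∀ s, ¬ sp s → u (σ s) = u s + g s)
    {s s' : W} (h : σ.SameCycle s s') (hne : s ≠ s') : u s + g s ≤ u s' ∨ u s' + g s' ≤ u s := by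
  obtain ⟨a, ⟨ha1, ha2⟩, -⟩ := hsp s
  obtain ⟨j, h1, h2, h3, h4⟩ := walk_pos hsp h0 hst a ha2 s ha1.symm
  obtain ⟨j', h1', h2', h3', h4'⟩ := walk_pos hsp h0 hst a ha2 s' (ha1.symm.trans h)
  have hjj : j ≠ j' := by
    rintro rfl
    exact hne (h1.symm.trans h1')
  rcases lt_or_gt_of_ne hjj with hlt | hlt
  · left
    rw [h4, h4']
    have h5 : Finset.range (j + 1) ⊆ Finset.range j' := by
      intro i hi
      rw [Finset.mem_range] at hi ⊢
      omega
    have h6 := Finset.sum_le_sum_of_subset (f := fun i => g ((σ ^ i) (σ a))) h5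
    rw [Finset.sum_range_succ, h1] at h6
    exact h6
  · right
    rw [h4, h4']
    have h5 : Finset.range (j' + 1) ⊆ Finset.range j := by
      intro i hi
      rw [Finset.mem_range] at hi ⊢
      omega
    have h6 := Finset.sum_le_sum_of_subset (f := fun i => g ((σ ^ i) (σ a))) h5
    rw [Finset.sum_range_succ, h1'] at h6
    exact h6

/-- the intervals are contained in `[0, 2)` -/
lemma walk_le (hsp : ∀ s, ∃! a, σ.SameCycle s a ∧ sp a) (h2 : ∀ s, sp s → u s = 2)
    (h0 : ∀ s, sp s → u (σ s) = 0) (hst : ∀ s, ¬ sp s → u (σ s) = u s + g s)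
    (hg : ∀ s, sp s → g s = 0) (s : W) : u s + g s ≤ 2 := by
  obtain ⟨a, ⟨ha1, ha2⟩, -⟩ := hsp s
  by_cases hsa : s = a
  · rw [hsa, h2 a ha2, hg a ha2]
  · rcases walk_disj hsp h0 hst ha1 hsa with h | h
    · rw [h2 a ha2] at h; exact h
    · obtain ⟨j, h1, h2', h3, h4⟩ := walk_pos hsp h0 hst a ha2 s ha1.symm
      obtain ⟨j', h1', h2'', h3', h4'⟩ :=
        walk_pos hsp h0 hst a ha2 a (Equiv.Perm.SameCycle.refl _ _)
      have hjj : j ≤ j' := by
        by_contra hcon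
        push Not at hcon
        exact h3 j' hcon h1'
      have hjj' : j < j' := by
        rcases Nat.eq_or_lt_of_le hjj with h5 | h5
        · subst h5
          exact absurd (h1.symm.trans h1') hsa
        · exact h5
      have h5 : Finset.range (j + 1) ⊆ Finset.range j' := by
        intro i hi
        rw [Finset.mem_range] at hi ⊢
        omega
      have h6 := Finset.sum_le_sum_of_subset (f := fun i => g ((σ ^ i) (σ a))) h5
      rw [Finset.sum_range_succ, h1, ← h4, ← h4', h2 a ha2] at h6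
      exact h6

/-- the intervals cover `[0, 2)` -/
lemma walk_cover (hsp : ∀ s, ∃! a, σ.SameCycle s a ∧ sp a) (h2 : ∀ s, sp s → u s = 2)
    (h0 : ∀ s, sp s → u (σ s) = 0) (hst : ∀ s, ¬ sp s → u (σ s) = u s + g s)
    (s : W) {k : ℕ} (hk : k < 2) : ∃ s', σ.SameCycle s s' ∧ u s' ≤ k ∧ k < u s' + g s' := by
  classical
  obtain ⟨a, ⟨ha1, ha2⟩, -⟩ := hsp s
  obtain ⟨j, h1, h2', h3, h4⟩ := walk_pos hsp h0 hst a ha2 a (Equiv.Perm.SameCycle.refl _ _)
  have hex : ∃ m : ℕ, k < ∑ i ∈ Finset.range m, g ((σ ^ i) (σ a)) :=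
    ⟨j, by rw [← h4, h2 a ha2]; exact hk⟩
  set m := Nat.find hex with hm
  have hm1 : k < ∑ i ∈ Finset.range m, g ((σ ^ i) (σ a)) := Nat.find_spec hex
  have hmj : m ≤ j := Nat.find_min' hex (by rw [← h4, h2 a ha2]; exact hk)
  have hm0 : 0 < m := by
    rcases Nat.eq_zero_or_pos m with h | h
    · rw [h] at hm1; simp at hm1
    · exact h
  have hm2 : ¬ k < ∑ i ∈ Finset.range (m - 1), g ((σ ^ i) (σ a)) :=
    Nat.find_min hex (by omega)
  have h5 := walk_aux (g := g) hsp h0 hst a ha2 (m - 1) (fun i hi => h3 i (by omega))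
  have h6 : ∑ i ∈ Finset.range m, g ((σ ^ i) (σ a)) =
      ∑ i ∈ Finset.range (m - 1), g ((σ ^ i) (σ a)) + g ((σ ^ (m - 1)) (σ a)) := by
    conv_lhs => rw [show m = (m - 1) + 1 by omega, Finset.sum_range_succ]
  refine ⟨(σ ^ (m - 1)) (σ a), ?_, ?_, ?_⟩
  · refine ha1.trans ?_
    exact ⟨((m - 1 + 1 : ℕ) : ℤ), by rw [zpow_natCast, pow_succ]; rfl⟩
  · rw [h5]; omega
  · rw [h5, ← h6]; exact hm1

end Walk

/-! ### The box feet on one side -/

section Side

variable {D : Type*} [Fintype D] {θ φ : Equiv.Perm D} (A : Arb θ φ)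

open Classical in
/-- indicator of the box corners -/
noncomputable def Arb.i1 (d : D) : ℕ := if A.S d then 1 else 0

lemma Arb.i1_pos {d : D} (h : A.S d) : A.i1 d = 1 := by unfold Arb.i1; rw [if_pos h]

lemma Arb.i1_neg {d : D} (h : ¬ A.S d) : A.i1 d = 0 := by unfold Arb.i1; rw [if_neg h]

lemma Arb.ft_eq_i1 (d : D) : A.ft d = A.i1 d + A.i1 (φ.symm d) + A.rt d := rfl

/-- number of box feet on the same side before the foot `e` (in the direction of the side) -/
noncomputable def Arb.locT : Ev D → ℕ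
  | .b d => A.i1 (φ.symm d) + A.rt d
  | .a _ => 0
  | .r d i => A.i1 (φ.symm d) + (if i then 1 else 0)

/-- number of box feet on the same side behind the foot `e` -/
noncomputable def Arb.locB : Ev D → ℕ
  | .b _ => 0
  | .a d => A.i1 (φ d) + A.rt (φ d)
  | .r d i => A.i1 d + (A.rt d - 1 - (if i then 1 else 0))

lemma Arb.loc_add {e : Ev D} (he : A.IsEv e) :
    A.locT e + A.locB e + 1 = A.ft (e.side φ) := by
  cases e with
  | b d =>
    have he' : A.S d := he
    show A.i1 (φ.symm d) + A.rt d + 0 + 1 = A.ft d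
    rw [A.ft_eq_i1, A.i1_pos he']
    omega
  | a d =>
    have he' : A.S d := he
    show 0 + (A.i1 (φ d) + A.rt (φ d)) + 1 = A.ft (φ d)
    rw [A.ft_eq_i1, Equiv.symm_apply_apply, A.i1_pos he']
    omega
  | r d i =>
    show A.i1 (φ.symm d) + (if i then 1 else 0) + (A.i1 d + (A.rt d - 1 - (if i then 1 else 0))) + 1
      = A.ft d
    rw [A.ft_eq_i1]
    cases i with
    | false =>
      have he' : 1 ≤ A.rt d := he
      simp only [Bool.false_eq_true, if_false]
      omega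
    | true =>
      have he' : 2 ≤ A.rt d := he
      simp only [if_true]
      omega

lemma Arb.locT_inj {e e' : Ev D} (he : A.IsEv e) (he' : A.IsEv e')
    (hs : e.side φ = e'.side φ) (hl : A.locT e = A.locT e') : e = e' := by
  have key : ∀ (e : Ev D), A.IsEv e →
      (A.locT e = A.i1 (φ.symm (e.side φ)) + A.rt (e.side φ) ∧ e = .b (e.side φ)) ∨
      (A.locT e = 0 ∧ A.i1 (φ.symm (e.side φ)) = 1 ∧ e = .a (φ.symm (e.side φ))) ∨
      (A.locT e = A.i1 (φ.symm (e.side φ)) ∧ 1 ≤ A.rt (e.side φ) ∧ e = .r (e.side φ) false) ∨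
      (A.locT e = A.i1 (φ.symm (e.side φ)) + 1 ∧ 2 ≤ A.rt (e.side φ) ∧
        e = .r (e.side φ) true) := by
    intro e he
    cases e with
    | b d => exact Or.inl ⟨rfl, rfl⟩
    | a d =>
      have he' : A.S d := he
      right; left
      refine ⟨rfl, ?_, ?_⟩
      · show A.i1 (φ.symm (φ d)) = 1
        rw [Equiv.symm_apply_apply, A.i1_pos he']
      · show Ev.a d = Ev.a (φ.symm (φ d))
        rw [Equiv.symm_apply_apply]
    | r d i =>
      right; right
      cases i with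
      | false => exact Or.inl ⟨rfl, he, rfl⟩
      | true => exact Or.inr ⟨rfl, he, rfl⟩
  have h1 := key e he
  have h2 := key e' he'
  rw [← hs] at h2
  rw [← hl] at h2
  rcases h1 with ⟨a1, a2⟩ | ⟨a1, a2, a3⟩ | ⟨a1, a2, a3⟩ | ⟨a1, a2, a3⟩ <;>
    rcases h2 with ⟨b1, b2⟩ | ⟨b1, b2, b3⟩ | ⟨b1, b2, b3⟩ | ⟨b1, b2, b3⟩ <;>
    first
    | exact a2.trans b2.symm
    | exact a3.trans b3.symm
    | (exfalso; omega)

lemma Arb.locT_surj (c : D) {k : ℕ} (hk : k < A.ft c) :
    ∃ e, A.IsEv e ∧ e.side φ = c ∧ A.locT e = k := by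
  rw [A.ft_eq_i1] at hk
  by_cases h1 : k < A.i1 (φ.symm c)
  · have h2 : A.S (φ.symm c) := by
      by_contra hcon
      rw [A.i1_neg hcon] at h1
      omega
    rw [A.i1_pos h2] at h1
    refine ⟨.a (φ.symm c), h2, Equiv.apply_symm_apply _ _, ?_⟩
    show 0 = k
    omega
  · by_cases h2 : k < A.i1 (φ.symm c) + A.rt c
    · have h3 := A.rt_le_two3 c
      by_cases h4 : k = A.i1 (φ.symm c)
      · refine ⟨.r c false, by show 1 ≤ A.rt c; omega, rfl, ?_⟩
        show A.i1 (φ.symm c) + 0 = k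
        omega
      · refine ⟨.r c true, by show 2 ≤ A.rt c; omega, rfl, ?_⟩
        show A.i1 (φ.symm c) + 1 = k
        omega
    · have h3 : A.S c := by
        by_contra hcon
        rw [A.i1_neg hcon] at hk
        omega
      rw [A.i1_pos h3] at hk
      refine ⟨.b c, h3, rfl, ?_⟩
      show A.i1 (φ.symm c) + A.rt c = k
      omega

lemma Arb.locB_inj {e e' : Ev D} (he : A.IsEv e) (he' : A.IsEv e')
    (hs : e.side φ = e'.side φ) (hl : A.locB e = A.locB e') : e = e' := by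
  have h1 := A.loc_add he
  have h2 := A.loc_add he'
  rw [hs] at h1
  exact A.locT_inj he he' hs (by omega)

lemma Arb.locB_surj (c : D) {k : ℕ} (hk : k < A.ft c) :
    ∃ e, A.IsEv e ∧ e.side φ = c ∧ A.locB e = k := by
  obtain ⟨e, h1, h2, h3⟩ := A.locT_surj c (k := A.ft c - 1 - k) (by omega)
  refine ⟨e, h1, h2, ?_⟩
  have h4 := A.loc_add h1
  rw [h2] at h4
  omega

end Side

/-! ### Rims -/

section Rim

variable {P : GridSolid} (E : Data P)

/-- the dart is on the rim above or below the band of `b` -/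
def OnRim (b : Wl P) (s : Bool) (d : Dart P) : Prop :=
  match s with
  | true => ∃ h : IsW d.1, (sig P).SameCycle b ⟨d.1, h⟩
  | false => ∃ h : IsW d.1.r2, (sig P).SameCycle b ⟨d.1.r2, h⟩

lemma not_both3 {d : Dart P} (h : IsW d.1) (h' : IsW d.1.r2) : False := by
  rcases dart_cases P d with h1 | h1
  · exact h1.2 h'
  · exact h1.1 h

lemma lab_top3 {e : Ev (Dart P)} (h : IsW (e.side (phi P)).1) :
    E.lab e = E.ut ⟨_, h⟩ + E.A.locT e := by
  unfold Data.lab
  simp only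
  rw [dif_pos h]
  cases e with
  | b d =>
    show E.ut _ + _ + _ = E.ut _ + (_ + _)
    rw [add_assoc]
    rfl
  | a d => rfl
  | r d i =>
    show E.ut _ + _ + _ = E.ut _ + (_ + _)
    rw [add_assoc]
    rfl

lemma lab_bot3 {e : Ev (Dart P)} (h : IsW (e.side (phi P)).1.r2) :
    E.lab e = E.ub ⟨_, h⟩ + E.A.locB e := by
  have h' : ¬ IsW (e.side (phi P)).1 := fun h'' => not_both3 h'' h
  unfold Data.lab
  simp only
  rw [dif_neg h', dif_pos h]
  cases e with
  | b d => rfl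
  | a d =>
    show E.ub _ + _ + _ = E.ub _ + (_ + _)
    rw [add_assoc]
    rfl
  | r d i =>
    show E.ub _ + _ + _ = E.ub _ + (_ + _)
    rw [add_assoc]
    rfl

/-- every rim has exactly one box foot with the label `k` -/
lemma exists_foot (b : Wl P) (s : Bool) {k : ℕ} (hk : k < 2) :
    ∃ e, E.A.IsEv e ∧ OnRim b s (e.side (phi P)) ∧ E.lab e = k := by
  classical
  cases s with
  | true =>
    obtain ⟨s', h1, h2, h3⟩ := walk_cover (u := E.ut) (g := fun s => ext0 E.A.ft s.1) E.sp_ex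
      (fun s hs => (E.ut_sp s hs).1) (fun s hs => (E.ut_sp s hs).2) E.ut_st b hk
    have hd : IsDart s'.1 := by
      by_contra hcon
      have h3' : k < E.ut s' + ext0 E.A.ft s'.1 := h3
      rw [ext0_neg _ hcon] at h3'
      omega
    have h3' : k < E.ut s' + ext0 E.A.ft s'.1 := h3
    rw [ext0_pos _ hd] at h3'
    obtain ⟨e, e1, e2, e3⟩ := E.A.locT_surj ⟨s'.1, hd⟩ (k := k - E.ut s') (by omega)
    have hw : IsW (e.side (phi P)).1 := by rw [e2]; exact s'.2
    have hs' : s' = ⟨(e.side (phi P)).1, hw⟩ := Subtype.ext (by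
      show s'.1 = (e.side (phi P)).1
      rw [e2])
    refine ⟨e, e1, ⟨hw, ?_⟩, ?_⟩
    · rw [← hs']; exact h1
    · rw [lab_top3 E hw, ← hs', e3]
      omega
  | false =>
    obtain ⟨s', h1, h2, h3⟩ := walk_cover (u := E.ub) (g := fun s => ext0 E.A.ft s.1.r2) E.sp_ex
      (fun s hs => (E.ub_sp s hs).1) (fun s hs => (E.ub_sp s hs).2) E.ub_st b hk
    have h3' : k < E.ub s' + ext0 E.A.ft s'.1.r2 := h3
    have hd : IsDart s'.1.r2 := by
      by_contra hcon
      rw [ext0_neg _ hcon] at h3'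
      omega
    rw [ext0_pos _ hd] at h3'
    obtain ⟨e, e1, e2, e3⟩ := E.A.locB_surj ⟨s'.1.r2, hd⟩ (k := k - E.ub s') (by omega)
    have hw : IsW (e.side (phi P)).1.r2 := by
      rw [e2]
      show IsW s'.1.r2.r2
      rw [FSt.r2_r2]
      exact s'.2
    have hs' : s' = ⟨(e.side (phi P)).1.r2, hw⟩ := Subtype.ext (by
      show s'.1 = (e.side (phi P)).1.r2
      rw [e2, FSt.r2_r2])
    refine ⟨e, e1, ⟨hw, ?_⟩, ?_⟩
    · rw [← hs']; exact h1
    · rw [lab_bot3 E hw, ← hs', e3]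
      omega

lemma foot_unique (b : Wl P) (s : Bool) {e e' : Ev (Dart P)} (he : E.A.IsEv e)
    (he' : E.A.IsEv e') (h : OnRim b s (e.side (phi P))) (h' : OnRim b s (e'.side (phi P)))
    (hl : E.lab e = E.lab e') : e = e' := by
  cases s with
  | true =>
    obtain ⟨h1, h2⟩ := h
    obtain ⟨h1', h2'⟩ := h'
    rw [lab_top3 E h1, lab_top3 E h1'] at hl
    by_cases hs : e.side (phi P) = e'.side (phi P)
    · refine E.A.locT_inj he he' hs ?_
      have h3 : (⟨(e.side (phi P)).1, h1⟩ : Wl P) = ⟨(e'.side (phi P)).1, h1'⟩ :=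
        Subtype.ext (congrArg (fun d : Dart P => d.1) hs)
      rw [h3] at hl
      omega
    · exfalso
      have h3 : (⟨(e.side (phi P)).1, h1⟩ : Wl P) ≠ ⟨(e'.side (phi P)).1, h1'⟩ := by
        intro h4
        have h5 : (e.side (phi P)).1 = (e'.side (phi P)).1 :=
          congrArg (fun d : Wl P => d.1) h4
        exact hs (Subtype.ext h5)
      have h4 := walk_disj (u := E.ut) (g := fun s => ext0 E.A.ft s.1) E.sp_ex
        (fun s hs => (E.ut_sp s hs).2) E.ut_st (h2.symm.trans h2') h3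
      simp only at h4
      rw [ext0_pos _ (e.side (phi P)).2, ext0_pos _ (e'.side (phi P)).2] at h4
      have h5 := E.A.loc_add he
      have h6 := E.A.loc_add he'
      have h7 : E.A.ft ⟨(e.side (phi P)).1, (e.side (phi P)).2⟩ = E.A.ft (e.side (phi P)) := rfl
      have h8 : E.A.ft ⟨(e'.side (phi P)).1, (e'.side (phi P)).2⟩ = E.A.ft (e'.side (phi P)) := rfl
      rw [h7, h8] at h4
      omega
  | false =>
    obtain ⟨h1, h2⟩ := h
    obtain ⟨h1', h2'⟩ := h'
    rw [lab_bot3 E h1, lab_bot3 E h1'] at hl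
    by_cases hs : e.side (phi P) = e'.side (phi P)
    · refine E.A.locB_inj he he' hs ?_
      have h3 : (⟨(e.side (phi P)).1.r2, h1⟩ : Wl P) = ⟨(e'.side (phi P)).1.r2, h1'⟩ :=
        Subtype.ext (congrArg (fun d : Dart P => d.1.r2) hs)
      rw [h3] at hl
      omega
    · exfalso
      have h3 : (⟨(e.side (phi P)).1.r2, h1⟩ : Wl P) ≠ ⟨(e'.side (phi P)).1.r2, h1'⟩ := by
        intro h4
        have h5 : (e.side (phi P)).1.r2 = (e'.side (phi P)).1.r2 := congrArg Subtype.val h4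
        have h6 := congrArg FSt.r2 h5
        rw [FSt.r2_r2, FSt.r2_r2] at h6
        exact hs (Subtype.ext h6)
      have h4 := walk_disj (u := E.ub) (g := fun s => ext0 E.A.ft s.1.r2) E.sp_ex
        (fun s hs => (E.ub_sp s hs).2) E.ub_st (h2.symm.trans h2') h3
      have e1 : ext0 E.A.ft (e.side (phi P)).1.r2.r2 = E.A.ft (e.side (phi P)) := by
        rw [FSt.r2_r2, ext0_pos _ (e.side (phi P)).2]
      have e2 : ext0 E.A.ft (e'.side (phi P)).1.r2.r2 = E.A.ft (e'.side (phi P)) := by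
        rw [FSt.r2_r2, ext0_pos _ (e'.side (phi P)).2]
      simp only at h4
      rw [e1, e2] at h4
      have h5 := E.A.loc_add he
      have h6 := E.A.loc_add he'
      omega

lemma lab_lt3 {e : Ev (Dart P)} (he : E.A.IsEv e) : E.lab e < 2 := by
  have h5 := E.A.loc_add he
  rcases dart_cases P (e.side (phi P)) with ⟨h1, -⟩ | ⟨-, h1⟩
  · rw [lab_top3 E h1]
    have h4 := walk_le (u := E.ut) (g := fun s => ext0 E.A.ft s.1) E.sp_ex
      (fun s hs => (E.ut_sp s hs).1) (fun s hs => (E.ut_sp s hs).2) E.ut_st (fun s hs =>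
        ext0_neg _ (fun hd => by
          have h6 := E.sp_x s hs
          have h7 := hd.1
          rw [h6] at h7
          exact absurd h7 (by decide))) ⟨(e.side (phi P)).1, h1⟩
    have e1 : ext0 E.A.ft (e.side (phi P)).1 = E.A.ft (e.side (phi P)) :=
      ext0_pos _ (e.side (phi P)).2
    simp only at h4
    rw [e1] at h4
    omega
  · rw [lab_bot3 E h1]
    have h4 := walk_le (u := E.ub) (g := fun s => ext0 E.A.ft s.1.r2) E.sp_ex
      (fun s hs => (E.ub_sp s hs).1) (fun s hs => (E.ub_sp s hs).2) E.ub_st (fun s hs =>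
        ext0_neg _ (fun hd => by
          have h6 := E.sp_x s hs
          have h7 : s.1.1.d.1 = 1 := hd.1
          rw [h6] at h7
          exact absurd h7 (by decide))) ⟨(e.side (phi P)).1.r2, h1⟩
    have e1 : ext0 E.A.ft (e.side (phi P)).1.r2.r2 = E.A.ft (e.side (phi P)) := by
      rw [FSt.r2_r2, ext0_pos _ (e.side (phi P)).2]
    simp only at h4
    rw [e1] at h4
    omega

lemma onRim_congr {b b' : Wl P} (h : (sig P).SameCycle b b') {s : Bool} {d : Dart P} :
    OnRim b s d ↔ OnRim b' s d := by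
  cases s with
  | true =>
    exact ⟨fun ⟨h1, h2⟩ => ⟨h1, h.symm.trans h2⟩, fun ⟨h1, h2⟩ => ⟨h1, h.trans h2⟩⟩
  | false =>
    exact ⟨fun ⟨h1, h2⟩ => ⟨h1, h.symm.trans h2⟩, fun ⟨h1, h2⟩ => ⟨h1, h.trans h2⟩⟩

lemma exists_rim (d : Dart P) : ∃ b s, OnRim b s d := by
  rcases dart_cases P d with ⟨h1, -⟩ | ⟨-, h1⟩
  · exact ⟨⟨d.1, h1⟩, true, h1, Equiv.Perm.SameCycle.refl _ _⟩
  · exact ⟨⟨d.1.r2, h1⟩, false, h1, Equiv.Perm.SameCycle.refl _ _⟩

lemma onRim_unique {b b' : Wl P} {s s' : Bool} {d : Dart P} (h : OnRim b s d)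
    (h' : OnRim b' s' d) : (sig P).SameCycle b b' ∧ s = s' := by
  cases s <;> cases s'
  · obtain ⟨h1, h2⟩ := h
    obtain ⟨h1', h2'⟩ := h'
    exact ⟨h2.trans h2'.symm, rfl⟩
  · exact (not_both3 h'.1 h.1).elim
  · exact (not_both3 h.1 h'.1).elim
  · obtain ⟨h1, h2⟩ := h
    obtain ⟨h1', h2'⟩ := h'
    exact ⟨h2.trans h2'.symm, rfl⟩

lemma onRim_phi_same {b : Wl P} {s : Bool} {d d' : Dart P} (hd : (phi P).SameCycle d d')
    (h : OnRim b s d) : OnRim b s d' := by
  have hp := (phi_same_iff P d d').1 hd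
  cases s with
  | true =>
    obtain ⟨h1, h2⟩ := h
    have h3 : IsW d'.1 := by
      obtain ⟨n, hn⟩ := hp.exists_nat_pow_eq
      rw [← hn]
      exact IsW_pow _ h1 n
    exact ⟨h3, h2.trans ((sig_same_iff P ⟨d.1, h1⟩ ⟨d'.1, h3⟩).2 hp)⟩
  | false =>
    obtain ⟨h1, h2⟩ := h
    have hp' : pE.SameCycle d.1.r2 d'.1.r2 := r2_same P hp
    have h3 : IsW d'.1.r2 := by
      obtain ⟨n, hn⟩ := hp'.exists_nat_pow_eq
      rw [← hn]
      exact IsW_pow _ h1 n
    exact ⟨h3, h2.trans ((sig_same_iff P ⟨d.1.r2, h1⟩ ⟨d'.1.r2, h3⟩).2 hp')⟩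

lemma phi_same_of_onRim {b : Wl P} {s : Bool} {d d' : Dart P} (h : OnRim b s d)
    (h' : OnRim b s d') : (phi P).SameCycle d d' := by
  rw [phi_same_iff]
  cases s with
  | true =>
    obtain ⟨h1, h2⟩ := h
    obtain ⟨h1', h2'⟩ := h'
    exact (sig_same_iff P _ _).1 (h2.symm.trans h2')
  | false =>
    obtain ⟨h1, h2⟩ := h
    obtain ⟨h1', h2'⟩ := h'
    exact (r2_same_iff P).1 ((sig_same_iff P _ _).1 (h2.symm.trans h2'))

end Rim

end Pool.Agent.MP42
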