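import Mathlib

/-!
# Counters along the cycles of a permutation

Between the special element of a cycle and itself the events `e` are counted.
-/

set_option autoImplicit false

namespace Pool.Agent.MP42

open Function

variable {W : Type*} [Finite W]

lemma pow_minimalPeriod (σ : Equiv.Perm W) (a : W) : (σ ^ minimalPeriod σ a) a = a := by
  rw [Equiv.Perm.coe_pow]
  exact iterate_minimalPeriod

lemma minimalPeriod_pos' (σ : Equiv.Perm W) (a : W) : 0 < minimalPeriod σ a := by
  apply minimalPeriod_pos_of_mem_periodicPts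
  refine ⟨orderOf σ, orderOf_pos σ, ?_⟩
  show σ^[orderOf σ] a = a
  rw [← Equiv.Perm.coe_pow, pow_orderOf_eq_one]
  rfl

/-- positions in a cycle -/
lemma exists_pos (σ : Equiv.Perm W) {a s : W} (h : σ.SameCycle a s) :
    ∃ k, 0 < k ∧ k ≤ minimalPeriod σ a ∧ (σ ^ k) a = s := by
  obtain ⟨i, hi⟩ := h
  have hn := minimalPeriod_pos' σ a
  set n := minimalPeriod σ a with hnd
  have hper : ∀ m : ℤ, (σ ^ ((n : ℤ) * m)) a = a := by
    intro m
    rw [zpow_mul, zpow_natCast]
    have h1 : (σ ^ n) a = a := pow_minimalPeriod σ a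
    exact Equiv.Perm.zpow_apply_eq_self_of_apply_eq_self h1 m
  have key : ∀ j : ℤ, (σ ^ (j % (n : ℤ))) a = (σ ^ j) a := by
    intro j
    conv_rhs => rw [← Int.emod_add_mul_ediv j (n : ℤ), zpow_add, Equiv.Perm.mul_apply, hper]
  have hn' : (0 : ℤ) < n := by exact_mod_cast hn
  have h0 := Int.emod_nonneg i hn'.ne'
  have h1 := Int.emod_lt_of_pos i hn'
  obtain ⟨k, hk⟩ := Int.eq_ofNat_of_zero_le h0
  have h2 := key i
  rw [hk, hi, zpow_natCast] at h2
  rcases Nat.eq_zero_or_pos k with h3 | h3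
  · refine ⟨n, hn, le_rfl, ?_⟩
    rw [h3] at h2
    rw [pow_minimalPeriod]
    simpa using h2
  · exact ⟨k, h3, by omega, h2⟩

lemma pos_unique (σ : Equiv.Perm W) {a : W} {k l : ℕ} (hk : 0 < k) (hk' : k ≤ minimalPeriod σ a)
    (hl : 0 < l) (hl' : l ≤ minimalPeriod σ a) (h : (σ ^ k) a = (σ ^ l) a) : k = l := by
  have h1 : (σ ^ (k - 1)) a = (σ ^ (l - 1)) a := by
    apply σ.injective
    rw [← Equiv.Perm.mul_apply, ← Equiv.Perm.mul_apply, ← pow_succ', ← pow_succ',
      Nat.sub_add_cancel hk, Nat.sub_add_cancel hl]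
    exact h
  have e1 : k - 1 ∈ Set.Iio (minimalPeriod (⇑σ) a) := by rw [Set.mem_Iio]; omega
  have e2 : l - 1 ∈ Set.Iio (minimalPeriod (⇑σ) a) := by rw [Set.mem_Iio]; omega
  rw [Equiv.Perm.coe_pow, Equiv.Perm.coe_pow] at h1
  have h2 : k - 1 = l - 1 := iterate_injOn_Iio_minimalPeriod e1 e2 h1
  omega

open Classical in
lemma sum_cycle {R : Type*} [AddCommMonoid R] [Fintype W] (σ : Equiv.Perm W) (a : W) (e : W → R) :
    ∑ b ∈ Finset.univ.filter (fun b => σ.SameCycle a b), e b =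
      ∑ j ∈ Finset.range (minimalPeriod σ a), e ((σ ^ j) a) := by
  symm
  apply Finset.sum_bij (fun j _ => (σ ^ j) a)
  · intro j _
    rw [Finset.mem_filter]
    exact ⟨Finset.mem_univ _, ⟨j, by rw [zpow_natCast]⟩⟩
  · intro i hi j hj h
    rw [Finset.mem_range] at hi hj
    have := pos_unique σ (a := a) (k := i + 1) (l := j + 1) (by omega) (by omega) (by omega)
      (by omega) (by
        rw [pow_succ', pow_succ', Equiv.Perm.mul_apply, Equiv.Perm.mul_apply]
        exact congrArg σ h)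
    omega
  · intro b hb
    rw [Finset.mem_filter] at hb
    obtain ⟨k, h0, h1, h2⟩ := exists_pos σ hb.2
    by_cases h3 : k = minimalPeriod σ a
    · refine ⟨0, Finset.mem_range.2 (by omega), ?_⟩
      rw [h3, pow_minimalPeriod] at h2
      simpa using h2
    · exact ⟨k, Finset.mem_range.2 (by omega), h2⟩
  · intro j _
    rfl

open Classical in
theorem exists_counter {W : Type*} [Fintype W] (σ : Equiv.Perm W) (sp : W → Prop)
    (hsp : ∀ s, ∃! a, σ.SameCycle s a ∧ sp a) (e : W → ℕ) (he : ∀ a, sp a → e a = 0)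
    (hsum : ∀ s, ∑ a ∈ Finset.univ.filter (fun a => σ.SameCycle s a), e a = 2) :
    ∃ u : W → ℕ, (∀ s, u s ≤ 2) ∧ (∀ s, sp s → u s = 2 ∧ u (σ s) = 0) ∧
      ∀ s, ¬ sp s → u (σ s) = u s + e s := by
  choose a ha hau using hsp
  have ha' : ∀ s b, σ.SameCycle s b → sp b → b = a s := fun s b h1 h2 => hau s b ⟨h1, h2⟩
  have hpos : ∀ s, ∃ k, 0 < k ∧ k ≤ minimalPeriod σ (a s) ∧ (σ ^ k) (a s) = s := fun s =>
    exists_pos σ (ha s).1.symm
  choose k hk0 hk1 hk2 using hpos
  have hak : ∀ s t, σ.SameCycle s t → a t = a s := fun s t h =>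
    ha' s (a t) (h.trans (ha t).1) (ha t).2
  have huniq : ∀ s l, 0 < l → l ≤ minimalPeriod σ (a s) → (σ ^ l) (a s) = s → k s = l :=
    fun s l h1 h2 h3 => pos_unique σ (hk0 s) (hk1 s) h1 h2 ((hk2 s).trans h3.symm)
  have htot : ∀ s, ∑ j ∈ Finset.range (minimalPeriod σ (a s)), e ((σ ^ j) (a s)) = 2 := by
    intro s
    rw [← sum_cycle σ (a s) e]
    exact hsum (a s)
  refine ⟨fun s => ∑ j ∈ Finset.range (k s), e ((σ ^ j) (a s)), ?_, ?_, ?_⟩
  · intro s
    rw [← htot s]
    exact Finset.sum_le_sum_of_subset (Finset.range_mono (hk1 s))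
  · intro s hs
    have h1 : a s = s := (ha' s s (Equiv.Perm.SameCycle.refl _ _) hs).symm
    constructor
    · have h2 : k s = minimalPeriod σ (a s) :=
        huniq s _ (minimalPeriod_pos' σ _) le_rfl (by rw [pow_minimalPeriod, h1])
      show ∑ j ∈ Finset.range (k s), e ((σ ^ j) (a s)) = 2
      rw [h2, htot]
    · have h3 : a (σ s) = a s := hak s (σ s) ⟨1, by simp⟩
      have h2 : k (σ s) = 1 := huniq (σ s) 1 one_pos (minimalPeriod_pos' σ _)
        (by rw [h3, h1, pow_one])
      show ∑ j ∈ Finset.range (k (σ s)), e ((σ ^ j) (a (σ s))) = 0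
      rw [h2, Finset.sum_range_one, h3, h1]
      exact he s hs
  · intro s hs
    have h3 : a (σ s) = a s := hak s (σ s) ⟨1, by simp⟩
    have hlt : k s < minimalPeriod σ (a s) := by
      rcases Nat.lt_or_ge (k s) (minimalPeriod σ (a s)) with h | h
      · exact h
      · exfalso
        have h4 : k s = minimalPeriod σ (a s) := le_antisymm (hk1 s) h
        have h5 := hk2 s
        rw [h4, pow_minimalPeriod] at h5
        apply hs
        rw [← h5]
        exact (ha s).2
    have h2 : k (σ s) = k s + 1 := huniq (σ s) (k s + 1) (by omega)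
      (by rw [h3]; omega)
      (by rw [h3, pow_succ', Equiv.Perm.mul_apply, hk2])
    show ∑ j ∈ Finset.range (k (σ s)), e ((σ ^ j) (a (σ s))) =
      ∑ j ∈ Finset.range (k s), e ((σ ^ j) (a s)) + e s
    rw [h2, h3, Finset.sum_range_succ, hk2]

end Pool.Agent.MP42
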