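import Pool.Agent.MP42.A1
import Pool.Agent.MP42.Counter

/-!
# A4: special facets and counters (owner helper53)

The counter lemma `exists_counter` is in `Counter.lean`.
-/

set_option autoImplicit false
set_option linter.unusedSectionVars false

namespace Pool.Agent.MP42

open Pool.Agent.Helper55.UNF Pool.Agent.Helper55.UNF.GridSolid

/-- one element with the property `p` can be chosen in every cycle -/
lemma exists_special {W : Type*} (σ : Equiv.Perm W) (p : W → Prop)
    (h : ∀ s, ∃ a, σ.SameCycle s a ∧ p a) :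
    ∃ sp : W → Prop, (∀ s, sp s → p s) ∧ ∀ s, ∃! a, σ.SameCycle s a ∧ sp a := by
  let S := Equiv.Perm.SameCycle.setoid σ
  choose f hf using h
  let g : Quotient S → W := fun q => f q.out
  have hg : ∀ s, σ.SameCycle s (g (Quotient.mk S s)) := fun s => by
    have h1 : σ.SameCycle (Quotient.out (Quotient.mk S s)) s := Quotient.mk_out (s := S) s
    exact h1.symm.trans (hf _).1
  refine ⟨fun s => g (Quotient.mk S s) = s, ?_, ?_⟩
  · intro s hs
    rw [← hs]
    exact (hf _).2
  · intro s
    refine ⟨g (Quotient.mk S s), ⟨hg s, ?_⟩, ?_⟩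
    · show g (Quotient.mk S (g (Quotient.mk S s))) = g (Quotient.mk S s)
      congr 1
      exact Quotient.sound (s := S) (hg s).symm
    · rintro b ⟨h1, h2⟩
      have h3 : Quotient.mk S b = Quotient.mk S s := Quotient.sound (s := S) h1.symm
      rw [← h3]
      exact h2.symm

lemma ext0_of_x {P : GridSolid} {R : Type*} [Zero R] (g : Dart P → R) {s : P.FSt}
    (h : s.1.d.1 = 0) : ext0 g s = 0 := by
  unfold ext0
  rw [dif_neg]
  rintro ⟨h1, -⟩
  rw [h] at h1
  exact absurd h1 (by decide)

theorem exists_data {P : GridSolid} (A : Arb (theta P) (phi P)) : ∃ E : Data P, E.A = A := by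
  classical
  obtain ⟨sp, h1, h2⟩ := exists_special (sig P) (fun a : Wl P => a.1.1.d.1 = 0) (exists_xfacet P)
  obtain ⟨ub, b1, b2, b3⟩ := exists_counter (sig P) sp h2 (fun s => ext0 A.ft s.1.r2)
    (fun s hs => ext0_of_x A.ft (h1 s hs)) (fun s => by
      rw [← feet_bot A s]
      exact Finset.sum_congr (Finset.filter_congr_decidable _ _ _) fun _ _ => rfl)
  obtain ⟨ut, t1, t2, t3⟩ := exists_counter (sig P) sp h2 (fun s => ext0 A.ft s.1)
    (fun s hs => ext0_of_x A.ft (h1 s hs)) (fun s => by
      rw [← feet_top A s]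
      exact Finset.sum_congr (Finset.filter_congr_decidable _ _ _) fun _ _ => rfl)
  exact ⟨{ A := A, sp := sp, sp_x := h1, sp_ex := h2, ub := ub, ut := ut, ub_le := b1, ut_le := t1,
           ub_sp := b2, ut_sp := t2, ub_st := b3, ut_st := t3, t := fun _ => true,
           t_st := fun _ => rfl }, rfl⟩

end Pool.Agent.MP42
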