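import Pool.Agent.MP42.A1

/-!
# A5: local conditions and coverage (owners helper52, helper55)

Fields of `Pat P 27` except `conn`, for `can` and `E.T`.  Auxiliary facts: `1 ≤ lo`, `lo ≤ 5`,
`7 ≤ hi`, `hi ≤ 12`, in every column of a `y`-facet the running lowest track is in `[1, 6]` and the
running highest track in `[7, 12]`, and the window at the east side is `acc ... 27`.
-/

set_option autoImplicit false
set_option linter.unusedSectionVars false

namespace Pool.Agent.MP42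

open Pool.Agent.Helper55.UNF Pool.Agent.Helper55.UNF.GridSolid

variable {P : GridSolid} (E : Data P)

/-- the local conditions of `Pat P 27` -/
structure LocalPat (T : P.Facet → ℕ → ℕ → Ty) : Prop where
  vN : ∀ f x y, x < 27 → y + 1 < 27 → (T f x y).goN = (T f x (y + 1)).frS
  vS : ∀ f x y, x < 27 → y + 1 < 27 → (T f x y).frN = (T f x (y + 1)).goS
  hh : ∀ f x y, x + 1 < 27 → y < 27 → (T f x y).ep = (T f (x + 1) y).wp
  bN : ∀ f g, (can f).stN = can g → ∀ x < 27, (T f x 26).goN = (T g x 0).frS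
  bS : ∀ f g, (can f).stN = can g → ∀ x < 27, (T f x 26).frN = (T g x 0).goS
  bN' : ∀ f, (∀ g, (can f).stN ≠ can g) → ∀ x < 27, (T f x 26).goN = false ∧ (T f x 26).frN = false
  bS' : ∀ g, (∀ f, (can f).stN ≠ can g) → ∀ x < 27, (T g x 0).frS = false ∧ (T g x 0).goS = false
  bE : ∀ f g, (can f).stE = can g → ∀ y < 27, (T f 26 y).ep = (T g 0 y).wp
  bEr : ∀ f g, (can f).stE = (can g).r2 → ∀ y < 27, (T f 26 y).ep = (T g 26 (27 - 1 - y)).ep
  bWr : ∀ f g, (can f).r2.stE = can g → ∀ y < 27, (T f 0 y).wp = (T g 0 (27 - 1 - y)).wp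
  bE' : ∀ f, (∀ g, (can f).stE ≠ can g ∧ (can f).stE ≠ (can g).r2) → ∀ y < 27, (T f 26 y).ep = false
  bW' : ∀ f, (∀ g, (can f).r2.stE ≠ can g ∧ (can f).r2.stE ≠ (can g).r2) → ∀ y < 27,
    (T f 0 y).wp = false
  cov : ∀ f, ∀ x < 27, ∃ z : ℤ, (∀ y ∈ Set.uIcc 0 z, ∃ g, (pN ^ y) (can f) = can g) ∧
    ∃ g, (pN ^ z) (can f) = can g ∧ ∃ y < 27, (T g x y).wp = true

theorem localPat : LocalPat E.T := by
  sorry

end Pool.Agent.MP42
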