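import Pool.Agent.MP42.A1
import Pool.Agent.Helper55.UNF.Win

/-!
# A5, table form: definitions (owner helper55)

Strands and lanes on the 13 by 13 subdivision of every facet, as windows.
Columns: left end lane 1, root lanes 5 and 7, right end lane 11; rows = tracks; the shift columns of
the special facets are 5 and 6.
-/

set_option autoImplicit false
set_option linter.unusedSectionVars false

namespace Pool.Agent.MP42

open Pool.Agent.Helper55.UNF Pool.Agent.Helper55.UNF.GridSolid

/-- the lane types of the tables -/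
def toLn : Ln → Pool.Agent.Helper55.UNF.Ln
  | Ln.o => .z
  | Ln.N => .n
  | Ln.S => .s

/-- the event in column `x` on a side with the lanes `L`, `m` (root lanes), `R` -/
def ev (L : Ln) (m : ℕ) (R : Ln) (x : ℕ) : Ln :=
  if x = 1 then L else if x = 5 then (if 1 ≤ m then Ln.N else Ln.o)
  else if x = 7 then (if 2 ≤ m then Ln.N else Ln.o) else if x = 11 then R else Ln.o

/-- sum of the changes in the columns before `x` -/
def ac (L : Ln) (m : ℕ) (R : Ln) (x : ℕ) : ℤ :=
  (if 1 < x then dlt L else 0) + (if 5 < x ∧ 1 ≤ m then -1 else 0) +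
    (if 7 < x ∧ 2 ≤ m then -1 else 0) + (if 11 < x then dlt R else 0)

lemma ac_succ (L : Ln) (m : ℕ) (R : Ln) (x : ℕ) :
    ac L m R (x + 1) = ac L m R x + dlt (ev L m R x) := by
  unfold ac ev
  by_cases h1 : x = 1
  · subst h1; simp
  by_cases h2 : x = 5
  · subst h2
    by_cases hm : 1 ≤ m <;> simp [hm, dlt]
  by_cases h3 : x = 7
  · subst h3
    by_cases hm : 2 ≤ m
    · have : 1 ≤ m := by omega
      simp [hm, this, dlt]
    · simp [hm, dlt]
  by_cases h4 : x = 11
  · subst h4; simp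
  rw [if_neg h1, if_neg h2, if_neg h3, if_neg h4]
  have e1 : (1 < x + 1) ↔ (1 < x) := by omega
  have e2 : (5 < x + 1) ↔ (5 < x) := by omega
  have e3 : (7 < x + 1) ↔ (7 < x) := by omega
  have e4 : (11 < x + 1) ↔ (11 < x) := by omega
  simp [e1, e2, e3, e4, dlt]

lemma ac_zero (L : Ln) (m : ℕ) (R : Ln) : ac L m R 0 = 0 := by simp [ac]

lemma dlt_cases (L : Ln) : dlt L = -1 ∨ dlt L = 0 ∨ dlt L = 1 := by cases L <;> simp [dlt]

lemma lnd_dlt {a b : ℤ} {L : Ln} (h : b = a + dlt L) (ha : 0 ≤ a) (hb : 0 ≤ b) :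
    lnd a.toNat b.toNat = toLn L := by
  unfold lnd
  cases L <;> simp only [dlt] at h
  · rw [if_neg (by omega), if_neg (by omega)]; rfl
  · rw [if_pos (by omega)]; rfl
  · rw [if_neg (by omega), if_pos (by omega)]; rfl

/-- windows from integral data -/
def winOf (a b : ℕ → ℤ) (sh : ℕ → Bool)
    (hA : ∀ x ≤ 13, 0 ≤ a x ∧ a x ≤ 5 ∧ 7 ≤ b x ∧ b x ≤ 12)
    (hn : ∀ x < 13, sh x = false → (∃ L, a (x + 1) = a x + dlt L) ∧ ∃ L, b (x + 1) = b x + dlt L)
    (hs : ∀ x < 13, sh x = true → a (x + 1) = a x + 1 ∧ b (x + 1) = b x + 1) : Win 13 where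
  lo := fun x => (a x).toNat
  hi := fun x => (b x).toNat
  sh := sh
  lt := fun x hx => by have := hA x hx; omega
  n0 := fun x hx h => by
    obtain ⟨⟨L, hL⟩, -⟩ := hn x hx h
    have h1 := hA x hx.le
    have h2 := hA (x + 1) hx
    rcases dlt_cases L with h3 | h3 | h3 <;> rw [h3] at hL <;> omega
  n1 := fun x hx h => by
    obtain ⟨-, ⟨L, hL⟩⟩ := hn x hx h
    have h1 := hA x hx.le
    have h2 := hA (x + 1) hx
    rcases dlt_cases L with h3 | h3 | h3 <;> rw [h3] at hL <;> omega
  n2 := fun x hx _ => by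
    have h1 := hA x hx.le
    have h2 := hA (x + 1) hx
    omega
  s0 := fun x hx h => by
    have h0 := hs x hx h
    have h1 := hA x hx.le
    have h2 := hA (x + 1) hx
    omega

/-! ## Facts on the arborescence -/

section Arb

variable {D : Type*} [Fintype D] {θ φ : Equiv.Perm D} (A : Arb θ φ)

open Classical in
/-- 1 at a box corner -/
noncomputable def Arb.bx (d : D) : ℕ := if A.S d then 1 else 0

lemma Arb.dv_le (d : D) : -1 ≤ A.dv d ∧ A.dv d ≤ 1 := by
  unfold Arb.dv; split_ifs <;> omega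

lemma Arb.bx_le (d : D) : A.bx d ≤ 1 := by
  unfold Arb.bx; split_ifs <;> omega

lemma Arb.ft_eq (d : D) : A.ft d = A.bx d + A.bx (φ.symm d) + A.rt d := rfl

lemma Arb.dlt_lam (d : D) : dlt (A.lam d) = A.dv d - A.bx d := by
  unfold Arb.lam Arb.dv Arb.bx
  by_cases h1 : A.S d
  · have h2 : ¬ A.S ((nu θ φ).symm d) := by
      intro h
      have := (A.S1 _ h).1
      rw [Equiv.apply_symm_apply] at this
      exact this h1
    have h3 := (A.S1 d h1).1
    rw [if_pos (Or.inl h1), if_neg h2, if_neg h3, if_pos h1]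
    rfl
  · by_cases h2 : A.S ((nu θ φ).symm d)
    · rw [if_pos (Or.inr h2), if_pos h2, if_neg h1]
      rfl
    · by_cases h3 : A.S (nu θ φ d)
      · rw [if_neg (by tauto), if_pos h3, if_neg h2, if_pos h3, if_neg h1]
        rfl
      · rw [if_neg (by tauto), if_neg h3, if_neg h2, if_neg h3, if_neg h1]
        rfl

lemma Arb.dlt_lam_nu (e : D) : dlt (A.lam (nu θ φ e)) = - A.dv e - A.bx e := by
  unfold Arb.lam Arb.dv Arb.bx
  rw [Equiv.symm_apply_apply]
  by_cases h1 : A.S e
  · have h2 : ¬ A.S ((nu θ φ).symm e) := by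
      intro h
      have := (A.S1 _ h).1
      rw [Equiv.apply_symm_apply] at this
      exact this h1
    have h3 := (A.S1 e h1).1
    rw [if_pos (Or.inr h1), if_neg h2, if_neg h3, if_pos h1]
    rfl
  · by_cases h2 : A.S ((nu θ φ).symm e)
    · obtain ⟨k1, k2⟩ := A.S1 _ h2
      have k3 := (A.S3 _ h2).2
      rw [Equiv.apply_symm_apply] at k2 k3
      have k5 : A.S (nu θ φ (nu θ φ e)) := by rw [k3]; exact h2
      rw [if_neg (by tauto), if_pos k5, if_pos h2, if_neg h1]
      rfl
    · by_cases h3 : A.S (nu θ φ e)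
      · rw [if_pos (Or.inl h3), if_neg h2, if_pos h3, if_neg h1]
        rfl
      · have h4 : ¬ A.S (nu θ φ (nu θ φ e)) := by
          intro h4
          have k3 := (A.S3 _ h4).2
          have k6 : nu θ φ (nu θ φ (nu θ φ e)) = e := by
            apply (nu θ φ).injective
            apply (nu θ φ).injective
            exact k3
          have k7 : (nu θ φ).symm e = nu θ φ (nu θ φ e) := by
            rw [Equiv.symm_apply_eq]
            exact k6.symm
          rw [k7] at h2
          exact h2 h4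
        rw [if_neg (by tauto), if_neg h4, if_neg h2, if_neg h3, if_neg h1]
        rfl

end Arb

/-! ## Geometry of states -/

section Conc

variable {P : GridSolid}

lemma sig_val (s : Wl P) : (sig P s).1 = s.1.stE := rfl

/-- the first return of the inverse -/
lemma retFun_symm {X : Type*} [Finite X] {π : Equiv.Perm X} {p : X → Prop} {x : X} (hx : p x) :
    retFun π p (retFun π.symm p x) = x := by
  set n := retN π.symm p x with hn
  have h1 : retFun π.symm p x = (π.symm ^ (n + 1)) x := retFun_eq π.symm p x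
  have h0 : ∀ (m i : ℕ) (z : X), i ≤ m → (π ^ i) ((π.symm ^ m) z) = (π.symm ^ (m - i)) z := by
    intro m i z hi
    have e : (π.symm : Equiv.Perm X) = π⁻¹ := rfl
    rw [e, inv_pow, inv_pow]
    apply (π ^ (m - i)).injective
    rw [← Equiv.Perm.mul_apply, ← Equiv.Perm.mul_apply, ← pow_add, Nat.sub_add_cancel hi,
      ← Equiv.Perm.mul_apply]
    simp
  have h2 : retFun π p (retFun π.symm p x) = (π ^ (n + 1)) (retFun π.symm p x) := by
    apply retFun_eq_of
    · rw [h1, h0 _ _ _ le_rfl]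
      simpa using hx
    · intro i hi
      rw [h1, h0 _ _ _ (by omega)]
      have := retN_not (π := π.symm) (p := p) (x := x) (j := n - i - 1) (by omega)
      rwa [show n - i - 1 + 1 = n + 1 - (i + 1) by omega] at this
  rw [h2, h1, h0 _ _ _ le_rfl]
  simp

lemma nextD_dart {s : P.FSt} (h : IsDart s) : nextD s = s := by
  unfold nextD
  rw [srch_zero h]
  simp

lemma nextD_stE_not {s : P.FSt} (h : ¬ IsDart s) (hex : ∃ j : ℕ, IsDart ((pE ^ j) s)) :
    nextD s.stE = nextD s := by
  unfold nextD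
  rw [srch_step h hex, pow_succ]
  rfl

lemma nextD_stE {s : P.FSt} (h : IsDart s) : nextD s.stE = (phi P ⟨s, h⟩).1 := rfl

lemma prevD_dart {s : P.FSt} (h : IsDart s) : prevD s = ((phi P).symm ⟨s, h⟩).1 := by
  have h1 : IsDart (prevD s) := retFun_spec ⟨0, by simpa using h⟩
  have h2 : phi P ⟨prevD s, h1⟩ = ⟨s, h⟩ := Subtype.ext (retFun_symm h)
  rw [← h2, Equiv.symm_apply_apply]

lemma prevD_stE {s : P.FSt} (h : IsDart s) : prevD s.stE = s := by
  have h1 : (pE.symm : Equiv.Perm P.FSt) s.stE = s := pE.symm_apply_apply s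
  have h2 := retFun_step (π := pE.symm) (p := IsDart) (x := s.stE) (by rw [h1]; exact h)
  unfold prevD
  rw [h2, h1]

lemma prevD_stE_not {s : P.FSt} (h : ¬ IsDart s)
    (hex : ∃ j : ℕ, IsDart (((pE.symm : Equiv.Perm P.FSt) ^ j) s.stE)) :
    prevD s.stE = prevD s := by
  have h1 : (pE.symm : Equiv.Perm P.FSt) s.stE = s := pE.symm_apply_apply s
  have h2 := retFun_step' (π := pE.symm) (p := IsDart) (x := s.stE) (by rw [h1]; exact h) hex
  unfold prevD
  rw [h2, h1]

lemma ext0_dart {R : Type*} [Zero R] (g : Dart P → R) {s : P.FSt} (h : IsDart s) :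
    ext0 g s = g ⟨s, h⟩ := by
  unfold ext0; rw [dif_pos h]

lemma ext0_not {R : Type*} [Zero R] (g : Dart P → R) {s : P.FSt} (h : ¬ IsDart s) :
    ext0 g s = 0 := by
  unfold ext0; rw [dif_neg h]

lemma theta_val (d : Dart P) : (theta P d).1 = ((rN P) d).1.r2 := rfl

/-- the bottom dart of the previous dart -/
lemma phi_symm_r2 (d : Dart P) : (phi P).symm (r2D P d) = r2D P (phi P d) := by
  rw [Equiv.symm_apply_eq]
  exact (phi_r2 P d).symm

/-- dart of the opposite side: the previous dart on the ring -/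
lemma theta_r2 (d : Dart P) : ((theta P) (r2D P d)).1 = retFun pN.symm IsDart d.1 := by
  have h1 : IsDart (retFun pN.symm IsDart d.1) := retFun_spec ⟨0, by simpa using d.2⟩
  have h2 : theta P ⟨retFun pN.symm IsDart d.1, h1⟩ = r2D P d := by
    apply Subtype.ext
    show (retFun pN IsDart (retFun pN.symm IsDart d.1)).r2 = d.1.r2
    rw [retFun_symm d.2]
  have h3 := theta_theta P ⟨retFun pN.symm IsDart d.1, h1⟩
  rw [h2] at h3
  rw [h3]

lemma isDart_prevN (d : Dart P) : IsDart (retFun pN.symm IsDart d.1) :=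
  retFun_spec ⟨0, by simpa using d.2⟩

lemma strip_prevN (E : Data P) (d : Dart P) :
    E.stripL (retFun pN.symm IsDart d.1) = E.A.lam (r2D P d) ∧
    E.stripR (retFun pN.symm IsDart d.1) = E.A.lam (theta P (r2D P d)) ∧
    E.stripM (retFun pN.symm IsDart d.1) = E.A.rt (r2D P d) := by
  have h1 := isDart_prevN d
  have h2 : (⟨retFun pN.symm IsDart d.1, h1⟩ : Dart P) = theta P (r2D P d) :=
    Subtype.ext (theta_r2 d).symm
  unfold Data.stripL Data.stripR Data.stripM
  rw [dif_pos h1, dif_pos h1, ext0_dart _ h1, h2, theta_theta]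
  exact ⟨rfl, rfl, E.A.rtθ _⟩

lemma strip_dart (E : Data P) (d : Dart P) :
    E.stripL d.1 = E.A.lam (theta P d) ∧ E.stripR d.1 = E.A.lam d ∧ E.stripM d.1 = E.A.rt d := by
  unfold Data.stripL Data.stripR Data.stripM
  rw [dif_pos d.2, dif_pos d.2, ext0_dart _ d.2]
  exact ⟨rfl, rfl, rfl⟩

/-- the sum of all changes on a side -/
lemma dlt_theta (E : Data P) (d : Dart P) :
    dlt (E.A.lam (theta P d)) = - E.A.dv ((phi P).symm d) - E.A.bx ((phi P).symm d) := by
  have := E.A.dlt_lam_nu ((phi P).symm d)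
  rw [nu_apply, Equiv.apply_symm_apply] at this
  exact this

section Sides

variable (E : Data P)

lemma lo_y {s : Wl P} (h : IsDart s.1) :
    E.lo s = 4 - E.A.dv (r2D P ⟨s.1, h⟩) - E.ub s := by
  unfold Data.lo
  rw [nextD_dart h, ext0_dart _ (show IsDart s.1.r2 from h)]
  rfl

lemma lo_y' {s : Wl P} (h : IsDart s.1) :
    E.lo (sig P s) = 4 - E.A.dv ((phi P).symm (r2D P ⟨s.1, h⟩)) - E.ub (sig P s) := by
  unfold Data.lo
  rw [sig_val, nextD_stE h, phi_symm_r2, ext0_dart _ (show IsDart (phi P ⟨s.1, h⟩).1.r2 from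
    (phi P ⟨s.1, h⟩).2)]
  rfl

lemma hi_y {s : Wl P} (h : IsDart s.1) :
    E.hi s = 10 + (if E.t s then 1 else 0) + E.A.dv ((phi P).symm ⟨s.1, h⟩) - E.ut s := by
  unfold Data.hi
  rw [prevD_dart h, ext0_dart _ ((phi P).symm ⟨s.1, h⟩).2]

lemma hi_y' {s : Wl P} (h : IsDart s.1) :
    E.hi (sig P s) = 10 + (if E.t s then 1 else 0) + E.A.dv ⟨s.1, h⟩ - E.ut (sig P s) := by
  unfold Data.hi
  rw [E.t_st, sig_val, prevD_stE h, ext0_dart _ h]

lemma not_sp_dart {s : Wl P} (h : IsDart s.1) : ¬ E.sp s := by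
  intro h1
  have := E.sp_x s h1
  rw [h.1] at this
  exact absurd this (by decide)

lemma ub_y {s : Wl P} (h : IsDart s.1) :
    E.ub (sig P s) = E.ub s + E.A.ft (r2D P ⟨s.1, h⟩) := by
  rw [E.ub_st s (not_sp_dart E h), ext0_dart _ (show IsDart s.1.r2 from h)]
  rfl

lemma ut_y {s : Wl P} (h : IsDart s.1) :
    E.ut (sig P s) = E.ut s + E.A.ft ⟨s.1, h⟩ := by
  rw [E.ut_st s (not_sp_dart E h), ext0_dart _ h]

lemma not_dart_x {s : P.FSt} (h : s.1.d.1 = 0) : ¬ IsDart s := by
  intro h1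
  rw [h1.1] at h
  exact absurd h (by decide)

lemma symm_ex (s : Wl P) : ∃ j : ℕ, IsDart (((pE.symm : Equiv.Perm P.FSt) ^ j) s.1) := by
  obtain ⟨j, hj⟩ := exists_dart P s
  have ho := orderOf_pos' (pE : Equiv.Perm P.FSt)
  refine ⟨(orderOf (pE : Equiv.Perm P.FSt)) * j - j, ?_⟩
  have h1 : ((pE.symm : Equiv.Perm P.FSt) ^ ((orderOf (pE : Equiv.Perm P.FSt)) * j - j)) s.1 =
      (pE ^ j) s.1 := by
    have e : (pE.symm : Equiv.Perm P.FSt) = pE⁻¹ := rfl
    rw [e, inv_pow]
    apply (pE ^ ((orderOf (pE : Equiv.Perm P.FSt)) * j - j)).injective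
    rw [← Equiv.Perm.mul_apply, mul_inv_cancel, ← Equiv.Perm.mul_apply, ← pow_add,
      Nat.sub_add_cancel (Nat.le_mul_of_pos_left j ho), pow_mul, pow_orderOf_eq_one, one_pow]
  rw [h1]
  exact hj

lemma lo_x {s : Wl P} (h : s.1.1.d.1 = 0) :
    E.lo (sig P s) + E.ub (sig P s) = E.lo s + E.ub s := by
  unfold Data.lo
  rw [sig_val, nextD_stE_not (not_dart_x h) (exists_dart P s)]
  ring

lemma hi_x {s : Wl P} (h : s.1.1.d.1 = 0) :
    E.hi (sig P s) + E.ut (sig P s) = E.hi s + E.ut s := by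
  unfold Data.hi
  rw [E.t_st, sig_val, prevD_stE_not (not_dart_x h) (symm_ex (sig P s))]
  ring

lemma ub_x {s : Wl P} (h : s.1.1.d.1 = 0) (hs : ¬ E.sp s) :
    E.ub (sig P s) = E.ub s ∧ E.ut (sig P s) = E.ut s := by
  rw [E.ub_st s hs, E.ut_st s hs, ext0_not _ (not_dart_x h),
    ext0_not _ (show ¬ IsDart s.1.r2 from not_dart_x h)]
  exact ⟨rfl, rfl⟩

lemma lo_bd (s : Wl P) : 1 ≤ E.lo s ∧ E.lo s ≤ 5 := by
  unfold Data.lo
  have h1 := E.ub_le s
  have h2 : -1 ≤ ext0 E.A.dv (nextD s.1).r2 ∧ ext0 E.A.dv (nextD s.1).r2 ≤ 1 := by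
    unfold ext0
    split_ifs
    · exact E.A.dv_le _
    · omega
  omega

lemma hi_bd (s : Wl P) : 7 ≤ E.hi s ∧ E.hi s ≤ 12 := by
  unfold Data.hi
  have h1 := E.ut_le s
  have h2 : -1 ≤ ext0 E.A.dv (prevD s.1) ∧ ext0 E.A.dv (prevD s.1) ≤ 1 := by
    unfold ext0
    split_ifs
    · exact E.A.dv_le _
    · omega
  split_ifs <;> omega

end Sides

end Conc

/-! ## The windows -/

section Windows

variable {P : GridSolid} (E : Data P)

lemma sub13 (n : ℕ) : n = 13 ∨ n ≠ 13 := eq_or_ne n 13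

open Classical in
/-- the wall state of a vertical facet, as an element of `Wl` -/
noncomputable def Wf (f : P.Facet) (h : f.1.2.1 ≠ 2) : Wl P := ⟨wst f, isW_wst h⟩

/-- lowest row on the west side of a `y`-facet -/
noncomputable def Data.ya (f : P.Facet) (h : f.1.2.1 ≠ 2) : ℤ :=
  if f.1.2.2 then 12 - E.hi (sig P (Wf f h)) else E.lo (Wf f h)

/-- highest row on the west side of a `y`-facet -/
noncomputable def Data.yb (f : P.Facet) (h : f.1.2.1 ≠ 2) : ℤ :=
  if f.1.2.2 then 12 - E.lo (sig P (Wf f h)) else E.hi (Wf f h)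

/-- lanes of the strip with outgoing dart `s` -/
noncomputable def Data.evS (s : P.FSt) (x : ℕ) : Ln := ev (E.stripL s) (E.stripM s) (E.stripR s) x

/-- changes on the strip with outgoing dart `s` -/
noncomputable def Data.acS (s : P.FSt) (x : ℕ) : ℤ := ac (E.stripL s) (E.stripM s) (E.stripR s) x

lemma acS_succ (s : P.FSt) (x : ℕ) : E.acS s (x + 1) = E.acS s x + dlt (E.evS s x) :=
  ac_succ _ _ _ _

lemma acS_zero (s : P.FSt) : E.acS s 0 = 0 := ac_zero _ _ _

lemma wst_front {f : P.Facet} (h : f.1.2.1 = 1) (h2 : f.1.2.2 = false) : wst f = can f := by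
  unfold wst
  rw [if_neg]
  intro h3
  rw [h3] at h2
  exact absurd h2 (by decide)

lemma wst_back {f : P.Facet} (h : f.1.2.1 = 1) (h2 : f.1.2.2 = true) : wst f = (can f).r2 := by
  unfold wst
  rw [if_pos]
  exact Prod.ext h h2

lemma wst_x {f : P.Facet} (h : f.1.2.1 = 0) : wst f = can f := by
  unfold wst
  rw [if_neg]
  intro h3
  rw [h3] at h
  exact absurd h (by decide)

/-- the changes in the lanes of a `y`-facet -/
lemma y_data (f : P.Facet) (h : f.1.2.1 = 1) (x : ℕ) :
    (x ≤ 13 → 0 ≤ E.ya f (by rw [h]; decide) + E.acS (retFun pN.symm IsDart (can f)) x ∧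
      E.ya f (by rw [h]; decide) + E.acS (retFun pN.symm IsDart (can f)) x ≤ 5 ∧
      7 ≤ E.yb f (by rw [h]; decide) + E.acS (can f) x ∧
      E.yb f (by rw [h]; decide) + E.acS (can f) x ≤ 12) := by
  intro _
  have hne : f.1.2.1 ≠ 2 := by rw [h]; decide
  set d : Dart P := ⟨can f, isDart_can h⟩ with hd
  have s1 := strip_prevN E d
  have s2 := strip_dart E d
  unfold Data.acS
  rw [s1.1, s1.2.1, s1.2.2, s2.1, s2.2.1, s2.2.2]
  have a1 := E.A.dlt_lam d
  have a2 := dlt_theta E d
  have a3 := E.A.dlt_lam (r2D P d)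
  have a4 := dlt_theta E (r2D P d)
  have f1 := E.A.ft_eq d
  have f2 := E.A.ft_eq (r2D P d)
  have c1 := E.A.dv_le d
  have c2 := E.A.dv_le ((phi P).symm d)
  have c3 := E.A.dv_le (r2D P d)
  have c4 := E.A.dv_le ((phi P).symm (r2D P d))
  have e1 := E.A.bx_le d
  have e2 := E.A.bx_le ((phi P).symm d)
  have e3 := E.A.bx_le (r2D P d)
  have e4 := E.A.bx_le ((phi P).symm (r2D P d))
  have hb1 := lo_bd E (Wf f hne)
  have hb2 := lo_bd E (sig P (Wf f hne))
  have hb3 := hi_bd E (Wf f hne)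
  have hb4 := hi_bd E (sig P (Wf f hne))
  have u1 := E.ub_le (Wf f hne)
  have u2 := E.ub_le (sig P (Wf f hne))
  have u3 := E.ut_le (Wf f hne)
  have u4 := E.ut_le (sig P (Wf f hne))
  unfold Data.ya Data.yb
  cases hf : f.1.2.2
  · -- front
    have hw : wst f = can f := wst_front h hf
    have hdart : IsDart (Wf f hne).1 := by
      show IsDart (wst f)
      rw [hw]; exact isDart_can h
    have hdd : (⟨(Wf f hne).1, hdart⟩ : Dart P) = d := Subtype.ext hw
    have l1 := lo_y E hdart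
    have l2 := lo_y' E hdart
    have h1 := hi_y E hdart
    have h2 := hi_y' E hdart
    have v1 := ub_y E hdart
    have v2 := ut_y E hdart
    rw [hdd] at l1 l2 h1 h2 v1 v2
    simp only [Bool.false_eq_true, if_false]
    unfold ac
    refine ⟨?_, ?_, ?_, ?_⟩ <;> split_ifs <;> omega
  · -- back
    have hw : wst f = (can f).r2 := wst_back h hf
    have hdart : IsDart (Wf f hne).1 := by
      show IsDart (wst f)
      rw [hw]; exact isDart_can h
    have hdd : (⟨(Wf f hne).1, hdart⟩ : Dart P) = r2D P d := Subtype.ext hw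
    have hrr : r2D P (r2D P d) = d := Subtype.ext (FSt.r2_r2 _)
    have l1 := lo_y E hdart
    have l2 := lo_y' E hdart
    have h1 := hi_y E hdart
    have h2 := hi_y' E hdart
    have v1 := ub_y E hdart
    have v2 := ut_y E hdart
    rw [hdd] at l1 l2 h1 h2 v1 v2
    rw [hrr] at l1 l2 v1
    simp only [if_true]
    unfold ac
    have ht : (if E.t (Wf f hne) = true then (1 : ℤ) else 0) = 0 ∨
        (if E.t (Wf f hne) = true then (1 : ℤ) else 0) = 1 := by
      split_ifs
      · right; rfl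
      · left; rfl
    generalize (if E.t (Wf f hne) = true then (1 : ℤ) else 0) = tt at *
    refine ⟨?_, ?_, ?_, ?_⟩ <;> split_ifs <;> omega

/-- the window of a `y`-facet -/
noncomputable def Data.winY (f : P.Facet) (h : f.1.2.1 = 1) : Win 13 :=
  winOf (fun x => E.ya f (by rw [h]; decide) + E.acS (retFun pN.symm IsDart (can f)) x)
    (fun x => E.yb f (by rw [h]; decide) + E.acS (can f) x) (fun _ => false)
    (fun x hx => y_data E f h x hx)
    (fun x _ _ => ⟨⟨E.evS (retFun pN.symm IsDart (can f)) x, by rw [acS_succ]; ring⟩,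
      ⟨E.evS (can f) x, by rw [acS_succ]; ring⟩⟩)
    (fun _ _ h => absurd h (by decide))

/-- the shift of a special facet -/
def shf (x : ℕ) : ℤ := if x ≤ 5 then 0 else if x = 6 then 1 else 2

open Classical in
/-- the window of an `x`-facet -/
noncomputable def Data.winX (f : P.Facet) (h : f.1.2.1 = 0) : Win 13 :=
  winOf (fun x => E.lo (Wf f (by rw [h]; decide)) +
      (if E.sp (Wf f (by rw [h]; decide)) then shf x else 0))
    (fun x => E.hi (Wf f (by rw [h]; decide)) +
      (if E.sp (Wf f (by rw [h]; decide)) then shf x else 0))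
    (fun x => decide (E.sp (Wf f (by rw [h]; decide)) ∧ (x = 5 ∨ x = 6)))
    (fun x _ => by
      have hne : f.1.2.1 ≠ 2 := by rw [h]; decide
      have hx0 : (Wf f hne).1.1.d.1 = 0 := by
        show (wst f).1.d.1 = 0
        rw [wst_x h]; exact h
      have hb1 := lo_bd E (Wf f hne)
      have hb3 := hi_bd E (Wf f hne)
      have hb2 := lo_bd E (sig P (Wf f hne))
      have hb4 := hi_bd E (sig P (Wf f hne))
      by_cases hs : E.sp (Wf f hne)
      · have g1 := lo_x E hx0
        have g2 := hi_x E hx0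
        have g3 := E.ub_sp _ hs
        have g4 := E.ut_sp _ hs
        rw [g3.1, g3.2] at g1
        rw [g4.1, g4.2] at g2
        simp only [if_pos hs]
        unfold shf
        split_ifs <;> omega
      · simp only [if_neg hs]
        omega)
    (fun x hx hsh => by
      have hne : f.1.2.1 ≠ 2 := by rw [h]; decide
      by_cases hs : E.sp (Wf f hne)
      · have hx1 : ¬ (x = 5 ∨ x = 6) := by
          intro h5
          rw [decide_eq_false_iff_not] at hsh
          exact hsh ⟨hs, h5⟩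
        have : shf (x + 1) = shf x := by
          unfold shf; split_ifs <;> omega
        refine ⟨⟨Ln.o, ?_⟩, ⟨Ln.o, ?_⟩⟩
        · simp only [this, dlt, add_zero]
        · simp only [this, dlt, add_zero]
      · refine ⟨⟨Ln.o, ?_⟩, ⟨Ln.o, ?_⟩⟩
        · simp only [if_neg hs, dlt, add_zero]
        · simp only [if_neg hs, dlt, add_zero])
    (fun x hx hsh => by
      have hne : f.1.2.1 ≠ 2 := by rw [h]; decide
      rw [decide_eq_true_eq] at hsh
      have hs := hsh.1
      have : shf (x + 1) = shf x + 1 := by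
        rcases hsh.2 with h5 | h5 <;> subst h5 <;> rfl
      simp only [if_pos hs, this]
      constructor <;> ring)

lemma axis_y {f : P.Facet} (h0 : f.1.2.1 ≠ 0) (h2 : f.1.2.1 ≠ 2) : f.1.2.1 = 1 := by
  revert h0 h2
  generalize f.1.2.1 = a
  revert a
  decide

/-- the window of a wall facet -/
noncomputable def Data.win (f : P.Facet) (h2 : f.1.2.1 ≠ 2) : Win 13 :=
  if h0 : f.1.2.1 = 0 then E.winX f h0 else E.winY f (axis_y h0 h2)

/-- the table of the strands -/
noncomputable def Data.prT (f : P.Facet) : ℕ → ℕ → Bool :=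
  if h2 : f.1.2.1 = 2 then fun _ _ => false else (E.win f h2).pr

/-- the table of the lanes -/
noncomputable def Data.laT (f : P.Facet) : ℕ → ℕ → Pool.Agent.Helper55.UNF.Ln :=
  if h2 : f.1.2.1 = 2 then fun x _ => toLn (E.evS (ringD f) x) else (E.win f h2).la

lemma prT_z {f : P.Facet} (h : f.1.2.1 = 2) : E.prT f = fun _ _ => false := by
  unfold Data.prT; rw [dif_pos h]

lemma laT_z {f : P.Facet} (h : f.1.2.1 = 2) :
    E.laT f = fun x _ => toLn (E.evS (ringD f) x) := by
  unfold Data.laT; rw [dif_pos h]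

lemma prT_x {f : P.Facet} (h : f.1.2.1 = 0) : E.prT f = (E.winX f h).pr := by
  unfold Data.prT Data.win
  rw [dif_neg (by rw [h]; decide), dif_pos h]

lemma laT_x {f : P.Facet} (h : f.1.2.1 = 0) : E.laT f = (E.winX f h).la := by
  unfold Data.laT Data.win
  rw [dif_neg (by rw [h]; decide), dif_pos h]

lemma prT_y {f : P.Facet} (h : f.1.2.1 = 1) : E.prT f = (E.winY f h).pr := by
  unfold Data.prT Data.win
  rw [dif_neg (by rw [h]; decide), dif_neg (by rw [h]; decide)]

lemma laT_y {f : P.Facet} (h : f.1.2.1 = 1) : E.laT f = (E.winY f h).la := by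
  unfold Data.laT Data.win
  rw [dif_neg (by rw [h]; decide), dif_neg (by rw [h]; decide)]

lemma axis_cases (f : P.Facet) : f.1.2.1 = 0 ∨ f.1.2.1 = 1 ∨ f.1.2.1 = 2 := by
  generalize f.1.2.1 = a
  revert a
  decide

/-- all cells are good -/
theorem cellOkT (f : P.Facet) : CellOk 13 (E.prT f) (E.laT f) := by
  rcases axis_cases f with h | h | h
  · rw [prT_x E h, laT_x E h]; exact (E.winX f h).ok
  · rw [prT_y E h, laT_y E h]; exact (E.winY f h).ok
  · rw [prT_z E h, laT_z E h]; exact cellOk_plain 13 _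

/-! ## The sides of the facets -/

/-- the lanes over the north side -/
theorem laT_top {f : P.Facet} (h : f.1.2.1 ≠ 0) {x : ℕ} (hx : x < 13) :
    E.laT f x 13 = toLn (E.evS (ringD f) x) := by
  rcases axis_cases f with h0 | h1 | h2
  · exact absurd h0 h
  · rw [laT_y E h1, Win.la_top _ hx]
    have hr : ringD f = can f := by
      unfold ringD
      rw [srch_zero (isDart_can h1)]
      simp
    rw [hr]
    unfold Win.top
    rw [if_neg (by show ¬ (false = true); decide)]
    have b1 := y_data E f h1 x hx.le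
    have b2 := y_data E f h1 (x + 1) hx
    have key := lnd_dlt (a := E.yb f (by rw [h1]; decide) + E.acS (can f) x)
      (b := E.yb f (by rw [h1]; decide) + E.acS (can f) (x + 1)) (L := E.evS (can f) x)
      (by rw [acS_succ]; ring) (by omega) (by omega)
    exact key
  · rw [laT_z E h2]

/-- the lanes over the south side of a `y`-facet -/
theorem laT_bot_y {f : P.Facet} (h1 : f.1.2.1 = 1) {x : ℕ} (hx : x < 13) :
    E.laT f x 0 = toLn (E.evS (retFun pN.symm IsDart (can f)) x) := by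
  rw [laT_y E h1, Win.la_bot]
  unfold Win.bot
  rw [if_neg (by show ¬ (false = true); decide)]
  have b1 := y_data E f h1 x hx.le
  have b2 := y_data E f h1 (x + 1) hx
  have key := lnd_dlt
    (a := E.ya f (by rw [h1]; decide) + E.acS (retFun pN.symm IsDart (can f)) x)
    (b := E.ya f (by rw [h1]; decide) + E.acS (retFun pN.symm IsDart (can f)) (x + 1))
    (L := E.evS (retFun pN.symm IsDart (can f)) x)
    (by rw [acS_succ]; ring) (by omega) (by omega)
  exact key

open Classical in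
theorem laT_x_top {f : P.Facet} (h : f.1.2.1 = 0) {x : ℕ} (hx : x < 13) :
    E.laT f x 13 = .z ∧ E.laT f x 0 = .z := by
  rw [laT_x E h, Win.la_top _ hx, Win.la_bot]
  have hne : f.1.2.1 ≠ 2 := by rw [h]; decide
  unfold Win.top Win.bot
  cases hs : (E.winX f h).sh x
  · simp only [Bool.false_eq_true, if_false]
    have hs' : ¬ (E.sp (Wf f hne) ∧ (x = 5 ∨ x = 6)) := by
      have : decide (E.sp (Wf f hne) ∧ (x = 5 ∨ x = 6)) = false := hs
      simpa using this
    have key : (if E.sp (Wf f hne) then shf (x + 1) else 0) = if E.sp (Wf f hne) then shf x else 0 := by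
      by_cases h1 : E.sp (Wf f hne)
      · rw [if_pos h1, if_pos h1]
        have h5 : ¬ (x = 5 ∨ x = 6) := fun h5 => hs' ⟨h1, h5⟩
        unfold shf; split_ifs <;> omega
      · rw [if_neg h1, if_neg h1]
    have e1 : (E.winX f h).hi (x + 1) = (E.winX f h).hi x := by
      show (E.hi (Wf f hne) + _).toNat = (E.hi (Wf f hne) + _).toNat
      rw [key]
    have e2 : (E.winX f h).lo (x + 1) = (E.winX f h).lo x := by
      show (E.lo (Wf f hne) + _).toNat = (E.lo (Wf f hne) + _).toNat
      rw [key]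
    rw [e1, e2]
    unfold lnd
    constructor <;> rw [if_neg (by omega), if_neg (by omega)]
  · simp

open Classical in
/-- the presence of a strand in row `y` at the east side of a state -/
noncomputable def Data.prE (s : P.FSt) (y : ℕ) : Bool :=
  if h : IsW s then decide (E.lo (sig P ⟨s, h⟩) ≤ y ∧ (y : ℤ) ≤ E.hi (sig P ⟨s, h⟩))
  else if h' : IsW s.r2 then decide (12 - E.hi ⟨s.r2, h'⟩ ≤ y ∧ (y : ℤ) ≤ 12 - E.lo ⟨s.r2, h'⟩)
  else false

lemma not_isW_r2 {s : P.FSt} (h : IsW s) : ¬ IsW s.r2 := by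
  unfold IsW at h ⊢
  have h1 : s.r2.1.n = opp s.1.n := cross_opp_right _ _ s.2.2
  rw [h1, h]
  decide

lemma prE_stE (s : P.FSt) (hs : IsW s ∨ IsW s.r2) {y : ℕ} (hy : y ≤ 12) :
    E.prE s.stE.r2 (12 - y) = E.prE s y := by
  have hc : ((12 - y : ℕ) : ℤ) = 12 - y := by omega
  rcases hs with h | h
  · have h1 : IsW s.stE := (IsW_stE s).2 h
    have h2 : ¬ IsW s.stE.r2 := not_isW_r2 h1
    have h3 : IsW s.stE.r2.r2 := by rw [FSt.r2_r2]; exact h1
    unfold Data.prE
    rw [dif_neg h2, dif_pos h3, dif_pos h]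
    have e : (⟨s.stE.r2.r2, h3⟩ : Wl P) = sig P ⟨s, h⟩ := Subtype.ext (FSt.r2_r2 _)
    rw [e, hc]
    congr 1
    apply propext
    constructor <;> intro ⟨h4, h5⟩ <;> constructor <;> omega
  · have h2 : ¬ IsW s := by
      intro h1
      exact not_isW_r2 h1 h
    have h1 : IsW s.stE.r2 := by
      have : IsW s.stE.r2.stE := by rw [FSt.stE_inv]; exact h
      exact (IsW_stE _).1 this
    unfold Data.prE
    rw [dif_pos h1, dif_neg h2, dif_pos h]
    have e : sig P (⟨s.stE.r2, h1⟩ : Wl P) = ⟨s.r2, h⟩ := Subtype.ext (FSt.stE_inv s)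
    rw [e, hc]
    congr 1
    apply propext
    constructor <;> intro ⟨h4, h5⟩ <;> constructor <;> omega

end Windows

section Glue

variable {P : GridSolid} (E : Data P)

lemma can_of_e {s : P.FSt} (h : s.1.e = (0, true)) : s = can s.facet ∧ s.facet.1.2.1 ≠ 0 := by
  obtain ⟨⟨c, d, e⟩, hs⟩ := s
  have h' : e = (0, true) := h
  subst h'
  have hd : d.1 ≠ 0 := hs.2
  refine ⟨?_, hd⟩
  apply FSt.ext'
  show (⟨c, d, (0, true)⟩ : St) = ⟨c, d, canE d⟩
  unfold canE
  rw [if_neg hd]

lemma can_or {s : P.FSt} (h : s.1.n.1 = 2) :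
    (s = can s.facet ∨ s = (can s.facet).r2) ∧ s.facet.1.2.1 ≠ 2 := by
  obtain ⟨⟨c, d, e⟩, hs⟩ := s
  have hd : d.1 ≠ e.1 := hs.2
  have h' : (cross d e).1 = 2 := h
  have key : ∀ d e : Dir, d.1 ≠ e.1 → (cross d e).1 = 2 → (e = canE d ∨ e = opp (canE d)) ∧ d.1 ≠ 2 := by
    decide
  obtain ⟨k1, k2⟩ := key d e hd h'
  refine ⟨?_, k2⟩
  rcases k1 with k1 | k1
  · left
    apply FSt.ext'
    show (⟨c, d, e⟩ : St) = ⟨c, d, canE d⟩
    rw [k1]
  · right
    apply FSt.ext'
    show (⟨c, d, e⟩ : St) = ⟨c, d, opp (canE d)⟩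
    rw [k1]

lemma can_n (f : P.Facet) : f.1.2.1 = 2 ↔ (can f).1.n.1 ≠ 2 := by
  show f.1.2.1 = 2 ↔ (cross f.1.2 (canE f.1.2)).1 ≠ 2
  have key : ∀ d : Dir, d.1 = 2 ↔ (cross d (canE d)).1 ≠ 2 := by decide
  exact key _

lemma can_e (f : P.Facet) : f.1.2.1 ≠ 0 ↔ (can f).1.e = (0, true) := by
  show f.1.2.1 ≠ 0 ↔ canE f.1.2 = (0, true)
  have key : ∀ d : Dir, d.1 ≠ 0 ↔ canE d = (0, true) := by decide
  exact key _

lemma r2_n_axis (s : P.FSt) : s.r2.1.n.1 = s.1.n.1 := by
  have h1 : s.r2.1.n = opp s.1.n := cross_opp_right _ _ s.2.2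
  rw [h1]; rfl

lemma stE_n (s : P.FSt) : s.stE.1.n = s.1.n := P.stepE_n s.1 s.2.2

lemma can_isW {f : P.Facet} (h : f.1.2.1 ≠ 2) : IsW (can f) ∨ IsW (can f).r2 := by
  have h1 : (can f).1.n.1 = 2 := by
    by_contra h2
    exact h ((can_n f).2 h2)
  have key : ∀ d : Dir, d.1 = 2 → d = (2, true) ∨ opp d = (2, true) := by decide
  rcases key _ h1 with h2 | h2
  · exact Or.inl h2
  · right
    show (can f).r2.1.n = (2, true)
    have h3 : (can f).r2.1.n = opp (can f).1.n := cross_opp_right _ _ (can f).2.2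
    rw [h3]; exact h2

lemma toNat_le_iff {a : ℤ} (ha : 0 ≤ a) (y : ℕ) : a.toNat ≤ y ↔ a ≤ y := by omega
lemma le_toNat_iff {a : ℤ} (ha : 0 ≤ a) (y : ℕ) : y ≤ a.toNat ↔ (y : ℤ) ≤ a := by omega

lemma evS_out {x : ℕ} (h : x = 0 ∨ x = 12) (s : P.FSt) : E.evS s x = Ln.o := by
  unfold Data.evS ev
  rcases h with h | h <;> subst h <;> simp

/-- total change on a strip -/
lemma acS_total (s : P.FSt) {x : ℕ} (hx : 12 ≤ x) :
    E.acS s x = dlt (E.stripL s) + (if 1 ≤ E.stripM s then -1 else 0) +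
      (if 2 ≤ E.stripM s then -1 else 0) + dlt (E.stripR s) := by
  unfold Data.acS ac
  have e1 : 1 < x := by omega
  have e2 : 5 < x := by omega
  have e3 : 7 < x := by omega
  have e4 : 11 < x := by omega
  simp only [e1, e2, e3, e4, true_and, if_true]

/-- the window of a `y`-facet at its two sides -/
lemma y_sides (f : P.Facet) (h : f.1.2.1 = 1) :
    E.ya f (by rw [h]; decide) + E.acS (retFun pN.symm IsDart (can f)) 13 =
      (if f.1.2.2 then 12 - E.hi (Wf f (by rw [h]; decide)) else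
        E.lo (sig P (Wf f (by rw [h]; decide)))) ∧
    E.yb f (by rw [h]; decide) + E.acS (can f) 13 =
      (if f.1.2.2 then 12 - E.lo (Wf f (by rw [h]; decide)) else
        E.hi (sig P (Wf f (by rw [h]; decide)))) := by
  have hne : f.1.2.1 ≠ 2 := by rw [h]; decide
  set d : Dart P := ⟨can f, isDart_can h⟩ with hd
  have s1 := strip_prevN E d
  have s2 := strip_dart E d
  rw [acS_total E _ (by norm_num), acS_total E _ (by norm_num)]
  rw [s1.1, s1.2.1, s1.2.2]
  have s2' : E.stripL (can f) = E.A.lam (theta P d) ∧ E.stripR (can f) = E.A.lam d ∧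
    E.stripM (can f) = E.A.rt d := s2
  rw [s2'.1, s2'.2.1, s2'.2.2]
  have a1 := E.A.dlt_lam d
  have a2 := dlt_theta E d
  have a3 := E.A.dlt_lam (r2D P d)
  have a4 := dlt_theta E (r2D P d)
  have f1 := E.A.ft_eq d
  have f2 := E.A.ft_eq (r2D P d)
  have u2 := E.ub_le (sig P (Wf f hne))
  have u4 := E.ut_le (sig P (Wf f hne))
  unfold Data.ya Data.yb
  cases hf : f.1.2.2
  · -- front
    have hw : wst f = can f := wst_front h hf
    have hdart : IsDart (Wf f hne).1 := by
      show IsDart (wst f)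
      rw [hw]; exact isDart_can h
    have hdd : (⟨(Wf f hne).1, hdart⟩ : Dart P) = d := Subtype.ext hw
    have l1 := lo_y E hdart
    have l2 := lo_y' E hdart
    have h1 := hi_y E hdart
    have h2 := hi_y' E hdart
    have v1 := ub_y E hdart
    have v2 := ut_y E hdart
    rw [hdd] at l1 l2 h1 h2 v1 v2
    simp only [Bool.false_eq_true, if_false]
    constructor <;> split_ifs <;> omega
  · -- back
    have hw : wst f = (can f).r2 := wst_back h hf
    have hdart : IsDart (Wf f hne).1 := by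
      show IsDart (wst f)
      rw [hw]; exact isDart_can h
    have hdd : (⟨(Wf f hne).1, hdart⟩ : Dart P) = r2D P d := Subtype.ext hw
    have hrr : r2D P (r2D P d) = d := Subtype.ext (FSt.r2_r2 _)
    have l1 := lo_y E hdart
    have l2 := lo_y' E hdart
    have h1 := hi_y E hdart
    have h2 := hi_y' E hdart
    have v1 := ub_y E hdart
    have v2 := ut_y E hdart
    rw [hdd] at l1 l2 h1 h2 v1 v2
    rw [hrr] at l1 l2 v1
    simp only [if_true]
    constructor <;> split_ifs <;> omega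

lemma win_pr_eq (w : Win 13) (x y : ℕ) : w.pr x y = decide (w.lo x ≤ y ∧ y ≤ w.hi x) := rfl

open Classical in
/-- the strands over the east side of a wall facet -/
theorem prT_east {f : P.Facet} (h2 : f.1.2.1 ≠ 2) (y : ℕ) : E.prT f 13 y = E.prE (can f) y := by
  rcases axis_cases f with h | h | h
  · rw [prT_x E h, win_pr_eq]
    have hw : wst f = can f := wst_x h
    have hW : IsW (can f) := by rw [← hw]; exact isW_wst h2
    have hx0 : (Wf f h2).1.1.d.1 = 0 := by
      show (wst f).1.d.1 = 0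
      rw [wst_x h]; exact h
    have e : (⟨can f, hW⟩ : Wl P) = Wf f h2 := Subtype.ext hw.symm
    unfold Data.prE
    rw [dif_pos hW, e]
    have hb2 := lo_bd E (sig P (Wf f h2))
    have hb4 := hi_bd E (sig P (Wf f h2))
    have k : E.lo (Wf f h2) + (if E.sp (Wf f h2) then shf 13 else 0) = E.lo (sig P (Wf f h2)) ∧
        E.hi (Wf f h2) + (if E.sp (Wf f h2) then shf 13 else 0) = E.hi (sig P (Wf f h2)) := by
      have g1 := lo_x E hx0
      have g2 := hi_x E hx0
      by_cases hs : E.sp (Wf f h2)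
      · have g3 := E.ub_sp _ hs
        have g4 := E.ut_sp _ hs
        rw [g3.1, g3.2] at g1
        rw [g4.1, g4.2] at g2
        simp only [if_pos hs]
        unfold shf
        constructor <;> norm_num <;> omega
      · have g3 := ub_x E hx0 hs
        rw [g3.1] at g1
        rw [g3.2] at g2
        simp only [if_neg hs]
        constructor <;> omega
    show decide ((E.lo (Wf f h2) + (if E.sp (Wf f h2) then shf 13 else 0)).toNat ≤ y ∧
      y ≤ (E.hi (Wf f h2) + (if E.sp (Wf f h2) then shf 13 else 0)).toNat) = _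
    rw [k.1, k.2]
    congr 1
    apply propext
    constructor <;> intro ⟨h4, h5⟩ <;> constructor <;> omega
  · rw [prT_y E h, win_pr_eq]
    obtain ⟨k1, k2⟩ := y_sides E f h
    show decide ((E.ya f h2 + E.acS (retFun pN.symm IsDart (can f)) 13).toNat ≤ y ∧
      y ≤ (E.yb f h2 + E.acS (can f) 13).toNat) = _
    rw [k1, k2]
    have hb1 := lo_bd E (Wf f h2)
    have hb2 := lo_bd E (sig P (Wf f h2))
    have hb3 := hi_bd E (Wf f h2)
    have hb4 := hi_bd E (sig P (Wf f h2))
    cases hf : f.1.2.2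
    · have hw : wst f = can f := wst_front h hf
      have hW : IsW (can f) := by rw [← hw]; exact isW_wst h2
      have e : (⟨can f, hW⟩ : Wl P) = Wf f h2 := Subtype.ext hw.symm
      unfold Data.prE
      rw [dif_pos hW, e]
      simp only [Bool.false_eq_true, if_false]
      congr 1
      apply propext
      constructor <;> intro ⟨h4, h5⟩ <;> constructor <;> omega
    · have hw : wst f = (can f).r2 := wst_back h hf
      have hW : IsW (can f).r2 := by rw [← hw]; exact isW_wst h2
      have hnW : ¬ IsW (can f) := fun h' => not_isW_r2 h' hW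
      have e : (⟨(can f).r2, hW⟩ : Wl P) = Wf f h2 := Subtype.ext hw.symm
      unfold Data.prE
      rw [dif_neg hnW, dif_pos hW, e]
      simp only [if_true]
      congr 1
      apply propext
      constructor <;> intro ⟨h4, h5⟩ <;> constructor <;> omega
  · exact absurd h h2

open Classical in
/-- the strands over the west side of a wall facet -/
theorem prT_west {f : P.Facet} (h2 : f.1.2.1 ≠ 2) {y : ℕ} (hy : y ≤ 12) :
    E.prT f 0 y = E.prE (can f).r2 (12 - y) := by
  have hc : ((12 - y : ℕ) : ℤ) = 12 - y := by omega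
  rcases axis_cases f with h | h | h
  · rw [prT_x E h, win_pr_eq]
    have hw : wst f = can f := wst_x h
    have hW : IsW (can f) := by rw [← hw]; exact isW_wst h2
    have hnW : ¬ IsW (can f).r2 := not_isW_r2 hW
    have hW2 : IsW (can f).r2.r2 := by rw [FSt.r2_r2]; exact hW
    have e : (⟨(can f).r2.r2, hW2⟩ : Wl P) = Wf f h2 :=
      Subtype.ext ((FSt.r2_r2 _).trans hw.symm)
    unfold Data.prE
    rw [dif_neg hnW, dif_pos hW2, e]
    have hb2 := lo_bd E (Wf f h2)
    have hb4 := hi_bd E (Wf f h2)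
    show decide ((E.lo (Wf f h2) + (if E.sp (Wf f h2) then shf 0 else 0)).toNat ≤ y ∧
      y ≤ (E.hi (Wf f h2) + (if E.sp (Wf f h2) then shf 0 else 0)).toNat) = _
    have k : (if E.sp (Wf f h2) then shf 0 else 0) = 0 := by
      unfold shf; simp
    rw [k, hc]
    congr 1
    apply propext
    constructor <;> intro ⟨h4, h5⟩ <;> constructor <;> omega
  · rw [prT_y E h, win_pr_eq]
    show decide ((E.ya f h2 + E.acS (retFun pN.symm IsDart (can f)) 0).toNat ≤ y ∧
      y ≤ (E.yb f h2 + E.acS (can f) 0).toNat) = _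
    rw [acS_zero, acS_zero]
    unfold Data.ya Data.yb
    have hb1 := lo_bd E (Wf f h2)
    have hb2 := lo_bd E (sig P (Wf f h2))
    have hb3 := hi_bd E (Wf f h2)
    have hb4 := hi_bd E (sig P (Wf f h2))
    cases hf : f.1.2.2
    · have hw : wst f = can f := wst_front h hf
      have hW : IsW (can f) := by rw [← hw]; exact isW_wst h2
      have hnW : ¬ IsW (can f).r2 := not_isW_r2 hW
      have hW2 : IsW (can f).r2.r2 := by rw [FSt.r2_r2]; exact hW
      have e : (⟨(can f).r2.r2, hW2⟩ : Wl P) = Wf f h2 :=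
        Subtype.ext ((FSt.r2_r2 _).trans hw.symm)
      unfold Data.prE
      rw [dif_neg hnW, dif_pos hW2, e, hc]
      simp only [Bool.false_eq_true, if_false]
      congr 1
      apply propext
      constructor <;> intro ⟨h4, h5⟩ <;> constructor <;> omega
    · have hw : wst f = (can f).r2 := wst_back h hf
      have hW : IsW (can f).r2 := by rw [← hw]; exact isW_wst h2
      have e : (⟨(can f).r2, hW⟩ : Wl P) = Wf f h2 := Subtype.ext hw.symm
      unfold Data.prE
      rw [dif_pos hW, e, hc]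
      simp only [if_true]
      congr 1
      apply propext
      constructor <;> intro ⟨h4, h5⟩ <;> constructor <;> omega
  · exact absurd h h2

/-! ### The gluing conditions -/

lemma axis2_of_stE {f g : P.Facet} (h : (can f).stE = can g ∨ (can f).stE = (can g).r2) :
    f.1.2.1 = 2 ↔ g.1.2.1 = 2 := by
  rw [can_n, can_n]
  have h1 : (can f).stE.1.n.1 = (can f).1.n.1 := by rw [stE_n]
  rcases h with h | h
  · rw [h] at h1; rw [h1]
  · rw [h, r2_n_axis] at h1; rw [h1]

theorem gE_T (f g : P.Facet) (h : (can f).stE = can g) (y : ℕ) (hy : y < 13) :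
    E.prT f 13 y = E.prT g 0 y := by
  by_cases h2 : f.1.2.1 = 2
  · have h3 := (axis2_of_stE (Or.inl h)).1 h2
    rw [prT_z E h2, prT_z E h3]
  · have h3 : g.1.2.1 ≠ 2 := fun h3 => h2 ((axis2_of_stE (Or.inl h)).2 h3)
    rw [prT_east E h2, prT_west E h3 (by omega), ← h, prE_stE E _ (can_isW h2) (by omega)]

theorem gEr_T (f g : P.Facet) (h : (can f).stE = (can g).r2) (y : ℕ) (hy : y < 13) :
    E.prT f 13 y = E.prT g 13 (13 - 1 - y) := by
  by_cases h2 : f.1.2.1 = 2
  · have h3 := (axis2_of_stE (Or.inr h)).1 h2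
    rw [prT_z E h2, prT_z E h3]
  · have h3 : g.1.2.1 ≠ 2 := fun h3 => h2 ((axis2_of_stE (Or.inr h)).2 h3)
    have h4 : can g = (can f).stE.r2 := by rw [h, FSt.r2_r2]
    rw [prT_east E h2, prT_east E h3, h4, show 13 - 1 - y = 12 - y by omega,
      prE_stE E _ (can_isW h2) (by omega)]

theorem gWr_T (f g : P.Facet) (h : (can f).r2.stE = can g) (y : ℕ) (hy : y < 13) :
    E.prT f 0 y = E.prT g 0 (13 - 1 - y) := by
  have h1 : (can f).r2.stE.1.n.1 = (can f).r2.1.n.1 := by rw [stE_n]
  rw [h, r2_n_axis] at h1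
  by_cases h2 : f.1.2.1 = 2
  · have h3 : g.1.2.1 = 2 := by
      rw [can_n, h1, ← can_n]; exact h2
    rw [prT_z E h2, prT_z E h3]
  · have h3 : g.1.2.1 ≠ 2 := by
      intro h3
      rw [can_n, h1, ← can_n] at h3
      exact h2 h3
    have hW : IsW (can f).r2 ∨ IsW (can f).r2.r2 := by
      rw [FSt.r2_r2]; exact (can_isW h2).symm
    rw [prT_west E h2 (by omega), prT_west E h3 (by omega), ← h,
      show 12 - (13 - 1 - y) = 12 - (12 - y) by omega, prE_stE E _ hW (by omega)]

theorem gE'_T (f : P.Facet) (h : ∀ g, (can f).stE ≠ can g ∧ (can f).stE ≠ (can g).r2) (y : ℕ)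
    (_ : y < 13) : E.prT f 13 y = false := by
  by_cases h2 : f.1.2.1 = 2
  · rw [prT_z E h2]
  · exfalso
    have h1 : (can f).stE.1.n.1 = 2 := by
      rw [stE_n]
      by_contra h3
      exact h2 ((can_n f).2 h3)
    rcases (can_or h1).1 with h3 | h3
    · exact (h _).1 h3
    · exact (h _).2 h3

theorem gW'_T (f : P.Facet) (h : ∀ g, (can f).r2.stE ≠ can g ∧ (can f).r2.stE ≠ (can g).r2)
    (y : ℕ) (_ : y < 13) : E.prT f 0 y = false := by
  by_cases h2 : f.1.2.1 = 2
  · rw [prT_z E h2]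
  · exfalso
    have h1 : (can f).r2.stE.1.n.1 = 2 := by
      rw [stE_n, r2_n_axis]
      by_contra h3
      exact h2 ((can_n f).2 h3)
    rcases (can_or h1).1 with h3 | h3
    · exact (h _).1 h3
    · exact (h _).2 h3

lemma stN_axis {f g : P.Facet} (h : (can f).stN = can g) : f.1.2.1 ≠ 0 ↔ g.1.2.1 ≠ 0 := by
  rw [can_e, can_e]
  have h1 := FSt.stN_e (can f)
  rw [h] at h1
  rw [h1]

lemma prevN_stN {f g : P.Facet} (h : (can f).stN = can g) :
    retFun pN.symm IsDart (can g) = ringD f := by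
  have h1 : (pN.symm : Equiv.Perm P.FSt) (can g) = can f := by
    rw [← h]; exact pN.symm_apply_apply _
  unfold retFun ringD
  rw [h1]

lemma ringD_stN {f g : P.Facet} (h : (can f).stN = can g) (hz : g.1.2.1 = 2) :
    ringD g = ringD f := by
  have h1 : (pN.symm : Equiv.Perm P.FSt) (can g) = can f := by
    rw [← h]; exact pN.symm_apply_apply _
  have hnd : ¬ IsDart (can g) := by
    intro h2
    have : g.1.2.1 = 1 := h2.1
    rw [this] at hz
    exact absurd hz (by decide)
  have hex : ∃ j : ℕ, IsDart (((pN.symm : Equiv.Perm P.FSt) ^ j) (can g)) := by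
    have := exists_dart_ring P g (by rw [hz]; decide) false
    simpa using this
  unfold ringD
  rw [srch_step hnd hex, pow_succ, Equiv.Perm.mul_apply, h1]

theorem gN_T (f g : P.Facet) (h : (can f).stN = can g) (x : ℕ) (hx : x < 13) :
    E.laT f x 13 = E.laT g x 0 := by
  by_cases h0 : f.1.2.1 = 0
  · have h1 : g.1.2.1 = 0 := by
      by_contra h2
      exact (stN_axis h).2 h2 h0
    rw [(laT_x_top E h0 hx).1, (laT_x_top E h1 hx).2]
  · have h1 : g.1.2.1 ≠ 0 := (stN_axis h).1 h0
    rw [laT_top E h0 hx]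
    rcases axis_cases g with h2 | h2 | h2
    · exact absurd h2 h1
    · rw [laT_bot_y E h2 hx, prevN_stN h]
    · rw [laT_z E h2, ringD_stN h h2]

theorem gN'_T (f : P.Facet) (h : ∀ g, (can f).stN ≠ can g) (x : ℕ) (hx : x < 13) :
    E.laT f x 13 = .z := by
  by_cases h0 : f.1.2.1 = 0
  · exact (laT_x_top E h0 hx).1
  · exfalso
    have h1 : (can f).stN.1.e = (0, true) := by
      rw [FSt.stN_e]; exact (can_e f).1 h0
    exact h _ (can_of_e h1).1

theorem gS'_T (g : P.Facet) (h : ∀ f, (can f).stN ≠ can g) (x : ℕ) (hx : x < 13) :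
    E.laT g x 0 = .z := by
  by_cases h0 : g.1.2.1 = 0
  · exact (laT_x_top E h0 hx).2
  · exfalso
    set s : P.FSt := (pN.symm : Equiv.Perm P.FSt) (can g) with hs
    have h2 : s.stN = can g := pN.apply_symm_apply (can g)
    have h1 : s.1.e = (0, true) := by
      rw [← FSt.stN_e, h2]; exact (can_e g).1 h0
    apply h s.facet
    rw [← (can_of_e h1).1]
    exact h2

/-- row 6 is occupied on every vertical line of a wall -/
theorem prT_six {f : P.Facet} (h2 : f.1.2.1 ≠ 2) {x : ℕ} (hx : x ≤ 13) : E.prT f x 6 = true := by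
  rcases axis_cases f with h | h | h
  · rw [prT_x E h]
    apply (Win.pr_true _).2
    classical
    have hb1 := lo_bd E (Wf f h2)
    have hb3 := hi_bd E (Wf f h2)
    have hb2 := lo_bd E (sig P (Wf f h2))
    have hb4 := hi_bd E (sig P (Wf f h2))
    have hx0 : (Wf f h2).1.1.d.1 = 0 := by
      show (wst f).1.d.1 = 0
      rw [wst_x h]; exact h
    have g1 := lo_x E hx0
    have g2 := hi_x E hx0
    show (E.lo (Wf f h2) + _).toNat ≤ 6 ∧ 6 ≤ (E.hi (Wf f h2) + _).toNat
    by_cases hs : E.sp (Wf f h2)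
    · have g3 := E.ub_sp _ hs
      have g4 := E.ut_sp _ hs
      rw [g3.1, g3.2] at g1
      rw [g4.1, g4.2] at g2
      rw [if_pos hs]
      unfold shf
      split_ifs <;> omega
    · rw [if_neg hs]
      omega
  · rw [prT_y E h]
    apply (Win.pr_true _).2
    have b := y_data E f h x hx
    show (E.ya f h2 + E.acS (retFun pN.symm IsDart (can f)) x).toNat ≤ 6 ∧
      6 ≤ (E.yb f h2 + E.acS (can f) x).toNat
    omega
  · exact absurd h h2

lemma pow_e (z : ℤ) {s : P.FSt} (h : s.1.e = (0, true)) : ((pN ^ z) s).1.e = (0, true) := by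
  have key : ∀ (n : ℕ) (s : P.FSt), ((pN ^ n) s).1.e = s.1.e := by
    intro n
    induction n with
    | zero => intro s; rfl
    | succ n ih =>
      intro s
      rw [pow_succ, Equiv.Perm.mul_apply, ih]
      exact FSt.stN_e s
  obtain ⟨n, hn | hn⟩ := z.eq_nat_or_neg
  · rw [hn, zpow_natCast, key, h]
  · rw [hn, zpow_neg, zpow_natCast]
    have h1 := key n ((pN ^ n)⁻¹ s)
    rw [← Equiv.Perm.mul_apply, mul_inv_cancel] at h1
    rw [← h1]; exact h

theorem cov_T (f : P.Facet) (x : ℕ) (hx : x < 13) :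
    ∃ z : ℤ, (∀ y ∈ Set.uIcc 0 z, ∃ g, (pN ^ y) (can f) = can g) ∧
      ∃ g, (pN ^ z) (can f) = can g ∧ ∃ y < 13, E.prT g x y = true ∧ E.prT g (x + 1) y = true := by
  by_cases h2 : f.1.2.1 = 2
  · have he : (can f).1.e = (0, true) := (can_e f).1 (by rw [h2]; decide)
    obtain ⟨j, hj⟩ := exists_dart_ring P f (by rw [h2]; decide) true
    have hj' : IsDart ((pN ^ (j : ℤ)) (can f)) := by
      rw [zpow_natCast]; simpa using hj
    refine ⟨j, fun y _ => ⟨_, (can_of_e (pow_e y he)).1⟩, _, (can_of_e (pow_e j he)).1, 6,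
      by norm_num, ?_⟩
    have h3 : ((pN ^ (j : ℤ)) (can f)).facet.1.2.1 ≠ 2 := by
      have : ((pN ^ (j : ℤ)) (can f)).facet.1.2.1 = 1 := hj'.1
      rw [this]; decide
    exact ⟨prT_six E h3 hx.le, prT_six E h3 hx⟩
  · refine ⟨0, fun y hy => ⟨f, ?_⟩, f, by simp, 6, by norm_num, prT_six E h2 hx.le,
      prT_six E h2 hx⟩
    simp only [Set.uIcc_self, Set.mem_singleton_iff] at hy
    rw [hy]; simp

/-- The hypotheses on the predicates in the field `conn` of a table. -/
structure InvT (ψ χ : P.Facet → ℕ → ℕ → Prop) : Prop where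
  cell : ∀ f, CellRel 13 (E.prT f) (E.laT f) (ψ f) (χ f)
  north : ∀ f g, (can f).stN = can g → ∀ x < 13, E.laT f x 13 ≠ .z → (χ f x 13 ↔ χ g x 0)
  east : ∀ f g, (can f).stE = can g → ∀ y < 13, E.prT f 13 y = true → (ψ f 13 y ↔ ψ g 0 y)
  eastr : ∀ f g, (can f).stE = (can g).r2 → ∀ y < 13, E.prT f 13 y = true →
    (ψ f 13 y ↔ ψ g 13 (13 - 1 - y))
  westr : ∀ f g, (can f).r2.stE = can g → ∀ y < 13, E.prT f 0 y = true →
    (ψ f 0 y ↔ ψ g 0 (13 - 1 - y))

/-- **A5.** The table of the construction; only connectivity is left. -/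
noncomputable def Data.tab (hne : Nonempty P.Facet)
    (hconn : ∀ ψ χ : P.Facet → ℕ → ℕ → Prop, InvT E ψ χ →
      ∃ c : Prop, (∀ f x y, x ≤ 13 → y < 13 → E.prT f x y = true → (ψ f x y ↔ c)) ∧
        (∀ f x y, x < 13 → y ≤ 13 → E.laT f x y ≠ .z → (χ f x y ↔ c))) : P.Tab 13 where
  hk := by norm_num
  can := can
  can_facet := can_facet
  pr := E.prT
  la := E.laT
  ok := fun f => cellOkT E f
  gN := gN_T E
  gN' := gN'_T E
  gS' := gS'_T E
  gE := gE_T E
  gEr := gEr_T E
  gWr := gWr_T E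
  gE' := gE'_T E
  gW' := gW'_T E
  cov := cov_T E
  conn := fun ψ χ h1 h2 h3 h4 h5 => hconn ψ χ ⟨h1, h2, h3, h4, h5⟩
  ne := hne

end Glue

end Pool.Agent.MP42
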