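import Pool.Agent.MP42.A5

/-!
# A6: strands (owner helper73)

From an invariant predicate on the cells to the coarse relations.  Suggested definitions for
`d = (f, out)` (east `+ x`): `vb d` = value of the cell `(24, 26)` of `f`, `va (φ⁻¹ d)` = cell `(2, 26)`;
for `d = (f, in)` (east `- x`): `vb d` = cell `(2, 0)`, `va (φ⁻¹ d)` = cell `(24, 0)`; root feet: cells
`(10, ·)`, `(14, ·)` in the same rows; `g`, `g'` = base strand (track `10 + t - ut` on top, `4 - ub`
at the bottom) at the two sides of the facet; ports: top: the highest strand on the east side of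
the foot, bottom: the lowest strand on the west side of the foot.
-/

set_option autoImplicit false
set_option linter.unusedSectionVars false

namespace Pool.Agent.MP42

open Pool.Agent.Helper55.UNF Pool.Agent.Helper55.UNF.GridSolid

variable {P : GridSolid} (E : Data P)

/-- `ψ` is constant along the curve -/
structure Inv (T : P.Facet → ℕ → ℕ → Ty) (ψ : P.Facet → ℕ → ℕ → Prop) : Prop where
  vN : ∀ f x y, x < 27 → y + 1 < 27 → (T f x y).goN = true → (ψ f x y ↔ ψ f x (y + 1))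
  vS : ∀ f x y, x < 27 → y + 1 < 27 → (T f x y).frN = true → (ψ f x y ↔ ψ f x (y + 1))
  hh : ∀ f x y, x + 1 < 27 → y < 27 → (T f x y).ep = true → (ψ f x y ↔ ψ f (x + 1) y)
  bN : ∀ f g, (can f).stN = can g → ∀ x < 27, (T f x 26).goN = true → (ψ f x 26 ↔ ψ g x 0)
  bS : ∀ f g, (can f).stN = can g → ∀ x < 27, (T f x 26).frN = true → (ψ f x 26 ↔ ψ g x 0)
  bE : ∀ f g, (can f).stE = can g → ∀ y < 27, (T f 26 y).ep = true → (ψ f 26 y ↔ ψ g 0 y)
  bEr : ∀ f g, (can f).stE = (can g).r2 → ∀ y < 27, (T f 26 y).ep = true →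
    (ψ f 26 y ↔ ψ g 26 (27 - 1 - y))
  bWr : ∀ f g, (can f).r2.stE = can g → ∀ y < 27, (T f 0 y).wp = true →
    (ψ f 0 y ↔ ψ g 0 (27 - 1 - y))

/-- the value of every cell of the curve is a value of `v`: if all values of `v` are equal to `c`, so
is the value of the cell -/
theorem exists_vals (ψ : P.Facet → ℕ → ℕ → Prop) (hψ : Inv E.T ψ) :
    ∃ v : Vals (Dart P), v.Loc E.A ∧ v.Across E ∧
      ∀ c : Prop, (∀ d, (v.g d ↔ c) ∧ (v.g' d ↔ c) ∧ (E.A.lam d ≠ Ln.o → (v.vb d ↔ c)) ∧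
        (E.A.lam (nu (theta P) (phi P) d) ≠ Ln.o → (v.va d ↔ c)) ∧
        (1 ≤ E.A.rt d → (v.vr d false ↔ c)) ∧ (2 ≤ E.A.rt d → (v.vr d true ↔ c)) ∧
        ∀ e, E.A.IsEv e → (v.vp e ↔ c)) →
      ∀ f x y, x < 27 → y < 27 → E.T f x y ≠ Ty.o → (ψ f x y ↔ c) := by
  sorry

end Pool.Agent.MP42
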