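import Pool.Agent.MP42.A5t

/-!
# A6, table form, part a: windows in the frames of the states (owner helper55)
-/

set_option autoImplicit false
set_option linter.unusedSectionVars false

namespace Pool.Agent.Helper55.UNF.Win

variable {k : ℕ}

lemma lo_le_hi (w : Win k) (hk : 0 < k) {x : ℕ} (hx : x ≤ k) : w.lo x ≤ w.hi x := by
  rcases Nat.lt_or_ge x k with h | h
  · cases hs : w.sh x
    · exact (w.n2 x h hs).1
    · exact (w.s0 x h hs).2.2
  · obtain ⟨y, rfl⟩ : ∃ y, x = y + 1 := ⟨x - 1, by omega⟩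
    cases hs : w.sh y
    · exact (w.n2 y (by omega) hs).2.2.2
    · have := w.s0 y (by omega) hs
      omega

/-- half turn of a window -/
def rot (w : Win k) : Win k where
  lo := fun x => k - 1 - w.hi (k - x)
  hi := fun x => k - 1 - w.lo (k - x)
  sh := fun x => w.sh (k - 1 - x)
  lt := fun x _ => by
    have := w.lt 0 (Nat.zero_le _)
    omega
  n0 := fun x hx hs => by
    have h1 := w.n1 (k - 1 - x) (by omega) hs
    have h2 := w.lt (k - 1 - x) (by omega)
    have h3 := w.lt (k - 1 - x + 1) (by omega)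
    rw [show k - x = k - 1 - x + 1 by omega, show k - (x + 1) = k - 1 - x by omega]
    omega
  n1 := fun x hx hs => by
    have h1 := w.n0 (k - 1 - x) (by omega) hs
    have h2 := w.lt (k - 1 - x) (by omega)
    have h3 := w.lt (k - 1 - x + 1) (by omega)
    have h4 := w.lo_le_hi (by omega) (x := k - 1 - x) (by omega)
    have h5 := w.lo_le_hi (by omega) (x := k - 1 - x + 1) (by omega)
    rw [show k - x = k - 1 - x + 1 by omega, show k - (x + 1) = k - 1 - x by omega]
    omega
  n2 := fun x hx hs => by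
    have h1 := w.n2 (k - 1 - x) (by omega) hs
    have h2 := w.lt (k - 1 - x) (by omega)
    have h3 := w.lt (k - 1 - x + 1) (by omega)
    rw [show k - x = k - 1 - x + 1 by omega, show k - (x + 1) = k - 1 - x by omega]
    omega
  s0 := fun x hx hs => by
    have h1 := w.s0 (k - 1 - x) (by omega) hs
    have h2 := w.lt (k - 1 - x) (by omega)
    have h3 := w.lt (k - 1 - x + 1) (by omega)
    rw [show k - x = k - 1 - x + 1 by omega, show k - (x + 1) = k - 1 - x by omega]
    omega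

lemma rot_lo (w : Win k) (x : ℕ) : w.rot.lo x = k - 1 - w.hi (k - x) := rfl
lemma rot_hi (w : Win k) (x : ℕ) : w.rot.hi x = k - 1 - w.lo (k - x) := rfl
lemma rot_sh (w : Win k) (x : ℕ) : w.rot.sh x = w.sh (k - 1 - x) := rfl

lemma rot_pr (w : Win k) {x y : ℕ} (hx : x ≤ k) (hy : y < k) :
    w.rot.pr x y = w.pr (k - x) (k - 1 - y) := by
  have h1 := w.lt (k - x) (by omega)
  have h2 := w.lo_le_hi (by omega) (x := k - x) (by omega)
  unfold pr
  rw [rot_lo, rot_hi]
  congr 1
  apply propext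
  constructor <;> intro h <;> omega

lemma rot_la (w : Win k) {x y : ℕ} (hx : x < k) (hy : y ≤ k) :
    w.rot.la x y = w.la (k - 1 - x) (k - y) := by
  have h1 := w.lt (k - 1 - x) (by omega)
  have h2 := w.lt (k - 1 - x + 1) (by omega)
  have h4 := w.lo_le_hi (by omega) (x := k - 1 - x) (by omega)
  have h5 := w.lo_le_hi (by omega) (x := k - 1 - x + 1) (by omega)
  unfold la
  rw [rot_lo, rot_hi, rot_lo, rot_hi, rot_sh]
  rw [show k - x = k - 1 - x + 1 by omega, show k - (x + 1) = k - 1 - x by omega]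
  cases hs : w.sh (k - 1 - x)
  · have h6 := w.n2 (k - 1 - x) (by omega) hs
    have h7 := w.n1 (k - 1 - x) (by omega) hs
    have h8 := w.n0 (k - 1 - x) (by omega) hs
    simp only [Bool.false_eq_true, if_false]
    unfold lnd
    split_ifs <;> first | rfl | (exfalso; omega)
  · have h6 := w.s0 (k - 1 - x) (by omega) hs
    simp only [if_true]
    split_ifs <;> first | rfl | (exfalso; omega)

variable {ψ χ : ℕ → ℕ → Prop}

lemma rel_rot (w : Win k) (h : CellRel k w.pr w.la ψ χ) :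
    CellRel k w.rot.pr w.rot.la (rV k ψ) (rH k χ) := by
  apply CellRel.unrot w.rot.ok
  intro x y hx hy p hp
  have e1 : ∀ x ≤ k, rV k w.rot.pr x y = w.pr x y := by
    intro x hx
    rw [rV_apply _ rfl rfl, rot_pr w (by omega) (by omega)]
    congr 1 <;> omega
  have e2 : ∀ y ≤ k, rH k w.rot.la x y = w.la x y := by
    intro y hy
    rw [rH_apply _ rfl rfl, rot_la w (by omega) (by omega)]
    congr 1 <;> omega
  rw [e1 x hx.le, e1 (x + 1) hx, e2 y hy.le, e2 (y + 1) hy] at hp ⊢
  exact h x y hx hy p hp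

/-- a strand runs straight -/
lemma straights (w : Win k) (hr : CellRel k w.pr w.la ψ χ) {x x' y : ℕ} (hxx : x ≤ x')
    (hx' : x' ≤ k) (hs : ∀ i, x ≤ i → i < x' → w.sh i = false)
    (hin : ∀ i, x ≤ i → i ≤ x' → w.lo i ≤ y ∧ y ≤ w.hi i) : ψ x y ↔ ψ x' y := by
  induction x', hxx using Nat.le_induction with
  | base => exact Iff.rfl
  | succ n hn ih =>
    rw [ih (by omega) (fun i h1 h2 => hs i h1 (by omega)) (fun i h1 h2 => hin i h1 (by omega))]
    have h1 := hin n hn (by omega)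
    have h2 := hin (n + 1) (by omega) le_rfl
    exact w.straight hr (by omega) (hs n hn (by omega)) h1.1 h1.2 h2.1 h2.2

/-- without entries and exits all strands keep their depth -/
lemma flow (w : Win k) (hr : CellRel k w.pr w.la ψ χ)
    (hc : ∀ x < k, w.sh x = true ∨ (w.hi (x + 1) = w.hi x ∧ w.lo (x + 1) = w.lo x)) (j : ℕ)
    (hj : w.lo 0 + j ≤ w.hi 0) : ∀ x ≤ k, w.lo x + j ≤ w.hi x ∧
      (ψ 0 (w.hi 0 - j) ↔ ψ x (w.hi x - j)) := by
  intro x
  induction x with
  | zero => intro _; exact ⟨hj, Iff.rfl⟩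
  | succ x ih =>
    intro hx
    obtain ⟨i1, i2⟩ := ih (by omega)
    cases hs : w.sh x
    · rcases hc x (by omega) with h | h
      · rw [hs] at h; exact absurd h (by decide)
      · refine ⟨by omega, i2.trans ?_⟩
        rw [h.1]
        exact w.straight hr (by omega) hs (by omega) (by omega) (by omega) (by omega)
    · obtain ⟨s1, s2, s3⟩ := w.s0 x (by omega) hs
      refine ⟨by omega, i2.trans ?_⟩
      have h1 := w.shift hr (y := w.hi x - j) (by omega) hs (by omega) (by omega)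
      rw [s2, show w.hi x + 1 - j = w.hi x - j + 1 by omega]
      exact h1.1.trans h1.2

end Pool.Agent.Helper55.UNF.Win

namespace Pool.Agent.MP42

open Pool.Agent.Helper55.UNF Pool.Agent.Helper55.UNF.GridSolid

variable {P : GridSolid}

/-- the state is on a wall facet, its north is up or down -/
def IsWl (s : P.FSt) : Prop := s.1.n.1 = 2

lemma isWl_r2 (s : P.FSt) : IsWl s.r2 ↔ IsWl s := by
  unfold IsWl; rw [r2_n_axis]

lemma isWl_stE (s : P.FSt) : IsWl s.stE ↔ IsWl s := by
  unfold IsWl; rw [stE_n]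

lemma isWl_of_W {s : P.FSt} (h : IsW s) : IsWl s := by
  unfold IsWl; rw [show s.1.n = (2, true) from h]

lemma isWl_or {s : P.FSt} (h : IsWl s) : (s = can s.facet ∨ s = (can s.facet).r2) ∧
    s.facet.1.2.1 ≠ 2 := can_or h

lemma isWl_can {f : P.Facet} (h : f.1.2.1 ≠ 2) : IsWl (can f) := by
  have h1 : (can f).1.n.1 = 2 := by
    by_contra h2
    exact h ((can_n f).2 h2)
  exact h1

lemma isWl_W {s : P.FSt} (h : IsWl s) : IsW s ∨ IsW s.r2 := by
  unfold IsWl at h
  have key : ∀ d : Dir, d.1 = 2 → d = (2, true) ∨ opp d = (2, true) := by decide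
  rcases key _ h with h2 | h2
  · exact Or.inl h2
  · right
    show s.r2.1.n = (2, true)
    have h3 : s.r2.1.n = opp s.1.n := cross_opp_right _ _ s.2.2
    rw [h3]; exact h2

lemma isWl_dart (d : Dart P) : IsWl d.1 := by
  have h1 : d.1.1.d.1 = 1 := d.2.1
  have h2 : d.1.1.e.1 = 0 := d.2.2
  have key : ∀ d e : Dir, d.1 = 1 → e.1 = 0 → (cross d e).1 = 2 := by decide
  exact key _ _ h1 h2

lemma r2_ne (s : P.FSt) : s.r2 ≠ s := by
  intro h
  have h1 : s.r2.1.e = s.1.e := by rw [h]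
  have h2 : s.r2.1.e = opp s.1.e := rfl
  rw [h2] at h1
  exact absurd h1 (by generalize s.1.e = e; revert e; decide)

lemma can_r2_ne (f : P.Facet) : (can f).r2 ≠ can f := r2_ne _

/-- a trivial window -/
def Win.triv : Win 13 where
  lo := fun _ => 0
  hi := fun _ => 0
  sh := fun _ => false
  lt := fun _ _ => by norm_num
  n0 := fun _ _ _ => Or.inl rfl
  n1 := fun _ _ _ => Or.inl rfl
  n2 := fun _ _ _ => ⟨le_rfl, le_rfl, le_rfl, le_rfl⟩
  s0 := fun _ _ h => absurd h (by decide)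

open Classical in
/-- the window of a wall state in its own frame -/
noncomputable def Data.wS (E : Data P) (s : P.FSt) : Win 13 :=
  if h2 : s.facet.1.2.1 = 2 then Win.triv
  else if s = can s.facet then E.win s.facet h2 else (E.win s.facet h2).rot

open Classical in
/-- a function on vertical unit edges, in the frame of the state -/
noncomputable def vS {α : Type*} (ψ : P.Facet → ℕ → ℕ → α) (s : P.FSt) : ℕ → ℕ → α :=
  if s = can s.facet then ψ s.facet else rV 13 (ψ s.facet)

open Classical in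
/-- a function on horizontal unit edges, in the frame of the state -/
noncomputable def hS {α : Type*} (χ : P.Facet → ℕ → ℕ → α) (s : P.FSt) : ℕ → ℕ → α :=
  if s = can s.facet then χ s.facet else rH 13 (χ s.facet)

lemma vS_can {α : Type*} (ψ : P.Facet → ℕ → ℕ → α) (f : P.Facet) : vS ψ (can f) = ψ f := by
  unfold vS; rw [if_pos (show can f = can (can f).facet from rfl)]; rfl

lemma hS_can {α : Type*} (χ : P.Facet → ℕ → ℕ → α) (f : P.Facet) : hS χ (can f) = χ f := by
  unfold hS; rw [if_pos (show can f = can (can f).facet from rfl)]; rfl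

lemma vS_can_r2 {α : Type*} (ψ : P.Facet → ℕ → ℕ → α) (f : P.Facet) :
    vS ψ (can f).r2 = rV 13 (ψ f) := by
  unfold vS; rw [if_neg (show (can f).r2 ≠ can (can f).r2.facet from can_r2_ne f)]; rfl

lemma hS_can_r2 {α : Type*} (χ : P.Facet → ℕ → ℕ → α) (f : P.Facet) :
    hS χ (can f).r2 = rH 13 (χ f) := by
  unfold hS; rw [if_neg (show (can f).r2 ≠ can (can f).r2.facet from can_r2_ne f)]; rfl

lemma vS_r2 {α : Type*} (ψ : P.Facet → ℕ → ℕ → α) {s : P.FSt} (h : IsWl s) {x y : ℕ}
    (hx : x ≤ 13) (hy : y ≤ 12) : vS ψ s.r2 x y = vS ψ s (13 - x) (12 - y) := by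
  rcases (isWl_or h).1 with h1 | h1
  · rw [h1, vS_can, vS_can_r2, rV_apply _ rfl rfl]
  · rw [h1, FSt.r2_r2, vS_can, vS_can_r2, rV_apply (ψ s.facet) rfl rfl]
    congr 1 <;> omega

lemma hS_r2 {α : Type*} (χ : P.Facet → ℕ → ℕ → α) {s : P.FSt} (h : IsWl s) {x y : ℕ}
    (hx : x ≤ 12) (hy : y ≤ 13) : hS χ s.r2 x y = hS χ s (12 - x) (13 - y) := by
  rcases (isWl_or h).1 with h1 | h1
  · rw [h1, hS_can, hS_can_r2, rH_apply _ rfl rfl]
  · rw [h1, FSt.r2_r2, hS_can, hS_can_r2, rH_apply (χ s.facet) rfl rfl]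
    congr 1 <;> omega

section

variable (E : Data P)

lemma wS_can {f : P.Facet} (h2 : f.1.2.1 ≠ 2) : E.wS (can f) = E.win f h2 := by
  unfold Data.wS
  rw [dif_neg (show ¬ (can f).facet.1.2.1 = 2 from h2),
    if_pos (show can f = can (can f).facet from rfl)]
  rfl

lemma wS_can_r2 {f : P.Facet} (h2 : f.1.2.1 ≠ 2) : E.wS (can f).r2 = (E.win f h2).rot := by
  unfold Data.wS
  rw [dif_neg (show ¬ (can f).r2.facet.1.2.1 = 2 from h2),
    if_neg (show (can f).r2 ≠ can (can f).r2.facet from can_r2_ne f)]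
  rfl

lemma wS_r2 {s : P.FSt} (h : IsWl s) {x : ℕ} (hx : x ≤ 13) :
    (E.wS s.r2).lo x = 12 - (E.wS s).hi (13 - x) ∧
    (E.wS s.r2).hi x = 12 - (E.wS s).lo (13 - x) := by
  obtain ⟨h0, h2⟩ := isWl_or h
  rcases h0 with h1 | h1
  · rw [h1, wS_can E h2, wS_can_r2 E h2]
    exact ⟨rfl, rfl⟩
  · rw [h1, FSt.r2_r2, wS_can E h2, wS_can_r2 E h2, Win.rot_lo, Win.rot_hi]
    rw [show 13 - (13 - x) = x by omega]
    have a := (E.win s.facet h2).lt x hx
    have b := (E.win s.facet h2).lo_le_hi (by norm_num) hx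
    omega

lemma wS_r2_sh {s : P.FSt} (h : IsWl s) {x : ℕ} (hx : x ≤ 12) :
    (E.wS s.r2).sh x = (E.wS s).sh (12 - x) := by
  obtain ⟨h0, h2⟩ := isWl_or h
  rcases h0 with h1 | h1
  · rw [h1, wS_can E h2, wS_can_r2 E h2]
    rfl
  · rw [h1, FSt.r2_r2, wS_can E h2, wS_can_r2 E h2, Win.rot_sh]
    rw [show 13 - 1 - (12 - x) = x by omega]

lemma prT_eq {f : P.Facet} (h2 : f.1.2.1 ≠ 2) : E.prT f = (E.win f h2).pr := by
  unfold Data.prT; rw [dif_neg h2]

lemma laT_eq {f : P.Facet} (h2 : f.1.2.1 ≠ 2) : E.laT f = (E.win f h2).la := by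
  unfold Data.laT; rw [dif_neg h2]

variable {E} {ψ χ : P.Facet → ℕ → ℕ → Prop}

/-- the relations in the frame of a wall state -/
lemma InvT.rel (I : InvT E ψ χ) {s : P.FSt} (h : IsWl s) :
    CellRel 13 (E.wS s).pr (E.wS s).la (vS ψ s) (hS χ s) := by
  obtain ⟨h0, h2⟩ := isWl_or h
  have h3 := I.cell s.facet
  rw [prT_eq E h2, laT_eq E h2] at h3
  rcases h0 with h1 | h1
  · rw [h1, wS_can E h2, vS_can, hS_can]
    exact h3
  · rw [h1, wS_can_r2 E h2, vS_can_r2, hS_can_r2]
    exact (E.win s.facet h2).rel_rot h3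

lemma prT_vS {s : P.FSt} (h : IsWl s) {x y : ℕ} (hx : x ≤ 13) (hy : y < 13) :
    vS E.prT s x y = (E.wS s).pr x y := by
  obtain ⟨h0, h2⟩ := isWl_or h
  rcases h0 with h1 | h1
  · rw [h1, wS_can E h2, vS_can, prT_eq E h2]
  · rw [h1, wS_can_r2 E h2, vS_can_r2, prT_eq E h2, Win.rot_pr _ hx hy, rV_apply _ rfl rfl]

/-- gluing at the east side -/
lemma InvT.gl (I : InvT E ψ χ) {s : P.FSt} (h : IsWl s) {y : ℕ} (hy : y < 13)
    (hp : (E.wS s).pr 13 y = true) : vS ψ s 13 y ↔ vS ψ s.stE 0 y := by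
  rw [← prT_vS h le_rfl hy] at hp
  have h' : IsWl s.stE := (isWl_stE s).2 h
  obtain ⟨h0, h2⟩ := isWl_or h
  obtain ⟨h0', h2'⟩ := isWl_or h'
  generalize hf : s.facet = f at *
  generalize hg : s.stE.facet = g at *
  rcases h0 with h1 | h1
  · rcases h0' with h3 | h3
    · rw [h3, h1, vS_can, vS_can]
      rw [h1, vS_can] at hp
      rw [h1] at h3
      exact I.east f g h3 y hy hp
    · rw [h3, h1, vS_can, vS_can_r2, rV_apply _ rfl rfl]
      rw [h1, vS_can] at hp
      rw [h1] at h3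
      exact I.eastr f g h3 y hy hp
  · rcases h0' with h3 | h3
    · rw [h3, h1, vS_can, vS_can_r2, rV_apply (ψ f) (x' := 0) (y' := 12 - y) rfl rfl]
      rw [h1, vS_can_r2, rV_apply _ (x' := 0) (y' := 12 - y) rfl rfl] at hp
      rw [h1] at h3
      have := I.westr f g h3 (12 - y) (by omega) hp
      rw [show 13 - 1 - (12 - y) = y by omega] at this
      exact this
    · have h4 : (can g).stE = can f := by
        have h5 : s.stE.r2.stE = s.r2 := FSt.stE_inv s
        rw [h3, FSt.r2_r2] at h5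
        rw [h5, h1, FSt.r2_r2]
      have h6 := gE_T E g f h4 (12 - y) (by omega)
      rw [h3, h1, vS_can_r2, vS_can_r2, rV_apply (ψ f) (x' := 0) (y' := 12 - y) rfl rfl,
        rV_apply (ψ g) (x' := 13) (y' := 12 - y) rfl rfl]
      rw [h1, vS_can_r2, rV_apply _ (x' := 0) (y' := 12 - y) rfl rfl] at hp
      rw [hp] at h6
      exact (I.east g f h4 (12 - y) (by omega) h6).symm

end

end Pool.Agent.MP42
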