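import Pool.Agent.MP42.A6a

/-!
# A6, table form, part b: rows of the windows (owner helper55)
-/

set_option autoImplicit false
set_option linter.unusedSectionVars false

namespace Pool.Agent.MP42

open Pool.Agent.Helper55.UNF Pool.Agent.Helper55.UNF.GridSolid

variable {P : GridSolid} (E : Data P)

lemma win_x {f : P.Facet} (h2 : f.1.2.1 ≠ 2) (h : f.1.2.1 = 0) : E.win f h2 = E.winX f h := by
  unfold Data.win; rw [dif_pos h]

lemma win_y {f : P.Facet} (h2 : f.1.2.1 ≠ 2) (h : f.1.2.1 = 1) : E.win f h2 = E.winY f h := by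
  unfold Data.win; rw [dif_neg (by rw [h]; decide)]

lemma wst_facet (f : P.Facet) : (wst f).facet = f := by
  unfold wst; split_ifs <;> rfl

lemma wst_W (s : Wl P) : s.1.facet.1.2.1 ≠ 2 ∧ wst s.1.facet = s.1 := by
  have h2 := (isWl_or (isWl_of_W s.2)).2
  refine ⟨h2, eq_of_facet_n (wst_facet _) ?_⟩
  rw [show (wst s.1.facet).1.n = (2, true) from isW_wst h2, show s.1.1.n = (2, true) from s.2]

/-- the rows at the two sides of a wall facet -/
lemma wS_sides (s : Wl P) : ((E.wS s.1).lo 0 : ℤ) = E.lo s ∧ ((E.wS s.1).hi 0 : ℤ) = E.hi s ∧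
    ((E.wS s.1).lo 13 : ℤ) = E.lo (sig P s) ∧ ((E.wS s.1).hi 13 : ℤ) = E.hi (sig P s) := by
  classical
  obtain ⟨h2, hw⟩ := wst_W s
  obtain ⟨f, hf⟩ : ∃ f, f = s.1.facet := ⟨_, rfl⟩
  rw [← hf] at h2 hw
  have hs : Wf f h2 = s := Subtype.ext hw
  have hb1 := lo_bd E s
  have hb2 := lo_bd E (sig P s)
  have hb3 := hi_bd E s
  have hb4 := hi_bd E (sig P s)
  rcases axis_cases f with h | h | h
  · have hx : s.1 = can f := by rw [← hw, wst_x h]
    have hx0 : s.1.1.d.1 = 0 := by rw [hx]; exact h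
    rw [hx, wS_can E h2, win_x E h2 h]
    have g1 := lo_x E hx0
    have g2 := hi_x E hx0
    have k : E.lo s + (if E.sp s then shf 13 else 0) = E.lo (sig P s) ∧
        E.hi s + (if E.sp s then shf 13 else 0) = E.hi (sig P s) := by
      by_cases hsp : E.sp s
      · have g3 := E.ub_sp _ hsp
        have g4 := E.ut_sp _ hsp
        rw [g3.1, g3.2] at g1
        rw [g4.1, g4.2] at g2
        simp only [if_pos hsp]
        unfold shf
        constructor <;> norm_num <;> omega
      · have g3 := ub_x E hx0 hsp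
        rw [g3.1] at g1
        rw [g3.2] at g2
        simp only [if_neg hsp]
        constructor <;> omega
    have k0 : (if E.sp s then shf 0 else 0) = 0 := by
      unfold shf; simp
    have e1 : (E.winX f h).lo 0 = (E.lo s + (if E.sp s then shf 0 else 0)).toNat := by
      rw [← hs]; rfl
    have e2 : (E.winX f h).hi 0 = (E.hi s + (if E.sp s then shf 0 else 0)).toNat := by
      rw [← hs]; rfl
    have e3 : (E.winX f h).lo 13 = (E.lo s + (if E.sp s then shf 13 else 0)).toNat := by
      rw [← hs]; rfl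
    have e4 : (E.winX f h).hi 13 = (E.hi s + (if E.sp s then shf 13 else 0)).toNat := by
      rw [← hs]; rfl
    rw [e1, e2, e3, e4, k.1, k.2, k0]
    omega
  · obtain ⟨k1, k2⟩ := y_sides E f h
    have e1 : (E.winY f h).lo 0 = (E.ya f h2 + E.acS (retFun pN.symm IsDart (can f)) 0).toNat := rfl
    have e2 : (E.winY f h).hi 0 = (E.yb f h2 + E.acS (can f) 0).toNat := rfl
    have e3 : (E.winY f h).lo 13 = (E.ya f h2 + E.acS (retFun pN.symm IsDart (can f)) 13).toNat :=
      rfl
    have e4 : (E.winY f h).hi 13 = (E.yb f h2 + E.acS (can f) 13).toNat := rfl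
    have k3 : E.ya f h2 = if f.1.2.2 then 12 - E.hi (sig P (Wf f h2)) else E.lo (Wf f h2) := rfl
    have k4 : E.yb f h2 = if f.1.2.2 then 12 - E.lo (sig P (Wf f h2)) else E.hi (Wf f h2) := rfl
    rw [acS_zero] at e1 e2
    rw [k1] at e3
    rw [k2] at e4
    rw [k3] at e1
    rw [k4] at e2
    cases hfb : f.1.2.2
    · have hx : s.1 = can f := by rw [← hw, wst_front h hfb]
      rw [hx, wS_can E h2, win_y E h2 h]
      simp only [hfb, Bool.false_eq_true, if_false, hs] at e1 e2 e3 e4
      omega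
    · have hx : s.1 = (can f).r2 := by rw [← hw, wst_back h hfb]
      rw [hx, wS_can_r2 E h2, win_y E h2 h]
      simp only [hfb, if_true, hs] at e1 e2 e3 e4
      simp only [Win.rot_lo, Win.rot_hi]
      norm_num only [Nat.sub_zero, Nat.sub_self]
      omega
  · exact absurd h h2

/-- the windows of consecutive wall states agree at the common side -/
lemma wS_glue {s : P.FSt} (h : IsWl s) : (E.wS s).lo 13 = (E.wS s.stE).lo 0 ∧
    (E.wS s).hi 13 = (E.wS s.stE).hi 0 := by
  rcases isWl_W h with hW | hW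
  · obtain ⟨-, -, h1, h1'⟩ := wS_sides E ⟨s, hW⟩
    obtain ⟨h2, h2', -, -⟩ := wS_sides E (sig P ⟨s, hW⟩)
    have e : (sig P ⟨s, hW⟩).1 = s.stE := rfl
    rw [e] at h2 h2'
    have k1 : ((E.wS s).lo 13 : ℤ) = E.lo (sig P ⟨s, hW⟩) := h1
    have k2 : ((E.wS s).hi 13 : ℤ) = E.hi (sig P ⟨s, hW⟩) := h1'
    constructor <;> omega
  · have h' : IsWl s.stE := (isWl_stE s).2 h
    have hW' : IsW s.stE.r2 := by
      have : IsW s.stE.r2.stE := by rw [FSt.stE_inv]; exact hW
      exact (IsW_stE _).1 this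
    have h1 := wS_sides E ⟨s.r2, hW⟩
    have h2 := wS_sides E ⟨s.stE.r2, hW'⟩
    have e : sig P (⟨s.stE.r2, hW'⟩ : Wl P) = ⟨s.r2, hW⟩ := Subtype.ext (FSt.stE_inv s)
    rw [e] at h2
    have r1 := wS_r2 E h (x := 0) (by norm_num)
    have r2 := wS_r2 E h' (x := 13) le_rfl
    have b1 := (E.wS s).lt 13 le_rfl
    have b2 := (E.wS s).lo_le_hi (by norm_num) (x := 13) le_rfl
    have b3 := (E.wS s.stE).lt 0 (by norm_num)
    have b4 := (E.wS s.stE).lo_le_hi (by norm_num) (x := 0) (by norm_num)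
    norm_num only [Nat.sub_zero, Nat.sub_self] at r1 r2
    simp only at h1 h2
    constructor <;> omega

/-- on the `x`-facets the strands are straight or shifted -/
lemma wS_x {s : P.FSt} (h : IsWl s) (hd : s.1.d.1 = 0) : ∀ x < 13, (E.wS s).sh x = true ∨
    ((E.wS s).hi (x + 1) = (E.wS s).hi x ∧ (E.wS s).lo (x + 1) = (E.wS s).lo x) := by
  classical
  obtain ⟨h0, h2⟩ := isWl_or h
  have hf : s.facet.1.2.1 = 0 := hd
  have key : ∀ x < 13, (E.winX s.facet hf).sh x = true ∨
      ((E.winX s.facet hf).hi (x + 1) = (E.winX s.facet hf).hi x ∧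
        (E.winX s.facet hf).lo (x + 1) = (E.winX s.facet hf).lo x) := by
    intro x hx
    by_cases hc : E.sp (Wf s.facet h2) ∧ (x = 5 ∨ x = 6)
    · left
      exact decide_eq_true hc
    · right
      have k : (if E.sp (Wf s.facet h2) then shf (x + 1) else 0) =
          if E.sp (Wf s.facet h2) then shf x else 0 := by
        by_cases h1 : E.sp (Wf s.facet h2)
        · rw [if_pos h1, if_pos h1]
          have h5 : ¬ (x = 5 ∨ x = 6) := fun h5 => hc ⟨h1, h5⟩
          unfold shf; split_ifs <;> omega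
        · rw [if_neg h1, if_neg h1]
      constructor
      · show (E.hi (Wf s.facet h2) + (if E.sp (Wf s.facet h2) then shf (x + 1) else 0)).toNat =
          (E.hi (Wf s.facet h2) + (if E.sp (Wf s.facet h2) then shf x else 0)).toNat
        rw [k]
      · show (E.lo (Wf s.facet h2) + (if E.sp (Wf s.facet h2) then shf (x + 1) else 0)).toNat =
          (E.lo (Wf s.facet h2) + (if E.sp (Wf s.facet h2) then shf x else 0)).toNat
        rw [k]
  rcases h0 with h1 | h1
  · rw [h1, wS_can E h2, win_x E h2 hf]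
    exact key
  · rw [h1, wS_can_r2 E h2, win_x E h2 hf]
    intro x hx
    have := key (12 - x) (by omega)
    simp only [Win.rot_lo, Win.rot_hi, Win.rot_sh]
    rw [show 13 - x = 12 - x + 1 by omega, show 13 - (x + 1) = 12 - x by omega,
      show 13 - 1 - x = 12 - x by omega]
    rcases this with h3 | h3
    · exact Or.inl h3
    · right; omega

lemma wS_x_nsp {s : Wl P} (hd : s.1.1.d.1 = 0) (hs : ¬ E.sp s) (x : ℕ) :
    (E.wS s.1).sh x = false := by
  classical
  obtain ⟨h2, hw⟩ := wst_W s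
  have hf : s.1.facet.1.2.1 = 0 := hd
  have hWf : Wf s.1.facet h2 = s := Subtype.ext hw
  have hx : s.1 = can s.1.facet := by
    conv_lhs => rw [← hw]
    exact wst_x hf
  rw [hx, wS_can E h2, win_x E h2 hf]
  show decide (E.sp (Wf s.1.facet h2) ∧ _) = false
  rw [hWf, decide_eq_false_iff_not]
  exact fun h => hs h.1

/-! ### The sides of the darts -/

lemma wS_dart_sh (d : Dart P) (x : ℕ) : (E.wS d.1).sh x = false := by
  obtain ⟨h0, h2⟩ := isWl_or (isWl_dart d)
  have hf : d.1.facet.1.2.1 = 1 := d.2.1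
  rcases h0 with h1 | h1
  · rw [h1, wS_can E h2, win_y E h2 hf]; rfl
  · rw [h1, wS_can_r2 E h2, win_y E h2 hf]; rfl

open Classical in
/-- the dart goes out of the strip end: its frame is the canonical one -/
noncomputable def out (d : Dart P) : Bool := decide (d.1 = can d.1.facet)

/-- the event in column `x` of the north side of the dart `d` -/
noncomputable def Data.eD (d : Dart P) (x : ℕ) : Ln :=
  if x = 1 then E.A.lam (theta P d)
  else if x = 5 then (if (if out d then 1 else 2) ≤ E.A.rt d then Ln.N else Ln.o)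
  else if x = 7 then (if (if out d then 2 else 1) ≤ E.A.rt d then Ln.N else Ln.o)
  else if x = 11 then E.A.lam d else Ln.o

lemma wS_dart (d : Dart P) {x : ℕ} (hx : x < 13) :
    ((E.wS d.1).hi (x + 1) : ℤ) = (E.wS d.1).hi x + dlt (E.eD d x) := by
  obtain ⟨h0, h2⟩ := isWl_or (isWl_dart d)
  have hf : d.1.facet.1.2.1 = 1 := d.2.1
  have b1 := y_data E d.1.facet hf
  rcases h0 with h1 | h1
  · have e : E.eD d x = E.evS (can d.1.facet) x := by
      have s1 := strip_dart E d
      unfold Data.evS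
      rw [← h1, s1.1, s1.2.1, s1.2.2]
      unfold Data.eD ev out
      rw [decide_eq_true h1]
      simp only [if_true]
    rw [e]
    have hw : E.wS d.1 = E.winY d.1.facet hf := by
      conv_lhs => rw [h1]
      rw [wS_can E h2, win_y E h2 hf]
    rw [hw]
    have b2 := b1 x hx.le
    have b3 := b1 (x + 1) hx
    have e1 : (E.winY d.1.facet hf).hi x = (E.yb d.1.facet h2 + E.acS (can d.1.facet) x).toNat := rfl
    have e2 : (E.winY d.1.facet hf).hi (x + 1) =
      (E.yb d.1.facet h2 + E.acS (can d.1.facet) (x + 1)).toNat := rfl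
    rw [e1, e2]
    simp only [acS_succ] at b3 ⊢
    omega
  · have hout : ¬ (d.1 = can d.1.facet) := by
      intro h3
      rw [h3] at h1
      exact can_r2_ne _ h1.symm
    have e : E.eD d x = E.evS (retFun pN.symm IsDart (can d.1.facet)) (12 - x) := by
      have s1 := strip_dart E (theta P d)
      have s2 : retFun pN.symm IsDart (can d.1.facet) = (theta P d).1 := by
        have := theta_r2 (r2D P d)
        rw [show r2D P (r2D P d) = d from Subtype.ext (FSt.r2_r2 _)] at this
        rw [this]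
        congr 1
        show can d.1.facet = d.1.r2
        conv_rhs => rw [h1]
        rw [FSt.r2_r2]
      unfold Data.evS
      rw [s2, s1.1, s1.2.1, s1.2.2, theta_theta, E.A.rtθ]
      unfold Data.eD ev out
      rw [decide_eq_false hout]
      simp only [Bool.false_eq_true, if_false]
      by_cases c1 : x = 1
      · subst c1; simp
      by_cases c2 : x = 5
      · subst c2; simp
      by_cases c3 : x = 7
      · subst c3; simp
      by_cases c4 : x = 11
      · subst c4; simp
      rw [if_neg c1, if_neg c2, if_neg c3, if_neg c4, if_neg (by omega), if_neg (by omega),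
        if_neg (by omega), if_neg (by omega)]
    rw [e]
    have hw : E.wS d.1 = (E.winY d.1.facet hf).rot := by
      conv_lhs => rw [h1]
      rw [wS_can_r2 E h2, win_y E h2 hf]
    rw [hw, Win.rot_hi, Win.rot_hi]
    rw [show 13 - x = 12 - x + 1 by omega, show 13 - (x + 1) = 12 - x by omega]
    have b2 := b1 (12 - x) (by omega)
    have b3 := b1 (12 - x + 1) (by omega)
    have e1 : (E.winY d.1.facet hf).lo (12 - x) = (E.ya d.1.facet h2 +
      E.acS (retFun pN.symm IsDart (can d.1.facet)) (12 - x)).toNat := rfl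
    have e2 : (E.winY d.1.facet hf).lo (12 - x + 1) = (E.ya d.1.facet h2 +
      E.acS (retFun pN.symm IsDart (can d.1.facet)) (12 - x + 1)).toNat := rfl
    rw [e1, e2]
    simp only [acS_succ] at b3 ⊢
    omega

lemma rt_le (d : Dart P) : E.A.rt d ≤ 2 := by
  rcases dart_cases P d with h | h
  · have h1 := ut_y E (s := ⟨d.1, h.1⟩) d.2
    have h2 := E.ut_le (sig P ⟨d.1, h.1⟩)
    have h3 := E.A.ft_eq d
    have h4 : E.A.ft ⟨d.1, d.2⟩ = E.A.ft d := rfl
    rw [h4] at h1
    omega
  · have h1 := ub_y E (s := ⟨d.1.r2, h.2⟩) d.2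
    have h2 := E.ub_le (sig P ⟨d.1.r2, h.2⟩)
    have h3 := E.A.ft_eq d
    have h4 : E.A.ft (r2D P ⟨d.1.r2, d.2⟩) = E.A.ft d := by
      congr 1
      exact Subtype.ext (FSt.r2_r2 _)
    have h5 : E.A.ft (r2D P ⟨(⟨d.1.r2, h.2⟩ : Wl P).1, d.2⟩) = E.A.ft d := h4
    rw [h5] at h1
    omega

/-- the base level of a side: number of the highest row without feet and corrections -/
noncomputable def Data.base (d : Dart P) : ℤ :=
  (E.wS d.1).hi 0 - E.A.dv ((phi P).symm d)

/-- the highest rows on the vertical lines of a side -/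
lemma hi_line (d : Dart P) :
    (∀ x ≤ 1, ((E.wS d.1).hi x : ℤ) = E.base d + E.A.dv ((phi P).symm d)) ∧
    (∀ x, 2 ≤ x → x ≤ 5 → ((E.wS d.1).hi x : ℤ) = E.base d - E.A.bx ((phi P).symm d)) ∧
    (∀ x, 6 ≤ x → x ≤ 7 → ((E.wS d.1).hi x : ℤ) = E.base d - E.A.bx ((phi P).symm d) -
      (if (if out d then 1 else 2) ≤ E.A.rt d then 1 else 0)) ∧
    (∀ x, 8 ≤ x → x ≤ 11 → ((E.wS d.1).hi x : ℤ) = E.base d - E.A.bx ((phi P).symm d) -
      E.A.rt d) ∧
    (∀ x, 12 ≤ x → x ≤ 13 → ((E.wS d.1).hi x : ℤ) = E.base d - E.A.bx ((phi P).symm d) -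
      E.A.rt d - E.A.bx d + E.A.dv d) := by
  have hd := dlt_theta E d
  have hl := E.A.dlt_lam d
  have hrt := rt_le E d
  have h := fun x (hx : x < 13) => wS_dart E d hx
  have h0 := h 0 (by norm_num)
  have h1 := h 1 (by norm_num)
  have h2 := h 2 (by norm_num)
  have h3 := h 3 (by norm_num)
  have h4 := h 4 (by norm_num)
  have h5 := h 5 (by norm_num)
  have h6 := h 6 (by norm_num)
  have h7 := h 7 (by norm_num)
  have h8 := h 8 (by norm_num)
  have h9 := h 9 (by norm_num)
  have h10 := h 10 (by norm_num)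
  have h11 := h 11 (by norm_num)
  have h12 := h 12 (by norm_num)
  unfold Data.eD at h0 h1 h2 h3 h4 h5 h6 h7 h8 h9 h10 h11 h12
  norm_num only [if_true, if_false] at h0 h1 h2 h3 h4 h5 h6 h7 h8 h9 h10 h11 h12
  have d0 : dlt Ln.o = 0 := rfl
  have d1 : dlt Ln.N = -1 := rfl
  rw [d0] at h0 h2 h3 h4 h6 h8 h9 h10 h12
  rw [hd] at h1
  rw [hl] at h11
  have hb : ((E.wS d.1).hi 0 : ℤ) = E.base d + E.A.dv ((phi P).symm d) := by
    unfold Data.base; ring
  have k5 : dlt (if (if out d then 1 else 2) ≤ E.A.rt d then Ln.N else Ln.o) =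
      - (if (if out d then 1 else 2) ≤ E.A.rt d then 1 else 0) := by
    split_ifs <;> simp [dlt]
  have k7 : dlt (if (if out d then 2 else 1) ≤ E.A.rt d then Ln.N else Ln.o) =
      - (E.A.rt d - (if (if out d then 1 else 2) ≤ E.A.rt d then 1 else 0)) := by
    cases out d <;> simp only [Bool.false_eq_true, if_true, if_false] <;> split_ifs <;>
      simp only [dlt] <;> omega
  rw [k5] at h5
  rw [k7] at h7
  generalize (if (if out d then 1 else 2) ≤ E.A.rt d then (1 : ℤ) else 0) = c5 at *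
  norm_num only at h0 h1 h2 h3 h4 h5 h6 h7 h8 h9 h10 h11 h12
  refine ⟨?_, ?_, ?_, ?_, ?_⟩
  · intro x hx
    interval_cases x <;> omega
  · intro x hx hx'
    interval_cases x <;> omega
  · intro x hx hx'
    interval_cases x <;> omega
  · intro x hx hx'
    interval_cases x <;> omega
  · intro x hx hx'
    interval_cases x <;> omega

/-- the base level on top sides -/
lemma base_top (d : Dart P) (h : IsW d.1) :
    E.base d = 10 + (if E.t ⟨d.1, h⟩ then 1 else 0) - E.ut ⟨d.1, h⟩ := by
  have h1 := (wS_sides E ⟨d.1, h⟩).2.1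
  have h2 := hi_y E (s := ⟨d.1, h⟩) d.2
  have h3 : (phi P).symm ⟨(⟨d.1, h⟩ : Wl P).1, d.2⟩ = (phi P).symm d := rfl
  rw [h3] at h2
  unfold Data.base
  rw [show ((E.wS d.1).hi 0 : ℤ) = E.hi ⟨d.1, h⟩ from h1, h2]
  ring

/-- the base level on bottom sides -/
lemma base_bot (d : Dart P) (h : IsW d.1.r2) :
    E.base d = 8 + E.ub (sig P ⟨d.1.r2, h⟩) := by
  have h1 := (wS_sides E ⟨d.1.r2, h⟩).2.2.1
  have h2 := lo_y' E (s := ⟨d.1.r2, h⟩) d.2
  have h3 : (phi P).symm (r2D P ⟨(⟨d.1.r2, h⟩ : Wl P).1, d.2⟩) = (phi P).symm d := by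
    congr 1
    exact Subtype.ext (FSt.r2_r2 _)
  rw [h3] at h2
  have h4 := (wS_r2 E (isWl_dart d) (x := 13) le_rfl).1
  have b1 := (E.wS d.1).lt 0 (by norm_num)
  norm_num only [Nat.sub_self] at h4
  unfold Data.base
  have h5 : ((E.wS d.1.r2).lo 13 : ℤ) = E.lo (sig P ⟨d.1.r2, h⟩) := h1
  rw [h2] at h5
  omega

end Pool.Agent.MP42
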