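import Pool.Agent.MP42.Defs

/-!
# Coarse description of the curve: values of an invariant predicate at the feet and ports

`g d`, `g' d` = value of the base strand (the strand next to the junction, not counting short runs
of pass corners) at the beginning and at the end of the side `d`; `vb d`, `va d` = value at the foot
before / after the corner `d`; `vr d i` = value at the `i`-th root foot on the side `d` (in the
direction of `d`); `vp e` = value of the deep port of the box foot `e`.
-/

set_option autoImplicit false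
set_option linter.unusedSectionVars false

namespace Pool.Agent.MP42

open Pool.Agent.Helper55.UNF Pool.Agent.Helper55.UNF.GridSolid

/-- box feet: before foot and after foot of a box corner, root feet -/
inductive Ev (D : Type*)
  | b (d : D)
  | a (d : D)
  | r (d : D) (i : Bool)

variable {D : Type*} [Fintype D] {θ φ : Equiv.Perm D}

/-- the box foot exists -/
def Arb.IsEv (A : Arb θ φ) : Ev D → Prop
  | .b d => A.S d
  | .a d => A.S d
  | .r d false => 1 ≤ A.rt d
  | .r d true => 2 ≤ A.rt d

/-- the side on which the foot stands -/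
def Ev.side (φ : Equiv.Perm D) : Ev D → D
  | .b d => d
  | .a d => φ d
  | .r d _ => d

/-- the values of an invariant predicate -/
structure Vals (D : Type*) where
  g : D → Prop
  g' : D → Prop
  vb : D → Prop
  va : D → Prop
  vr : D → Bool → Prop
  vp : Ev D → Prop

/-- the local relations -/
structure Vals.Loc (A : Arb θ φ) (v : Vals D) : Prop where
  lane : ∀ d, A.lam d ≠ Ln.o → (v.vb d ↔ v.va ((nu θ φ).symm d))
  root1 : ∀ d, A.rt d = 1 → (v.vr d false ↔ v.vr (θ d) false)
  root2 : ∀ d, A.rt d = 2 → (v.vr d false ↔ v.vr (θ d) true)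
  pass : ∀ d, A.S (nu θ φ d) → (v.vb d ↔ v.va d)
  side0 : ∀ d, A.rt d = 0 → (v.g d ↔ v.g' d)
  side1 : ∀ d, A.rt d = 1 → (v.g d ↔ v.vr d false) ∧ (v.vp (.r d false) ↔ v.g' d)
  side2 : ∀ d, A.rt d = 2 → (v.g d ↔ v.vr d false) ∧ (v.vp (.r d false) ↔ v.vr d true) ∧
    (v.vp (.r d true) ↔ v.g' d)
  plain : ∀ d, ¬ A.S d → ¬ A.S ((nu θ φ).symm d) → (v.g' d ↔ v.g (φ d))
  gap : ∀ d, A.S ((nu θ φ).symm d) → (v.g' d ↔ v.vb d) ∧ (v.va d ↔ v.g (φ d))
  box : ∀ d, A.S d → (v.g' d ↔ v.vb d) ∧ (v.vp (.b d) ↔ v.va d) ∧ (v.vp (.a d) ↔ v.g (φ d))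

section Conc

variable {P : GridSolid} (E : Data P)

open Classical in
/-- the label (0 or 1) of a box foot: the number of box feet of the same rim between the special
facet and this foot (to the east) -/
noncomputable def Data.lab (e : Ev (Dart P)) : ℕ :=
  let i1 : Dart P → ℕ := fun d => if E.A.S d then 1 else 0
  let top : Wl P → ℕ := fun s => match e with
    | .b d => E.ut s + i1 ((phi P).symm d) + E.A.rt d
    | .a _ => E.ut s
    | .r d i => E.ut s + i1 ((phi P).symm d) + (if i then 1 else 0)
  let bot : Wl P → ℕ := fun s => match e with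
    | .b _ => E.ub s
    | .a d => E.ub s + i1 (phi P d) + E.A.rt (phi P d)
    | .r d i => E.ub s + i1 d + (E.A.rt d - 1 - (if i then 1 else 0))
  let s := (e.side (phi P)).1
  if h : IsW s then top ⟨s, h⟩ else if h' : IsW s.r2 then bot ⟨s.r2, h'⟩ else 0

/-- the two box feet are on the two rims of one band: `e` below, `e'` above -/
def SameBand (e e' : Ev (Dart P)) : Prop :=
  ∃ (h : IsW (e.side (phi P)).1.r2) (h' : IsW (e'.side (phi P)).1),
    (sig P).SameCycle ⟨_, h⟩ ⟨_, h'⟩

/-- through strands: for `t = true` labels are preserved, for `t = false` they are switched -/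
def Vals.Across (v : Vals (Dart P)) : Prop :=
  ∀ e e' (h : IsW (e'.side (phi P)).1), E.A.IsEv e → E.A.IsEv e' → SameBand e e' →
    (E.lab e' = E.lab e ↔ E.t ⟨_, h⟩ = true) → (v.vp e ↔ v.vp e')

/-- all existing values are equal -/
def Vals.Const (A : Arb (theta P) (phi P)) (v : Vals (Dart P)) : Prop :=
  ∃ c : Prop, ∀ d, (v.g d ↔ c) ∧ (v.g' d ↔ c) ∧ (A.lam d ≠ Ln.o → (v.vb d ↔ c)) ∧
    (A.lam (nu (theta P) (phi P) d) ≠ Ln.o → (v.va d ↔ c)) ∧
    (1 ≤ A.rt d → (v.vr d false ↔ c)) ∧ (2 ≤ A.rt d → (v.vr d true ↔ c)) ∧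
    ∀ e, A.IsEv e → (v.vp e ↔ c)

/-- the same data with other parities -/
def Data.withT (t : Wl P → Bool) (ht : ∀ s, t (sig P s) = t s) : Data P := { E with t := t, t_st := ht }

end Conc

end Pool.Agent.MP42
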