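import Pool.Agent.MP42.A6b
import Pool.Agent.MP42.Vals

/-!
# A6, table form, part c: the local relations (owner helper55)
-/

set_option autoImplicit false
set_option linter.unusedSectionVars false

namespace Pool.Agent.MP42

open Pool.Agent.Helper55.UNF Pool.Agent.Helper55.UNF.GridSolid

variable {P : GridSolid} (E : Data P)

lemma winOf_bd (a b : ℕ → ℤ) (sh : ℕ → Bool)
    (hA : ∀ x ≤ 13, 0 ≤ a x ∧ a x ≤ 5 ∧ 7 ≤ b x ∧ b x ≤ 12)
    (hn : ∀ x < 13, sh x = false → (∃ L, a (x + 1) = a x + dlt L) ∧ ∃ L, b (x + 1) = b x + dlt L)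
    (hs : ∀ x < 13, sh x = true → a (x + 1) = a x + 1 ∧ b (x + 1) = b x + 1) {x : ℕ}
    (hx : x ≤ 13) : (winOf a b sh hA hn hs).lo x ≤ 5 ∧ 7 ≤ (winOf a b sh hA hn hs).hi x := by
  have h := hA x hx
  show (a x).toNat ≤ 5 ∧ 7 ≤ (b x).toNat
  omega

lemma win_bd {f : P.Facet} (h2 : f.1.2.1 ≠ 2) {x : ℕ} (hx : x ≤ 13) :
    (E.win f h2).lo x ≤ 5 ∧ 7 ≤ (E.win f h2).hi x := by
  rcases axis_cases f with h | h | h
  · rw [win_x E h2 h]; exact winOf_bd _ _ _ _ _ _ hx
  · rw [win_y E h2 h]; exact winOf_bd _ _ _ _ _ _ hx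
  · exact absurd h h2

/-- the rows 5, 6, 7 are occupied everywhere -/
lemma wS_bd {s : P.FSt} (h : IsWl s) {x : ℕ} (hx : x ≤ 13) :
    (E.wS s).lo x ≤ 5 ∧ 7 ≤ (E.wS s).hi x ∧ (E.wS s).hi x ≤ 12 := by
  have h3 := (E.wS s).lt x hx
  obtain ⟨h0, h2⟩ := isWl_or h
  rcases h0 with h1 | h1
  · have h4 := win_bd E h2 hx
    rw [← wS_can E h2, ← h1] at h4
    omega
  · have h4 := win_bd E h2 (x := 13 - x) (by omega)
    have h5 : (E.wS s).lo x = 12 - (E.win s.facet h2).hi (13 - x) := by
      conv_lhs => rw [h1]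
      rw [wS_can_r2 E h2]; rfl
    have h6 : (E.wS s).hi x = 12 - (E.win s.facet h2).lo (13 - x) := by
      conv_lhs => rw [h1]
      rw [wS_can_r2 E h2]; rfl
    omega

lemma isWl_axis {s : P.FSt} (h : IsWl s) (hd : ¬ IsDart s) : s.1.d.1 = 0 := by
  have hne : s.1.d.1 ≠ s.1.e.1 := s.2.2
  have h' : (cross s.1.d s.1.e).1 = 2 := h
  have hd' : ¬ (s.1.d.1 = 1 ∧ s.1.e.1 = 0) := hd
  revert hne h' hd'
  generalize s.1.d = a
  generalize s.1.e = b
  revert a b
  decide

variable {E} {ψ χ : P.Facet → ℕ → ℕ → Prop}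

/-- the value of the highest strand on a vertical line of a side -/
def tv (E : Data P) (ψ : P.Facet → ℕ → ℕ → Prop) (d : Dart P) (x : ℕ) : Prop :=
  vS ψ d.1 x ((E.wS d.1).hi x)

/-- the value of the lane in a column of a side -/
def sv (χ : P.Facet → ℕ → ℕ → Prop) (d : Dart P) (x : ℕ) : Prop := hS χ d.1 x 13

lemma tv_o (I : InvT E ψ χ) (d : Dart P) {x : ℕ} (hx : x < 13) (h : E.eD d x = Ln.o) :
    tv E ψ d x ↔ tv E ψ d (x + 1) := by
  have h1 := wS_dart E d hx
  rw [h] at h1
  have h2 : (E.wS d.1).hi (x + 1) = (E.wS d.1).hi x := by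
    simp only [dlt] at h1; omega
  have h3 := wS_bd E (isWl_dart d) hx.le
  have h4 := wS_bd E (isWl_dart d) (x := x + 1) hx
  have h5 := (E.wS d.1).straight (I.rel (isWl_dart d)) hx (wS_dart_sh E d x)
    (y := (E.wS d.1).hi x) (by omega) le_rfl (by omega) (by omega)
  unfold tv
  rw [h2]
  exact h5

lemma tv_N (I : InvT E ψ χ) (d : Dart P) {x : ℕ} (hx : x < 13) (h : E.eD d x = Ln.N) :
    sv χ d x ↔ tv E ψ d x := by
  have h1 := wS_dart E d hx
  rw [h] at h1
  have h2 : (E.wS d.1).hi x = (E.wS d.1).hi (x + 1) + 1 := by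
    simp only [dlt] at h1; omega
  exact ((E.wS d.1).leave_high (I.rel (isWl_dart d)) hx (wS_dart_sh E d x) h2).2

lemma tv_S (I : InvT E ψ χ) (d : Dart P) {x : ℕ} (hx : x < 13) (h : E.eD d x = Ln.S) :
    sv χ d x ↔ tv E ψ d (x + 1) := by
  have h1 := wS_dart E d hx
  rw [h] at h1
  have h2 : (E.wS d.1).hi (x + 1) = (E.wS d.1).hi x + 1 := by
    simp only [dlt] at h1; omega
  exact ((E.wS d.1).enter_high (I.rel (isWl_dart d)) hx (wS_dart_sh E d x) h2).2

lemma tv_os (I : InvT E ψ χ) (d : Dart P) {x x' : ℕ} (hxx : x ≤ x') (hx' : x' ≤ 13)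
    (h : ∀ i, x ≤ i → i < x' → E.eD d i = Ln.o) : tv E ψ d x ↔ tv E ψ d x' := by
  induction x', hxx using Nat.le_induction with
  | base => exact Iff.rfl
  | succ n hn ih =>
    rw [ih (by omega) (fun i h1 h2 => h i h1 (by omega))]
    exact tv_o I d (by omega) (h n hn (by omega))

/-- from a side to the next one along the rim, at depth `j` -/
lemma chain (I : InvT E ψ χ) (d : Dart P) {j : ℕ} (hj : j ≤ 1) :
    vS ψ d.1 13 ((E.wS d.1).hi 13 - j) ↔
      vS ψ (phi P d).1 0 ((E.wS (phi P d).1).hi 0 - j) := by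
  have hw : ∀ i, IsWl ((pE ^ i) d.1) := by
    intro i
    induction i with
    | zero => exact isWl_dart d
    | succ i ih =>
      rw [pow_succ', Equiv.Perm.mul_apply]
      exact (isWl_stE _).2 ih
  have glue : ∀ s : P.FSt, IsWl s → (vS ψ s 13 ((E.wS s).hi 13 - j) ↔
      vS ψ s.stE 0 ((E.wS s.stE).hi 0 - j)) := by
    intro s hs
    have h1 := wS_glue E hs
    have h2 := wS_bd E hs (x := 13) le_rfl
    rw [← h1.2]
    exact I.gl hs (by omega) ((Win.pr_true _).2 ⟨by omega, by omega⟩)
  have key : ∀ i ≤ retN pE IsDart d.1, (vS ψ d.1 13 ((E.wS d.1).hi 13 - j) ↔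
      vS ψ ((pE ^ (i + 1)) d.1) 0 ((E.wS ((pE ^ (i + 1)) d.1)).hi 0 - j)) := by
    intro i
    induction i with
    | zero =>
      intro _
      have := glue d.1 (isWl_dart d)
      rw [zero_add, pow_one]
      exact this
    | succ i ih =>
      intro hi
      rw [ih (by omega)]
      have hnd : ¬ IsDart ((pE ^ (i + 1)) d.1) := retN_not (by omega)
      have hx := isWl_axis (hw (i + 1)) hnd
      have h1 := (E.wS ((pE ^ (i + 1)) d.1)).flow (I.rel (hw (i + 1))) (wS_x E (hw (i + 1)) hx) j
        (by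
          have := wS_bd E (hw (i + 1)) (x := 0) (by norm_num)
          omega) 13 le_rfl
      rw [h1.2, pow_succ' pE (i + 1), Equiv.Perm.mul_apply]
      exact glue _ (hw (i + 1))
  have h1 := key _ le_rfl
  rw [← retFun_eq] at h1
  exact h1

lemma chain0 (I : InvT E ψ χ) (d : Dart P) : tv E ψ d 13 ↔ tv E ψ (phi P d) 0 :=
  chain I d (j := 0) (by norm_num)

/-! ### The rings -/

lemma toLn_ne {L : Ln} : toLn L ≠ .z ↔ L ≠ Ln.o := by
  cases L <;> simp [toLn]

lemma out_iff (d : Dart P) : out d = true ↔ d.1 = can d.1.facet := by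
  unfold out; simp

lemma out_e (d : Dart P) : out d = true ↔ d.1.1.e = (0, true) := by
  rw [out_iff]
  constructor
  · intro h
    rw [h]
    have h1 : d.1.facet.1.2.1 ≠ 0 := by
      have : d.1.facet.1.2.1 = 1 := d.2.1
      rw [this]; decide
    exact (can_e _).1 h1
  · intro h
    exact (can_of_e h).1

lemma out_theta (d : Dart P) : out (theta P d) = !out d := by
  have h1 := theta_e P d
  have h2 : d.1.1.e.1 = 0 := d.2.2
  cases h : out d
  · have h3 : d.1.1.e ≠ (0, true) := by
      intro h4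
      rw [← out_e, h] at h4
      exact absurd h4 (by decide)
    rw [Bool.not_false, out_e, h1]
    revert h2 h3
    generalize d.1.1.e = e
    revert e
    decide
  · have h3 : d.1.1.e = (0, true) := (out_e d).1 h
    rw [Bool.not_true]
    by_contra h4
    have h5 : (theta P d).1.1.e = (0, true) := (out_e _).1 (by
      revert h4
      cases out (theta P d) <;> simp)
    rw [h1, h3] at h5
    exact absurd h5 (by decide)

lemma eD_out (d : Dart P) (h : out d = true) (x : ℕ) : E.eD d x = E.evS d.1 x := by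
  have s1 := strip_dart E d
  unfold Data.evS
  rw [s1.1, s1.2.1, s1.2.2]
  unfold Data.eD ev
  rw [h]
  simp only [if_true]

lemma eD_theta (d : Dart P) {x : ℕ} (hx : x ≤ 12) : E.eD (theta P d) (12 - x) = E.eD d x := by
  unfold Data.eD
  rw [out_theta, E.A.rtθ, theta_theta]
  by_cases c1 : x = 1
  · subst c1; simp
  by_cases c2 : x = 5
  · subst c2
    cases out d <;> simp
  by_cases c3 : x = 7
  · subst c3
    cases out d <;> simp
  by_cases c4 : x = 11
  · subst c4; simp
  rw [if_neg c1, if_neg c2, if_neg c3, if_neg c4, if_neg (by omega), if_neg (by omega),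
    if_neg (by omega), if_neg (by omega)]

/-- the value of the lanes on a ring, from the outgoing dart on -/
lemma ring_key (I : InvT E ψ χ) (d : Dart P) (ho : out d = true) {x : ℕ} (hx : x < 13)
    (h : E.eD d x ≠ Ln.o) : ∀ i ≤ retN pN IsDart d.1,
      (pN ^ i) d.1 = can ((pN ^ i) d.1).facet ∧ ringD ((pN ^ i) d.1).facet = d.1 ∧
      (sv χ d x ↔ χ ((pN ^ i) d.1).facet x 13) := by
  intro i
  induction i with
  | zero =>
    intro _
    have h1 : d.1 = can d.1.facet := (out_iff d).1 ho
    refine ⟨h1, ?_, ?_⟩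
    · show ringD d.1.facet = d.1
      unfold ringD
      rw [← h1, srch_zero d.2]
      simp
    · show hS χ d.1 x 13 ↔ χ d.1.facet x 13
      conv_lhs => rw [h1]
      rw [hS_can]
  | succ i ih =>
    intro hi
    obtain ⟨i1, i2, i3⟩ := ih (by omega)
    have e1 : (pN ^ (i + 1)) d.1 = ((pN ^ i) d.1).stN := by
      rw [pow_succ', Equiv.Perm.mul_apply]; rfl
    have he : ((pN ^ (i + 1)) d.1).1.e = (0, true) := by
      have := pow_e ((i + 1 : ℕ) : ℤ) ((out_e d).1 ho)
      rwa [zpow_natCast] at this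
    have hc := can_of_e he
    have hnd : ¬ IsDart ((pN ^ (i + 1)) d.1) := retN_not (by omega)
    have hz : ((pN ^ (i + 1)) d.1).facet.1.2.1 = 2 := by
      rcases axis_cases ((pN ^ (i + 1)) d.1).facet with h1 | h1 | h1
      · exact absurd h1 hc.2
      · exfalso
        apply hnd
        refine ⟨h1, ?_⟩
        rw [he]
      · exact h1
    have hN : (can ((pN ^ i) d.1).facet).stN = can ((pN ^ (i + 1)) d.1).facet := by
      rw [← i1, ← hc.1, e1]
    have hr : ringD ((pN ^ (i + 1)) d.1).facet = d.1 := by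
      rw [ringD_stN hN hz, i2]
    refine ⟨hc.1, hr, ?_⟩
    have hla : E.laT ((pN ^ i) d.1).facet x 13 ≠ .z := by
      rw [laT_top E _ hx, i2, ← eD_out d ho, toLn_ne]
      · exact h
      · have h5 : ((pN ^ i) d.1).1.e = (0, true) := by
          have := pow_e (i : ℤ) ((out_e d).1 ho)
          rwa [zpow_natCast] at this
        exact (can_of_e h5).2
    rw [i3, I.north _ _ hN x hx hla]
    have hcell := I.cell ((pN ^ (i + 1)) d.1).facet
    rw [prT_z E hz, laT_z E hz, hr] at hcell
    exact cellRel_plain hcell hx (by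
      show toLn (E.evS d.1 x) ≠ .z
      rw [← eD_out d ho, toLn_ne]
      exact h) 13 le_rfl

lemma ring_out (I : InvT E ψ χ) (d : Dart P) (ho : out d = true) {x : ℕ} (hx : x < 13)
    (h : E.eD d x ≠ Ln.o) : sv χ d x ↔ sv χ (theta P d) (12 - x) := by
  obtain ⟨i1, i2, i3⟩ := ring_key I d ho hx h _ le_rfl
  set n := retN pN IsDart d.1 with hn
  have e1 : (pN ^ (n + 1)) d.1 = ((pN ^ n) d.1).stN := by
    rw [pow_succ', Equiv.Perm.mul_apply]; rfl
  have he : ((pN ^ (n + 1)) d.1).1.e = (0, true) := by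
    have := pow_e ((n + 1 : ℕ) : ℤ) ((out_e d).1 ho)
    rwa [zpow_natCast] at this
  have hc := can_of_e he
  have hN : (can ((pN ^ n) d.1).facet).stN = can ((pN ^ (n + 1)) d.1).facet := by
    rw [← i1, ← hc.1, e1]
  have hla : E.laT ((pN ^ n) d.1).facet x 13 ≠ .z := by
    rw [laT_top E _ hx, i2, ← eD_out d ho, toLn_ne]
    · exact h
    · have h5 : ((pN ^ n) d.1).1.e = (0, true) := by
        have := pow_e (n : ℤ) ((out_e d).1 ho)
        rwa [zpow_natCast] at this
      exact (can_of_e h5).2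
  rw [i3, I.north _ _ hN x hx hla]
  have ht : (theta P d).1 = (can ((pN ^ (n + 1)) d.1).facet).r2 := by
    rw [← hc.1, theta_val]
    show (retFun pN IsDart d.1).r2 = _
    rw [retFun_eq]
  unfold sv
  rw [ht, hS_can_r2, rH_apply (χ ((pN ^ (n + 1)) d.1).facet) (x' := x) (y' := 0) (by omega) rfl]

/-- the lanes connect the two ends of a strip -/
theorem ring (I : InvT E ψ χ) (d : Dart P) {x : ℕ} (hx : x < 13) (h : E.eD d x ≠ Ln.o) :
    sv χ d x ↔ sv χ (theta P d) (12 - x) := by
  cases ho : out d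
  · have h1 : out (theta P d) = true := by rw [out_theta, ho]; rfl
    have h2 : E.eD (theta P d) (12 - x) ≠ Ln.o := by
      rw [eD_theta d (by omega)]; exact h
    have h3 := ring_out I (theta P d) h1 (x := 12 - x) (by omega) h2
    rw [theta_theta, show 12 - (12 - x) = x by omega] at h3
    exact h3.symm
  · exact ring_out I d ho hx h

/-! ### The coarse values -/

/-- the column of a root foot -/
noncomputable def Data.rcol (E : Data P) (d : Dart P) (i : Bool) : ℕ :=
  if i then 7 else if out d = true ∨ E.A.rt d = 2 then 5 else 7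

/-- the line behind a foot -/
noncomputable def Data.pcol (E : Data P) : Ev (Dart P) → ℕ
  | .b _ => 12
  | .a _ => 2
  | .r d i => E.rcol d i + 1

/-- the coarse values of an invariant predicate -/
noncomputable def valsT (E : Data P) (ψ χ : P.Facet → ℕ → ℕ → Prop) : Vals (Dart P) where
  g := fun d => tv E ψ d 2
  g' := fun d => tv E ψ d 11
  vb := fun d => sv χ d 11
  va := fun d => sv χ (phi P d) 1
  vr := fun d i => sv χ d (E.rcol d i)
  vp := fun e => tv E ψ (e.side (phi P)) (E.pcol e)

lemma dlt_o {L : Ln} (h : dlt L = 0) : L = Ln.o := by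
  cases L <;> simp_all [dlt]

lemma dlt_N {L : Ln} (h : dlt L = -1) : L = Ln.N := by
  cases L <;> simp_all [dlt]

lemma dlt_S {L : Ln} (h : dlt L = 1) : L = Ln.S := by
  cases L <;> simp_all [dlt]

lemma eD_1 (d : Dart P) : E.eD (phi P d) 1 = E.A.lam (nu (theta P) (phi P) d) := by
  unfold Data.eD; rw [if_pos rfl]; rfl

lemma eD_11 (d : Dart P) : E.eD d 11 = E.A.lam d := by
  unfold Data.eD; simp

lemma eD_no (d : Dart P) {x : ℕ} (h1 : x ≠ 1) (h5 : x ≠ 5) (h7 : x ≠ 7) (h11 : x ≠ 11) :
    E.eD d x = Ln.o := by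
  unfold Data.eD; rw [if_neg h1, if_neg h5, if_neg h7, if_neg h11]

lemma eD_5 (d : Dart P) : E.eD d 5 = if (if out d then 1 else 2) ≤ E.A.rt d then Ln.N else Ln.o := by
  unfold Data.eD; simp

lemma eD_7 (d : Dart P) : E.eD d 7 = if (if out d then 2 else 1) ≤ E.A.rt d then Ln.N else Ln.o := by
  unfold Data.eD; simp

/-- from the line 12 to the line 1 of the next side -/
lemma corner (I : InvT E ψ χ) (d : Dart P) : tv E ψ d 12 ↔ tv E ψ (phi P d) 1 := by
  rw [tv_o I d (x := 12) (by norm_num) (eD_no d (by norm_num) (by norm_num) (by norm_num)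
    (by norm_num)), chain0 I d]
  exact tv_o I _ (x := 0) (by norm_num) (eD_no _ (by norm_num) (by norm_num) (by norm_num)
    (by norm_num))

/-- the types of the corners -/
lemma corner_box {d : Dart P} (h : E.A.S d) : E.A.lam d = Ln.N ∧
    E.A.lam (nu (theta P) (phi P) d) = Ln.N := by
  have h1 := E.A.dlt_lam d
  have h2 := E.A.dlt_lam_nu d
  have h3 : E.A.bx d = 1 := by unfold Arb.bx; rw [if_pos h]
  have h4 : E.A.dv d = 0 := by
    unfold Arb.dv
    rw [if_neg, if_neg (E.A.S1 d h).1]
    intro h5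
    have := (E.A.S1 _ h5).1
    rw [Equiv.apply_symm_apply] at this
    exact this h
  rw [h3, h4] at h1 h2
  exact ⟨dlt_N h1, dlt_N h2⟩

lemma not_S_of_prev {d : Dart P} (h : E.A.S ((nu (theta P) (phi P)).symm d)) : ¬ E.A.S d := by
  have := (E.A.S1 _ h).1
  rwa [Equiv.apply_symm_apply] at this

lemma corner_gap {d : Dart P} (h : E.A.S ((nu (theta P) (phi P)).symm d)) :
    E.A.lam d = Ln.N ∧ E.A.lam (nu (theta P) (phi P) d) = Ln.S := by
  have h1 := E.A.dlt_lam d
  have h2 := E.A.dlt_lam_nu d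
  have h3 : E.A.bx d = 0 := by unfold Arb.bx; rw [if_neg (not_S_of_prev h)]
  have h4 : E.A.dv d = -1 := by
    unfold Arb.dv
    rw [if_pos h]
  rw [h3, h4] at h1 h2
  exact ⟨dlt_N h1, dlt_S h2⟩

lemma corner_pass {d : Dart P} (h : E.A.S (nu (theta P) (phi P) d)) :
    E.A.lam d = Ln.S ∧ E.A.lam (nu (theta P) (phi P) d) = Ln.N ∧ ¬ E.A.S d ∧
      ¬ E.A.S ((nu (theta P) (phi P)).symm d) := by
  have h1 := E.A.dlt_lam d
  have h2 := E.A.dlt_lam_nu d
  have h5 : ¬ E.A.S d := fun h6 => (E.A.S1 d h6).1 h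
  have h7 : ¬ E.A.S ((nu (theta P) (phi P)).symm d) := by
    intro h6
    have := (E.A.S1 _ h6).2
    rw [Equiv.apply_symm_apply] at this
    exact this h
  have h3 : E.A.bx d = 0 := by unfold Arb.bx; rw [if_neg h5]
  have h4 : E.A.dv d = 1 := by
    unfold Arb.dv
    rw [if_neg h7, if_pos h]
  rw [h3, h4] at h1 h2
  exact ⟨dlt_S h1, dlt_N h2, h5, h7⟩

lemma corner_plain {d : Dart P} (h1 : ¬ E.A.S d) (h2 : ¬ E.A.S ((nu (theta P) (phi P)).symm d))
    (h3 : ¬ E.A.S (nu (theta P) (phi P) d)) : E.A.lam d = Ln.o ∧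
      E.A.lam (nu (theta P) (phi P) d) = Ln.o := by
  have e1 := E.A.dlt_lam d
  have e2 := E.A.dlt_lam_nu d
  have e3 : E.A.bx d = 0 := by unfold Arb.bx; rw [if_neg h1]
  have e4 : E.A.dv d = 0 := by
    unfold Arb.dv
    rw [if_neg h2, if_neg h3]
  rw [e3, e4] at e1 e2
  exact ⟨dlt_o e1, dlt_o e2⟩

theorem valsT_loc (I : InvT E ψ χ) : (valsT E ψ χ).Loc E.A where
  lane := by
    intro d hd
    show sv χ d 11 ↔ sv χ (phi P ((nu (theta P) (phi P)).symm d)) 1
    have h1 : phi P ((nu (theta P) (phi P)).symm d) = theta P d := by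
      have h2 : nu (theta P) (phi P) ((nu (theta P) (phi P)).symm d) = d :=
        Equiv.apply_symm_apply _ d
      rw [nu_apply] at h2
      rw [← h2, theta_theta, h2]
    rw [h1]
    exact ring I d (x := 11) (by norm_num) (by rw [eD_11]; exact hd)
  root1 := by
    intro d hd
    show sv χ d (E.rcol d false) ↔ sv χ (theta P d) (E.rcol (theta P d) false)
    have e1 : E.rcol (theta P d) false = 12 - E.rcol d false := by
      unfold Data.rcol
      rw [out_theta, E.A.rtθ, hd]
      cases out d <;> simp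
    rw [e1]
    apply ring I d
    · unfold Data.rcol; split_ifs <;> omega
    · unfold Data.rcol
      rw [hd]
      cases h : out d
      · simp only [Bool.false_eq_true, false_or, if_false, OfNat.one_ne_ofNat]
        rw [eD_7, h, hd]; simp
      · simp only [Bool.false_eq_true, true_or, if_false, if_true]
        rw [eD_5, h, hd]; simp
  root2 := by
    intro d hd
    show sv χ d (E.rcol d false) ↔ sv χ (theta P d) (E.rcol (theta P d) true)
    have e1 : E.rcol d false = 5 := by
      unfold Data.rcol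
      rw [hd]; simp
    have e2 : E.rcol (theta P d) true = 12 - 5 := rfl
    rw [e1, e2]
    apply ring I d (x := 5) (by norm_num)
    rw [eD_5, hd]
    cases out d <;> simp
  pass := by
    intro d hd
    obtain ⟨h1, h2, -, -⟩ := corner_pass hd
    show sv χ d 11 ↔ sv χ (phi P d) 1
    rw [tv_S I d (x := 11) (by norm_num) (by rw [eD_11]; exact h1), corner I d]
    exact (tv_N I _ (x := 1) (by norm_num) (by rw [eD_1]; exact h2)).symm
  side0 := by
    intro d hd
    apply tv_os I d (by norm_num) (by norm_num)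
    intro i h1 h2
    by_cases h5 : i = 5
    · subst h5; rw [eD_5, hd]; cases out d <;> simp
    by_cases h7 : i = 7
    · subst h7; rw [eD_7, hd]; cases out d <;> simp
    exact eD_no d (by omega) h5 h7 (by omega)
  side1 := by
    intro d hd
    show (tv E ψ d 2 ↔ sv χ d (E.rcol d false)) ∧ (tv E ψ d (E.rcol d false + 1) ↔ tv E ψ d 11)
    cases ho : out d
    · have hr : E.rcol d false = 7 := by
        unfold Data.rcol; rw [ho, hd]; simp
      rw [hr]
      constructor
      · rw [tv_N I d (x := 7) (by norm_num) (by rw [eD_7, ho, hd]; simp)]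
        apply tv_os I d (by norm_num) (by norm_num)
        intro i h1 h2
        by_cases h5 : i = 5
        · subst h5; rw [eD_5, hd, ho]; simp
        exact eD_no d (by omega) h5 (by omega) (by omega)
      · apply tv_os I d (by norm_num) (by norm_num)
        intro i h1 h2
        exact eD_no d (by omega) (by omega) (by omega) (by omega)
    · have hr : E.rcol d false = 5 := by
        unfold Data.rcol; rw [ho]; simp
      rw [hr]
      constructor
      · rw [tv_N I d (x := 5) (by norm_num) (by rw [eD_5, ho, hd]; simp)]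
        apply tv_os I d (by norm_num) (by norm_num)
        intro i h1 h2
        exact eD_no d (by omega) (by omega) (by omega) (by omega)
      · apply tv_os I d (by norm_num) (by norm_num)
        intro i h1 h2
        by_cases h7 : i = 7
        · subst h7; rw [eD_7, hd, ho]; simp
        exact eD_no d (by omega) (by omega) h7 (by omega)
  side2 := by
    intro d hd
    show (tv E ψ d 2 ↔ sv χ d (E.rcol d false)) ∧
      (tv E ψ d (E.rcol d false + 1) ↔ sv χ d (E.rcol d true)) ∧
      (tv E ψ d (E.rcol d true + 1) ↔ tv E ψ d 11)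
    have e1 : E.rcol d false = 5 := by
      unfold Data.rcol
      rw [hd]; simp
    have e2 : E.rcol d true = 7 := rfl
    rw [e1, e2]
    refine ⟨?_, ?_, ?_⟩
    · rw [tv_N I d (x := 5) (by norm_num) (by rw [eD_5, hd]; cases out d <;> simp)]
      apply tv_os I d (by norm_num) (by norm_num)
      intro i h1 h2
      exact eD_no d (by omega) (by omega) (by omega) (by omega)
    · rw [tv_N I d (x := 7) (by norm_num) (by rw [eD_7, hd]; cases out d <;> simp)]
      apply tv_os I d (by norm_num) (by norm_num)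
      intro i h1 h2
      exact eD_no d (by omega) (by omega) (by omega) (by omega)
    · apply tv_os I d (by norm_num) (by norm_num)
      intro i h1 h2
      exact eD_no d (by omega) (by omega) (by omega) (by omega)
  plain := by
    intro d h1 h2
    show tv E ψ d 11 ↔ tv E ψ (phi P d) 2
    by_cases h3 : E.A.S (nu (theta P) (phi P) d)
    · obtain ⟨l1, l2, -, -⟩ := corner_pass h3
      have hd := isWl_dart d
      have hd' := isWl_dart (phi P d)
      have a1 := wS_dart E d (x := 11) (by norm_num)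
      have a2 := wS_dart E d (x := 12) (by norm_num)
      rw [eD_11, l1] at a1
      rw [eD_no d (by norm_num) (by norm_num) (by norm_num) (by norm_num)] at a2
      have b1 := wS_dart E (phi P d) (x := 1) (by norm_num)
      have b2 := wS_dart E (phi P d) (x := 0) (by norm_num)
      rw [eD_1, l2] at b1
      rw [eD_no _ (by norm_num) (by norm_num) (by norm_num) (by norm_num)] at b2
      simp only [dlt] at a1 a2 b1 b2
      have c1 := wS_bd E hd (x := 11) (by norm_num)
      have c2 := wS_bd E hd (x := 12) (by norm_num)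
      have c3 := wS_bd E hd (x := 13) (by norm_num)
      have c4 := wS_bd E hd' (x := 0) (by norm_num)
      have c5 := wS_bd E hd' (x := 1) (by norm_num)
      have c6 := wS_bd E hd' (x := 2) (by norm_num)
      norm_num only at a1 a2 b1 b2
      unfold tv
      have k1 := (E.wS d.1).straights (I.rel hd) (x := 11) (x' := 13) (y := (E.wS d.1).hi 11)
        (by norm_num) (by norm_num) (fun i _ _ => wS_dart_sh E d i) (by
          intro i h4 h5
          interval_cases i <;> omega)
      have k2 := chain I d (j := 1) le_rfl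
      have k3 := (E.wS (phi P d).1).straights (I.rel hd') (x := 0) (x' := 2)
        (y := (E.wS (phi P d).1).hi 2)
        (by norm_num) (by norm_num) (fun i _ _ => wS_dart_sh E _ i) (by
          intro i h4 h5
          interval_cases i <;> omega)
      rw [k1, show (E.wS d.1).hi 11 = (E.wS d.1).hi 13 - 1 by omega, k2, ← k3,
        show (E.wS (phi P d).1).hi 2 = (E.wS (phi P d).1).hi 0 - 1 by omega]
    · obtain ⟨l1, l2⟩ := corner_plain h1 h2 h3
      rw [tv_o I d (x := 11) (by norm_num) (by rw [eD_11]; exact l1), corner I d]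
      exact tv_o I _ (x := 1) (by norm_num) (by rw [eD_1]; exact l2)
  gap := by
    intro d hd
    obtain ⟨l1, l2⟩ := corner_gap hd
    exact ⟨(tv_N I d (x := 11) (by norm_num) (by rw [eD_11]; exact l1)).symm,
      tv_S I _ (x := 1) (by norm_num) (by rw [eD_1]; exact l2)⟩
  box := by
    intro d hd
    obtain ⟨l1, l2⟩ := corner_box hd
    refine ⟨(tv_N I d (x := 11) (by norm_num) (by rw [eD_11]; exact l1)).symm, ?_, Iff.rfl⟩
    show tv E ψ d 12 ↔ sv χ (phi P d) 1
    rw [corner I d]
    exact (tv_N I _ (x := 1) (by norm_num) (by rw [eD_1]; exact l2)).symm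

end Pool.Agent.MP42
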