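import Pool.Agent.MP42.A6c

/-!
# A6, table form, part d: the strands across a band (owner helper55)
-/

set_option autoImplicit false
set_option linter.unusedSectionVars false

namespace Pool.Agent.MP42

open Pool.Agent.Helper55.UNF Pool.Agent.Helper55.UNF.GridSolid

variable {P : GridSolid} {E : Data P} {ψ χ : P.Facet → ℕ → ℕ → Prop}

/-- value on the west side of a wall state -/
def tr (ψ : P.Facet → ℕ → ℕ → Prop) (s : Wl P) (r : ℕ) : Prop := vS ψ s.1 0 r

/-- value on the east side of a wall state -/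
def te (ψ : P.Facet → ℕ → ℕ → Prop) (s : Wl P) (r : ℕ) : Prop := vS ψ s.1 13 r

lemma te_tr (I : InvT E ψ χ) (s : Wl P) {r : ℕ} (h1 : (E.wS s.1).lo 13 ≤ r)
    (h2 : r ≤ (E.wS s.1).hi 13) : te ψ s r ↔ tr ψ (sig P s) r := by
  have h3 := wS_bd E (isWl_of_W s.2) (x := 13) le_rfl
  exact I.gl (isWl_of_W s.2) (by omega) ((Win.pr_true _).2 ⟨h1, h2⟩)

/-! ### Bounds for the rows -/

/-- the one strand more -/
def tt (b : Bool) : ℤ := if b then 1 else 0

lemma hi_all {s : Wl P} (hs : ¬ E.sp s) {x : ℕ} (hx : x ≤ 13) :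
    9 + tt (E.t s) - E.ut (sig P s) ≤ (E.wS s.1).hi x := by
  by_cases hd : IsDart s.1
  · have hb := base_top E ⟨s.1, hd⟩ s.2
    obtain ⟨l1, l2, l3, l4, l5⟩ := hi_line E ⟨s.1, hd⟩
    have hu := ut_y E hd
    have hf := E.A.ft_eq ⟨s.1, hd⟩
    have c1 := E.A.dv_le ⟨s.1, hd⟩
    have c2 := E.A.dv_le ((phi P).symm ⟨s.1, hd⟩)
    have hb' : E.base ⟨s.1, hd⟩ = 10 + tt (E.t s) - E.ut s := hb
    have k5 : (if (if out (⟨s.1, hd⟩ : Dart P) then 1 else 2) ≤ E.A.rt ⟨s.1, hd⟩ then (1 : ℤ) else 0) ≤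
        E.A.rt ⟨s.1, hd⟩ := by
      split_ifs <;> omega
    rcases (by omega : x ≤ 1 ∨ (2 ≤ x ∧ x ≤ 5) ∨ (6 ≤ x ∧ x ≤ 7) ∨ (8 ≤ x ∧ x ≤ 11) ∨
      (12 ≤ x ∧ x ≤ 13)) with h | h | h | h | h
    · have := l1 x h
      simp only at this
      omega
    · have := l2 x h.1 h.2
      simp only at this
      omega
    · have := l3 x h.1 h.2
      simp only at this
      omega
    · have := l4 x h.1 h.2
      simp only at this
      omega
    · have := l5 x h.1 h.2
      simp only at this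
      omega
  · have hx0 := isWl_axis (isWl_of_W s.2) hd
    have h1 := ub_x E hx0 hs
    have h2 := (wS_sides E s).2.1
    have hc : ∀ x ≤ 13, (E.wS s.1).hi x = (E.wS s.1).hi 0 := by
      intro x
      induction x with
      | zero => intro _; rfl
      | succ x ih =>
        intro hx'
        rcases wS_x E (isWl_of_W s.2) hx0 x (by omega) with h3 | h3
        · rw [wS_x_nsp E hx0 hs] at h3
          exact absurd h3 (by decide)
        · rw [h3.1, ih (by omega)]
    rw [hc x hx, h2, h1.2]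
    have h4 : -1 ≤ ext0 E.A.dv (prevD s.1) := by
      unfold ext0
      split_ifs
      · exact (E.A.dv_le _).1
      · omega
    unfold Data.hi tt
    omega

lemma lo_all {s : Wl P} (hs : ¬ E.sp s) {x : ℕ} (hx : x ≤ 13) :
    ((E.wS s.1).lo x : ℤ) ≤ 5 - E.ub s := by
  by_cases hd : IsDart s.1
  · set d : Dart P := r2D P ⟨s.1, hd⟩ with hdd
    have hr : d.1.r2 = s.1 := FSt.r2_r2 _
    have hW : IsW d.1.r2 := by rw [hr]; exact s.2
    have hb := base_bot E d hW
    have hss : (⟨d.1.r2, hW⟩ : Wl P) = s := Subtype.ext hr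
    rw [hss] at hb
    obtain ⟨l1, l2, l3, l4, l5⟩ := hi_line E d
    have hu := ub_y E hd
    have hf := E.A.ft_eq d
    have c1 := E.A.dv_le d
    have c2 := E.A.dv_le ((phi P).symm d)
    have k5 : (if (if out d then 1 else 2) ≤ E.A.rt d then (1 : ℤ) else 0) ≤ E.A.rt d := by
      split_ifs <;> omega
    have h6 := (wS_r2 E (isWl_dart d) (x := x) hx).1
    rw [hr] at h6
    have h7 := wS_bd E (isWl_dart d) (x := 13 - x) (by omega)
    rw [← hdd] at hu
    rcases (by omega : 13 - x ≤ 1 ∨ (2 ≤ 13 - x ∧ 13 - x ≤ 5) ∨ (6 ≤ 13 - x ∧ 13 - x ≤ 7) ∨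
      (8 ≤ 13 - x ∧ 13 - x ≤ 11) ∨ (12 ≤ 13 - x ∧ 13 - x ≤ 13)) with h | h | h | h | h
    · have := l1 _ h
      omega
    · have := l2 _ h.1 h.2
      omega
    · have := l3 _ h.1 h.2
      omega
    · have := l4 _ h.1 h.2
      omega
    · have := l5 _ h.1 h.2
      omega
  · have hx0 := isWl_axis (isWl_of_W s.2) hd
    have h2 := (wS_sides E s).1
    have hc : ∀ x ≤ 13, (E.wS s.1).lo x = (E.wS s.1).lo 0 := by
      intro x
      induction x with
      | zero => intro _; rfl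
      | succ x ih =>
        intro hx'
        rcases wS_x E (isWl_of_W s.2) hx0 x (by omega) with h3 | h3
        · rw [wS_x_nsp E hx0 hs] at h3
          exact absurd h3 (by decide)
        · rw [h3.2, ih (by omega)]
    rw [hc x hx, h2]
    have h4 : -1 ≤ ext0 E.A.dv (nextD s.1).r2 := by
      unfold ext0
      split_ifs
      · exact (E.A.dv_le _).1
      · omega
    unfold Data.lo
    omega

lemma sp_dart {s : Wl P} (hs : E.sp s) : ¬ IsDart s.1 := fun h => not_sp_dart E h hs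

/-- a row that is everywhere in the window of a facet -/
lemma row_step (I : InvT E ψ χ) {s : Wl P} (hs : ¬ E.sp s) {r : ℕ} (h1 : 5 - E.ub s ≤ (r : ℤ))
    (h2 : (r : ℤ) ≤ 9 + tt (E.t s) - E.ut (sig P s)) : tr ψ s r ↔ tr ψ (sig P s) r := by
  have hsh : ∀ x < 13, (E.wS s.1).sh x = false := by
    intro x _
    by_cases hd : IsDart s.1
    · exact wS_dart_sh E ⟨s.1, hd⟩ x
    · exact wS_x_nsp E (isWl_axis (isWl_of_W s.2) hd) hs x
  have h3 := (E.wS s.1).straights (I.rel (isWl_of_W s.2)) (x := 0) (x' := 13) (y := r) (by norm_num)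
    le_rfl (fun i _ hi => hsh i hi) (fun i _ hi => by
      have a1 := hi_all hs (x := i) hi
      have a2 := lo_all hs (x := i) hi
      constructor <;> omega)
  have a1 := hi_all hs (x := 13) le_rfl
  have a2 := lo_all hs (x := 13) le_rfl
  exact h3.trans (te_tr I s (by omega) (by omega))

/-- the special facets shift by two rows -/
lemma sp_step (I : InvT E ψ χ) {s : Wl P} (hs : E.sp s) {r : ℕ} (h1 : E.lo s ≤ r)
    (h2 : (r : ℤ) ≤ E.hi s) : tr ψ s r ↔ tr ψ (sig P s) (r + 2) := by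
  have hx0 := E.sp_x s hs
  obtain ⟨e1, e2, e3, e4⟩ := wS_sides E s
  have g1 := lo_x E hx0
  have g2 := hi_x E hx0
  have g3 := E.ub_sp _ hs
  have g4 := E.ut_sp _ hs
  have b1 := wS_bd E (isWl_of_W s.2) (x := 0) (by norm_num)
  have b2 := wS_bd E (isWl_of_W s.2) (x := 13) le_rfl
  have h3 := ((E.wS s.1).flow (I.rel (isWl_of_W s.2)) (wS_x E (isWl_of_W s.2) hx0)
    ((E.wS s.1).hi 0 - r) (by omega) 13 le_rfl).2
  rw [show (E.wS s.1).hi 0 - ((E.wS s.1).hi 0 - r) = r by omega,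
    show (E.wS s.1).hi 13 - ((E.wS s.1).hi 0 - r) = r + 2 by omega] at h3
  exact h3.trans (te_tr I s (by omega) (by omega))

/-! ### Walks along the band -/

lemma sp_unique {a b : Wl P} (ha : E.sp a) (hb : E.sp b) (h : (sig P).SameCycle a b) : a = b :=
  (E.sp_ex a).unique ⟨Equiv.Perm.SameCycle.refl _ _, ha⟩ ⟨h, hb⟩

lemma walkE (Q : Wl P → Prop) (r : ℕ)
    (hQ : ∀ s, Q s → ¬ E.sp s → Q (sig P s) ∧ (tr ψ s r ↔ tr ψ (sig P s) r)) {a : Wl P}
    (ha : E.sp a) {s : Wl P} (hs : Q s) (h : (sig P).SameCycle s a) : tr ψ s r ↔ tr ψ a r := by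
  have key : ∀ n : ℕ, ∀ s, Q s → ((sig P) ^ n) s = a → (tr ψ s r ↔ tr ψ a r) := by
    intro n
    induction n with
    | zero =>
      intro s _ h1
      have : s = a := h1
      rw [this]
    | succ n ih =>
      intro s hs h1
      by_cases hsp : E.sp s
      · have h2 : (sig P).SameCycle s a := ⟨(n + 1 : ℕ), by rw [zpow_natCast]; exact h1⟩
        rw [sp_unique hsp ha h2]
      · obtain ⟨q1, q2⟩ := hQ s hs hsp
        rw [q2]
        exact ih _ q1 (by rw [pow_succ, Equiv.Perm.mul_apply] at h1; exact h1)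
  obtain ⟨n, -, hn⟩ := h.exists_pow_eq'
  exact key n s hs hn

lemma walkW (Q : Wl P → Prop) (r : ℕ)
    (hQ : ∀ s, Q (sig P s) → ¬ E.sp s → Q s ∧ (tr ψ s r ↔ tr ψ (sig P s) r)) {a : Wl P}
    (ha : E.sp a) {s : Wl P} (hs : Q s) (h : (sig P).SameCycle a s) :
    tr ψ (sig P a) r ↔ tr ψ s r := by
  have key : ∀ n : ℕ, ∀ s, Q s → ((sig P) ^ n) (sig P a) = s → (tr ψ (sig P a) r ↔ tr ψ s r) := by
    intro n
    induction n with
    | zero =>
      intro s _ h1
      have : sig P a = s := h1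
      rw [this]
    | succ n ih =>
      intro s hs h1
      rw [pow_succ', Equiv.Perm.mul_apply] at h1
      set b := ((sig P) ^ n) (sig P a) with hb
      by_cases hsp : E.sp b
      · have h2 : (sig P).SameCycle a b := ⟨(n + 1 : ℕ), by
          rw [zpow_natCast, pow_succ, Equiv.Perm.mul_apply]⟩
        rw [← h1, ← sp_unique ha hsp h2]
      · rw [← h1] at hs ⊢
        obtain ⟨q1, q2⟩ := hQ b hs hsp
        rw [← q2]
        exact ih b q1 rfl
  have h' : (sig P).SameCycle (sig P a) s := (Equiv.Perm.sameCycle_apply_left).2 h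
  obtain ⟨n, -, hn⟩ := h'.exists_pow_eq'
  exact key n s hs hn

lemma t_cycle {a b : Wl P} (h : (sig P).SameCycle a b) : E.t a = E.t b := by
  obtain ⟨n, -, hn⟩ := h.exists_pow_eq'
  have key : ∀ n : ℕ, ∀ a, E.t (((sig P) ^ n) a) = E.t a := by
    intro n
    induction n with
    | zero => intro a; rfl
    | succ n ih => intro a; rw [pow_succ', Equiv.Perm.mul_apply, E.t_st, ih]
  rw [← hn, key]

/-- the rows 5, 6, 7 (and 8 if there is one strand more) go around the band -/
lemma circle (I : InvT E ψ χ) {a : Wl P} (ha : E.sp a) {r : ℕ} (h1 : 5 ≤ r)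
    (h2 : (r : ℤ) ≤ 7 + tt (E.t a)) : tr ψ (sig P a) r ↔ tr ψ a r := by
  apply walkE (E := E) (fun s => E.t s = E.t a) r _ ha (E.t_st a)
    ((Equiv.Perm.sameCycle_apply_left).2 (Equiv.Perm.SameCycle.refl _ _))
  intro s hs hsp
  refine ⟨by rw [E.t_st, hs], row_step I hsp (by omega) ?_⟩
  rw [hs]
  have := E.ut_le (sig P s)
  omega

/-! ### The ports -/

/-- the number of box feet of the side up to the foot -/
noncomputable def Data.cnt (E : Data P) : Ev (Dart P) → ℤ
  | .b d => E.A.bx ((phi P).symm d) + E.A.rt d + 1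
  | .a _ => 1
  | .r d i => E.A.bx ((phi P).symm d) + 1 + (if i then 1 else 0)

lemma box_vals {d : Dart P} (h : E.A.S d) : E.A.bx d = 1 ∧ E.A.dv d = 0 := by
  constructor
  · unfold Arb.bx; rw [if_pos h]
  · unfold Arb.dv
    rw [if_neg, if_neg (E.A.S1 d h).1]
    intro h5
    exact not_S_of_prev h5 h

lemma hi_port (e : Ev (Dart P)) (he : E.A.IsEv e) :
    ((E.wS (e.side (phi P)).1).hi (E.pcol e) : ℤ) = E.base (e.side (phi P)) - E.cnt e ∧
    E.pcol e ≤ 13 ∧ 1 ≤ E.cnt e ∧ E.cnt e ≤ E.A.ft (e.side (phi P)) ∧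
    ∀ i ≤ E.pcol e, E.base (e.side (phi P)) - E.cnt e ≤ (E.wS (e.side (phi P)).1).hi i := by
  cases e with
  | b d =>
    obtain ⟨b1, b2⟩ := box_vals (d := d) he
    obtain ⟨l1, l2, l3, l4, l5⟩ := hi_line E d
    have c2 := E.A.dv_le ((phi P).symm d)
    have c3 := E.A.bx_le ((phi P).symm d)
    have hf := E.A.ft_eq d
    have k5 : (if (if out d then 1 else 2) ≤ E.A.rt d then (1 : ℤ) else 0) ≤ E.A.rt d := by
      split_ifs <;> omega
    show ((E.wS d.1).hi 12 : ℤ) = E.base d - (E.A.bx ((phi P).symm d) + E.A.rt d + 1) ∧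
      12 ≤ 13 ∧ 1 ≤ ((E.A.bx ((phi P).symm d) + E.A.rt d + 1 : ℤ)) ∧
      ((E.A.bx ((phi P).symm d) + E.A.rt d + 1 : ℤ)) ≤ E.A.ft d ∧
      ∀ i ≤ 12, E.base d - (E.A.bx ((phi P).symm d) + E.A.rt d + 1) ≤ (E.wS d.1).hi i
    refine ⟨?_, by norm_num, by omega, by omega, ?_⟩
    · have := l5 12 le_rfl (by norm_num)
      omega
    · intro i hi
      rcases (by omega : i ≤ 1 ∨ (2 ≤ i ∧ i ≤ 5) ∨ (6 ≤ i ∧ i ≤ 7) ∨ (8 ≤ i ∧ i ≤ 11) ∨
        (12 ≤ i ∧ i ≤ 13)) with h | h | h | h | h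
      · have := l1 i h
        omega
      · have := l2 i h.1 h.2
        omega
      · have := l3 i h.1 h.2
        omega
      · have := l4 i h.1 h.2
        omega
      · have := l5 i h.1 h.2
        omega
  | a d =>
    obtain ⟨b1, b2⟩ := box_vals (d := d) he
    obtain ⟨l1, l2, l3, l4, l5⟩ := hi_line E (phi P d)
    rw [Equiv.symm_apply_apply] at l1 l2 l3 l4 l5
    have hf := E.A.ft_eq (phi P d)
    rw [Equiv.symm_apply_apply] at hf
    show ((E.wS (phi P d).1).hi 2 : ℤ) = E.base (phi P d) - 1 ∧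
      2 ≤ 13 ∧ (1 : ℤ) ≤ 1 ∧ (1 : ℤ) ≤ E.A.ft (phi P d) ∧
      ∀ i ≤ 2, E.base (phi P d) - 1 ≤ (E.wS (phi P d).1).hi i
    refine ⟨?_, by norm_num, by omega, by omega, ?_⟩
    · have := l2 2 le_rfl (by norm_num)
      omega
    · intro i hi
      rcases (by omega : i ≤ 1 ∨ (2 ≤ i ∧ i ≤ 5)) with h | h
      · have := l1 i h
        omega
      · have := l2 i h.1 h.2
        omega
  | r d j =>
    obtain ⟨l1, l2, l3, l4, l5⟩ := hi_line E d
    have c2 := E.A.dv_le ((phi P).symm d)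
    have c3 := E.A.bx_le ((phi P).symm d)
    have hf := E.A.ft_eq d
    have hrt := rt_le E d
    have hj : (if j then 2 else 1) ≤ E.A.rt d := by
      cases j <;> exact he
    show ((E.wS d.1).hi (E.rcol d j + 1) : ℤ) =
        E.base d - (E.A.bx ((phi P).symm d) + 1 + (if j then 1 else 0)) ∧
      E.rcol d j + 1 ≤ 13 ∧ 1 ≤ ((E.A.bx ((phi P).symm d) + 1 + (if j then 1 else 0) : ℤ)) ∧
      ((E.A.bx ((phi P).symm d) + 1 + (if j then 1 else 0) : ℤ)) ≤ E.A.ft d ∧
      ∀ i ≤ E.rcol d j + 1, E.base d - (E.A.bx ((phi P).symm d) + 1 + (if j then 1 else 0)) ≤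
        (E.wS d.1).hi i
    have hc : (E.rcol d j = 5 ∧ j = false ∧
        (if (if out d then 1 else 2) ≤ E.A.rt d then (1 : ℤ) else 0) = 1) ∨
        (E.rcol d j = 7 ∧ (E.A.rt d : ℤ) = 1 + (if j then 1 else 0) ∧
        (if (if out d then 1 else 2) ≤ E.A.rt d then (1 : ℤ) else 0) ≤
          1 + (if j then 1 else 0)) := by
      unfold Data.rcol
      cases j
      · by_cases h1 : out d = true ∨ E.A.rt d = 2
        · left
          refine ⟨by simp [h1], rfl, ?_⟩
          rcases h1 with h1 | h1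
          · rw [h1]
            simp only [if_true]
            rw [if_pos (by simpa using hj)]
          · rw [h1, if_pos]
            cases out d <;> simp
        · right
          refine ⟨by simp [h1], ?_, ?_⟩
          · have h2 : E.A.rt d ≠ 2 := fun h => h1 (Or.inr h)
            simp only [Bool.false_eq_true, if_false] at hj ⊢
            omega
          · split_ifs <;> norm_num
      · right
        simp only [if_true] at hj ⊢
        refine ⟨trivial, by omega, ?_⟩
        split_ifs <;> norm_num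
    generalize (if (if out d then 1 else 2) ≤ E.A.rt d then (1 : ℤ) else 0) = c5 at *
    rcases hc with ⟨h1, h2, h3⟩ | ⟨h1, h2, h3⟩
    · subst h2
      rw [h1]
      simp only [Bool.false_eq_true, if_false] at hj ⊢
      refine ⟨?_, by norm_num, by omega, by omega, ?_⟩
      · have := l3 6 le_rfl (by norm_num)
        norm_num only
        omega
      · intro i hi
        rcases (by omega : i ≤ 1 ∨ (2 ≤ i ∧ i ≤ 5) ∨ (6 ≤ i ∧ i ≤ 7)) with h | h | h
        · have := l1 i h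
          omega
        · have := l2 i h.1 h.2
          omega
        · have := l3 i h.1 h.2
          omega
    · rw [h1]
      have hj' : (1 : ℤ) + (if j then 1 else 0) ≤ E.A.rt d := by omega
      have hj0 : (0 : ℤ) ≤ (if j then 1 else 0) := by split_ifs <;> norm_num
      generalize (if j = true then (1 : ℤ) else 0) = jj at *
      refine ⟨?_, by norm_num, by omega, by omega, ?_⟩
      · have := l4 8 le_rfl (by norm_num)
        norm_num only
        omega
      · intro i hi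
        rcases (by omega : i ≤ 1 ∨ (2 ≤ i ∧ i ≤ 5) ∨ (6 ≤ i ∧ i ≤ 7) ∨ (8 ≤ i ∧ i ≤ 11)) with
          h | h | h | h
        · have := l1 i h
          omega
        · have := l2 i h.1 h.2
          omega
        · have := l3 i h.1 h.2
          omega
        · have := l4 i h.1 h.2
          omega

/-- the port strand on the first line of the side -/
lemma port0 (I : InvT E ψ χ) (e : Ev (Dart P)) (he : E.A.IsEv e) :
    (valsT E ψ χ).vp e ↔ vS ψ (e.side (phi P)).1 0 ((E.wS (e.side (phi P)).1).hi (E.pcol e)) := by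
  obtain ⟨h1, h2, h3, h4, h5⟩ := hi_port e he
  have hw := isWl_dart (e.side (phi P))
  have h6 := wS_bd E hw (x := E.pcol e) h2
  refine ((E.wS (e.side (phi P)).1).straights (I.rel hw) (Nat.zero_le _) h2
    (fun i _ _ => wS_dart_sh E _ i) (fun i _ hi => ?_)).symm
  have h7 := h5 i hi
  have h8 := wS_bd E hw (x := i) (hi.trans h2)
  constructor
  · omega
  · omega

lemma labT (e : Ev (Dart P)) (he : E.A.IsEv e) (h : IsW (e.side (phi P)).1) :
    (E.lab e : ℤ) = E.ut ⟨_, h⟩ + E.cnt e - 1 := by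
  cases e with
  | b d =>
    have h' : IsW d.1 := h
    have e0 : E.lab (.b d) = E.ut ⟨d.1, h'⟩ + E.A.bx ((phi P).symm d) + E.A.rt d := by
      unfold Data.lab; exact dif_pos h'
    rw [e0]
    show ((E.ut ⟨d.1, h'⟩ + E.A.bx ((phi P).symm d) + E.A.rt d : ℕ) : ℤ) = E.ut ⟨d.1, h'⟩ +
      (E.A.bx ((phi P).symm d) + E.A.rt d + 1) - 1
    omega
  | a d =>
    have h' : IsW (phi P d).1 := h
    have e0 : E.lab (.a d) = E.ut ⟨(phi P d).1, h'⟩ := by
      unfold Data.lab; exact dif_pos h'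
    rw [e0]
    show ((E.ut ⟨(phi P d).1, h'⟩ : ℕ) : ℤ) = E.ut ⟨(phi P d).1, h'⟩ + 1 - 1
    omega
  | r d i =>
    have h' : IsW d.1 := h
    have e0 : E.lab (.r d i) = E.ut ⟨d.1, h'⟩ + E.A.bx ((phi P).symm d) +
        (if i then 1 else 0) := by
      unfold Data.lab; exact dif_pos h'
    rw [e0]
    show ((E.ut ⟨d.1, h'⟩ + E.A.bx ((phi P).symm d) + (if i then 1 else 0) : ℕ) : ℤ) =
      E.ut ⟨d.1, h'⟩ + (E.A.bx ((phi P).symm d) + 1 + (if i then 1 else 0)) - 1
    split_ifs <;> omega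

lemma labB (e : Ev (Dart P)) (he : E.A.IsEv e) (h : IsW (e.side (phi P)).1.r2) :
    (E.lab e : ℤ) = E.ub (sig P ⟨_, h⟩) - E.cnt e := by
  have hu := ub_y E (s := ⟨(e.side (phi P)).1.r2, h⟩) (e.side (phi P)).2
  have e0 : r2D P ⟨(⟨(e.side (phi P)).1.r2, h⟩ : Wl P).1, (e.side (phi P)).2⟩ = e.side (phi P) :=
    Subtype.ext (FSt.r2_r2 _)
  rw [e0] at hu
  have hf := E.A.ft_eq (e.side (phi P))
  have hn : ¬ IsW (e.side (phi P)).1 := fun h' => not_isW_r2 h' h
  cases e with
  | b d =>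
    obtain ⟨b1, b2⟩ := box_vals (d := d) he
    have h' : IsW d.1.r2 := h
    have hn' : ¬ IsW d.1 := hn
    have e0 : E.lab (.b d) = E.ub ⟨d.1.r2, h'⟩ := by
      unfold Data.lab; exact (dif_neg hn').trans (dif_pos h')
    rw [e0]
    show ((E.ub ⟨d.1.r2, h'⟩ : ℕ) : ℤ) = E.ub (sig P ⟨d.1.r2, h'⟩) -
      (E.A.bx ((phi P).symm d) + E.A.rt d + 1)
    have hu' : E.ub (sig P ⟨d.1.r2, h'⟩) = E.ub ⟨d.1.r2, h'⟩ + E.A.ft d := hu
    have hf' : E.A.ft d = E.A.bx d + E.A.bx ((phi P).symm d) + E.A.rt d := hf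
    omega
  | a d =>
    obtain ⟨b1, b2⟩ := box_vals (d := d) he
    have h' : IsW (phi P d).1.r2 := h
    have hn' : ¬ IsW (phi P d).1 := hn
    have e0 : E.lab (.a d) = E.ub ⟨(phi P d).1.r2, h'⟩ + E.A.bx (phi P d) +
        E.A.rt (phi P d) := by
      unfold Data.lab; exact (dif_neg hn').trans (dif_pos h')
    rw [e0]
    show ((E.ub ⟨(phi P d).1.r2, h'⟩ + E.A.bx (phi P d) + E.A.rt (phi P d) : ℕ) : ℤ) =
      E.ub (sig P ⟨(phi P d).1.r2, h'⟩) - 1
    have hu' : E.ub (sig P ⟨(phi P d).1.r2, h'⟩) = E.ub ⟨(phi P d).1.r2, h'⟩ +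
      E.A.ft (phi P d) := hu
    have hf' : E.A.ft (phi P d) = E.A.bx (phi P d) + E.A.bx ((phi P).symm (phi P d)) +
      E.A.rt (phi P d) := hf
    rw [Equiv.symm_apply_apply] at hf'
    omega
  | r d i =>
    have h' : IsW d.1.r2 := h
    have hn' : ¬ IsW d.1 := hn
    have e0 : E.lab (.r d i) = E.ub ⟨d.1.r2, h'⟩ + E.A.bx d +
        (E.A.rt d - 1 - (if i then 1 else 0)) := by
      unfold Data.lab; exact (dif_neg hn').trans (dif_pos h')
    rw [e0]
    show ((E.ub ⟨d.1.r2, h'⟩ + E.A.bx d + (E.A.rt d - 1 - (if i then 1 else 0)) : ℕ) : ℤ) =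
      E.ub (sig P ⟨d.1.r2, h'⟩) - (E.A.bx ((phi P).symm d) + 1 + (if i then 1 else 0))
    have hu' : E.ub (sig P ⟨d.1.r2, h'⟩) = E.ub ⟨d.1.r2, h'⟩ + E.A.ft d := hu
    have hf' : E.A.ft d = E.A.bx d + E.A.bx ((phi P).symm d) + E.A.rt d := hf
    have hj : (if i then 2 else 1) ≤ E.A.rt d := by
      cases i <;> exact he
    cases i
    · simp only [Bool.false_eq_true, if_false] at hj ⊢
      omega
    · simp only [if_true] at hj ⊢
      omega

/-- the strand from the port of a bottom foot -/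
lemma port_bot (I : InvT E ψ χ) (e : Ev (Dart P)) (he : E.A.IsEv e)
    (h : IsW (e.side (phi P)).1.r2) {a : Wl P} (ha : E.sp a)
    (hc : (sig P).SameCycle ⟨_, h⟩ a) : E.lab e ≤ 1 ∧
      ((valsT E ψ χ).vp e ↔ tr ψ (sig P a) (6 - E.lab e)) := by
  obtain ⟨h1, h2, h3, h4, h5⟩ := hi_port e he
  have hb := base_bot E (e.side (phi P)) h
  have hl := labB e he h
  have hub := E.ub_le (sig P ⟨_, h⟩)
  have hw := isWl_dart (e.side (phi P))
  have hl1 : E.lab e ≤ 1 := by omega
  refine ⟨hl1, ?_⟩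
  have hrow : (E.wS (e.side (phi P)).1).hi (E.pcol e) = 8 + E.lab e := by omega
  rw [port0 I e he, hrow]
  set s0 : Wl P := ⟨(e.side (phi P)).1.r2, h⟩ with hs0
  have e1 : vS ψ (e.side (phi P)).1 0 (8 + E.lab e) ↔ te ψ s0 (4 - E.lab e) := by
    unfold te
    rw [vS_r2 ψ hw (x := 13) (y := 4 - E.lab e) le_rfl (by omega),
      show 12 - (4 - E.lab e) = 8 + E.lab e by omega]
  have h50 := h5 0 (Nat.zero_le _)
  have r1 := (wS_r2 E hw (x := 13) le_rfl)
  norm_num only [Nat.sub_self] at r1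
  have b0 := wS_bd E hw (x := 0) (by norm_num)
  rw [e1, te_tr I s0 (by show (E.wS (e.side (phi P)).1.r2).lo 13 ≤ _; omega)
    (by show _ ≤ (E.wS (e.side (phi P)).1.r2).hi 13; omega)]
  have hwalk : tr ψ (sig P s0) (4 - E.lab e) ↔ tr ψ a (4 - E.lab e) := by
    apply walkE (E := E) (fun s => E.lab e + 1 ≤ E.ub s) _ _ ha
    · show E.lab e + 1 ≤ E.ub (sig P s0)
      omega
    · exact (Equiv.Perm.sameCycle_apply_left).2 hc
    · intro s hs hsp
      have hst := E.ub_st s hsp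
      have hut := E.ut_le (sig P s)
      refine ⟨by omega, row_step I hsp (by omega) ?_⟩
      unfold tt
      split_ifs <;> omega
  rw [hwalk]
  have g3 := E.ub_sp _ ha
  have hlo : E.lo a ≤ 3 := by
    unfold Data.lo
    have h4 : -1 ≤ ext0 E.A.dv (nextD a.1).r2 := by
      unfold ext0
      split_ifs
      · exact (E.A.dv_le _).1
      · omega
    omega
  have hhi := hi_bd E a
  rw [sp_step I ha (r := 4 - E.lab e) (by omega) (by omega),
    show 4 - E.lab e + 2 = 6 - E.lab e by omega]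

/-- the strand from the port of a top foot -/
lemma port_top (I : InvT E ψ χ) (e : Ev (Dart P)) (he : E.A.IsEv e)
    (h : IsW (e.side (phi P)).1) {a : Wl P} (ha : E.sp a)
    (hc : (sig P).SameCycle a ⟨_, h⟩) : E.lab e ≤ 1 ∧
      ((valsT E ψ χ).vp e ↔ tr ψ a (7 + (if E.t a then 1 else 0) - E.lab e)) := by
  obtain ⟨h1, h2, h3, h4, h5⟩ := hi_port e he
  have hb := base_top E (e.side (phi P)) h
  have hl := labT e he h
  have hu := ut_y E (s := ⟨(e.side (phi P)).1, h⟩) (e.side (phi P)).2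
  have hut := E.ut_le (sig P ⟨_, h⟩)
  have hw := isWl_dart (e.side (phi P))
  have ht := t_cycle (E := E) hc
  have hu' : E.ut (sig P ⟨(e.side (phi P)).1, h⟩) = E.ut ⟨(e.side (phi P)).1, h⟩ +
    E.A.ft (e.side (phi P)) := hu
  have hl1 : E.lab e ≤ 1 := by omega
  refine ⟨hl1, ?_⟩
  rw [← ht] at hb
  have hrow : (E.wS (e.side (phi P)).1).hi (E.pcol e) = 9 + (if E.t a then 1 else 0) -
      E.lab e := by
    split_ifs at hb ⊢ <;> omega
  rw [port0 I e he, hrow]
  set s0 : Wl P := ⟨(e.side (phi P)).1, h⟩ with hs0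
  have e1 : vS ψ (e.side (phi P)).1 0 (9 + (if E.t a then 1 else 0) - E.lab e) ↔
    tr ψ s0 (9 + (if E.t a then 1 else 0) - E.lab e) := Iff.rfl
  rw [e1]
  have hwalk : tr ψ (sig P a) (9 + (if E.t a then 1 else 0) - E.lab e) ↔
      tr ψ s0 (9 + (if E.t a then 1 else 0) - E.lab e) := by
    apply walkW (E := E) (fun s => E.ut s ≤ E.lab e ∧ E.t s = E.t a) _ _ ha
    · refine ⟨?_, ht.symm⟩
      omega
    · exact hc
    · intro s hs hsp
      have hst := E.ut_st s hsp
      have ht' : E.t s = E.t a := by rw [← E.t_st s]; exact hs.2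
      refine ⟨⟨by omega, ht'⟩, row_step I hsp ?_ ?_⟩
      · split_ifs <;> omega
      · rw [ht']
        unfold tt
        split_ifs <;> omega
  rw [← hwalk]
  have g3 := E.ut_sp _ ha
  have hhi : 7 + tt (E.t a) ≤ E.hi a := by
    unfold Data.hi tt
    have h4 : -1 ≤ ext0 E.A.dv (prevD a.1) := by
      unfold ext0
      split_ifs
      · exact (E.A.dv_le _).1
      · omega
    omega
  have hlo := lo_bd E a
  rw [sp_step I ha (r := 7 + (if E.t a then 1 else 0) - E.lab e) (by split_ifs <;> omega)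
    (by unfold tt at hhi; split_ifs at hhi ⊢ <;> omega)]
  rw [show 7 + (if E.t a then 1 else 0) - E.lab e + 2 = 9 + (if E.t a then 1 else 0) - E.lab e by
    omega]

/-- **Across.** -/
theorem valsT_across (I : InvT E ψ χ) : (valsT E ψ χ).Across E := by
  intro e e' h' he he' hband hlab
  obtain ⟨h, h'', hc⟩ := hband
  obtain ⟨a, ⟨hca, ha⟩, -⟩ := E.sp_ex ⟨_, h⟩
  obtain ⟨l1, p1⟩ := port_bot I e he h ha hca
  obtain ⟨l2, p2⟩ := port_top I e' he' h' ha (hca.symm.trans hc)
  have ht := t_cycle (E := E) (hca.symm.trans hc)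
  rw [p1, p2]
  rw [← ht] at hlab
  have hlo := lo_bd E a
  have hhi := hi_bd E a
  cases hta : E.t a
  · rw [hta] at hlab
    have hne : E.lab e' ≠ E.lab e := fun h0 => absurd (hlab.1 h0) (by decide)
    simp only [Bool.false_eq_true, if_false]
    rcases (by omega : (E.lab e = 0 ∧ E.lab e' = 1) ∨ (E.lab e = 1 ∧ E.lab e' = 0)) with
      ⟨c1, c2⟩ | ⟨c1, c2⟩
    · rw [c1, c2]
      exact circle I ha (r := 6) (by norm_num) (by unfold tt; split_ifs <;> norm_num)
    · rw [c1, c2]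
      have k1 := circle I ha (r := 5) (by norm_num) (by unfold tt; split_ifs <;> norm_num)
      have k2 := sp_step I ha (r := 5) (by omega) (by omega)
      have k3 := circle I ha (r := 7) (by norm_num) (by unfold tt; split_ifs <;> norm_num)
      exact k1.trans (k2.trans k3)
  · rw [hta] at hlab
    have heq : E.lab e' = E.lab e := hlab.2 rfl
    rw [heq]
    simp only [if_true]
    have k1 := circle I ha (r := 6 - E.lab e) (by omega) (by unfold tt; split_ifs <;> omega)
    have k2 := sp_step I ha (r := 6 - E.lab e) (by omega) (by omega)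
    rw [show 6 - E.lab e + 2 = 8 - E.lab e by omega] at k2
    have k3 := circle I ha (r := 8 - E.lab e) (by omega) (by
      rw [hta]; unfold tt; simp only [if_true]; omega)
    rw [show 7 + 1 - E.lab e = 8 - E.lab e by omega]
    exact k1.trans (k2.trans k3)

end Pool.Agent.MP42
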