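import Pool.Agent.MP42.A6d

/-!
# A6, table form, part e: every used unit edge has a coarse value (owner helper55)
-/

set_option autoImplicit false
set_option linter.unusedSectionVars false

namespace Pool.Agent.MP42

open Pool.Agent.Helper55.UNF Pool.Agent.Helper55.UNF.GridSolid

variable {P : GridSolid} {E : Data P} {ψ χ : P.Facet → ℕ → ℕ → Prop}

/-- all coarse values are equal to `c` -/
def Vals.AllC (A : Arb (theta P) (phi P)) (v : Vals (Dart P)) (c : Prop) : Prop :=
  ∀ d, (v.g d ↔ c) ∧ (v.g' d ↔ c) ∧ (A.lam d ≠ Ln.o → (v.vb d ↔ c)) ∧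
    (A.lam (nu (theta P) (phi P) d) ≠ Ln.o → (v.va d ↔ c)) ∧
    (1 ≤ A.rt d → (v.vr d false ↔ c)) ∧ (2 ≤ A.rt d → (v.vr d true ↔ c)) ∧
    ∀ e, A.IsEv e → (v.vp e ↔ c)

/-- all feet -/
lemma sv_c {c : Prop} (hc : (valsT E ψ χ).AllC E.A c) (d : Dart P) {x : ℕ}
    (h : E.eD d x ≠ Ln.o) : sv χ d x ↔ c := by
  obtain ⟨-, -, h1, -, h3, h4, -⟩ := hc d
  by_cases c1 : x = 1
  · subst c1
    obtain ⟨-, -, -, h2, -⟩ := hc ((phi P).symm d)
    have e1 : (valsT E ψ χ).va ((phi P).symm d) = sv χ (phi P ((phi P).symm d)) 1 := rfl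
    rw [e1, nu_apply, Equiv.apply_symm_apply] at h2
    apply h2
    have e2 : E.eD d 1 = E.A.lam (theta P d) := by unfold Data.eD; rw [if_pos rfl]
    rw [← e2]; exact h
  by_cases c2 : x = 5
  · subst c2
    rw [eD_5] at h
    have h5 : (if out d then 1 else 2) ≤ E.A.rt d := by
      by_contra h6
      rw [if_neg h6] at h
      exact h rfl
    have h7 : E.rcol d false = 5 := by
      unfold Data.rcol
      have := rt_le E d
      cases ho : out d
      · rw [ho] at h5
        simp only [Bool.false_eq_true, if_false, false_or] at h5 ⊢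
        rw [if_pos (by omega)]
      · simp
    have h8 := h3 (by split_ifs at h5 <;> omega)
    have e1 : (valsT E ψ χ).vr d false = sv χ d (E.rcol d false) := rfl
    rw [e1, h7] at h8
    exact h8
  by_cases c3 : x = 7
  · subst c3
    rw [eD_7] at h
    have h5 : (if out d then 2 else 1) ≤ E.A.rt d := by
      by_contra h6
      rw [if_neg h6] at h
      exact h rfl
    by_cases h6 : 2 ≤ E.A.rt d
    · exact h4 h6
    · have ho : out d = false := by
        cases ho : out d
        · rfl
        · rw [ho] at h5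
          simp only [if_true] at h5
          omega
      have h7 : E.rcol d false = 7 := by
        unfold Data.rcol
        rw [ho]
        simp only [Bool.false_eq_true, if_false, false_or]
        rw [if_neg (by omega)]
      have h8 := h3 (by split_ifs at h5 <;> omega)
      have e1 : (valsT E ψ χ).vr d false = sv χ d (E.rcol d false) := rfl
      rw [e1, h7] at h8
      exact h8
  by_cases c4 : x = 11
  · subst c4
    rw [eD_11] at h
    exact h1 h
  exact absurd (eD_no d c1 c2 c3 c4) h

/-- a change of the highest row is a foot -/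
lemma eD_ne {d : Dart P} {x : ℕ} (hx : x < 13) (h : (E.wS d.1).hi (x + 1) ≠ (E.wS d.1).hi x) :
    E.eD d x ≠ Ln.o := by
  intro h1
  have h2 := wS_dart E d hx
  rw [h1] at h2
  simp only [dlt] at h2
  omega

lemma eD_ne_low {d : Dart P} {x : ℕ} (hx : x < 13) (h : (E.wS d.1).lo (x + 1) ≠ (E.wS d.1).lo x) :
    E.eD (r2D P d) (12 - x) ≠ Ln.o := by
  apply eD_ne (by omega)
  have h1 := (wS_r2 E (isWl_dart d) (x := 12 - x) (by omega)).2
  have h2 := (wS_r2 E (isWl_dart d) (x := 12 - x + 1) (by omega)).2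
  rw [show 13 - (12 - x) = x + 1 by omega] at h1
  rw [show 13 - (12 - x + 1) = x by omega] at h2
  have h3 := wS_bd E (isWl_dart d) (x := x) (by omega)
  have h4 := wS_bd E (isWl_dart d) (x := x + 1) (by omega)
  show (E.wS d.1.r2).hi (12 - x + 1) ≠ (E.wS d.1.r2).hi (12 - x)
  omega

lemma sv_low (d : Dart P) {x : ℕ} (hx : x < 13) : hS χ d.1 x 0 ↔ sv χ (r2D P d) (12 - x) := by
  show hS χ d.1 x 0 ↔ hS χ d.1.r2 (12 - x) 13
  rw [hS_r2 χ (isWl_dart d) (x := 12 - x) (y := 13) (by omega) le_rfl]
  rw [show 12 - (12 - x) = x by omega]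

lemma wS_sp_sh {s : Wl P} (hs : E.sp s) (x : ℕ) :
    (E.wS s.1).sh x = decide (x = 5 ∨ x = 6) := by
  classical
  have hd := E.sp_x s hs
  obtain ⟨h2, hw⟩ := wst_W s
  have hf : s.1.facet.1.2.1 = 0 := hd
  have hWf : Wf s.1.facet h2 = s := Subtype.ext hw
  have hx : s.1 = can s.1.facet := by
    conv_lhs => rw [← hw]
    exact wst_x hf
  rw [hx, wS_can E h2, win_x E h2 hf]
  have e : (E.winX s.1.facet hf).sh x = decide (E.sp (Wf s.1.facet h2) ∧ (x = 5 ∨ x = 6)) := rfl
  rw [e, hWf]
  by_cases h5 : x = 5 ∨ x = 6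
  · rw [decide_eq_true ⟨hs, h5⟩, decide_eq_true h5]
  · rw [decide_eq_false (fun h => h5 h.2), decide_eq_false h5]

/-- one column -/
lemma col_step (I : InvT E ψ χ) {c : Prop} (hc : (valsT E ψ χ).AllC E.A c) (s : Wl P) {y : ℕ}
    (ih : ∀ y' < y, ∀ x ≤ 13, (E.wS s.1).lo x ≤ y' → y' ≤ (E.wS s.1).hi x → (vS ψ s.1 x y' ↔ c))
    {x : ℕ} (hx : x < 13)
    (h0 : (E.wS s.1).sh x = false → (E.wS s.1).lo x ≤ y → y ≤ (E.wS s.1).hi x →
      (vS ψ s.1 x y ↔ c))
    (h1 : (E.wS s.1).lo (x + 1) ≤ y) (h2 : y ≤ (E.wS s.1).hi (x + 1)) :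
    vS ψ s.1 (x + 1) y ↔ c := by
  have hr := I.rel (isWl_of_W s.2)
  cases hs : (E.wS s.1).sh x
  · by_cases h3 : (E.wS s.1).lo x ≤ y ∧ y ≤ (E.wS s.1).hi x
    · rw [← h0 hs h3.1 h3.2]
      exact ((E.wS s.1).straight hr hx hs h3.1 h3.2 h1 h2).symm
    · by_cases hd : IsDart s.1
      · have k0 := (E.wS s.1).n0 x hx hs
        have k1 := (E.wS s.1).n1 x hx hs
        by_cases h4 : (E.wS s.1).lo x ≤ y
        · have h5 : (E.wS s.1).hi (x + 1) = (E.wS s.1).hi x + 1 := by omega
          have h6 := ((E.wS s.1).enter_high hr hx hs h5).2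
          have h7 : y = (E.wS s.1).hi (x + 1) := by omega
          rw [h7, ← h6]
          exact sv_c hc ⟨s.1, hd⟩ (eD_ne (d := ⟨s.1, hd⟩) hx (by
            show (E.wS s.1).hi (x + 1) ≠ (E.wS s.1).hi x
            omega))
        · have h5 : (E.wS s.1).lo x = (E.wS s.1).lo (x + 1) + 1 := by omega
          have h6 := ((E.wS s.1).enter_low hr hx hs h5).2
          have h7 : y = (E.wS s.1).lo (x + 1) := by omega
          rw [h7, ← h6]
          refine (sv_low ⟨s.1, hd⟩ hx).trans ?_
          exact sv_c hc _ (eD_ne_low (d := ⟨s.1, hd⟩) hx (by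
            show (E.wS s.1).lo (x + 1) ≠ (E.wS s.1).lo x
            omega))
      · exfalso
        rcases wS_x E (isWl_of_W s.2) (isWl_axis (isWl_of_W s.2) hd) x hx with h4 | h4
        · rw [hs] at h4; exact absurd h4 (by decide)
        · apply h3; omega
  · obtain ⟨s1, s2, s3⟩ := (E.wS s.1).s0 x hx hs
    have h3 := (E.wS s.1).shift hr (y := y - 1) hx hs (by omega) (by omega)
    rw [show y - 1 + 1 = y by omega] at h3
    rw [← h3.2, ← h3.1]
    exact ih (y - 1) (by omega) x hx.le (by omega) (by omega)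

/-- all strands -/
theorem strand_c (I : InvT E ψ χ) {c : Prop} (hc : (valsT E ψ χ).AllC E.A c) : ∀ y : ℕ,
    ∀ (s : Wl P) (x : ℕ), x ≤ 13 → (E.wS s.1).lo x ≤ y → y ≤ (E.wS s.1).hi x →
      (vS ψ s.1 x y ↔ c) := by
  intro y
  induction y using Nat.strong_induction_on with
  | _ y ih =>
    -- within a facet
    have hA : ∀ s : Wl P, ((E.wS s.1).lo 0 ≤ y → y ≤ (E.wS s.1).hi 0 → (tr ψ s y ↔ c)) →
        ∀ x ≤ 13, (E.wS s.1).lo x ≤ y → y ≤ (E.wS s.1).hi x → (vS ψ s.1 x y ↔ c) := by
      intro s h0 x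
      induction x with
      | zero => intro _; exact h0
      | succ x ihx =>
        intro hx h1 h2
        exact col_step I hc s (fun y' hy' x hx => ih y' hy' s x hx) (by omega)
          (fun _ => ihx (by omega)) h1 h2
    -- behind the shift of a special facet
    have hB : ∀ s : Wl P, E.sp s → ∀ x, 7 ≤ x → x ≤ 13 → (E.wS s.1).lo x ≤ y →
        y ≤ (E.wS s.1).hi x → (vS ψ s.1 x y ↔ c) := by
      intro s hs x hx
      induction x, hx using Nat.le_induction with
      | base =>
        intro _ h1 h2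
        refine col_step I hc s (fun y' hy' x hx => ih y' hy' s x hx) (x := 6) (by norm_num)
          (fun h => ?_) h1 h2
        rw [wS_sp_sh hs] at h
        exact absurd h (by decide)
      | succ x hx' ihx =>
        intro hx h1 h2
        exact col_step I hc s (fun y' hy' x hx => ih y' hy' s x hx) (by omega)
          (fun _ => ihx (by omega)) h1 h2
    -- from facet to facet
    have glue : ∀ s : Wl P, ((E.wS s.1).lo 13 ≤ y → y ≤ (E.wS s.1).hi 13 → (te ψ s y ↔ c)) →
        ((E.wS (sig P s).1).lo 0 ≤ y → y ≤ (E.wS (sig P s).1).hi 0 → (tr ψ (sig P s) y ↔ c)) := by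
      intro s h h1 h2
      have h3 := wS_glue E (isWl_of_W s.2)
      have h4 : (E.wS (sig P s).1).lo 0 = (E.wS s.1.stE).lo 0 := rfl
      have h5 : (E.wS (sig P s).1).hi 0 = (E.wS s.1.stE).hi 0 := rfl
      rw [← te_tr I s (by omega) (by omega)]
      exact h (by omega) (by omega)
    have hC : ∀ a : Wl P, E.sp a → ∀ n : ℕ, ∀ s, ((sig P) ^ n) (sig P a) = s →
        (E.wS s.1).lo 0 ≤ y → y ≤ (E.wS s.1).hi 0 → (tr ψ s y ↔ c) := by
      intro a ha n
      induction n with
      | zero =>
        intro s hs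
        have hs' : sig P a = s := hs
        rw [← hs']
        exact glue a (hB a ha 13 (by norm_num) le_rfl)
      | succ n ihn =>
        intro s hs
        rw [pow_succ', Equiv.Perm.mul_apply] at hs
        rw [← hs]
        exact glue _ (hA _ (ihn _ rfl) 13 le_rfl)
    intro s x hx
    apply hA s _ x hx
    obtain ⟨a, ⟨hca, ha⟩, -⟩ := E.sp_ex s
    have h' : (sig P).SameCycle (sig P a) s := (Equiv.Perm.sameCycle_apply_left).2 hca.symm
    obtain ⟨n, -, hn⟩ := h'.exists_pow_eq'
    exact hC a ha n s hn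

/-- all strands, in the frame of a state -/
lemma strand_c' (I : InvT E ψ χ) {c : Prop} (hc : (valsT E ψ χ).AllC E.A c) {s : P.FSt}
    (h : IsWl s) {x y : ℕ} (hx : x ≤ 13) (h1 : (E.wS s).lo x ≤ y) (h2 : y ≤ (E.wS s).hi x) :
    vS ψ s x y ↔ c := by
  have h3 := wS_bd E h hx
  rcases isWl_W h with hW | hW
  · exact strand_c I hc y ⟨s, hW⟩ x hx h1 h2
  · have h4 := wS_r2 E h (x := 13 - x) (by omega)
    rw [show 13 - (13 - x) = x by omega] at h4
    have h5 := strand_c I hc (12 - y) ⟨s.r2, hW⟩ (13 - x) (by omega)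
      (by show (E.wS s.r2).lo (13 - x) ≤ 12 - y; omega)
      (by show 12 - y ≤ (E.wS s.r2).hi (13 - x); omega)
    have h6 : vS ψ s.r2 (13 - x) (12 - y) = vS ψ s x y := by
      rw [vS_r2 ψ h (by omega) (by omega), show 13 - (13 - x) = x by omega,
        show 12 - (12 - y) = y by omega]
    rw [← h6]
    exact h5

/-- the outgoing dart before a facet with horizontal normal on a ring -/
lemma ring_before (f : P.Facet) (h : f.1.2.1 = 2) : ∃ (hd : IsDart (ringD f)) (i : ℕ),
    i ≤ retN pN IsDart (ringD f) ∧ (pN ^ i) (ringD f) = can f ∧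
      out (⟨ringD f, hd⟩ : Dart P) = true := by
  have hex : ∃ j : ℕ, IsDart (((pN.symm : Equiv.Perm P.FSt) ^ j) (can f)) := by
    have := exists_dart_ring P f (by rw [h]; decide) false
    simpa using this
  have hd : IsDart (ringD f) := srch_spec hex
  set j := srch pN.symm IsDart (can f) with hj
  have e0 : ringD f = ((pN.symm : Equiv.Perm P.FSt) ^ j) (can f) := rfl
  have h0 : ∀ i ≤ j, (pN ^ i) (ringD f) = ((pN.symm : Equiv.Perm P.FSt) ^ (j - i)) (can f) := by
    intro i hi
    rw [e0]
    have e : (pN.symm : Equiv.Perm P.FSt) = pN⁻¹ := rfl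
    rw [e, inv_pow, inv_pow]
    apply (pN ^ (j - i)).injective
    rw [← Equiv.Perm.mul_apply, ← Equiv.Perm.mul_apply, ← pow_add, Nat.sub_add_cancel hi,
      ← Equiv.Perm.mul_apply]
    simp
  have h1 : (pN ^ j) (ringD f) = can f := by
    rw [h0 j le_rfl, Nat.sub_self]; rfl
  refine ⟨hd, j, ?_, h1, ?_⟩
  · by_contra hlt
    have h2 : IsDart (retFun pN IsDart (ringD f)) := retFun_spec ⟨0, by simpa using hd⟩
    rw [retFun_eq, h0 _ (by omega)] at h2
    exact srch_not (by omega) h2
  · rw [out_e]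
    show (ringD f).1.e = (0, true)
    have h3 : (can f).1.e = (0, true) := (can_e f).1 (by rw [h]; decide)
    have h4 := pow_e (-(j : ℤ)) h3
    rw [← h1, ← zpow_natCast, ← Equiv.Perm.mul_apply, ← zpow_add, neg_add_cancel, zpow_zero] at h4
    exact h4

/-- **the last clause** -/
theorem valsT_all (I : InvT E ψ χ) (c : Prop) (hc : (valsT E ψ χ).AllC E.A c) :
    (∀ f x y, x ≤ 13 → y < 13 → E.prT f x y = true → (ψ f x y ↔ c)) ∧
      (∀ f x y, x < 13 → y ≤ 13 → E.laT f x y ≠ .z → (χ f x y ↔ c)) := by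
  have part1 : ∀ f x y, x ≤ 13 → y < 13 → E.prT f x y = true → (ψ f x y ↔ c) := by
    intro f x y hx hy h
    by_cases h2 : f.1.2.1 = 2
    · rw [prT_z E h2] at h
      exact absurd (show false = true from h) (by decide)
    · rw [prT_eq E h2, ← wS_can E h2] at h
      have h1 := (Win.pr_true _).1 h
      have h3 := strand_c' I hc (isWl_can h2) hx h1.1 h1.2
      rw [vS_can] at h3
      exact h3
  refine ⟨part1, ?_⟩
  intro f x y hx hy h
  rcases axis_cases f with h0 | h0 | h0
  · -- shift columns of the special facets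
    have h2 : f.1.2.1 ≠ 2 := by rw [h0]; decide
    have hw := isWl_can h2
    have hr := I.rel hw
    rw [laT_eq E h2, ← wS_can E h2] at h
    rcases wS_x E hw h0 x hx with h3 | h3
    · have h4 : (E.wS (can f)).lo x < y ∧ y ≤ (E.wS (can f)).hi x + 1 := by
        by_contra h4
        apply h
        unfold Win.la
        rw [if_pos h3, if_neg h4]
      have h5 := ((E.wS (can f)).shift hr (y := y - 1) hx h3 (by omega) (by omega)).1
      rw [show y - 1 + 1 = y by omega, hS_can] at h5
      rw [← h5]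
      exact strand_c' I hc hw hx.le (by omega) (by omega)
    · cases hs : (E.wS (can f)).sh x
      · exfalso
        apply h
        unfold Win.la
        rw [if_neg (by rw [hs]; decide), h3.1, h3.2]
        unfold lnd
        split_ifs <;> first | rfl | (exfalso; omega)
      · have h4 : (E.wS (can f)).lo x < y ∧ y ≤ (E.wS (can f)).hi x + 1 := by
          by_contra h4
          apply h
          unfold Win.la
          rw [if_pos hs, if_neg h4]
        have h5 := ((E.wS (can f)).shift hr (y := y - 1) hx hs (by omega) (by omega)).1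
        rw [show y - 1 + 1 = y by omega, hS_can] at h5
        rw [← h5]
        exact strand_c' I hc hw hx.le (by omega) (by omega)
  · -- lanes on the darts
    have h2 : f.1.2.1 ≠ 2 := by rw [h0]; decide
    have hw := isWl_can h2
    have hr := I.rel hw
    set d : Dart P := ⟨can f, isDart_can h0⟩ with hd
    have hs : (E.wS (can f)).sh x = false := wS_dart_sh E d x
    rw [laT_eq E h2, ← wS_can E h2] at h
    unfold Win.la at h
    rw [if_neg (by rw [hs]; decide)] at h
    by_cases h3 : y ≤ (E.wS (can f)).lo x ∧ y ≤ (E.wS (can f)).lo (x + 1)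
    · rw [if_pos h3] at h
      have hne : (E.wS (can f)).bot x ≠ .z := by
        unfold Win.bot; rw [if_neg (by rw [hs]; decide)]; exact h
      have h4 := (E.wS (can f)).lane_low hr hx hs hne y h3.1 h3.2
      rw [hS_can] at h4
      rw [← h4]
      have h5 := sv_low (χ := χ) d hx
      have e5 : hS χ d.1 x 0 = χ f x 0 := by
        show hS χ (can f) x 0 = χ f x 0
        rw [hS_can]
      rw [e5] at h5
      rw [h5]
      refine sv_c hc _ (eD_ne_low (d := d) hx ?_)
      intro h6
      have h7 : (E.wS (can f)).lo (x + 1) = (E.wS (can f)).lo x := h6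
      apply h
      unfold lnd
      rw [if_neg (by omega), if_neg (by omega)]
    · rw [if_neg h3] at h
      by_cases h4 : (E.wS (can f)).hi x < y ∧ (E.wS (can f)).hi (x + 1) < y
      · rw [if_pos h4] at h
        have hne : (E.wS (can f)).top x ≠ .z := by
          unfold Win.top; rw [if_neg (by rw [hs]; decide)]; exact h
        have h5 := (E.wS (can f)).lane_high hr hx hs hne y h4.1 h4.2 hy
        rw [hS_can] at h5
        rw [h5]
        have e5 : sv χ d x = χ f x 13 := by
          show hS χ (can f) x 13 = χ f x 13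
          rw [hS_can]
        rw [← e5]
        refine sv_c hc d (eD_ne (d := d) hx ?_)
        intro h6
        have h7 : (E.wS (can f)).hi (x + 1) = (E.wS (can f)).hi x := h6
        apply h
        unfold lnd
        rw [if_neg (by omega), if_neg (by omega)]
      · rw [if_neg h4] at h
        exact absurd rfl h
  · -- horizontal facets
    obtain ⟨hd, i, hi, h1, ho⟩ := ring_before f h0
    rw [laT_z E h0] at h
    have he : E.eD ⟨ringD f, hd⟩ x ≠ Ln.o := by
      rw [eD_out _ ho, ← toLn_ne]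
      exact h
    obtain ⟨k1, k2, k3⟩ := ring_key I ⟨ringD f, hd⟩ ho hx he i hi
    rw [h1] at k3
    have hcell := I.cell f
    rw [prT_z E h0, laT_z E h0] at hcell
    have h5 := cellRel_plain hcell hx h
    rw [← h5 y hy, h5 13 le_rfl]
    have k4 : sv χ ⟨ringD f, hd⟩ x ↔ χ f x 13 := k3
    rw [← k4]
    exact sv_c hc _ he

/-- **A6.** -/
theorem exists_valsT (E : Data P) (ψ χ : P.Facet → ℕ → ℕ → Prop) (I : InvT E ψ χ) :
    ∃ v : Vals (Dart P), v.Loc E.A ∧ v.Across E ∧ ∀ c : Prop, v.AllC E.A c →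
      (∀ f x y, x ≤ 13 → y < 13 → E.prT f x y = true → (ψ f x y ↔ c)) ∧
      (∀ f x y, x < 13 → y ≤ 13 → E.laT f x y ≠ .z → (χ f x y ↔ c)) :=
  ⟨valsT E ψ χ, valsT_loc I, valsT_across I, fun c hc => valsT_all I c hc⟩

end Pool.Agent.MP42
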