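import Pool.Agent.MP42.Line

/-!
If all vertices have degree three and there are no flush `y`-edges, then the walk around a leaf
(next side along the rim, then the other end of the strip) has period one, two or three.
-/

namespace Pool.Agent.MP42.Geo

open Pool.Agent.Helper55.UNF Pool.Agent.Helper55.UNF.GridSolid

/-- the corner of the box `c` in the directions `d`, `e`, `n` -/
def cnr (c : Fin 3 → ℤ) (d e n : Dir) : Fin 3 → ℤ := fun a =>
  c a + if (a = d.1 ∧ d.2 = true) ∨ (a = e.1 ∧ e.2 = true) ∨ (a = n.1 ∧ n.2 = true) then 1 else 0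

/-- the corner of a state in the direction north east -/
def ne (s : St) : Fin 3 → ℤ := cnr s.c s.d s.e (cross s.d s.e)

/-- the corner of a state in the direction north west -/
def nw (s : St) : Fin 3 → ℤ := cnr s.c s.d (opp s.e) (cross s.d s.e)

/-- the corner of a state in the direction south west -/
def sw (s : St) : Fin 3 → ℤ := cnr s.c s.d (opp s.e) (opp (cross s.d s.e))

lemma cnr_step1 : ∀ (d e n : Dir), d.1 ≠ e.1 → d.1 ≠ n.1 → e.1 ≠ n.1 → ∀ (c : Fin 3 → ℤ),
    cnr (shift (shift c e) d) (opp e) (opp d) n = cnr c d e n := by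
  intro d e n h1 h2 h3 c
  funext a
  unfold cnr
  by_cases ha : a = d.1
  · subst ha
    rw [shift_same, shift_ne _ _ h1]
    rcases d with ⟨d, s⟩
    cases s <;> simp_all [opp]
  · rw [shift_ne _ _ ha]
    by_cases hb : a = e.1
    · subst hb
      rw [shift_same]
      rcases e with ⟨e, s⟩
      cases s <;> simp_all [opp]
    · rw [shift_ne _ _ hb]
      simp_all [opp]

lemma cnr_step2 : ∀ (d e n : Dir), d.1 ≠ e.1 → d.1 ≠ n.1 → e.1 ≠ n.1 → ∀ (c : Fin 3 → ℤ),
    cnr (shift c e) d (opp e) n = cnr c d e n := by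
  intro d e n h1 h2 h3 c
  funext a
  unfold cnr
  by_cases hb : a = e.1
  · subst hb
    rw [shift_same]
    rcases e with ⟨e, s⟩
    cases s
    · have : ¬ (e = d.1 ∧ d.2 = true) := fun h => h1 h.1.symm
      have : ¬ (e = n.1 ∧ n.2 = true) := fun h => h3 h.1
      simp_all [opp]
    · have : ¬ (e = d.1 ∧ d.2 = true) := fun h => h1 h.1.symm
      have : ¬ (e = n.1 ∧ n.2 = true) := fun h => h3 h.1
      simp_all [opp]
  · rw [shift_ne _ _ hb]
    simp_all [opp]

lemma cnr_comm (c : Fin 3 → ℤ) (d e n : Dir) : cnr c e d n = cnr c d e n := by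
  funext a
  unfold cnr
  congr 1
  apply if_congr _ rfl rfl
  tauto

lemma cnr_comm' (c : Fin 3 → ℤ) (d e n : Dir) : cnr c d n e = cnr c d e n := by
  funext a
  unfold cnr
  congr 1
  apply if_congr _ rfl rfl
  tauto

variable (P : GridSolid)

/-- Going east, the north east corner becomes the north west corner. -/
lemma nw_stepE (s : St) (h : s.d.1 ≠ s.e.1) : nw (s.stepE P) = ne s := by
  have h1 := (cross_axis_left s.d s.e h).symm
  have h2 := (cross_axis_right s.d s.e h).symm
  have hn := P.stepE_n s h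
  unfold St.n at hn
  unfold nw ne
  rw [hn]
  unfold St.stepE
  split_ifs
  · exact cnr_step1 _ _ _ h h1 h2 _
  · exact cnr_step2 _ _ _ h h1 h2 _
  · simp only [opp_opp]
    exact cnr_comm _ _ _ _

lemma ne_rotL (s : St) (h : s.d.1 ≠ s.e.1) : ne s.rotL = nw s := by
  unfold ne nw St.rotL
  simp only
  rw [cross_cross _ _ h]
  exact cnr_comm' _ _ _ _

lemma sw_rotR (s : St) (h : s.d.1 ≠ s.e.1) : sw s.rotR = nw s := by
  unfold sw nw St.rotR
  simp only [opp_opp]
  rw [cross_opp_cross _ _ h]
  exact cnr_comm' _ _ _ _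

/-- Going north, the north west corner becomes the south west corner. -/
lemma sw_stepN (s : St) (h : s.d.1 ≠ s.e.1) : sw (s.stepN P) = nw s := by
  unfold St.stepN
  have h1 : s.rotL.d.1 ≠ s.rotL.e.1 := (cross_axis_left _ _ h).symm
  rw [sw_rotR _ (P.stepE_perp _ h1), nw_stepE P _ h1, ne_rotL _ h]

lemma ne_rot2 (s : St) (h : s.d.1 ≠ s.e.1) : ne s.rot2 = sw s := by
  unfold ne sw St.rot2
  simp only
  rw [cross_opp_right _ _ h]

/-- The two corners of a facet on a side parallel to the `y`-axis are on the same component. -/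
lemma sameK_side (c : Fin 3 → ℤ) (d n : Dir) (hdn : d.1 ≠ n.1) (hd : d.1 ≠ 1) (hn : n.1 ≠ 1)
    (hc : c ∈ P.cells) (hc' : shift c d ∉ P.cells) (s : Bool) :
    SameK P (cnr c d (1, !s) n) (cnr c d (1, s) n) := by
  have key : SameK P (cnr c d (1, false) n) (cnr c d (1, true) n) := by
    apply SameK.step
    · unfold cnr; simp
    · unfold cnr; simp
    · unfold cnr; simp [hd.symm, hn.symm]
    · set ε : Fin 3 → Bool := fun a => !(decide ((a = d.1 ∧ d.2 = true) ∨ (a = n.1 ∧ n.2 = true)))
        with hε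
      have e1 : ε 1 = true := by
        rw [hε]; simp [hd.symm, hn.symm]
      have hcor : corner (cnr c d (1, false) n) ε = c := by
        funext a
        unfold corner cnr
        rw [hε]
        by_cases h : (a = d.1 ∧ d.2 = true) ∨ (a = n.1 ∧ n.2 = true)
        · have h' : (a = d.1 ∧ d.2 = true) ∨ (a = ((1 : Fin 3), false).1 ∧
              ((1 : Fin 3), false).2 = true) ∨ (a = n.1 ∧ n.2 = true) := by tauto
          rw [if_pos h']
          simp only [h, decide_true, Bool.not_true, Bool.false_eq_true, if_false]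
          ring
        · have h' : ¬ ((a = d.1 ∧ d.2 = true) ∨ (a = ((1 : Fin 3), false).1 ∧
              ((1 : Fin 3), false).2 = true) ∨ (a = n.1 ∧ n.2 = true)) := by
            simp only [Bool.false_eq_true, and_false, false_or]
            exact h
          rw [if_neg h']
          simp only [h, decide_false, Bool.not_false, if_true]
          ring
      refine ⟨⟨ε, e1, ?_⟩, ⟨Function.update ε d.1 d.2, ?_, ?_⟩⟩
      · rw [hcor]; exact hc
      · show Function.update ε d.1 d.2 1 = true
        rw [Function.update_of_ne (fun h => hd h.symm)]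
        exact e1
      · have := shift_corner (cnr c d (1, false) n) ε d.1 d.2 (by
          rw [hε]
          simp only [true_and]
          have hh : ¬ (d.1 = n.1 ∧ n.2 = true) := fun h => hdn h.1
          simp only [hh, or_false]
          cases d.2 <;> simp)
        rw [← this, hcor]
        exact hc'
  cases s
  · exact key.symm
  · exact key

/-- a dart: a `y`-facet with east in the direction of the `x`-axis -/
def IsDart (s : P.FSt) : Prop := s.1.d.1 = 1 ∧ s.1.e.1 = 0

variable {P}

lemma third : ∀ d e : Dir, d.1 ≠ e.1 → (cross d e).1 = -(d.1 + e.1) := by decide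

lemma side_E (s : P.FSt) (h : s.1.e.1 = 1) : SameK P (nw s.1) (ne s.1) := by
  obtain ⟨⟨c, d, e⟩, ⟨hc, hc'⟩, hde⟩ := s
  simp only at h hc hc' hde
  obtain ⟨a, s⟩ := e
  simp only at h hde
  subst h
  have h1 := cross_axis_left d (1, s) hde
  have h2 := cross_axis_right d (1, s) hde
  have := sameK_side P c d (cross d (1, s)) h1.symm hde h2 hc hc' s
  exact this

lemma side_N (s : P.FSt) (h : (cross s.1.d s.1.e).1 = 1) : SameK P (sw s.1) (nw s.1) := by
  obtain ⟨⟨c, d, e⟩, ⟨hc, hc'⟩, hde⟩ := s
  simp only at h hc hc' hde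
  have h1 := cross_axis_left d e hde
  have h2 := cross_axis_right d e hde
  have h3 : cross d e = (1, (cross d e).2) := by
    rw [← h]
  have := sameK_side P c d (opp e) hde (by rw [← h]; exact h1.symm) (by
    show e.1 ≠ 1
    rw [← h]; exact h2.symm) hc hc' (cross d e).2
  have h4 : ((1 : Fin 3), !(cross d e).2) = opp (cross d e) := by
    unfold opp; rw [h]
  rw [h4, ← h3] at this
  rw [cnr_comm' c d (opp e), cnr_comm' c d (opp e)] at this
  exact this

/-- Along the rim: the north east corner of the start is on the same component as the north west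
corner of the end. -/
lemma rim_walk (s : P.FSt) (hs : (cross s.1.d s.1.e).1 = 2) (k : ℕ)
    (hk : ∀ i, i < k → ¬ IsDart P (FSt.stE^[i + 1] s)) :
    SameK P (ne s.1) (nw (FSt.stE^[k + 1] s).1) ∧
      (cross (FSt.stE^[k + 1] s).1.d (FSt.stE^[k + 1] s).1.e).1 = 2 := by
  induction k with
  | zero =>
    constructor
    · rw [Function.iterate_one]
      have : nw s.stE.1 = ne s.1 := nw_stepE P s.1 s.2.2
      rw [this]
      exact SameK.refl P _
    · rw [Function.iterate_one]
      have := P.stepE_n s.1 s.2.2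
      have h2 : cross s.stE.1.d s.stE.1.e = cross s.1.d s.1.e := this
      rw [h2]; exact hs
  | succ k ih =>
    have ih' := ih (fun i hi => hk i (by omega))
    have hk' := hk k (by omega)
    rw [Function.iterate_succ_apply']
    generalize hu : FSt.stE^[k + 1] s = u at ih' hk'
    have hd : u.1.d.1 ≠ 1 := by
      intro h
      apply hk'
      refine ⟨h, ?_⟩
      have h1 := third _ _ u.2.2
      rw [ih'.2, h] at h1
      revert h1
      generalize u.1.e.1 = y
      revert y
      decide
    have he : u.1.e.1 = 1 := by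
      have h1 := third _ _ u.2.2
      rw [ih'.2] at h1
      have h3 := u.2.2
      revert h1 h3 hd
      generalize u.1.d.1 = x
      generalize u.1.e.1 = y
      revert x y
      decide
    constructor
    · have : nw u.stE.1 = ne u.1 := nw_stepE P u.1 u.2.2
      rw [this]
      exact ih'.1.trans (side_E u he)
    · have := P.stepE_n u.1 u.2.2
      have h2 : cross u.stE.1.d u.stE.1.e = cross u.1.d u.1.e := this
      rw [h2]; exact ih'.2

/-- Along the strip: the north west corner of the start is on the same component as the south west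
corner of the end. -/
lemma strip_walk (s : P.FSt) (hs : s.1.e.1 = 0) (k : ℕ)
    (hk : ∀ i, i < k → ¬ IsDart P (FSt.stN^[i + 1] s)) :
    SameK P (nw s.1) (sw (FSt.stN^[k + 1] s).1) ∧ (FSt.stN^[k + 1] s).1.e.1 = 0 := by
  induction k with
  | zero =>
    constructor
    · rw [Function.iterate_one]
      have : sw s.stN.1 = nw s.1 := sw_stepN P s.1 s.2.2
      rw [this]
      exact SameK.refl P _
    · rw [Function.iterate_one, FSt.stN_e]
      exact hs
  | succ k ih =>
    have ih' := ih (fun i hi => hk i (by omega))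
    have hk' := hk k (by omega)
    rw [Function.iterate_succ_apply']
    generalize hu : FSt.stN^[k + 1] s = u at ih' hk'
    have hd : u.1.d.1 ≠ 1 := fun h => hk' ⟨h, ih'.2⟩
    have he : (cross u.1.d u.1.e).1 = 1 := by
      have h1 := third _ _ u.2.2
      have h4 := ih'.2
      have h3 := u.2.2
      rw [h1]
      rw [h4] at h3 ⊢
      revert h3 hd
      generalize u.1.d.1 = x
      revert x
      decide
    constructor
    · have : sw u.stN.1 = nw u.1 := sw_stepN P u.1 u.2.2
      rw [this]
      exact ih'.1.trans (side_N u he)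
    · rw [FSt.stN_e]; exact ih'.2

/-- A dart is a head at its north east corner. -/
lemma dart_hd (s : P.FSt) (hs : IsDart P s) :
    hd P (ne s.1) (!s.1.e.2) (!(cross s.1.d s.1.e).2) := by
  obtain ⟨⟨c, ⟨d, ds⟩, ⟨e, es⟩⟩, ⟨hc, hc'⟩, hde⟩ := s
  obtain ⟨h1, h2⟩ := hs
  simp only at h1 h2 hc hc' hde
  subst h1 h2
  have hn : ∀ ds es : Bool, cross (1, ds) (0, es) = (2, ds != es) := by decide
  have hne : ne ⟨c, (1, ds), (0, es)⟩ = ![c 0 + (if es then 1 else 0), c 1 + (if ds then 1 else 0),
      c 2 + (if (ds != es) then 1 else 0)] := by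
    unfold ne
    simp only [hn]
    funext a
    fin_cases a <;> simp [cnr]
  have hsh : shift c (1, ds) = ![c 0, c 1 + (if ds then 1 else -1), c 2] := by
    funext a
    fin_cases a <;> simp [shift]
  have hcc : c = ![c 0, c 1, c 2] := by
    funext i; fin_cases i <;> rfl
  have hcor : ∀ (x y z : ℤ) (i j k : Bool), corner ![x, y, z] ![i, j, k] =
      ![if i then x else x - 1, if j then y else y - 1, if k then z else z - 1] := by
    intro x y z i j k
    funext a
    fin_cases a <;> rfl
  rw [hsh] at hc'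
  rw [hcc] at hc
  unfold hd
  rw [hne]
  simp only [hn]
  clear hcc hsh hne
  cases ds <;> cases es <;>
    simp [hdB, bt, hcor, sub_eq_add_neg] at hc hc' ⊢ <;>
    first | exact ⟨hc', hc⟩ | exact ⟨hc, hc'⟩

lemma dart_ext (s t : P.FSt) (hs : IsDart P s) (ht : IsDart P t) (h : ne s.1 = ne t.1)
    (hr : (!s.1.e.2) = (!t.1.e.2))
    (hu : (!(cross s.1.d s.1.e).2) = (!(cross t.1.d t.1.e).2)) : s = t := by
  apply FSt.ext'
  obtain ⟨⟨c, ⟨d, ds⟩, ⟨e, es⟩⟩, hs0⟩ := s
  obtain ⟨⟨c', ⟨d', ds'⟩, ⟨e', es'⟩⟩, ht0⟩ := t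
  obtain ⟨h1, h2⟩ := hs
  obtain ⟨h1', h2'⟩ := ht
  simp only at h1 h2 h1' h2' h hr hu
  subst h1 h2 h1' h2'
  have hn : ∀ ds es : Bool, cross (1, ds) (0, es) = (2, ds != es) := by decide
  simp only [hn] at hu
  have he : es = es' := by
    revert hr; cases es <;> cases es' <;> simp
  subst he
  have hd : ds = ds' := by
    revert hu; cases es <;> cases ds <;> cases ds' <;> simp
  subst hd
  have hcc : c = c' := by
    funext a
    have := congrFun h a
    unfold ne cnr at this
    simp only at this
    omega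
  show (⟨c, (1, ds), (0, es)⟩ : St) = ⟨c', (1, ds), (0, es)⟩
  rw [hcc]

/-- The step along the rim: `t` is the first `y`-facet state after `s` going east. -/
def RimStep (P : GridSolid) (s t : P.FSt) : Prop :=
  ∃ k : ℕ, t = FSt.stE^[k + 1] s ∧ ∀ i, i < k → ¬ IsDart P (FSt.stE^[i + 1] s)

/-- The step across the strip: `t` is the half turn of the first `y`-facet state after `s` going
north. -/
def StripStep (P : GridSolid) (s t : P.FSt) : Prop :=
  ∃ k : ℕ, t = (FSt.stN^[k + 1] s).r2 ∧ ∀ i, i < k → ¬ IsDart P (FSt.stN^[i + 1] s)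

/-- The head of the next dart of the walk around a leaf is on the same component. -/
lemma sameK_nu {s t u : P.FSt} (hs : IsDart P s) (ht : IsDart P t) (h1 : RimStep P s t)
    (h2 : StripStep P t u) : SameK P (ne s.1) (ne u.1) := by
  obtain ⟨k, rfl, hk⟩ := h1
  obtain ⟨l, rfl, hl⟩ := h2
  have a1 := rim_walk s (by rw [third _ _ s.2.2, hs.1, hs.2]; decide) k hk
  have a2 := strip_walk _ ht.2 l hl
  have a3 : ne ((FSt.stN^[l + 1] (FSt.stE^[k + 1] s)).r2).1 =
      sw (FSt.stN^[l + 1] (FSt.stE^[k + 1] s)).1 := ne_rot2 _ (FSt.stN^[l + 1] _).2.2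
  rw [a3]
  exact a1.1.trans a2.1

/-- The walk around a leaf has period at most three. -/
theorem period_le_three (hM : P.IsManifold) (hS : IsSimple P) (hF : NoFlush P 1)
    (s : ℕ → P.FSt) (hs : ∀ i, IsDart P (s i))
    (hstep : ∀ i, ∃ t, IsDart P t ∧ RimStep P (s i) t ∧ StripStep P t (s (i + 1)))
    (hinj : ∀ i j, s (i + 1) = s (j + 1) → s i = s j) :
    s 1 = s 0 ∨ s 2 = s 0 ∨ s 3 = s 0 := by
  have hK : ∀ i, SameK P (ne (s 0).1) (ne (s i).1) := by
    intro i
    induction i with
    | zero => exact SameK.refl P _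
    | succ i ih =>
      obtain ⟨t, ht, h1, h2⟩ := hstep i
      exact ih.trans (sameK_nu (hs i) ht h1 h2)
  have hlab : ∀ i j, lab P (ne (s i).1) (!(s i).1.e.2) = lab P (ne (s j).1) (!(s j).1.e.2) →
      s i = s j := by
    intro i j h
    obtain ⟨e1, e2, e3⟩ := head_inj P hM hS hF ((hK i).symm.trans (hK j)) (dart_hd _ (hs i))
      (dart_hd _ (hs j)) h
    exact dart_ext _ _ (hs i) (hs j) e1 e2 e3
  have hp : ∃ i j : Fin 4, i ≠ j ∧ lab P (ne (s i).1) (!(s i).1.e.2) =
      lab P (ne (s j).1) (!(s j).1.e.2) :=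
    Fintype.exists_ne_map_eq_of_card_lt
      (fun i : Fin 4 => lab P (ne (s i).1) (!(s i).1.e.2)) (by simp)
  have key : ∀ i j : ℕ, i < j → j < 4 → s i = s j → s 1 = s 0 ∨ s 2 = s 0 ∨ s 3 = s 0 := by
    intro i j hij hj h
    have h2 : ∀ m, m ≤ i → s (i - m) = s (j - m) := by
      intro m
      induction m with
      | zero => intro _; simpa using h
      | succ m ih =>
        intro hm
        apply hinj
        have := ih (by omega)
        rw [show i - (m + 1) + 1 = i - m by omega, show j - (m + 1) + 1 = j - m by omega]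
        exact this
    have h3 := h2 i le_rfl
    rw [Nat.sub_self] at h3
    have h4 : j - i = 1 ∨ j - i = 2 ∨ j - i = 3 := by omega
    rcases h4 with h4 | h4 | h4 <;> rw [h4] at h3
    · exact Or.inl h3.symm
    · exact Or.inr (Or.inl h3.symm)
    · exact Or.inr (Or.inr h3.symm)
  obtain ⟨i, j, hij, h⟩ := hp
  have h := hlab i j h
  rcases lt_or_gt_of_ne hij with h1 | h1
  · exact key i j h1 j.2 h
  · exact key j i h1 i.2 h.symm

end Pool.Agent.MP42.Geo
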