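import Pool.Agent.MP42.Defs
import Pool.Agent.MP42.Walk

/-!
# A7: geometry (owners helper43, helper74)

If all vertices have degree 3 and no two edges parallel to the `y`-axis are flush, then at most three
strips meet at every leaf.
-/

set_option autoImplicit false
set_option linter.unusedSectionVars false

namespace Pool.Agent.MP42

open Pool.Agent.Helper55.UNF Pool.Agent.Helper55.UNF.GridSolid

variable (P : GridSolid)

/-- the four boxes around the grid edge from `v` in direction `+ a` that are solid -/
def solid4 (a : Fin 3) (v : Fin 3 → ℤ) : Finset (Fin 3 → Bool) :=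
  Finset.univ.filter fun ε : Fin 3 → Bool => ε a = true ∧ corner v ε ∈ P.cells

/-- the grid edge from `v` in direction `+ a` lies on an edge of the polyhedron -/
def IsEdge (a : Fin 3) (v : Fin 3 → ℤ) : Prop := Odd (solid4 P a v).card

/-- the grid edge from `v` in direction `+ a` lies in the surface -/
def OnSurf (a : Fin 3) (v : Fin 3 → ℤ) : Prop := (solid4 P a v).card ≠ 0 ∧ (solid4 P a v).card ≠ 4

/-- the six grid edges at `v` -/
def edgeAt (v : Fin 3 → ℤ) (d : Dir) : Prop :=
  if d.2 then IsEdge P d.1 v else IsEdge P d.1 (Function.update v d.1 (v d.1 - 1))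

/-- all vertices have degree three -/
def Deg3 : Prop := ∀ v, P.IsVertex v → Set.ncard {d : Dir | edgeAt P v d} = 3

/-- no two different edges parallel to the axis `a` are collinear and connected within their line by a
segment that lies in the surface -/
def NoFlush (a : Fin 3) : Prop := ∀ (v : Fin 3 → ℤ) (m : ℕ), IsEdge P a v →
  IsEdge P a (Function.update v a (v a + m)) →
  (∀ n ≤ m, OnSurf P a (Function.update v a (v a + n))) →
  ∀ n, 0 < n → n ≤ m → ¬ P.IsVertex (Function.update v a (v a + n))

variable {P}

lemma isEdge_iff (a : Fin 3) (v : Fin 3 → ℤ) : IsEdge P a v ↔ Geo.EdgeAt P v (a, true) := Iff.rfl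

lemma edgeAt_iff (v : Fin 3 → ℤ) (w : Dir) : edgeAt P v w ↔ Geo.EdgeAt P v w := by
  obtain ⟨a, s⟩ := w
  cases s
  · unfold edgeAt
    simp only [Bool.false_eq_true, if_false]
    unfold IsEdge Geo.EdgeAt solid4
    have hcor : ∀ ε : Fin 3 → Bool, corner (Function.update v a (v a - 1))
        (Function.update ε a true) = corner v (Function.update ε a false) := by
      intro ε
      funext i
      unfold corner
      by_cases h : i = a
      · subst h; simp
      · simp [Function.update_of_ne h]
    have hc : (Finset.univ.filter fun ε : Fin 3 → Bool => ε a = true ∧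
        corner (Function.update v a (v a - 1)) ε ∈ P.cells).card =
        (Finset.univ.filter fun ε : Fin 3 → Bool => ε a = false ∧ corner v ε ∈ P.cells).card := by
      refine Finset.card_nbij' (fun ε => Function.update ε a false)
        (fun ε => Function.update ε a true) ?_ ?_ ?_ ?_
      · intro ε hε
        simp only [Finset.coe_filter, Finset.mem_univ, true_and, Set.mem_ofPred_eq] at hε ⊢
        refine ⟨Function.update_self _ _ _, ?_⟩
        rw [← hcor]
        have : Function.update ε a true = ε := by
          rw [← hε.1]; exact Function.update_eq_self _ _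
        rw [this]; exact hε.2
      · intro ε hε
        simp only [Finset.coe_filter, Finset.mem_univ, true_and, Set.mem_ofPred_eq] at hε ⊢
        refine ⟨Function.update_self _ _ _, ?_⟩
        rw [hcor]
        have : Function.update ε a false = ε := by
          rw [← hε.1]; exact Function.update_eq_self _ _
        rw [this]; exact hε.2
      · intro ε hε
        simp only [Finset.coe_filter, Finset.mem_univ, true_and, Set.mem_ofPred_eq] at hε
        show Function.update (Function.update ε a false) a true = ε
        rw [Function.update_idem, ← hε.1]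
        exact Function.update_eq_self _ _
      · intro ε hε
        simp only [Finset.coe_filter, Finset.mem_univ, true_and, Set.mem_ofPred_eq] at hε
        show Function.update (Function.update ε a true) a false = ε
        rw [Function.update_idem, ← hε.1]
        exact Function.update_eq_self _ _
    rw [hc]
  · exact Iff.rfl

lemma isSimple_of_deg3 (h3 : Deg3 P) : Geo.IsSimple P := by
  intro v hv
  have h := h3 v hv
  have e : {d : Dir | edgeAt P v d} =
      ↑(Finset.univ.filter fun w : Dir => Geo.EdgeAt P v w) := by
    ext w
    simp only [Set.mem_ofPred_eq, Finset.coe_filter, Finset.mem_univ, true_and]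
    exact edgeAt_iff v w
  rw [e, Set.ncard_coe_finset] at h
  exact h

lemma onSurf_of_inSurf {v : Fin 3 → ℤ} (h : Geo.InSurf P v (1, true)) : OnSurf P 1 v := by
  obtain ⟨⟨ε, h1, h2⟩, ⟨δ, h3, h4⟩⟩ := h
  constructor
  · rw [Ne, Finset.card_eq_zero]
    intro h
    have : ε ∈ solid4 P 1 v := by
      unfold solid4
      simp only [Finset.mem_filter, Finset.mem_univ, true_and]
      exact ⟨h1, h2⟩
    rw [h] at this
    simp at this
  · have hlt : (solid4 P 1 v).card < (Finset.univ.filter fun ε : Fin 3 → Bool => ε 1 = true).card := by
      apply Finset.card_lt_card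
      rw [Finset.ssubset_iff_of_subset]
      · refine ⟨δ, ?_, ?_⟩
        · simp only [Finset.mem_filter, Finset.mem_univ, true_and]
          exact h3
        · unfold solid4
          simp only [Finset.mem_filter, Finset.mem_univ, true_and, not_and]
          intro _
          exact h4
      · intro ε hε
        unfold solid4 at hε
        simp only [Finset.mem_filter, Finset.mem_univ, true_and] at hε ⊢
        exact hε.1
    have h4 : (Finset.univ.filter fun ε : Fin 3 → Bool => ε 1 = true).card = 4 := by decide
    omega

lemma straight : ∀ (a0 b0 c0 d0 a1 b1 c1 d1 : Bool), Geo.vtB a0 b0 c0 d0 a1 b1 c1 d1 = false →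
    Geo.crB a0 b0 c0 d0 = true → Geo.crB a1 b1 c1 d1 = true := by
  decide

lemma noFlush_geo (hf : NoFlush P 1) : Geo.NoFlush P 1 := by
  intro v n h1 h2 h3 i hi
  have e : ∀ j : ℕ, Geo.mv v 1 j = Function.update v 1 (v 1 + j) := fun j => rfl
  have key := hf v n h1 h2 (by
    intro j hj
    rcases eq_or_lt_of_le hj with rfl | hj
    · have h2' : Odd (solid4 P 1 (Function.update v 1 (v 1 + j))).card := h2
      rw [Nat.odd_iff] at h2'
      constructor <;> omega
    · exact onSurf_of_inSurf (h3 j hj))
  induction i with
  | zero =>
    have : Geo.mv v 1 ((0 : ℕ) : ℤ) = v := by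
      unfold Geo.mv; simp
    rw [this]
    exact h1
  | succ i ih =>
    have ih' := ih (by omega)
    have hv := key (i + 1) (by omega) (by omega)
    rw [← e, Geo.vertex_iff] at hv
    rw [Geo.edge_y1] at ih' ⊢
    have hb : ∀ a c : Bool, Geo.bt P (Geo.mv v 1 ((i + 1 : ℕ) : ℤ)) ![a, false, c] =
        Geo.bt P (Geo.mv v 1 (i : ℤ)) ![a, true, c] := by
      intro a c
      unfold Geo.bt
      congr 2
      funext j
      fin_cases j
      · simp [corner, Geo.mv]
      · simp [corner, Geo.mv]
        ring
      · simp [corner, Geo.mv]
    refine straight _ _ _ _ _ _ _ _ (Bool.eq_false_iff.2 hv) ?_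
    rw [hb, hb, hb, hb]
    exact ih'

/-- the step of the walk around a leaf, in terms of the steps along the rim and the strip -/
lemma nu_step (d : Dart P) : ∃ t : P.FSt, Geo.IsDart P t ∧ Geo.RimStep P d.1 t ∧
    Geo.StripStep P t (nu (theta P) (phi P) d).1 := by
  refine ⟨(phi P d).1, (phi P d).2, ⟨retN pE IsDart d.1, ?_, ?_⟩,
    ⟨retN pN IsDart (phi P d).1, ?_, ?_⟩⟩
  · show retFun pE IsDart d.1 = _
    rw [retFun_eq, ← Equiv.Perm.iterate_eq_pow]
    rfl
  · intro j hj
    have := retN_not hj
    rw [← Equiv.Perm.iterate_eq_pow] at this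
    exact this
  · show (retFun pN IsDart (phi P d).1).r2 = _
    rw [retFun_eq, ← Equiv.Perm.iterate_eq_pow]
    rfl
  · intro j hj
    have := retN_not hj
    rw [← Equiv.Perm.iterate_eq_pow] at this
    exact this

variable (P)

theorem thin_of_deg3 (hP : P.IsManifold) (h3 : Deg3 P) (hf : NoFlush P 1) : Thin P := by
  intro d
  set ν := nu (theta P) (phi P) with hν
  have h := Geo.period_le_three (P := P) hP (isSimple_of_deg3 h3) (noFlush_geo hf)
    (fun i => (ν^[i] d).1) (fun i => (ν^[i] d).2) ?_ ?_
  · rcases h with h | h | h
    · exact Or.inl (Subtype.ext h)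
    · exact Or.inr (Or.inl (Subtype.ext h))
    · exact Or.inr (Or.inr (Subtype.ext h))
  · intro i
    show ∃ t, Geo.IsDart P t ∧ Geo.RimStep P (ν^[i] d).1 t ∧ Geo.StripStep P t (ν^[i + 1] d).1
    rw [Function.iterate_succ_apply']
    exact nu_step (ν^[i] d)
  · intro i j h
    have h1 : ν^[i + 1] d = ν^[j + 1] d := Subtype.ext h
    rw [Function.iterate_succ_apply', Function.iterate_succ_apply'] at h1
    show (ν^[i] d).1 = (ν^[j] d).1
    rw [ν.injective h1]

end Pool.Agent.MP42
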