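import Pool.Agent.MP42.A7

/-!
# A9: renaming of the axes

`rl P σ` is the solid `P` with the axes renamed: its axis `a` is the axis `σ a` of `P`.
-/

set_option autoImplicit false
set_option linter.unusedSectionVars false

namespace Pool.Agent.MP42

open Pool.Agent.Helper55.UNF Pool.Agent.Helper55.UNF.GridSolid

section

variable (σ : Equiv.Perm (Fin 3))

/-- renaming of the axes of an integer point -/
def rlc (c : Fin 3 → ℤ) : Fin 3 → ℤ := fun a => c (σ a)

@[simp] lemma rlc_apply (c : Fin 3 → ℤ) (a : Fin 3) : rlc σ c a = c (σ a) := rfl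

lemma rlc_symm (c : Fin 3 → ℤ) : rlc σ (rlc σ.symm c) = c := by
  funext a; simp

lemma rlc_symm' (c : Fin 3 → ℤ) : rlc σ.symm (rlc σ c) = c := by
  funext a; simp

lemma rlc_inj : Function.Injective (rlc σ) := fun c c' h => by
  rw [← rlc_symm' σ c, ← rlc_symm' σ c', h]

/-- renaming of the axes of a direction -/
def rld (d : Dir) : Dir := (σ.symm d.1, d.2)

lemma rlc_shift (c : Fin 3 → ℤ) (d : Dir) : rlc σ (shift c d) = shift (rlc σ c) (rld σ d) := by
  funext a
  by_cases h : a = σ.symm d.1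
  · subst h
    have h1 := shift_same (rlc σ c) (rld σ d)
    rw [show (rld σ d).1 = σ.symm d.1 from rfl] at h1
    rw [h1]
    have h2 := shift_same c d
    simp only [rlc_apply, Equiv.apply_symm_apply]
    rw [h2]
    rfl
  · rw [shift_ne _ _ (show a ≠ (rld σ d).1 from h)]
    simp only [rlc_apply]
    rw [shift_ne]
    intro h2
    exact h (by rw [← h2]; simp)

lemma rld_symm (d : Dir) : rld σ (rld σ.symm d) = d := by
  simp [rld]

lemma rld_symm' (d : Dir) : rld σ.symm (rld σ d) = d := by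
  simp [rld]

/-- renaming of the axes as an isometry of space -/
noncomputable def rlp : EuclideanSpace ℝ (Fin 3) ≃ₗᵢ[ℝ] EuclideanSpace ℝ (Fin 3) :=
  LinearIsometryEquiv.piLpCongrLeft 2 ℝ ℝ σ.symm

@[simp] lemma rlp_apply (p : EuclideanSpace ℝ (Fin 3)) (a : Fin 3) : rlp σ p a = p (σ a) := by
  simp [rlp]

end

variable (P : GridSolid) (σ : Equiv.Perm (Fin 3))

/-- the solid with renamed axes -/
def rl : GridSolid where
  crd := fun a => P.crd (σ a)
  mono := fun a => P.mono (σ a)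
  cells := P.cells.map ⟨rlc σ, rlc_inj σ⟩

lemma mem_rl {c : Fin 3 → ℤ} : rlc σ c ∈ (rl P σ).cells ↔ c ∈ P.cells := by
  show rlc σ c ∈ P.cells.map ⟨rlc σ, rlc_inj σ⟩ ↔ c ∈ P.cells
  rw [Finset.mem_map]
  constructor
  · rintro ⟨c', h1, h2⟩
    rwa [rlc_inj σ h2] at h1
  · intro h
    exact ⟨c, h, rfl⟩

lemma mem_rl' {c : Fin 3 → ℤ} : c ∈ (rl P σ).cells ↔ rlc σ.symm c ∈ P.cells := by
  rw [← mem_rl P σ, rlc_symm]

lemma isFacet_rl {t : (Fin 3 → ℤ) × Dir} :
    (rl P σ).IsFacet (rlc σ t.1, rld σ t.2) ↔ P.IsFacet t := by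
  unfold GridSolid.IsFacet
  simp only
  rw [mem_rl, ← rlc_shift, mem_rl]

/-- the facets of the two solids -/
def rlF : P.Facet ≃ (rl P σ).Facet where
  toFun f := ⟨(rlc σ f.1.1, rld σ f.1.2), (isFacet_rl P σ).2 f.2⟩
  invFun f := ⟨(rlc σ.symm f.1.1, rld σ.symm f.1.2), by
    have h := f.2
    rw [← isFacet_rl P σ]
    simp only [rlc_symm, rld_symm]
    exact h⟩
  left_inv f := Subtype.ext (by
    show (rlc σ.symm (rlc σ f.1.1), rld σ.symm (rld σ f.1.2)) = f.1
    rw [rlc_symm', rld_symm'])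
  right_inv f := Subtype.ext (by
    show (rlc σ (rlc σ.symm f.1.1), rld σ (rld σ.symm f.1.2)) = f.1
    rw [rlc_symm, rld_symm])

lemma mem_rect_rl {t : (Fin 3 → ℤ) × Dir} {p : EuclideanSpace ℝ (Fin 3)} :
    rlp σ p ∈ (rl P σ).rect (rlc σ t.1, rld σ t.2) ↔ p ∈ P.rect t := by
  unfold GridSolid.rect
  simp only [Set.mem_ofPred_eq, rlp_apply, rlc_apply, rld, rl, Equiv.apply_symm_apply]
  constructor
  · rintro ⟨h1, h2⟩
    refine ⟨h1, fun b hb => ?_⟩
    have := h2 (σ.symm b) (fun h => hb (σ.symm.injective h))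
    simpa using this
  · rintro ⟨h1, h2⟩
    refine ⟨h1, fun b hb => ?_⟩
    exact h2 (σ b) (fun h => hb (by rw [← h]; simp))

lemma mem_gridEdge_rl {a : Fin 3} {v : Fin 3 → ℤ} {p : EuclideanSpace ℝ (Fin 3)} :
    rlp σ p ∈ (rl P σ).gridEdge (σ.symm a) (rlc σ v) ↔ p ∈ P.gridEdge a v := by
  unfold GridSolid.gridEdge
  simp only [Set.mem_ofPred_eq, rlp_apply, rlc_apply, rl, Equiv.apply_symm_apply]
  constructor
  · rintro ⟨h1, h2⟩
    refine ⟨h1, fun b hb => ?_⟩
    have := h2 (σ.symm b) (fun h => hb (σ.symm.injective h))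
    simpa using this
  · rintro ⟨h1, h2⟩
    refine ⟨h1, fun b hb => ?_⟩
    exact h2 (σ b) (fun h => hb (by rw [← h]; simp))

lemma adj_rl (f g : P.Facet) :
    (rl P σ).Adjacent (rlF P σ f) (rlF P σ g) ↔ P.Adjacent f g := by
  unfold GridSolid.Adjacent
  rw [(rlF P σ).injective.ne_iff]
  refine and_congr_right fun _ => ?_
  constructor
  · rintro ⟨a, v, h⟩
    refine ⟨σ a, rlc σ.symm v, fun p hp => ?_⟩
    have h1 : rlp σ p ∈ (rl P σ).gridEdge a v := by
      have := (mem_gridEdge_rl P σ (a := σ a) (v := rlc σ.symm v) (p := p)).2 hp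
      rwa [rlc_symm, Equiv.symm_apply_apply] at this
    have h2 := h h1
    exact ⟨(mem_rect_rl P σ).1 h2.1, (mem_rect_rl P σ).1 h2.2⟩
  · rintro ⟨a, v, h⟩
    refine ⟨σ.symm a, rlc σ v, fun q hq => ?_⟩
    obtain ⟨p, rfl⟩ := (rlp σ).surjective q
    have h2 := h ((mem_gridEdge_rl P σ).1 hq)
    exact ⟨(mem_rect_rl P σ).2 h2.1, (mem_rect_rl P σ).2 h2.2⟩

/-- the isomorphism of the surface graphs -/
def rlG : P.surfaceGraph ≃g (rl P σ).surfaceGraph where
  toEquiv := rlF P σ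
  map_rel_iff' := by
    intro f g
    exact adj_rl P σ f g

lemma rect_rl (f : P.Facet) : rlp σ '' P.rect f.1 = (rl P σ).rect (rlF P σ f).1 := by
  ext q
  constructor
  · rintro ⟨p, hp, rfl⟩
    exact (mem_rect_rl P σ).2 hp
  · intro hq
    obtain ⟨p, rfl⟩ := (rlp σ).surjective q
    exact ⟨p, (mem_rect_rl P σ).1 hq, rfl⟩

/-- **An edge unfolding does not depend on the names of the axes.** -/
theorem hasEdgeUnfolding_of_rl (h : (rl P σ).HasEdgeUnfolding) : P.HasEdgeUnfolding := by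
  obtain ⟨T, u, h1, h2, h3, h4, h5⟩ := h
  have himg : ∀ f : P.Facet, (fun p => u (rlF P σ f) (rlp σ p)) '' P.rect f.1 =
      u (rlF P σ f) '' (rl P σ).rect (rlF P σ f).1 := by
    intro f
    rw [← rect_rl, Set.image_image]
  refine ⟨T.comap (rlF P σ), fun f p => u (rlF P σ f) (rlp σ p), ?_, ?_, ?_, ?_, ?_⟩
  · exact (SimpleGraph.Iso.comap (rlF P σ) T).isTree_iff.2 h1
  · intro f g hfg
    exact (adj_rl P σ f g).1 (h2 hfg)
  · intro f p hp q hq
    show dist (u (rlF P σ f) (rlp σ p)) (u (rlF P σ f) (rlp σ q)) = dist p q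
    rw [h3 (rlF P σ f) _ ((mem_rect_rl P σ).2 hp) _ ((mem_rect_rl P σ).2 hq)]
    exact (rlp σ).dist_map p q
  · intro f g hfg p hp
    exact h4 (rlF P σ f) (rlF P σ g) hfg (rlp σ p)
      ⟨(mem_rect_rl P σ).2 hp.1, (mem_rect_rl P σ).2 hp.2⟩
  · intro f g hfg
    rw [himg f, himg g]
    exact h5 _ _ ((rlF P σ).injective.ne hfg)

lemma mem_refine {k : ℕ} (hk : 0 < k) {c : Fin 3 → ℤ} :
    c ∈ (P.refine k hk).cells ↔ (fun a => c a / (k : ℤ)) ∈ P.cells := by
  have hk' : (0 : ℤ) < k := by exact_mod_cast hk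
  show c ∈ (P.cells.biUnion fun c =>
    Fintype.piFinset fun a => Finset.Ico ((k : ℤ) * c a) ((k : ℤ) * c a + k)) ↔ _
  simp only [Finset.mem_biUnion, Fintype.mem_piFinset, Finset.mem_Ico]
  constructor
  · rintro ⟨b, hb, h⟩
    have : (fun a => c a / (k : ℤ)) = b := by
      funext a
      obtain ⟨h1, h2⟩ := h a
      apply le_antisymm
      · apply Int.lt_add_one_iff.1
        apply Int.ediv_lt_of_lt_mul hk'
        linarith [mul_comm (b a + 1) (k : ℤ)]
      · apply Int.le_ediv_of_mul_le hk'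
        linarith [mul_comm (b a) (k : ℤ)]
    rwa [this]
  · intro h
    refine ⟨_, h, fun a => ?_⟩
    have h1 := Int.mul_ediv_add_emod (c a) k
    have h2 := Int.emod_nonneg (c a) hk'.ne'
    have h3 := Int.emod_lt_of_pos (c a) hk'
    constructor <;> linarith

lemma rl_refine (k : ℕ) (hk : 0 < k) : (rl P σ).refine k hk = rl (P.refine k hk) σ := by
  have hc : ((rl P σ).refine k hk).cells = (rl (P.refine k hk) σ).cells := by
    ext c
    rw [mem_refine, mem_rl', mem_rl', mem_refine]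
    rfl
  have hd : ((rl P σ).refine k hk).crd = (rl (P.refine k hk) σ).crd := rfl
  generalize (rl P σ).refine k hk = A at hc hd
  generalize rl (P.refine k hk) σ = B at hc hd
  cases A
  cases B
  simp only at hc hd
  subst hc
  subst hd
  rfl

theorem refine_of_rl {k : ℕ} {hk : 0 < k} (h : ((rl P σ).refine k hk).HasEdgeUnfolding) :
    (P.refine k hk).HasEdgeUnfolding := by
  rw [rl_refine] at h
  exact hasEdgeUnfolding_of_rl _ σ h

/-! ## Manifolds -/

/-- renaming of the axes of a sign vector -/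
def rlb : (Fin 3 → Bool) ≃ (Fin 3 → Bool) where
  toFun ε := fun a => ε (σ a)
  invFun ε := fun a => ε (σ.symm a)
  left_inv ε := by funext a; simp
  right_inv ε := by funext a; simp

@[simp] lemma rlb_apply (ε : Fin 3 → Bool) (a : Fin 3) : rlb σ ε a = ε (σ a) := rfl

lemma rlc_corner (v : Fin 3 → ℤ) (ε : Fin 3 → Bool) :
    rlc σ (corner v ε) = corner (rlc σ v) (rlb σ ε) := rfl

lemma corner_rl (v : Fin 3 → ℤ) (ε : Fin 3 → Bool) :
    corner (rlc σ v) (rlb σ ε) ∈ (rl P σ).cells ↔ corner v ε ∈ P.cells := by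
  rw [← rlc_corner, mem_rl]

lemma cubeGraph_rlb (ε δ : Fin 3 → Bool) :
    cubeGraph.Adj (rlb σ ε) (rlb σ δ) ↔ cubeGraph.Adj ε δ := by
  constructor
  · rintro ⟨a, h1, h2⟩
    refine ⟨σ a, h1, fun b hb => ?_⟩
    have := h2 (σ.symm b) (fun h => hb (by rw [← h]; simp))
    simpa using this
  · rintro ⟨a, h1, h2⟩
    refine ⟨σ.symm a, by simpa using h1, fun b hb => ?_⟩
    exact h2 (σ b) (fun h => hb (by rw [← h]; simp))

/-- isomorphism of the graphs of solid (void) boxes at a point -/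
def rlC (A B : Set (Fin 3 → Bool)) (h : ∀ ε, rlb σ ε ∈ B ↔ ε ∈ A) :
    cubeGraph.induce A ≃g cubeGraph.induce B where
  toEquiv := (rlb σ).subtypeEquiv fun ε => (h ε).symm
  map_rel_iff' := by
    intro ε δ
    exact cubeGraph_rlb σ ε.1 δ.1

lemma isManifold_rl (h : P.IsManifold) : (rl P σ).IsManifold := by
  obtain ⟨h1, h2⟩ := h
  have key : ∀ (c : Fin 3 → ℤ) (a : Fin 3) (s : Bool),
      rlc σ.symm (shift c (a, s)) = shift (rlc σ.symm c) (σ a, s) := by
    intro c a s
    rw [rlc_shift]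
    rfl
  refine ⟨fun c a b s t hab hc hs => ?_, fun v => ?_⟩
  · rw [mem_rl'] at hc hs ⊢
    rw [mem_rl', key, key]
    rw [key, key] at hs
    exact h1 (rlc σ.symm c) (σ a) (σ b) s t (σ.injective.ne hab) hc hs
  · have hv := h2 (rlc σ.symm v)
    have hmem : ∀ ε, corner v (rlb σ ε) ∈ (rl P σ).cells ↔
        corner (rlc σ.symm v) ε ∈ P.cells := by
      intro ε
      have := corner_rl P σ (rlc σ.symm v) ε
      rwa [rlc_symm] at this
    constructor
    · exact (rlC σ {ε | corner (rlc σ.symm v) ε ∈ P.cells}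
        {ε | corner v ε ∈ (rl P σ).cells} hmem).preconnected_iff.1 hv.1
    · exact (rlC σ {ε | corner (rlc σ.symm v) ε ∉ P.cells}
        {ε | corner v ε ∉ (rl P σ).cells} (fun ε => not_congr (hmem ε))).preconnected_iff.1 hv.2

theorem isOrthogonalPolyhedron_rl (h : P.IsOrthogonalPolyhedron) :
    (rl P σ).IsOrthogonalPolyhedron :=
  ⟨isManifold_rl P σ h.1, (rlG P σ).connected_iff.1 h.2⟩

/-! ## Edges and vertices -/

lemma isVertex_rl (v : Fin 3 → ℤ) : (rl P σ).IsVertex (rlc σ v) ↔ P.IsVertex v := by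
  have hup : ∀ (ε : Fin 3 → Bool) (a : Fin 3) (t : Bool),
      rlb σ (Function.update ε (σ a) t) = Function.update (rlb σ ε) a t := by
    intro ε a t
    funext b
    by_cases hb : b = a
    · subst hb; simp
    · rw [Function.update_of_ne hb]
      simp only [rlb_apply]
      rw [Function.update_of_ne (σ.injective.ne hb)]
  unfold GridSolid.IsVertex
  constructor
  · intro h a
    obtain ⟨ε, hε⟩ := h (σ.symm a)
    refine ⟨(rlb σ).symm ε, ?_⟩
    rw [← corner_rl P σ, ← corner_rl P σ]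
    have h1 := hup ((rlb σ).symm ε) (σ.symm a)
    simp only [Equiv.apply_symm_apply] at h1
    rw [h1, h1]
    exact hε
  · intro h a
    obtain ⟨ε, hε⟩ := h (σ a)
    refine ⟨rlb σ ε, ?_⟩
    rw [← hup, ← hup, corner_rl, corner_rl]
    exact hε

lemma solid4_rl (a : Fin 3) (v : Fin 3 → ℤ) :
    (solid4 (rl P σ) (σ.symm a) (rlc σ v)).card = (solid4 P a v).card := by
  symm
  refine Finset.card_bij (fun ε _ => rlb σ ε) ?_ (fun ε _ δ _ h => (rlb σ).injective h) ?_
  · intro ε hε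
    simp only [solid4, Finset.mem_filter, Finset.mem_univ, true_and] at hε ⊢
    rw [corner_rl]
    simpa using hε
  · intro δ hδ
    refine ⟨(rlb σ).symm δ, ?_, by simp⟩
    simp only [solid4, Finset.mem_filter, Finset.mem_univ, true_and] at hδ ⊢
    rw [← corner_rl P σ]
    simp only [Equiv.apply_symm_apply]
    refine ⟨?_, hδ.2⟩
    exact hδ.1

lemma isEdge_rl (a : Fin 3) (v : Fin 3 → ℤ) :
    IsEdge (rl P σ) (σ.symm a) (rlc σ v) ↔ IsEdge P a v := by
  unfold IsEdge
  rw [solid4_rl]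

lemma onSurf_rl (a : Fin 3) (v : Fin 3 → ℤ) :
    OnSurf (rl P σ) (σ.symm a) (rlc σ v) ↔ OnSurf P a v := by
  unfold OnSurf
  rw [solid4_rl]

lemma rlc_update (v : Fin 3 → ℤ) (a : Fin 3) (z : ℤ) :
    rlc σ (Function.update v a z) = Function.update (rlc σ v) (σ.symm a) z := by
  funext b
  by_cases hb : b = σ.symm a
  · subst hb; simp
  · rw [Function.update_of_ne hb]
    simp only [rlc_apply]
    rw [Function.update_of_ne]
    intro h
    exact hb (by rw [← h]; simp)

lemma edgeAt_rl (v : Fin 3 → ℤ) (d : Dir) :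
    edgeAt (rl P σ) (rlc σ v) (rld σ d) ↔ edgeAt P v d := by
  unfold edgeAt
  show (if d.2 = true then IsEdge (rl P σ) (σ.symm d.1) (rlc σ v)
    else IsEdge (rl P σ) (σ.symm d.1) (Function.update (rlc σ v) (σ.symm d.1)
      (rlc σ v (σ.symm d.1) - 1))) ↔ _
  split_ifs with h
  · exact isEdge_rl P σ d.1 v
  · rw [show rlc σ v (σ.symm d.1) = v d.1 by simp, ← rlc_update]
    exact isEdge_rl P σ d.1 _

theorem deg3_rl (h : Deg3 P) : Deg3 (rl P σ) := by
  intro v hv
  have h1 : P.IsVertex (rlc σ.symm v) := by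
    rw [← isVertex_rl P σ, rlc_symm]
    exact hv
  rw [← h _ h1]
  have h2 : {d : Dir | edgeAt (rl P σ) v d} = rld σ '' {d | edgeAt P (rlc σ.symm v) d} := by
    ext d
    constructor
    · intro hd
      refine ⟨rld σ.symm d, ?_, rld_symm σ d⟩
      show edgeAt P (rlc σ.symm v) (rld σ.symm d)
      rw [← edgeAt_rl P σ, rlc_symm, rld_symm]
      exact hd
    · rintro ⟨e, he, rfl⟩
      show edgeAt (rl P σ) v (rld σ e)
      have := (edgeAt_rl P σ (rlc σ.symm v) e).2 he
      rwa [rlc_symm] at this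
  rw [h2, Set.ncard_image_of_injective]
  intro d e hde
  rw [← rld_symm' σ d, ← rld_symm' σ e, hde]

theorem noFlush_rl (a : Fin 3) (h : NoFlush P (σ a)) : NoFlush (rl P σ) a := by
  intro v m h1 h2 h3 n hn hnm hv
  have e1 : ∀ z : ℤ, Function.update v a z = rlc σ (Function.update (rlc σ.symm v) (σ a) z) := by
    intro z
    rw [rlc_update, rlc_symm]
    simp
  have e2 : rlc σ.symm v (σ a) = v a := by simp
  refine h (rlc σ.symm v) m ?_ ?_ ?_ n hn hnm ?_
  · rw [← isEdge_rl P σ, rlc_symm]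
    simpa using h1
  · rw [← isEdge_rl P σ, e2, ← e1]
    simpa using h2
  · intro n hn
    rw [← onSurf_rl P σ, e2, ← e1]
    simpa using h3 n hn
  · rw [← isVertex_rl P σ, e2, ← e1]
    exact hv

/-- If the theorem is known for the lane axis `y`, it holds for every axis. -/
theorem any_axis {k : ℕ} {hk : 0 < k}
    (H : ∀ P : GridSolid, P.IsOrthogonalPolyhedron → Deg3 P → NoFlush P 1 →
      (P.refine k hk).HasEdgeUnfolding)
    (P : GridSolid) (hP : P.IsOrthogonalPolyhedron) (h3 : Deg3 P)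
    (hf : ∃ a, NoFlush P a) : (P.refine k hk).HasEdgeUnfolding := by
  obtain ⟨a, ha⟩ := hf
  have h1 : NoFlush (rl P (Equiv.swap 1 a)) 1 :=
    noFlush_rl P _ 1 (by rw [Equiv.swap_apply_left]; exact ha)
  exact refine_of_rl P (Equiv.swap 1 a)
    (H _ (isOrthogonalPolyhedron_rl P _ hP) (deg3_rl P _ h3) h1)

end Pool.Agent.MP42
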