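import Pool.Agent.MP42.GArbor

/-!
The arborescence lemma with sites between consecutive corners only.  A leaf is an orbit of
`ν = θ ∘ φ`.  The set `S` consists of the children corners; the parent of `d ∈ S` is the next corner
`ν d`.  The only condition at a leaf is that at least two of its corners are not in `S`.
-/

namespace Pool.Agent.MP42

namespace Arbor

variable {D : Type*} (θ φ : Equiv.Perm D)

/-- A solution on the union `K` of some faces. -/
structure QPart (K S : Set D) (h : D → ℕ) : Prop where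
  K_φ : ∀ d, φ d ∈ K ↔ d ∈ K
  root_mem : ∀ d, root θ φ d ∈ K
  root_mem' : ∀ d, θ (root θ φ d) ∈ K
  h_φ : ∀ d, h (φ d) = h d
  S_K : ∀ d ∈ S, d ∈ K
  S_par : ∀ d ∈ S, nuP θ φ d ∈ K
  S_lt : ∀ d ∈ S, h (nuP θ φ d) < h d
  S_two : ∀ d ∈ S, ∃ a b, a ≠ b ∧ a ∉ S ∧ b ∉ S ∧ (nuP θ φ).SameCycle d a ∧
    (nuP θ φ).SameCycle d b
  uniq : ∀ d ∈ S, ∀ e ∈ S, φ.SameCycle d e → d = e
  no_root : ∀ d ∈ S, ∀ e, ¬ φ.SameCycle d (root θ φ e) ∧ ¬ φ.SameCycle d (θ (root θ φ e))
  face : ∀ d ∈ K, (∃ s ∈ S, φ.SameCycle d s) ∨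
    φ.SameCycle d (root θ φ d) ∨ φ.SameCycle d (θ (root θ φ d))

variable {θ φ}

lemma QPart.h_same {K S : Set D} {h : D → ℕ} (p : QPart θ φ K S h) {d e : D}
    (hs : φ.SameCycle d e) : h d = h e :=
  ((inv_sameCycle (ψ := fun x => h x = h d) (fun x => by rw [p.h_φ]) hs).1 rfl).symm

lemma QPart.K_same {K S : Set D} {h : D → ℕ} (p : QPart θ φ K S h) {d e : D}
    (hs : φ.SameCycle d e) : d ∈ K ↔ e ∈ K :=
  inv_sameCycle (ψ := fun x => x ∈ K) p.K_φ hs

/-- There is a free site at the boundary of `K`. -/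
lemma QPart.exists_site [Finite D] (hθ : ∀ d, θ (θ d) = d)
    {K S : Set D} {h : D → ℕ} (p : QPart θ φ K S h) {d0 : D} (hd0 : d0 ∉ K) :
    ∃ d, d ∉ K ∧ nuP θ φ d ∈ K ∧ ∃ a b, a ≠ b ∧ a ≠ d ∧ b ≠ d ∧ a ∉ S ∧ b ∉ S ∧
      (nuP θ φ).SameCycle d a ∧ (nuP θ φ).SameCycle d b := by
  by_contra hno
  push Not at hno
  -- boundary darts
  have hex : ∃ q, q ∉ K ∧ θ q ∈ K := by
    by_contra hq
    push Not at hq
    have hinv : ∀ x, θ x ∈ K ↔ x ∈ K := by
      intro x
      constructor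
      · intro hx
        by_contra hx'
        exact hq x hx' hx
      · intro hx
        by_contra hx'
        have := hq (θ x) hx'
        rw [hθ] at this
        exact this hx
    exact hd0 ((comp_root (θ := θ) (φ := φ) d0 (fun x => x ∈ K) p.K_φ hinv).1 (p.root_mem d0))
  obtain ⟨q0, hq0, hmin⟩ : ∃ q, (q ∉ K ∧ θ q ∈ K) ∧
      ∀ q', (q' ∉ K ∧ θ q' ∈ K) → h (θ q) ≤ h (θ q') := by
    obtain ⟨q1, hq1⟩ := hex
    classical
    let Q : ℕ → Prop := fun n => ∃ q, (q ∉ K ∧ θ q ∈ K) ∧ h (θ q) = n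
    have hQ : ∃ n, Q n := ⟨_, q1, hq1, rfl⟩
    obtain ⟨q, hq, hqn⟩ := Nat.find_spec hQ
    refine ⟨q, hq, ?_⟩
    intro q' hq'
    rw [hqn]
    exact Nat.find_min' hQ ⟨q', hq', rfl⟩
  -- one step backwards
  have step : ∀ q, (q ∉ K ∧ θ q ∈ K ∧ h (θ q) = h (θ q0)) →
      (φ.symm q ∉ K ∧ θ (φ.symm q) ∈ K ∧ h (θ (φ.symm q)) = h (θ q0)) ∧
        φ (θ q) = θ (φ.symm q) := by
    rintro q ⟨hqK, hqK', hqh⟩
    set d := φ.symm q with hd
    have hφd : φ d = q := by rw [hd, Equiv.apply_symm_apply]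
    have hdK : d ∉ K := by
      rw [← p.K_φ, hφd]; exact hqK
    have hn1 : nuP θ φ d = θ q := by rw [nuP_apply, hφd]
    have hn1K : nuP θ φ d ∈ K := by rw [hn1]; exact hqK'
    have hne1 : nuP θ φ d ≠ d := by
      intro h'; rw [h'] at hn1K; exact hdK hn1K
    have hn2 : nuP θ φ (nuP θ φ d) = θ (φ (θ q)) := by rw [hn1]; rfl
    by_cases h2 : nuP θ φ (nuP θ φ d) = d
    · -- bivalent
      have e1 : φ (θ q) = θ d := by
        rw [hn2] at h2
        rw [← h2, hθ]
      refine ⟨⟨hdK, ?_, ?_⟩, e1⟩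
      · rw [← e1, p.K_φ]; exact hqK'
      · rw [← e1, p.h_φ]; exact hqh
    · exfalso
      -- the previous corner of the leaf
      set e := (nuP θ φ).symm d with he
      have hνe : nuP θ φ e = d := by rw [he, Equiv.apply_symm_apply]
      have hed : (nuP θ φ).SameCycle d e := by
        rw [← hνe]
        exact Equiv.Perm.sameCycle_apply_left.2 (Equiv.Perm.SameCycle.refl _ _)
      have heS : e ∉ S := by
        intro h'
        have := p.S_par e h'
        rw [hνe] at this
        exact hdK this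
      have hene : e ≠ d := by
        intro h'
        rw [h'] at hνe
        exact hne1 hνe
      -- all the other corners are in `S`
      have hall : ∀ x, (nuP θ φ).SameCycle d x → x ≠ d → x ≠ e → x ∈ S := by
        intro x hx hxd hxe
        by_contra hxS
        exact hno d hdK hn1K e x (Ne.symm hxe) hene hxd heS hxS hed hx
      -- follow the corners up to `e`
      obtain ⟨n, hn0, hn⟩ : ∃ n : ℕ, 0 < n ∧ ((nuP θ φ) ^ n) d = e := by
        obtain ⟨n, hn0, -, hn⟩ := hed.exists_pow_eq''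
        exact ⟨n, hn0, hn⟩
      have key : ∀ k : ℕ, 0 < k → (∀ j, 0 < j → j < k → ((nuP θ φ) ^ j) d ≠ e) →
          ((nuP θ φ) ^ k) d ∈ K ∧ (1 < k → h (((nuP θ φ) ^ k) d) < h (nuP θ φ d)) := by
        intro k
        induction k with
        | zero => intro h0; exact absurd h0 (lt_irrefl _)
        | succ k ih =>
          intro _ hk
          rcases Nat.eq_zero_or_pos k with rfl | hk0
          · refine ⟨by simpa using hn1K, fun h1 => absurd h1 (lt_irrefl _)⟩
          · have ih' := ih hk0 (fun j hj hjk => hk j hj (Nat.lt_succ_of_lt hjk))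
            have hxe : ((nuP θ φ) ^ k) d ≠ e := hk k hk0 (Nat.lt_succ_self k)
            have hxd : ((nuP θ φ) ^ k) d ≠ d := by
              intro h'
              exact hdK (h' ▸ ih'.1)
            have hxS : ((nuP θ φ) ^ k) d ∈ S := hall _ ⟨k, by simp⟩ hxd hxe
            rw [pow_succ', Equiv.Perm.mul_apply]
            refine ⟨p.S_par _ hxS, fun _ => ?_⟩
            have hlt := p.S_lt _ hxS
            rcases Nat.eq_or_lt_of_le (Nat.succ_le_of_lt hk0) with h1 | h1
            · have hk1 : k = 1 := by omega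
              subst hk1
              simpa using hlt
            · exact hlt.trans (ih'.2 h1)
      -- the first time
      classical
      have hex' : ∃ n : ℕ, 0 < n ∧ ((nuP θ φ) ^ n) d = e := ⟨n, hn0, hn⟩
      obtain ⟨hm0, hm⟩ := Nat.find_spec hex'
      have hmm := key (Nat.find hex') hm0 (fun j hj0 hj h' => Nat.find_min hex' hj ⟨hj0, h'⟩)
      rw [hm] at hmm
      have hm1 : 1 < Nat.find hex' := by
        by_contra hle
        have h1 : Nat.find hex' = 1 := by omega
        rw [h1] at hm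
        apply h2
        rw [pow_one] at hm
        rw [hm, hνe]
      -- the opposite face of `d` is the face of `e`
      have hθd : θ d = φ e := by
        rw [← hνe, nuP_apply, hθ]
      have hle := hmin d ⟨hdK, by rw [hθd, p.K_φ]; exact hmm.1⟩
      rw [hθd, p.h_φ, ← hqh, ← hn1] at hle
      exact absurd (hmm.2 hm1) (not_lt.2 hle)
  -- all the way around
  have hall : ∀ n : ℕ, (φ.symm ^ n) q0 ∉ K ∧ θ ((φ.symm ^ n) q0) ∈ K ∧
      h (θ ((φ.symm ^ n) q0)) = h (θ q0) := by
    intro n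
    induction n with
    | zero => exact ⟨hq0.1, hq0.2, rfl⟩
    | succ n ih =>
      rw [pow_succ', Equiv.Perm.mul_apply]
      exact (step _ ih).1
  have hcyc : ∀ e, φ.SameCycle q0 e → e ∉ K ∧ φ (θ e) = θ (φ.symm e) := by
    intro e he
    have he' : Equiv.Perm.SameCycle (φ⁻¹ : Equiv.Perm D) q0 e := Equiv.Perm.sameCycle_inv.2 he
    obtain ⟨n, hn⟩ := he'.exists_nat_pow_eq
    have hn : (φ.symm ^ n) q0 = e := hn
    have := step _ (hall n)
    rw [hn] at this
    exact ⟨by have := (hall n).1; rwa [hn] at this, this.2⟩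
  -- the component
  let ψ : D → Prop := fun x => φ.SameCycle q0 x ∨ φ.SameCycle q0 (θ x)
  have h1 : ∀ x, ψ (φ x) ↔ ψ x := by
    intro x
    show (_ ∨ _) ↔ (_ ∨ _)
    rw [Equiv.Perm.sameCycle_apply_right]
    apply or_congr Iff.rfl
    constructor
    · intro he
      have he' : φ.SameCycle q0 (φ (θ (φ x))) := Equiv.Perm.sameCycle_apply_right.2 he
      have := (hcyc _ he').2
      rw [Equiv.symm_apply_apply, hθ] at this
      have h4 : θ (φ (θ (φ x))) = x := φ.injective this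
      rw [← h4, hθ]
      exact he'
    · intro he
      have := (hcyc _ he).2
      rw [hθ] at this
      rw [this, hθ]
      exact Equiv.Perm.sameCycle_inv.1 (Equiv.Perm.sameCycle_apply_right.2
        (Equiv.Perm.sameCycle_inv.2 he))
  have h2 : ∀ x, ψ (θ x) ↔ ψ x := by
    intro x
    show (_ ∨ _) ↔ (_ ∨ _)
    rw [hθ]
    exact or_comm
  have h3 : ψ (root θ φ q0) := (comp_root q0 ψ h1 h2).2 (Or.inl (Equiv.Perm.SameCycle.refl _ _))
  rcases h3 with h3 | h3
  · exact (hcyc _ h3).1 (p.root_mem q0)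
  · exact (hcyc _ h3).1 (p.root_mem' q0)

open Classical in
/-- Insert a face. -/
lemma QPart.grow [Finite D] (hθ : ∀ d, θ (θ d) = d)
    {K S : Set D} {h : D → ℕ} (p : QPart θ φ K S h) {d0 : D} (hd0 : d0 ∉ K) :
    ∃ (K' S' : Set D) (h' : D → ℕ), QPart θ φ K' S' h' ∧ K ⊆ K' ∧
      ∃ d, d ∈ K' ∧ d ∉ K := by
  obtain ⟨d, hdK, hpK, a, b, hab, had, hbd, haS, hbS, hda, hdb⟩ := p.exists_site hθ hd0
  have hKF : ∀ e ∈ K, ¬ φ.SameCycle d e := by
    intro e he hs
    exact hdK ((p.K_same hs).2 he)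
  have hrefl : φ.SameCycle d d := Equiv.Perm.SameCycle.refl _ _
  refine ⟨K ∪ {e | φ.SameCycle d e}, insert d S,
    fun e => if φ.SameCycle d e then h (nuP θ φ d) + 1 else h e, ?_, Set.subset_union_left,
    d, Or.inr hrefl, hdK⟩
  constructor
  · intro x
    simp only [Set.mem_union, Set.mem_ofPred_eq, Equiv.Perm.sameCycle_apply_right, p.K_φ]
  · exact fun x => Or.inl (p.root_mem x)
  · exact fun x => Or.inl (p.root_mem' x)
  · intro x
    simp only [Equiv.Perm.sameCycle_apply_right, p.h_φ]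
  · rintro x (rfl | hx)
    · exact Or.inr hrefl
    · exact Or.inl (p.S_K x hx)
  · rintro x (rfl | hx)
    · exact Or.inl hpK
    · exact Or.inl (p.S_par x hx)
  · rintro x (rfl | hx)
    · rw [if_neg (hKF _ hpK), if_pos hrefl]
      omega
    · rw [if_neg (hKF _ (p.S_par x hx)), if_neg (hKF _ (p.S_K x hx))]
      exact p.S_lt x hx
  · have haS' : a ∉ insert d S := by
      rintro (h' | h')
      · exact had h'
      · exact haS h'
    have hbS' : b ∉ insert d S := by
      rintro (h' | h')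
      · exact hbd h'
      · exact hbS h'
    rintro x (rfl | hx)
    · exact ⟨a, b, hab, haS', hbS', hda, hdb⟩
    · by_cases hxd : (nuP θ φ).SameCycle x d
      · exact ⟨a, b, hab, haS', hbS', hxd.trans hda, hxd.trans hdb⟩
      · obtain ⟨a', b', hab', ha', hb', hxa, hxb⟩ := p.S_two x hx
        refine ⟨a', b', hab', ?_, ?_, hxa, hxb⟩
        · rintro (h' | h')
          · exact hxd (h' ▸ hxa)
          · exact ha' h'
        · rintro (h' | h')
          · exact hxd (h' ▸ hxb)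
          · exact hb' h'
  · rintro x (rfl | hx) y (rfl | hy) hs
    · rfl
    · exact absurd hs (hKF _ (p.S_K y hy))
    · exact absurd hs.symm (hKF _ (p.S_K x hx))
    · exact p.uniq x hx y hy hs
  · rintro x (rfl | hx) e
    · exact ⟨hKF _ (p.root_mem e), hKF _ (p.root_mem' e)⟩
    · exact p.no_root x hx e
  · rintro x (hx | hx)
    · rcases p.face x hx with ⟨s, hs, hs'⟩ | hs
      · exact Or.inl ⟨s, Or.inr hs, hs'⟩
      · exact Or.inr hs
    · exact Or.inl ⟨d, Or.inl rfl, hx.symm⟩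

lemma QPart.full [Finite D] (hθ : ∀ d, θ (θ d) = d) :
    ∀ (n : ℕ) (K S : Set D) (h : D → ℕ), QPart θ φ K S h → (Kᶜ).ncard ≤ n →
      ∃ (S' : Set D) (h' : D → ℕ), QPart θ φ Set.univ S' h' := by
  intro n
  induction n with
  | zero =>
    intro K S h p hn
    have h0 : Kᶜ = ∅ := by
      rw [← Set.ncard_eq_zero (Set.toFinite _)]; omega
    have : K = Set.univ := Set.compl_empty_iff.1 h0
    subst this
    exact ⟨S, h, p⟩
  | succ n ih =>
    intro K S h p hn
    by_cases hK : K = Set.univ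
    · subst hK; exact ⟨S, h, p⟩
    · obtain ⟨d0, hd0⟩ := (Set.ne_univ_iff_exists_notMem K).1 hK
      obtain ⟨K', S', h', p', hsub, d, hd, hd'⟩ := p.grow hθ hd0
      apply ih K' S' h' p'
      have : (K'ᶜ).ncard < (Kᶜ).ncard := by
        apply Set.ncard_lt_ncard _ (Set.toFinite _)
        refine ⟨Set.compl_subset_compl.2 hsub, ?_⟩
        intro hsup
        exact hsup hd' hd
      omega

/-- The root faces alone. -/
lemma QPart.start :
    QPart θ φ {x | φ.SameCycle x (root θ φ x) ∨ φ.SameCycle x (θ (root θ φ x))} ∅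
      (fun _ => 0) := by
  have hθr : ∀ d, root θ φ (θ (root θ φ d)) = root θ φ d := by
    intro d
    rw [root_eq_of_comp (comp_θ _), root_root]
  constructor
  · intro d
    simp only [Set.mem_ofPred_eq, Equiv.Perm.sameCycle_apply_left, root_eq_of_comp (comp_φ d)]
  · intro d
    left
    rw [root_root]
  · intro d
    right
    rw [hθr]
  · simp
  · simp
  · simp
  · simp
  · simp
  · simp
  · simp
  · intro d hd
    exact Or.inr hd

end Arbor

open Arbor

/-- **The arborescence lemma with consecutive sites.**  `S`: children corners (the parent of `d` is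
the next corner `ν d` of the leaf), `R`: root darts. -/
theorem qarbor {D : Type*} [Finite D] (θ φ : Equiv.Perm D) (hθ : ∀ d, θ (θ d) = d)
    (hne : ∀ d, θ d ≠ d) :
    ∃ (S R : Set D) (h : D → ℕ),
      (∀ d, h (φ d) = h d) ∧
      (∀ d ∈ S, h (θ (φ d)) < h d) ∧
      -- at least two corners of a leaf are not in `S`
      (∀ d, nuP θ φ d ≠ d → ∃ a b, a ≠ b ∧ a ∉ S ∧ b ∉ S ∧ (nuP θ φ).SameCycle d a ∧
        (nuP θ φ).SameCycle d b) ∧
      -- every face has at most one site, and a face with a site has no root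
      (∀ d ∈ S, ∀ e ∈ S, φ.SameCycle d e → d = e) ∧
      (∀ d ∈ S, ∀ r ∈ R, ¬ φ.SameCycle d r ∧ ¬ φ.SameCycle d (θ r)) ∧
      -- every face has a site or a root
      (∀ d, (∃ s ∈ S, φ.SameCycle d s) ∨ ∃ r ∈ R, φ.SameCycle d r ∨ φ.SameCycle d (θ r)) ∧
      -- at most one root near every face
      (∀ r ∈ R, ∀ r' ∈ R, (φ.SameCycle r r' ∨ φ.SameCycle r (θ r') ∨ φ.SameCycle (θ r) r' ∨
        φ.SameCycle (θ r) (θ r')) → r = r') ∧
      (∀ r ∈ R, θ r ∉ R) ∧
      -- connection
      (∀ ψ : D → Prop, (∀ d, ψ (φ d) ↔ ψ d) → (∀ d ∈ S, ψ d ↔ ψ (θ (φ d))) →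
        (∀ r ∈ R, ψ r ↔ ψ (θ r)) → ∀ d, ψ d ↔ ψ (θ d)) := by
  obtain ⟨S, h, p⟩ := QPart.full (θ := θ) (φ := φ) hθ _ _ _ _ QPart.start le_rfl
  have hroot : ∀ r ∈ Set.range (root θ φ), root θ φ r = r := by
    rintro _ ⟨d, rfl⟩; exact root_root d
  have huniq : ∀ r ∈ Set.range (root θ φ), ∀ r' ∈ Set.range (root θ φ), comp θ φ r r' →
      r = r' := by
    intro r hr r' hr' hc
    rw [← hroot r hr, ← hroot r' hr', root_eq_of_comp hc]
  have htr : ∀ {a b c : D}, comp θ φ a b → comp θ φ b c → comp θ φ a c :=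
    fun h1 h2 ψ k1 k2 => (h1 ψ k1 k2).trans (h2 ψ k1 k2)
  have hsy : ∀ {a b : D}, comp θ φ a b → comp θ φ b a :=
    fun h1 ψ k1 k2 => (h1 ψ k1 k2).symm
  refine ⟨S, Set.range (root θ φ), h, p.h_φ, p.S_lt, ?_, p.uniq, ?_, ?_, ?_, ?_, ?_⟩
  · intro d hd
    by_cases hS : ∃ s ∈ S, (nuP θ φ).SameCycle d s
    · obtain ⟨s, hs, hds⟩ := hS
      obtain ⟨a, b, hab, ha, hb, hsa, hsb⟩ := p.S_two s hs
      exact ⟨a, b, hab, ha, hb, hds.trans hsa, hds.trans hsb⟩
    · push Not at hS
      have hnd : (nuP θ φ).SameCycle d (nuP θ φ d) :=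
        Equiv.Perm.sameCycle_apply_right.2 (Equiv.Perm.SameCycle.refl _ _)
      exact ⟨nuP θ φ d, d, hd, fun h' => hS _ h' hnd,
        fun h' => hS _ h' (Equiv.Perm.SameCycle.refl _ _), hnd,
        Equiv.Perm.SameCycle.refl _ _⟩
  · rintro d hd _ ⟨e, rfl⟩
    exact p.no_root d hd e
  · intro d
    rcases p.face d (Set.mem_univ d) with h' | h'
    · exact Or.inl h'
    · exact Or.inr ⟨_, ⟨d, rfl⟩, h'⟩
  · intro r hr r' hr' h'
    apply huniq r hr r' hr'
    rcases h' with h' | h' | h' | h'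
    · exact comp_of_sameCycle h'
    · exact htr (comp_of_sameCycle h') (comp_θ _)
    · exact htr (hsy (comp_θ _)) (comp_of_sameCycle h')
    · exact htr (hsy (comp_θ _)) (htr (comp_of_sameCycle h') (comp_θ _))
  · intro r hr hr'
    exact hne r (huniq _ hr' _ hr (comp_θ r))
  · intro ψ h1 h2 h3
    have key : ∀ n d, h d = n → (ψ d ↔ ψ (root θ φ d)) := by
      intro n
      induction n using Nat.strong_induction_on with
      | _ n ih =>
        intro d hd
        rcases p.face d (Set.mem_univ d) with ⟨s, hs, hs'⟩ | h' | h'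
        · rw [inv_sameCycle h1 hs', h2 s hs]
          have hlt := p.S_lt s hs
          rw [← p.h_same hs', hd] at hlt
          change ψ (nuP θ φ s) ↔ _
          rw [ih _ hlt (nuP θ φ s) rfl]
          have hc : comp θ φ (nuP θ φ s) d :=
            htr (comp_θ _) (htr (comp_φ _) (hsy (comp_of_sameCycle hs')))
          rw [root_eq_of_comp hc]
        · exact inv_sameCycle h1 h'
        · rw [inv_sameCycle h1 h']
          exact (h3 _ ⟨d, rfl⟩).symm
    intro d
    rw [key _ d rfl, key _ (θ d) rfl, root_eq_of_comp (comp_θ d)]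

end Pool.Agent.MP42
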