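import Pool.Agent.MP42.Ret

/-!
# Definitions for the arborescence construction (MP_42d4af)

Axes: `0` = x (east on y- and z-facets), `1` = y (direction of the lanes), `2` = z (height).
-/

set_option autoImplicit false
set_option linter.unusedSectionVars false

namespace Pool.Agent.MP42

open Pool.Agent.Helper55.UNF Pool.Agent.Helper55.UNF.GridSolid

/-! ## Abstract strip graphs -/

section Abs

variable {D : Type*} [Fintype D]

/-- the corner permutation: its orbits are the leaves (ends of the strips that meet) -/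
def nu (θ φ : Equiv.Perm D) : Equiv.Perm D := φ.trans θ

@[simp] lemma nu_apply (θ φ : Equiv.Perm D) (d : D) : nu θ φ d = θ (φ d) := rfl

open Classical in
/-- the arborescence: `S` = box corners of the children, `rt` = number of root lanes on a strip,
`h` = rank of the faces -/
structure Arb (θ φ : Equiv.Perm D) where
  S : D → Prop
  rt : D → ℕ
  h : D → ℕ
  S3 : ∀ d, S d → nu θ φ d ≠ d ∧ nu θ φ (nu θ φ (nu θ φ d)) = d
  S1 : ∀ d, S d → ¬ S (nu θ φ d) ∧ ¬ S (nu θ φ (nu θ φ d))
  hφ : ∀ d, h (φ d) = h d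
  hS : ∀ d, S d → h (nu θ φ d) < h d
  rtθ : ∀ d, rt (θ d) = rt d
  feet : ∀ d, ∑ e ∈ Finset.univ.filter (fun e => φ.SameCycle d e),
    ((if S e then 2 else 0) + rt e) = 2
  conn : ∀ ψ : D → Prop, (∀ d, ψ (φ d) ↔ ψ d) → (∀ d, S d → (ψ d ↔ ψ (nu θ φ d))) →
    (∀ d, 0 < rt d → (ψ d ↔ ψ (θ d))) → ∀ d, ψ d ↔ ψ (θ d)

/-- types of the lanes -/
inductive Ln
  | o | N | S
  deriving DecidableEq

open Classical in
/-- the lane at the end of the strip to which the dart `d` points -/
noncomputable def Arb.lam {θ φ : Equiv.Perm D} (A : Arb θ φ) (d : D) : Ln :=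
  if A.S d ∨ A.S ((nu θ φ).symm d) then Ln.N else if A.S (nu θ φ d) then Ln.S else Ln.o

open Classical in
/-- gap corner: `-1`, pass corner: `1`, else `0` -/
noncomputable def Arb.dv {θ φ : Equiv.Perm D} (A : Arb θ φ) (d : D) : ℤ :=
  if A.S ((nu θ φ).symm d) then -1 else if A.S (nu θ φ d) then 1 else 0

open Classical in
/-- the number of box feet on the side `d` -/
noncomputable def Arb.ft {θ φ : Equiv.Perm D} (A : Arb θ φ) (d : D) : ℕ :=
  (if A.S d then 1 else 0) + (if A.S (φ.symm d) then 1 else 0) + A.rt d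

end Abs

/-! ## The strip graph of a solid -/

section Conc

variable {P : GridSolid}

noncomputable instance : Fintype P.FSt := Fintype.ofFinite _

/-- a dart: an oriented facet with normal `± y` and east `± x` -/
def IsDart (s : P.FSt) : Prop := s.1.d.1 = 1 ∧ s.1.e.1 = 0

/-- wall states: the facet is vertical and north is up -/
def IsW (s : P.FSt) : Prop := s.1.n = (2, true)

lemma IsDart_r2 (s : P.FSt) : IsDart s.r2 ↔ IsDart s := Iff.rfl

lemma IsW_stE (s : P.FSt) : IsW s.stE ↔ IsW s := by
  unfold IsW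
  have h : s.stE.1.n = s.1.n := P.stepE_n s.1 s.2.2
  rw [h]

variable (P)

abbrev Dart := {s : P.FSt // IsDart s}

noncomputable instance : Fintype (Dart P) := Fintype.ofFinite _

abbrev Wl := {s : P.FSt // IsW s}

noncomputable instance : Fintype (Wl P) := Fintype.ofFinite _

/-- the walk to the east along the walls of a slab -/
noncomputable def sig : Equiv.Perm (Wl P) := pE.subtypePerm (fun s => IsW_stE s)

/-- the next side along the same rim, junction on the left -/
noncomputable def phi : Equiv.Perm (Dart P) := ret pE IsDart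

/-- the next `y`-facet on the ring -/
noncomputable def rN : Equiv.Perm (Dart P) := ret pN IsDart

/-- half turn of a dart -/
def r2D : Equiv.Perm (Dart P) where
  toFun s := ⟨s.1.r2, s.2⟩
  invFun s := ⟨s.1.r2, s.2⟩
  left_inv s := Subtype.ext (FSt.r2_r2 s.1)
  right_inv s := Subtype.ext (FSt.r2_r2 s.1)

/-- the other side of the same strip -/
noncomputable def theta : Equiv.Perm (Dart P) := (rN P).trans (r2D P)

/-- **Stage 1 hypothesis**: at most three strips meet at a leaf -/
def Thin : Prop := ∀ d : Dart P, nu (theta P) (phi P) d = d ∨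
  nu (theta P) (phi P) (nu (theta P) (phi P) d) = d ∨
  nu (theta P) (phi P) (nu (theta P) (phi P) (nu (theta P) (phi P) d)) = d

variable {P}

/-- the east direction of the canonical frame of a facet with normal `d`: on `x`-facets north is
up, on the other facets east is `+ x` -/
def canE (d : Dir) : Dir := if d.1 = 0 then (1, d.2) else (0, true)

lemma canE_ne (d : Dir) : d.1 ≠ (canE d).1 := by
  revert d; decide

/-- the canonical frame -/
def can (f : P.Facet) : P.FSt := ⟨⟨f.1.1, f.1.2, canE f.1.2⟩, f.2, canE_ne _⟩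

lemma can_facet (f : P.Facet) : (can f).facet = f := rfl

/-- the first dart strictly to the west of a wall state -/
noncomputable def prevD (s : P.FSt) : P.FSt := retFun pE.symm IsDart s

/-- the first dart at `s` or to the east of it -/
noncomputable def nextD (s : P.FSt) : P.FSt := (pE ^ (srch pE IsDart s)) s

/-- extension of a function on darts by `0` -/
noncomputable def ext0 {R : Type*} [Zero R] (g : Dart P → R) (s : P.FSt) : R :=
  open Classical in if h : IsDart s then g ⟨s, h⟩ else 0

/-- The data of the construction. -/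
structure Data (P : GridSolid) where
  A : Arb (theta P) (phi P)
  /-- the special facets: one in every band, its normal is `± x` -/
  sp : Wl P → Prop
  sp_x : ∀ s, sp s → s.1.1.d.1 = 0
  sp_ex : ∀ s, ∃! a, (sig P).SameCycle s a ∧ sp a
  /-- number of bottom and top box feet between the special facet and the west side of `s` -/
  ub : Wl P → ℕ
  ut : Wl P → ℕ
  ub_le : ∀ s, ub s ≤ 2
  ut_le : ∀ s, ut s ≤ 2
  ub_sp : ∀ s, sp s → ub s = 2 ∧ ub (sig P s) = 0
  ut_sp : ∀ s, sp s → ut s = 2 ∧ ut (sig P s) = 0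
  ub_st : ∀ s, ¬ sp s → ub (sig P s) = ub s + ext0 A.ft s.1.r2
  ut_st : ∀ s, ¬ sp s → ut (sig P s) = ut s + ext0 A.ft s.1
  /-- the parity of the number of strands -/
  t : Wl P → Bool
  t_st : ∀ s, t (sig P s) = t s

namespace Data

variable (E : Data P)

/-- lowest and highest track at the west side of the wall state `s` -/
noncomputable def lo (s : Wl P) : ℤ := 4 - ext0 E.A.dv (nextD s.1).r2 - E.ub s

noncomputable def hi (s : Wl P) : ℤ :=
  10 + (if E.t s then 1 else 0) + ext0 E.A.dv (prevD s.1) - E.ut s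

end Data

/-! ## The pattern (27 x 27) -/

/-- the event in column `x` on a side with the lanes `L`, `m` (root lanes), `R` -/
def evc (L : Ln) (m : ℕ) (R : Ln) (x : ℕ) : Ln :=
  if x = 2 then L else if x = 10 then (if 1 ≤ m then Ln.N else Ln.o)
  else if x = 14 then (if 2 ≤ m then Ln.N else Ln.o) else if x = 24 then R else Ln.o

/-- change of the lowest or highest track -/
def dlt : Ln → ℤ
  | Ln.o => 0
  | Ln.N => -1
  | Ln.S => 1

/-- sum of the changes in the columns before `x` -/
def acc (L : Ln) (m : ℕ) (R : Ln) (x : ℕ) : ℤ :=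
  (if 2 < x then dlt L else 0) + (if 10 < x ∧ 1 ≤ m then -1 else 0) +
    (if 14 < x ∧ 2 ≤ m then -1 else 0) + (if 24 < x then dlt R else 0)

/-- lower half (`y ≤ 13`) of a `y`-facet; `a` is the lowest track at the west side of the column -/
def lowT (a : ℤ) (ev : Ln) (y : ℕ) : Ty :=
  match ev with
  | Ln.o => if y % 2 = 0 ∧ 2 * a ≤ y then Ty.H else Ty.o
  | Ln.N => if (y : ℤ) < 2 * (a - 1) then Ty.N2 else if (y : ℤ) = 2 * (a - 1) then Ty.N3
      else if y % 2 = 0 then Ty.H else Ty.o
  | Ln.S => if (y : ℤ) < 2 * a then Ty.S2 else if (y : ℤ) = 2 * a then Ty.S1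
      else if y % 2 = 0 then Ty.H else Ty.o

/-- upper half (`13 < y`) of a `y`-facet; `b` is the highest track at the west side of the
column -/
def highT (b : ℤ) (ev : Ln) (y : ℕ) : Ty :=
  match ev with
  | Ln.o => if y % 2 = 0 ∧ (y : ℤ) ≤ 2 * b then Ty.H else Ty.o
  | Ln.N => if 2 * b < (y : ℤ) then Ty.N2 else if (y : ℤ) = 2 * b then Ty.N1
      else if y % 2 = 0 then Ty.H else Ty.o
  | Ln.S => if 2 * (b + 1) < (y : ℤ) then Ty.S2 else if (y : ℤ) = 2 * (b + 1) then Ty.S3
      else if y % 2 = 0 then Ty.H else Ty.o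

/-- `y`-facets: `a`, `b` = lowest and highest track at the west side, `L`, `m`, `R` = lanes of the
incoming strip (south), `L'`, `m'`, `R'` = lanes of the outgoing strip (north) -/
def yT (a b : ℤ) (L : Ln) (m : ℕ) (R : Ln) (L' : Ln) (m' : ℕ) (R' : Ln) (x y : ℕ) : Ty :=
  if y ≤ 13 then lowT (a + acc L m R x) (evc L m R x) y
  else highT (b + acc L' m' R' x) (evc L' m' R' x) y

/-- `z`-facets -/
def zT (L : Ln) (m : ℕ) (R : Ln) (x _y : ℕ) : Ty :=
  match evc L m R x with
  | Ln.o => Ty.o
  | Ln.N => Ty.N2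
  | Ln.S => Ty.S2

/-- `x`-facets; on the special facets all strands move up by two tracks in the columns 5 to 8 -/
def xT (lo hi : ℤ) (sp : Bool) (x y : ℕ) : Ty :=
  let c : ℤ := if sp then min ((x - 5 : ℕ) : ℤ) 4 else 0
  if sp ∧ 5 ≤ x ∧ x ≤ 8 then
    (if ((y : ℤ) - c) % 2 = 0 ∧ 2 * lo ≤ y - c ∧ y - c ≤ 2 * hi then Ty.N1
      else if ((y : ℤ) - c) % 2 = 1 ∧ 2 * lo ≤ y - c - 1 ∧ y - c - 1 ≤ 2 * hi then Ty.N3 else Ty.o)
  else (if ((y : ℤ) - c) % 2 = 0 ∧ 2 * lo ≤ y - c ∧ y - c ≤ 2 * hi then Ty.H else Ty.o)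

/-- the dart `(f, out)` of a `y`-facet -/
def IsY (f : P.Facet) : Prop := f.1.2.1 = 1

lemma isDart_can {f : P.Facet} (h : IsY f) : IsDart (can f) := by
  refine ⟨h, ?_⟩
  show (canE f.1.2).1 = 0
  unfold IsY at h
  unfold canE
  rw [h]
  rfl

/-- the wall state of a vertical facet -/
def wst (f : P.Facet) : P.FSt := if f.1.2 = (1, true) then (can f).r2 else can f

lemma isW_wst {f : P.Facet} (h : f.1.2.1 ≠ 2) : IsW (wst f) := by
  have key : ∀ d : Dir, d.1 ≠ 2 →
      (if d = (1, true) then cross d (opp (canE d)) else cross d (canE d)) = (2, true) := by decide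
  have h1 := key f.1.2 h
  unfold wst IsW
  split_ifs with h2
  · rw [if_pos h2] at h1
    exact h1
  · rw [if_neg h2] at h1
    exact h1

open Classical in
/-- the first dart at or before (to the south of) the canonical state of a facet on a ring -/
noncomputable def ringD (f : P.Facet) : P.FSt := (pN.symm ^ (srch pN.symm IsDart (can f))) (can f)

open Classical in
/-- lanes of the strip that starts at the dart `s` (= `(f, out)`): left end, root lanes, right
end -/
noncomputable def Data.stripL (E : Data P) (s : P.FSt) : Ln :=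
  if h : IsDart s then E.A.lam (theta P ⟨s, h⟩) else Ln.o

open Classical in
noncomputable def Data.stripR (E : Data P) (s : P.FSt) : Ln :=
  if h : IsDart s then E.A.lam ⟨s, h⟩ else Ln.o

noncomputable def Data.stripM (E : Data P) (s : P.FSt) : ℕ := ext0 E.A.rt s

open Classical in
/-- the pattern -/
noncomputable def Data.T (E : Data P) (f : P.Facet) (x y : ℕ) : Ty :=
  if h : f.1.2.1 = 2 then zT (E.stripL (ringD f)) (E.stripM (ringD f)) (E.stripR (ringD f)) x y
  else if f.1.2.1 = 0 then
    xT (E.lo ⟨wst f, isW_wst h⟩) (E.hi ⟨wst f, isW_wst h⟩) (decide (E.sp ⟨wst f, isW_wst h⟩)) x y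
  else
    -- in-strip: its outgoing dart is the previous `y`-facet on the ring
    let s := can f
    let s' := retFun pN.symm IsDart s
    if f.1.2.2 then
      yT (13 - E.hi (sig P ⟨wst f, isW_wst h⟩)) (13 - E.lo (sig P ⟨wst f, isW_wst h⟩))
        (E.stripL s') (E.stripM s') (E.stripR s') (E.stripL s) (E.stripM s) (E.stripR s) x y
    else
      yT (E.lo ⟨wst f, isW_wst h⟩) (E.hi ⟨wst f, isW_wst h⟩)
        (E.stripL s') (E.stripM s') (E.stripR s') (E.stripL s) (E.stripM s) (E.stripR s) x y

end Conc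

end Pool.Agent.MP42
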