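import Pool.Agent.Helper55.UNF.Pat

/-!
# First return permutations
-/

set_option autoImplicit false
set_option linter.unusedSectionVars false

namespace Pool.Agent.MP42

open Pool.Agent.Helper55.UNF

variable {X : Type*} [Finite X]

/-- the first element of `{π x, π (π x), ...}` with the property `p` -/
noncomputable def retFun (π : Equiv.Perm X) (p : X → Prop) (x : X) : X :=
  (π ^ (srch π p (π x))) (π x)

lemma pow_orderOf_apply (π : Equiv.Perm X) (x : X) : (π ^ orderOf π) x = x := by
  rw [pow_orderOf_eq_one]; rfl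

lemma orderOf_pos' (π : Equiv.Perm X) : 0 < orderOf π := orderOf_pos π

lemma ret_ex (π : Equiv.Perm X) {p : X → Prop} {x : X} (hx : ∃ j : ℕ, p ((π ^ j) x)) :
    ∃ j : ℕ, p ((π ^ j) (π x)) := by
  obtain ⟨j, hj⟩ := hx
  rcases Nat.eq_zero_or_pos j with h | h
  · subst h
    refine ⟨orderOf π - 1, ?_⟩
    have h1 : (π ^ (orderOf π - 1)) (π x) = (π ^ orderOf π) x := by
      conv_rhs => rw [← Nat.sub_add_cancel (orderOf_pos' π), pow_succ]
      rfl
    rw [h1, pow_orderOf_apply]
    exact hj
  · refine ⟨j - 1, ?_⟩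
    have h1 : (π ^ (j - 1)) (π x) = (π ^ j) x := by
      conv_rhs => rw [← Nat.sub_add_cancel h, pow_succ]
      rfl
    rw [h1]
    exact hj

/-- the number of steps to the first return, minus one -/
noncomputable def retN (π : Equiv.Perm X) (p : X → Prop) (x : X) : ℕ := srch π p (π x)

lemma retFun_eq (π : Equiv.Perm X) (p : X → Prop) (x : X) :
    retFun π p x = (π ^ (retN π p x + 1)) x := by
  rw [pow_succ]; rfl

lemma retFun_spec {π : Equiv.Perm X} {p : X → Prop} {x : X} (hx : ∃ j : ℕ, p ((π ^ j) x)) :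
    p (retFun π p x) := srch_spec (ret_ex π hx)

lemma retN_not {π : Equiv.Perm X} {p : X → Prop} {x : X} {j : ℕ} (h : j < retN π p x) :
    ¬ p ((π ^ (j + 1)) x) := by
  have := srch_not h
  rwa [show (π ^ j) (π x) = (π ^ (j + 1)) x by rw [pow_succ]; rfl] at this

lemma retFun_eq_of {π : Equiv.Perm X} {p : X → Prop} {x : X} {j : ℕ} (h : p ((π ^ (j + 1)) x))
    (h' : ∀ i < j, ¬ p ((π ^ (i + 1)) x)) : retFun π p x = (π ^ (j + 1)) x := by
  rw [retFun_eq]
  have h1 : retN π p x = j := by
    apply le_antisymm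
    · by_contra hlt
      exact retN_not (not_le.1 hlt) h
    · by_contra hlt
      have hex : ∃ j : ℕ, p ((π ^ j) (π x)) := ⟨j, by
        rwa [show (π ^ j) (π x) = (π ^ (j + 1)) x by rw [pow_succ]; rfl]⟩
      have h2 := srch_spec hex
      rw [show (π ^ (srch π p (π x))) (π x) = (π ^ (srch π p (π x) + 1)) x by
        rw [pow_succ]; rfl] at h2
      exact h' _ (not_le.1 hlt) h2
  rw [h1]

lemma retFun_step {π : Equiv.Perm X} {p : X → Prop} {x : X} (h : p (π x)) :
    retFun π p x = π x := by
  have := retFun_eq_of (π := π) (p := p) (x := x) (j := 0) (by simpa using h) (by simp)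
  simpa using this

lemma retFun_step' {π : Equiv.Perm X} {p : X → Prop} {x : X} (h : ¬ p (π x))
    (hx : ∃ j : ℕ, p ((π ^ j) x)) : retFun π p x = retFun π p (π x) := by
  have hex := ret_ex π hx
  have h1 := srch_step h hex
  have h2 : retFun π p (π x) = (π ^ (srch π p (π (π x)))) (π (π x)) := rfl
  rw [h2]
  unfold retFun
  rw [h1, pow_succ]
  rfl

lemma retFun_inj {π : Equiv.Perm X} {p : X → Prop} {x y : X} (hx : p x) (hy : p y)
    (h : retFun π p x = retFun π p y) : x = y := by
  have key : ∀ x y : X, p x → p y → retN π p x ≤ retN π p y → retFun π p x = retFun π p y →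
      x = y := by
    intro x y hx hy hle h
    rw [retFun_eq, retFun_eq] at h
    obtain ⟨k, hk⟩ := Nat.exists_eq_add_of_le hle
    have e : (π ^ (retN π p y + 1)) y = (π ^ (retN π p x + 1)) ((π ^ k) y) := by
      rw [← Equiv.Perm.mul_apply, ← pow_add, hk]
      congr 2
      omega
    rw [e] at h
    have h1 := (π ^ (retN π p x + 1)).injective h
    rcases Nat.eq_zero_or_pos k with h0 | h0
    · subst h0
      simpa using h1
    · exfalso
      refine retN_not (π := π) (p := p) (x := y) (j := k - 1) (by omega) ?_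
      rw [Nat.sub_add_cancel h0, ← h1]
      exact hx
  rcases le_total (retN π p x) (retN π p y) with h1 | h1
  · exact key x y hx hy h1 h
  · exact (key y x hy hx h1 h.symm).symm

/-- the first return permutation -/
noncomputable def ret (π : Equiv.Perm X) (p : X → Prop) : Equiv.Perm {x // p x} :=
  Equiv.ofBijective (fun x => ⟨retFun π p x.1, retFun_spec ⟨0, by simpa using x.2⟩⟩)
    (Finite.injective_iff_bijective.1 fun x y h =>
      Subtype.ext (retFun_inj x.2 y.2 (congrArg Subtype.val h)))

@[simp] lemma ret_val (π : Equiv.Perm X) (p : X → Prop) (x : {x // p x}) :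
    (ret π p x).1 = retFun π p x.1 := rfl

/-- the first return for the reversed motion -/
lemma retFun_conj {π : Equiv.Perm X} {p : X → Prop} {r : X → X} (hr : ∀ x, r (r x) = x)
    (hπ : ∀ x, π (r (π x)) = r x) (hp : ∀ x, p (r x) ↔ p x) {x : X} (hx : p x) :
    r (retFun π p (r (retFun π p x))) = x := by
  have hrp : ∀ (j : ℕ) (x : X), (π ^ j) (r ((π ^ j) x)) = r x := by
    intro j
    induction j with
    | zero => intro x; rfl
    | succ j ih =>
      intro x
      have h1 : ∀ z, (π ^ (j + 1)) z = (π ^ j) (π z) := fun z => by rw [pow_succ]; rfl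
      have h2 : (π ^ (j + 1)) x = π ((π ^ j) x) := by rw [pow_succ']; rfl
      rw [h1, h2, hπ, ih]
  set n := retN π p x with hn
  have h1 : retFun π p x = (π ^ (n + 1)) x := retFun_eq π p x
  have h2 : retFun π p (r (retFun π p x)) = (π ^ (n + 1)) (r (retFun π p x)) := by
    refine retFun_eq_of ?_ ?_
    · rw [h1, hrp, hp]
      exact hx
    · intro i hi
      rw [h1]
      have h3 : (π ^ (i + 1)) (r ((π ^ (n + 1)) x)) = r ((π ^ (n - i)) x) := by
        have h4 := hrp (i + 1) ((π ^ (n - i)) x)
        rw [← Equiv.Perm.mul_apply, ← pow_add, show i + 1 + (n - i) = n + 1 by omega] at h4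
        exact h4
      rw [h3, hp]
      have h5 := retN_not (π := π) (p := p) (x := x) (j := n - i - 1) (by omega)
      rwa [show n - i - 1 + 1 = n - i by omega] at h5
  rw [h2, h1, hrp, hr]

end Pool.Agent.MP42
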