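import Pool.Agent.MP42.Oct

/-!
The edges of an orthogonal polyhedron in grid form, the degree of its vertices, flush edges, and
the eight bits around a grid point.
-/

namespace Pool.Agent.MP42.Geo

open Pool.Agent.Helper55.UNF Pool.Agent.Helper55.UNF.GridSolid

variable (P : GridSolid)

/-- The unit grid edge that starts at the grid point `v` in the direction `w` is part of an edge
of the polyhedron: one or three of the four boxes around it are solid. -/
def EdgeAt (v : Fin 3 → ℤ) (w : Dir) : Prop :=
  Odd (Finset.univ.filter fun ε : Fin 3 → Bool => ε w.1 = w.2 ∧ corner v ε ∈ P.cells).card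

/-- The unit grid edge that starts at the grid point `v` in the direction `w` lies in the surface:
at least one of the four boxes around it is solid and at least one is not. -/
def InSurf (v : Fin 3 → ℤ) (w : Dir) : Prop :=
  (∃ ε : Fin 3 → Bool, ε w.1 = w.2 ∧ corner v ε ∈ P.cells) ∧
  (∃ ε : Fin 3 → Bool, ε w.1 = w.2 ∧ corner v ε ∉ P.cells)

instance (v : Fin 3 → ℤ) (w : Dir) : Decidable (EdgeAt P v w) := by
  unfold EdgeAt; infer_instance

/-- The degree of a grid point: the number of edges of the polyhedron that start there. -/
def degree (v : Fin 3 → ℤ) : ℕ := (Finset.univ.filter fun w : Dir => EdgeAt P v w).card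

/-- All vertices of the polyhedron have degree three. -/
def IsSimple : Prop := ∀ v, P.IsVertex v → degree P v = 3

/-- The grid point `v` moved by `i` steps along the axis `a`. -/
def mv (v : Fin 3 → ℤ) (a : Fin 3) (i : ℤ) : Fin 3 → ℤ := Function.update v a (v a + i)

/-- No two flush edges parallel to the axis `a`: if two unit grid edges on a common line parallel
to the axis `a` are parts of edges of the polyhedron and the segment between them lies in the
surface, then that segment is part of an edge, too. -/
def NoFlush (a : Fin 3) : Prop :=
  ∀ (v : Fin 3 → ℤ) (n : ℕ), EdgeAt P v (a, true) → EdgeAt P (mv v a n) (a, true) →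
    (∀ i : ℕ, i < n → InSurf P (mv v a i) (a, true)) →
    ∀ i : ℕ, i < n → EdgeAt P (mv v a i) (a, true)

/-- The bit of the box at the corner `ε` of the grid point `v`. -/
def bt (v : Fin 3 → ℤ) (ε : Fin 3 → Bool) : Bool := decide (corner v ε ∈ P.cells)

lemma bt_true {v : Fin 3 → ℤ} {ε : Fin 3 → Bool} : bt P v ε = true ↔ corner v ε ∈ P.cells := by
  simp [bt]

lemma bt_false {v : Fin 3 → ℤ} {ε : Fin 3 → Bool} : bt P v ε = false ↔ corner v ε ∉ P.cells := by
  simp [bt]

lemma sum8 (g : (Fin 3 → Bool) → ℕ) : ∑ ε : Fin 3 → Bool, g ε =
    g ![false, false, false] + g ![true, false, false] + g ![false, false, true] +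
    g ![true, false, true] + g ![false, true, false] + g ![true, true, false] +
    g ![false, true, true] + g ![true, true, true] := by
  have h : (Finset.univ : Finset (Fin 3 → Bool)) =
    {![false, false, false], ![true, false, false], ![false, false, true], ![true, false, true],
     ![false, true, false], ![true, true, false], ![false, true, true], ![true, true, true]} := by
    decide
  rw [h]
  rw [Finset.sum_insert (by decide), Finset.sum_insert (by decide), Finset.sum_insert (by decide),
    Finset.sum_insert (by decide), Finset.sum_insert (by decide), Finset.sum_insert (by decide),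
    Finset.sum_insert (by decide), Finset.sum_singleton]
  ring

lemma all8 {p : (Fin 3 → Bool) → Prop} (h : ∀ x y z, p ![x, y, z]) (ε : Fin 3 → Bool) : p ε := by
  have : ε = ![ε 0, ε 1, ε 2] := by
    funext i; fin_cases i <;> rfl
  rw [this]; exact h _ _ _

lemma ex8 {p : (Fin 3 → Bool) → Prop} : (∃ ε, p ε) ↔ ∃ x y z, p ![x, y, z] := by
  constructor
  · rintro ⟨ε, h⟩
    have : ε = ![ε 0, ε 1, ε 2] := by
      funext i; fin_cases i <;> rfl
    rw [this] at h
    exact ⟨_, _, _, h⟩
  · rintro ⟨x, y, z, h⟩
    exact ⟨_, h⟩

/-- the parity of the number of true values -/
lemma edge_iff (v : Fin 3 → ℤ) (w : Dir) : EdgeAt P v w ↔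
    (∑ ε : Fin 3 → Bool, (if ε w.1 = w.2 then (bt P v ε).toNat else 0)) % 2 = 1 := by
  unfold EdgeAt
  rw [Nat.odd_iff, Finset.card_filter]
  have : ∀ ε : Fin 3 → Bool, (if ε w.1 = w.2 ∧ corner v ε ∈ P.cells then 1 else 0) =
      (if ε w.1 = w.2 then (bt P v ε).toNat else 0) := by
    intro ε
    by_cases h1 : ε w.1 = w.2 <;> by_cases h2 : corner v ε ∈ P.cells <;> simp [h1, h2, bt]
  simp only [this]

lemma edge_y1 (v : Fin 3 → ℤ) : EdgeAt P v (1, true) ↔
    crB (bt P v ![false, true, false]) (bt P v ![true, true, false])
      (bt P v ![false, true, true]) (bt P v ![true, true, true]) = true := by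
  rw [edge_iff, sum8]
  generalize bt P v = f
  simp only [crB]
  cases f ![false, true, false] <;> cases f ![true, true, false] <;>
    cases f ![false, true, true] <;> cases f ![true, true, true] <;> simp

lemma edge_y0 (v : Fin 3 → ℤ) : EdgeAt P v (1, false) ↔
    crB (bt P v ![false, false, false]) (bt P v ![true, false, false])
      (bt P v ![false, false, true]) (bt P v ![true, false, true]) = true := by
  rw [edge_iff, sum8]
  generalize bt P v = f
  simp only [crB]
  cases f ![false, false, false] <;> cases f ![true, false, false] <;>
    cases f ![false, false, true] <;> cases f ![true, false, true] <;> simp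

lemma edge_x0 (v : Fin 3 → ℤ) : EdgeAt P v (0, false) ↔
    crB (bt P v ![false, false, false]) (bt P v ![false, false, true])
      (bt P v ![false, true, false]) (bt P v ![false, true, true]) = true := by
  rw [edge_iff, sum8]
  generalize bt P v = f
  simp only [crB]
  cases f ![false, false, false] <;> cases f ![false, false, true] <;>
    cases f ![false, true, false] <;> cases f ![false, true, true] <;> simp

lemma edge_x1 (v : Fin 3 → ℤ) : EdgeAt P v (0, true) ↔
    crB (bt P v ![true, false, false]) (bt P v ![true, false, true])
      (bt P v ![true, true, false]) (bt P v ![true, true, true]) = true := by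
  rw [edge_iff, sum8]
  generalize bt P v = f
  simp only [crB]
  cases f ![true, false, false] <;> cases f ![true, false, true] <;>
    cases f ![true, true, false] <;> cases f ![true, true, true] <;> simp

lemma edge_z0 (v : Fin 3 → ℤ) : EdgeAt P v (2, false) ↔
    crB (bt P v ![false, false, false]) (bt P v ![true, false, false])
      (bt P v ![false, true, false]) (bt P v ![true, true, false]) = true := by
  rw [edge_iff, sum8]
  generalize bt P v = f
  simp only [crB]
  cases f ![false, false, false] <;> cases f ![true, false, false] <;>
    cases f ![false, true, false] <;> cases f ![true, true, false] <;> simp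

lemma edge_z1 (v : Fin 3 → ℤ) : EdgeAt P v (2, true) ↔
    crB (bt P v ![false, false, true]) (bt P v ![true, false, true])
      (bt P v ![false, true, true]) (bt P v ![true, true, true]) = true := by
  rw [edge_iff, sum8]
  generalize bt P v = f
  simp only [crB]
  cases f ![false, false, true] <;> cases f ![true, false, true] <;>
    cases f ![false, true, true] <;> cases f ![true, true, true] <;> simp

lemma degree_eq (v : Fin 3 → ℤ) : degree P v =
    dgB (bt P v ![false, false, false]) (bt P v ![true, false, false])
      (bt P v ![false, false, true]) (bt P v ![true, false, true])
      (bt P v ![false, true, false]) (bt P v ![true, true, false])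
      (bt P v ![false, true, true]) (bt P v ![true, true, true]) := by
  unfold degree
  rw [Finset.card_filter]
  have h : (Finset.univ : Finset Dir) =
    {(1, false), (1, true), (0, false), (0, true), (2, false), (2, true)} := by
    decide
  rw [h]
  rw [Finset.sum_insert (by decide), Finset.sum_insert (by decide), Finset.sum_insert (by decide),
    Finset.sum_insert (by decide), Finset.sum_insert (by decide), Finset.sum_singleton]
  simp only [edge_y0, edge_y1, edge_x0, edge_x1, edge_z0, edge_z1]
  unfold dgB
  have t : ∀ b : Bool, (if b = true then 1 else 0) = b.toNat := by decide
  simp only [t]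
  ring

lemma surf_y1 (v : Fin 3 → ℤ) : InSurf P v (1, true) ↔
    onB (bt P v ![false, true, false]) (bt P v ![true, true, false])
      (bt P v ![false, true, true]) (bt P v ![true, true, true]) = true := by
  unfold InSurf
  simp only [← bt_true]
  generalize bt P v = f
  rw [ex8, ex8]
  simp only [onB, Bool.exists_bool]
  cases f ![false, true, false] <;> cases f ![true, true, false] <;>
    cases f ![false, true, true] <;> cases f ![true, true, true] <;> simp

lemma surf_y0 (v : Fin 3 → ℤ) : InSurf P v (1, false) ↔
    onB (bt P v ![false, false, false]) (bt P v ![true, false, false])
      (bt P v ![false, false, true]) (bt P v ![true, false, true]) = true := by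
  unfold InSurf
  simp only [← bt_true]
  generalize bt P v = f
  rw [ex8, ex8]
  simp only [onB, Bool.exists_bool]
  cases f ![false, false, false] <;> cases f ![true, false, false] <;>
    cases f ![false, false, true] <;> cases f ![true, false, true] <;> simp

lemma vertex_iff (v : Fin 3 → ℤ) : P.IsVertex v ↔
    vtB (bt P v ![false, false, false]) (bt P v ![true, false, false])
      (bt P v ![false, false, true]) (bt P v ![true, false, true])
      (bt P v ![false, true, false]) (bt P v ![true, true, false])
      (bt P v ![false, true, true]) (bt P v ![true, true, true]) = true := by
  unfold GridSolid.IsVertex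
  simp only [← bt_true]
  generalize bt P v = f
  simp only [vtB, Bool.and_eq_true]
  have e0 : ∀ (x y z s : Bool), Function.update (![x, y, z] : Fin 3 → Bool) 0 s = ![s, y, z] := by
    decide
  have e1 : ∀ (x y z s : Bool), Function.update (![x, y, z] : Fin 3 → Bool) 1 s = ![x, s, z] := by
    decide
  have e2 : ∀ (x y z s : Bool), Function.update (![x, y, z] : Fin 3 → Bool) 2 s = ![x, y, s] := by
    decide
  have key : ∀ a : Fin 3, (∃ ε : Fin 3 → Bool, ¬ (f (Function.update ε a true) = true ↔
      f (Function.update ε a false) = true)) ↔ ∃ x y z : Bool,
      ¬ (f (Function.update ![x, y, z] a true) = true ↔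
        f (Function.update ![x, y, z] a false) = true) := fun a => ex8
  constructor
  · intro h
    have h0 := (key 0).1 (h 0)
    have h1 := (key 1).1 (h 1)
    have h2 := (key 2).1 (h 2)
    simp only [e0, e1, e2, Bool.exists_bool] at h0 h1 h2
    refine ⟨⟨?_, ?_⟩, ?_⟩
    · clear h1 h2
      revert h0
      cases f ![false, false, false] <;> cases f ![true, false, false] <;>
        cases f ![false, false, true] <;> cases f ![true, false, true] <;>
        cases f ![false, true, false] <;> cases f ![true, true, false] <;>
        cases f ![false, true, true] <;> cases f ![true, true, true] <;> simp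
    · clear h0 h2
      revert h1
      cases f ![false, false, false] <;> cases f ![true, false, false] <;>
        cases f ![false, false, true] <;> cases f ![true, false, true] <;>
        cases f ![false, true, false] <;> cases f ![true, true, false] <;>
        cases f ![false, true, true] <;> cases f ![true, true, true] <;> simp
    · clear h0 h1
      revert h2
      cases f ![false, false, false] <;> cases f ![true, false, false] <;>
        cases f ![false, false, true] <;> cases f ![true, false, true] <;>
        cases f ![false, true, false] <;> cases f ![true, true, false] <;>
        cases f ![false, true, true] <;> cases f ![true, true, true] <;> simp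
  · rintro ⟨⟨h0, h1⟩, h2⟩ a
    rw [key]
    have ha : a = 0 ∨ a = 1 ∨ a = 2 := by
      fin_cases a <;> simp
    rcases ha with rfl | rfl | rfl
    · simp only [e0, e1, e2, Bool.exists_bool]
      clear h1 h2
      revert h0
      cases f ![false, false, false] <;> cases f ![true, false, false] <;>
        cases f ![false, false, true] <;> cases f ![true, false, true] <;>
        cases f ![false, true, false] <;> cases f ![true, true, false] <;>
        cases f ![false, true, true] <;> cases f ![true, true, true] <;> simp
    · simp only [e0, e1, e2, Bool.exists_bool]
      clear h0 h2
      revert h1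
      cases f ![false, false, false] <;> cases f ![true, false, false] <;>
        cases f ![false, false, true] <;> cases f ![true, false, true] <;>
        cases f ![false, true, false] <;> cases f ![true, true, false] <;>
        cases f ![false, true, true] <;> cases f ![true, true, true] <;> simp
    · simp only [e0, e1, e2, Bool.exists_bool]
      clear h0 h1
      revert h2
      cases f ![false, false, false] <;> cases f ![true, false, false] <;>
        cases f ![false, false, true] <;> cases f ![true, false, true] <;>
        cases f ![false, true, false] <;> cases f ![true, true, false] <;>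
        cases f ![false, true, true] <;> cases f ![true, true, true] <;> simp

/-- the box across the plane `a` -/
lemma shift_corner (v : Fin 3 → ℤ) (ε : Fin 3 → Bool) (a : Fin 3) (s : Bool)
    (h : ε a = !s) : shift (corner v ε) (a, s) = corner v (Function.update ε a s) := by
  funext i
  by_cases hi : i = a
  · subst hi
    rw [shift_same]
    simp only [corner, Function.update_self, h]
    cases s <;> simp
    ring
  · rw [shift_ne _ _ hi]
    simp only [corner, Function.update_of_ne hi]

lemma alt_false (hM : P.IsManifold) (v : Fin 3 → ℤ) (ε : Fin 3 → Bool) (a b : Fin 3)
    (hab : a ≠ b) : altB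
      (bt P v (Function.update (Function.update ε a false) b false))
      (bt P v (Function.update (Function.update ε a true) b false))
      (bt P v (Function.update (Function.update ε a false) b true))
      (bt P v (Function.update (Function.update ε a true) b true)) = false := by
  have sa : ∀ s t : Bool, shift (corner v (Function.update (Function.update ε a (!s)) b t)) (a, s) =
      corner v (Function.update (Function.update ε a s) b t) := by
    intro s t
    rw [shift_corner]
    · congr 1
      rw [Function.update_comm hab.symm, Function.update_idem]
    · rw [Function.update_of_ne hab, Function.update_self]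
  have sb : ∀ s t : Bool, shift (corner v (Function.update (Function.update ε a t) b (!s))) (b, s) =
      corner v (Function.update (Function.update ε a t) b s) := by
    intro s t
    rw [shift_corner]
    · congr 1
      rw [Function.update_idem]
    · rw [Function.update_self]
  have k1 := hM.1 (corner v (Function.update (Function.update ε a false) b false)) a b true true hab
  have k2 := hM.1 (corner v (Function.update (Function.update ε a true) b false)) a b false true hab
  have sa1 := sa true false
  have sb1 := sb true false
  have sb2 := sb true true
  have sa2 := sa false false
  simp only [Bool.not_true, Bool.not_false] at sa1 sb1 sb2 sa2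
  rw [sa1, sb1, sb2] at k1
  rw [sa2, sb2, sb1] at k2
  simp only [← bt_true] at k1 k2
  unfold altB
  revert k1 k2
  generalize bt P v (Function.update (Function.update ε a false) b false) = A
  generalize bt P v (Function.update (Function.update ε a true) b false) = B
  generalize bt P v (Function.update (Function.update ε a false) b true) = C
  generalize bt P v (Function.update (Function.update ε a true) b true) = D
  revert A B C D
  decide

lemma good (hM : P.IsManifold) (hS : IsSimple P) (v : Fin 3 → ℤ) :
    goodB (bt P v ![false, false, false]) (bt P v ![true, false, false])
      (bt P v ![false, false, true]) (bt P v ![true, false, true])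
      (bt P v ![false, true, false]) (bt P v ![true, true, false])
      (bt P v ![false, true, true]) (bt P v ![true, true, true]) = true := by
  have e0 : ∀ (x y z s : Bool), Function.update (![x, y, z] : Fin 3 → Bool) 0 s = ![s, y, z] := by
    decide
  have e1 : ∀ (x y z s : Bool), Function.update (![x, y, z] : Fin 3 → Bool) 1 s = ![x, s, z] := by
    decide
  have e2 : ∀ (x y z s : Bool), Function.update (![x, y, z] : Fin 3 → Bool) 2 s = ![x, y, s] := by
    decide
  have a1 := alt_false P hM v ![false, false, false] 0 2 (by decide)
  have a2 := alt_false P hM v ![false, true, false] 0 2 (by decide)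
  have a3 := alt_false P hM v ![false, false, false] 2 1 (by decide)
  have a4 := alt_false P hM v ![true, false, false] 2 1 (by decide)
  have a5 := alt_false P hM v ![false, false, false] 0 1 (by decide)
  have a6 := alt_false P hM v ![false, false, true] 0 1 (by decide)
  simp only [e0, e1, e2] at a1 a2 a3 a4 a5 a6
  have a7 := hS v
  rw [vertex_iff, degree_eq] at a7
  unfold goodB
  rw [a1, a2, a3, a4, a5, a6]
  simp only [Bool.not_false, Bool.true_and, Bool.or_eq_true, Bool.not_eq_true', beq_iff_eq]
  revert a7
  cases vtB (bt P v ![false, false, false]) (bt P v ![true, false, false])
      (bt P v ![false, false, true]) (bt P v ![true, false, true])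
      (bt P v ![false, true, false]) (bt P v ![true, true, false])
      (bt P v ![false, true, true]) (bt P v ![true, true, true])
  · intro _; left; rfl
  · intro h; right; exact h rfl

end Pool.Agent.MP42.Geo
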