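import Pool.Agent.MP42.Arbor

/-!
The arborescence lemma for leaves of arbitrary degree.  A leaf is an orbit of `ν = θ ∘ φ`.  It has at
most one parent corner `p` (set `P`), any number of children corners different from `p` and `ν p`
(set `S`), and at most one extra child corner `ν p` (set `T`) whose parent is `ν (ν p)`.
-/

namespace Pool.Agent.MP42

namespace Arbor

variable {D : Type*} (θ φ : Equiv.Perm D)

/-- the rotation around a leaf as a permutation -/
def nuP : Equiv.Perm D := φ.trans θ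

lemma nuP_apply (d : D) : nuP θ φ d = θ (φ d) := rfl

/-- A solution on the union `K` of some faces. -/
structure GPart (K S T P : Set D) (h : D → ℕ) : Prop where
  K_φ : ∀ d, φ d ∈ K ↔ d ∈ K
  root_mem : ∀ d, root θ φ d ∈ K
  root_mem' : ∀ d, θ (root θ φ d) ∈ K
  h_φ : ∀ d, h (φ d) = h d
  P_K : ∀ p ∈ P, p ∈ K
  P_uniq : ∀ p ∈ P, ∀ p' ∈ P, (nuP θ φ).SameCycle p p' → p = p'
  P_ne : ∀ p ∈ P, ∃ d ∈ S, (nuP θ φ).SameCycle p d
  S_K : ∀ d ∈ S, d ∈ K
  S_P : ∀ d ∈ S, ∃ p ∈ P, (nuP θ φ).SameCycle p d ∧ d ≠ p ∧ d ≠ nuP θ φ p ∧ h p < h d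
  T_K : ∀ d ∈ T, d ∈ K
  T_P : ∀ d ∈ T, ∃ p ∈ P, d = nuP θ φ p ∧ nuP θ φ d ∈ K ∧ nuP θ φ d ∉ S ∧ nuP θ φ d ≠ p ∧
    nuP θ φ (nuP θ φ d) ≠ p ∧ h (nuP θ φ d) < h d
  uniq : ∀ d ∈ S ∪ T, ∀ e ∈ S ∪ T, φ.SameCycle d e → d = e
  no_root : ∀ d ∈ S ∪ T, ∀ e, ¬ φ.SameCycle d (root θ φ e) ∧ ¬ φ.SameCycle d (θ (root θ φ e))
  face : ∀ d ∈ K, (∃ s ∈ S ∪ T, φ.SameCycle d s) ∨
    φ.SameCycle d (root θ φ d) ∨ φ.SameCycle d (θ (root θ φ d))

variable {θ φ}

lemma GPart.h_same {K S T P : Set D} {h : D → ℕ} (p : GPart θ φ K S T P h) {d e : D}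
    (hs : φ.SameCycle d e) : h d = h e :=
  ((inv_sameCycle (ψ := fun x => h x = h d) (fun x => by rw [p.h_φ]) hs).1 rfl).symm

lemma GPart.K_same {K S T P : Set D} {h : D → ℕ} (p : GPart θ φ K S T P h) {d e : D}
    (hs : φ.SameCycle d e) : d ∈ K ↔ e ∈ K :=
  inv_sameCycle (ψ := fun x => x ∈ K) p.K_φ hs

lemma orbit3 {ν : Equiv.Perm D} {p e : D} (h3 : ν (ν (ν p)) = p) (hs : ν.SameCycle p e) :
    e = p ∨ e = ν p ∨ e = ν (ν p) := by
  refine (inv_sameCycle (ψ := fun x => x = p ∨ x = ν p ∨ x = ν (ν p)) ?_ hs).1 (Or.inl rfl)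
  intro x
  constructor
  · rintro (h | h | h)
    · right; right
      apply ν.injective
      rw [h, h3]
    · left; exact ν.injective h
    · right; left; exact ν.injective h
  · rintro (h | h | h)
    · right; left; rw [h]
    · right; right; rw [h]
    · left; rw [h, h3]

/-- There is a free site at the boundary of `K`. -/
lemma GPart.exists_site [Finite D] (hθ : ∀ d, θ (θ d) = d)
    {K S T P : Set D} {h : D → ℕ} (p : GPart θ φ K S T P h) {d0 : D} (hd0 : d0 ∉ K) :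
    ∃ d, d ∉ K ∧
      ((nuP θ φ d ∈ K ∧ nuP θ φ (nuP θ φ d) ≠ d ∧ ∀ r ∈ P, ¬ (nuP θ φ).SameCycle r d) ∨
       (∃ r ∈ P, (nuP θ φ).SameCycle r d ∧ d ≠ nuP θ φ r) ∨
       (∃ r ∈ P, d = nuP θ φ r ∧ nuP θ φ d ∈ K ∧ nuP θ φ d ∉ S ∧ nuP θ φ d ≠ r ∧
          nuP θ φ (nuP θ φ d) ≠ r)) := by
  by_contra hno
  push Not at hno
  -- boundary darts
  have hex : ∃ q, q ∉ K ∧ θ q ∈ K := by
    by_contra hq
    push Not at hq
    have hinv : ∀ x, θ x ∈ K ↔ x ∈ K := by
      intro x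
      constructor
      · intro hx
        by_contra hx'
        exact hq x hx' hx
      · intro hx
        by_contra hx'
        have := hq (θ x) hx'
        rw [hθ] at this
        exact this hx
    exact hd0 ((comp_root (θ := θ) (φ := φ) d0 (fun x => x ∈ K) p.K_φ hinv).1 (p.root_mem d0))
  obtain ⟨q0, hq0, hmin⟩ : ∃ q, (q ∉ K ∧ θ q ∈ K) ∧
      ∀ q', (q' ∉ K ∧ θ q' ∈ K) → h (θ q) ≤ h (θ q') := by
    obtain ⟨q1, hq1⟩ := hex
    classical
    let Q : ℕ → Prop := fun n => ∃ q, (q ∉ K ∧ θ q ∈ K) ∧ h (θ q) = n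
    have hQ : ∃ n, Q n := ⟨_, q1, hq1, rfl⟩
    obtain ⟨q, hq, hqn⟩ := Nat.find_spec hQ
    refine ⟨q, hq, ?_⟩
    intro q' hq'
    rw [hqn]
    exact Nat.find_min' hQ ⟨q', hq', rfl⟩
  -- one step backwards
  have step : ∀ q, (q ∉ K ∧ θ q ∈ K ∧ h (θ q) = h (θ q0)) →
      (φ.symm q ∉ K ∧ θ (φ.symm q) ∈ K ∧ h (θ (φ.symm q)) = h (θ q0)) ∧
        φ (θ q) = θ (φ.symm q) := by
    rintro q ⟨hqK, hqK', hqh⟩
    set d := φ.symm q with hd
    have hφd : φ d = q := by rw [hd, Equiv.apply_symm_apply]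
    have hdK : d ∉ K := by
      rw [← p.K_φ, hφd]; exact hqK
    have hn1 : nuP θ φ d = θ q := by rw [nuP_apply, hφd]
    have hn1K : nuP θ φ d ∈ K := by rw [hn1]; exact hqK'
    have hne1 : nuP θ φ d ≠ d := by
      intro h'; rw [h'] at hn1K; exact hdK hn1K
    have hn2 : nuP θ φ (nuP θ φ d) = θ (φ (θ q)) := by rw [hn1]; rfl
    by_cases h2 : nuP θ φ (nuP θ φ d) = d
    · -- bivalent
      have e1 : φ (θ q) = θ d := by
        rw [hn2] at h2
        rw [← h2, hθ]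
      refine ⟨⟨hdK, ?_, ?_⟩, e1⟩
      · rw [← e1, p.K_φ]; exact hqK'
      · rw [← e1, p.h_φ]; exact hqh
    · exfalso
      obtain ⟨hA, hB, hC⟩ := hno d hdK
      obtain ⟨r, hr, hrd⟩ := hA hn1K h2
      have hdr := hB r hr hrd
      -- the opposite face of `d` is the face of the parent
      have hθd : θ d = φ r := by
        rw [hdr, nuP_apply, hθ]
      have hrK := p.P_K r hr
      have hle : h (nuP θ φ d) ≤ h r := by
        have := hmin d ⟨hdK, by rw [hθd, p.K_φ]; exact hrK⟩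
        rw [hθd, p.h_φ, ← hqh, ← hn1] at this
        exact this
      by_cases hS : nuP θ φ d ∈ S
      · obtain ⟨r', hr', hs', -, -, hlt⟩ := p.S_P _ hS
        have : r' = r := by
          apply p.P_uniq r' hr' r hr
          exact (Equiv.Perm.sameCycle_apply_right.1 hs').trans hrd.symm
        subst this
        omega
      · have hne2 : nuP θ φ d ≠ r := by
          intro h'
          apply h2
          rw [h', ← hdr]
        have h3 := hC r hr hdr hn1K hS hne2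
        obtain ⟨e, he, hre⟩ := p.P_ne r hr
        have h3' : nuP θ φ (nuP θ φ (nuP θ φ r)) = r := by rw [← hdr]; exact h3
        obtain ⟨r', hr', hs', hn', hn'', -⟩ := p.S_P e he
        have : r' = r := p.P_uniq r' hr' r hr (hs'.trans hre.symm)
        subst this
        rcases orbit3 h3' hre with h' | h' | h'
        · exact hn' h'
        · exact hn'' h'
        · apply hS
          rw [hdr, ← h']
          exact he
  -- all the way around
  have hall : ∀ n : ℕ, (φ.symm ^ n) q0 ∉ K ∧ θ ((φ.symm ^ n) q0) ∈ K ∧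
      h (θ ((φ.symm ^ n) q0)) = h (θ q0) := by
    intro n
    induction n with
    | zero => exact ⟨hq0.1, hq0.2, rfl⟩
    | succ n ih =>
      rw [pow_succ', Equiv.Perm.mul_apply]
      exact (step _ ih).1
  have hcyc : ∀ e, φ.SameCycle q0 e → e ∉ K ∧ φ (θ e) = θ (φ.symm e) := by
    intro e he
    have he' : Equiv.Perm.SameCycle (φ⁻¹ : Equiv.Perm D) q0 e := Equiv.Perm.sameCycle_inv.2 he
    obtain ⟨n, hn⟩ := he'.exists_nat_pow_eq
    have hn : (φ.symm ^ n) q0 = e := hn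
    have := step _ (hall n)
    rw [hn] at this
    exact ⟨by have := (hall n).1; rwa [hn] at this, this.2⟩
  -- the component
  let ψ : D → Prop := fun x => φ.SameCycle q0 x ∨ φ.SameCycle q0 (θ x)
  have h1 : ∀ x, ψ (φ x) ↔ ψ x := by
    intro x
    show (_ ∨ _) ↔ (_ ∨ _)
    rw [Equiv.Perm.sameCycle_apply_right]
    apply or_congr Iff.rfl
    constructor
    · intro he
      have he' : φ.SameCycle q0 (φ (θ (φ x))) := Equiv.Perm.sameCycle_apply_right.2 he
      have := (hcyc _ he').2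
      rw [Equiv.symm_apply_apply, hθ] at this
      have h4 : θ (φ (θ (φ x))) = x := φ.injective this
      rw [← h4, hθ]
      exact he'
    · intro he
      have := (hcyc _ he).2
      rw [hθ] at this
      rw [this, hθ]
      exact Equiv.Perm.sameCycle_inv.1 (Equiv.Perm.sameCycle_apply_right.2
        (Equiv.Perm.sameCycle_inv.2 he))
  have h2 : ∀ x, ψ (θ x) ↔ ψ x := by
    intro x
    show (_ ∨ _) ↔ (_ ∨ _)
    rw [hθ]
    exact or_comm
  have h3 : ψ (root θ φ q0) := (comp_root q0 ψ h1 h2).2 (Or.inl (Equiv.Perm.SameCycle.refl _ _))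
  rcases h3 with h3 | h3
  · exact (hcyc _ h3).1 (p.root_mem q0)
  · exact (hcyc _ h3).1 (p.root_mem' q0)

open Classical in
/-- Insert a face. -/
lemma GPart.grow [Finite D] (hθ : ∀ d, θ (θ d) = d)
    {K S T P : Set D} {h : D → ℕ} (p : GPart θ φ K S T P h) {d0 : D} (hd0 : d0 ∉ K) :
    ∃ (K' S' T' P' : Set D) (h' : D → ℕ), GPart θ φ K' S' T' P' h' ∧ K ⊆ K' ∧
      ∃ d, d ∈ K' ∧ d ∉ K := by
  obtain ⟨d, hdK, hsite⟩ := p.exists_site hθ hd0
  have hKF : ∀ e ∈ K, ¬ φ.SameCycle d e := by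
    intro e he hs
    exact hdK ((p.K_same hs).2 he)
  have hUK : ∀ e ∈ S ∪ T, e ∈ K := by
    rintro e (he | he)
    · exact p.S_K e he
    · exact p.T_K e he
  have hrefl : φ.SameCycle d d := Equiv.Perm.SameCycle.refl _ _
  -- the common part
  have common : ∀ (c : ℕ) (S' T' P' : Set D), S' ∪ T' = {d} ∪ (S ∪ T) →
      (∀ q ∈ P', q ∈ K) →
      (∀ q ∈ P', ∀ q' ∈ P', (nuP θ φ).SameCycle q q' → q = q') →
      (∀ q ∈ P', ∃ e ∈ S', (nuP θ φ).SameCycle q e) →
      (∀ e ∈ S', ∃ q ∈ P', (nuP θ φ).SameCycle q e ∧ e ≠ q ∧ e ≠ nuP θ φ q ∧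
        ((e = d ∧ h q < c) ∨ (e ∈ K ∧ h q < h e))) →
      (∀ e ∈ T', ∃ q ∈ P', e = nuP θ φ q ∧ nuP θ φ e ∈ K ∧ nuP θ φ e ∉ S' ∧ nuP θ φ e ≠ q ∧
        nuP θ φ (nuP θ φ e) ≠ q ∧
        ((e = d ∧ h (nuP θ φ e) < c) ∨ (e ∈ K ∧ h (nuP θ φ e) < h e))) →
      GPart θ φ (K ∪ {e | φ.SameCycle d e}) S' T' P' (fun e => if φ.SameCycle d e then c else h e)
      := by
    intro c S' T' P' hU hPK hPu hPn hSP hTP
    have hU' : ∀ e, e ∈ S' ∪ T' ↔ e = d ∨ e ∈ S ∪ T := by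
      intro e; rw [hU]; rfl
    constructor
    · intro x
      simp only [Set.mem_union, Set.mem_ofPred_eq, Equiv.Perm.sameCycle_apply_right, p.K_φ]
    · exact fun x => Or.inl (p.root_mem x)
    · exact fun x => Or.inl (p.root_mem' x)
    · intro x
      simp only [Equiv.Perm.sameCycle_apply_right, p.h_φ]
    · exact fun q hq => Or.inl (hPK q hq)
    · exact hPu
    · exact hPn
    · intro x hx
      rcases (hU' x).1 (Or.inl hx) with rfl | hx
      · exact Or.inr hrefl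
      · exact Or.inl (hUK x hx)
    · intro x hx
      obtain ⟨q, hq, h1, h2, h3, h4⟩ := hSP x hx
      refine ⟨q, hq, h1, h2, h3, ?_⟩
      rcases h4 with ⟨rfl, h4⟩ | ⟨hxK, h4⟩
      · rw [if_neg (hKF _ (hPK q hq)), if_pos hrefl]
        exact h4
      · rw [if_neg (hKF _ (hPK q hq)), if_neg (hKF _ hxK)]
        exact h4
    · intro x hx
      rcases (hU' x).1 (Or.inr hx) with rfl | hx
      · exact Or.inr hrefl
      · exact Or.inl (hUK x hx)
    · intro x hx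
      obtain ⟨q, hq, h1, h2, h3, h4, h5, h6⟩ := hTP x hx
      refine ⟨q, hq, h1, Or.inl h2, h3, h4, h5, ?_⟩
      rcases h6 with ⟨rfl, h6⟩ | ⟨hxK, h6⟩
      · rw [if_neg (hKF _ h2), if_pos hrefl]
        exact h6
      · rw [if_neg (hKF _ h2), if_neg (hKF _ hxK)]
        exact h6
    · intro x hx y hy hs
      rcases (hU' x).1 hx with rfl | hx <;> rcases (hU' y).1 hy with rfl | hy
      · rfl
      · exact absurd hs (hKF _ (hUK y hy))
      · exact absurd hs.symm (hKF _ (hUK x hx))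
      · exact p.uniq x hx y hy hs
    · intro x hx e
      rcases (hU' x).1 hx with rfl | hx
      · exact ⟨hKF _ (p.root_mem e), hKF _ (p.root_mem' e)⟩
      · exact p.no_root x hx e
    · rintro x (hx | hx)
      · rcases p.face x hx with ⟨s, hs, hs'⟩ | hs
        · exact Or.inl ⟨s, (hU' s).2 (Or.inr hs), hs'⟩
        · exact Or.inr hs
      · exact Or.inl ⟨d, (hU' d).2 (Or.inl rfl), hx.symm⟩
  have oldS : ∀ (c : ℕ) (e : D), e ∈ S → ∃ q ∈ P, (nuP θ φ).SameCycle q e ∧ e ≠ q ∧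
      e ≠ nuP θ φ q ∧ ((e = d ∧ h q < c) ∨ (e ∈ K ∧ h q < h e)) := by
    intro c e he
    obtain ⟨q, hq, h1, h2, h3, h4⟩ := p.S_P e he
    exact ⟨q, hq, h1, h2, h3, Or.inr ⟨p.S_K e he, h4⟩⟩
  rcases hsite with ⟨hA1, hA2, hA3⟩ | ⟨r, hr, hrd, hdr⟩ | ⟨r, hr, hdr, hC1, hC2, hC3, hC4⟩
  · -- new parent corner `ν d`
    have hdn : d ≠ nuP θ φ d := fun h' => hdK (h' ▸ hA1)
    have hsame : (nuP θ φ).SameCycle (nuP θ φ d) d :=
      Equiv.Perm.sameCycle_apply_left.2 (Equiv.Perm.SameCycle.refl _ _)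
    refine ⟨_, {d} ∪ S, T, {nuP θ φ d} ∪ P, _, common (h (nuP θ φ d) + 1) ({d} ∪ S) T
      ({nuP θ φ d} ∪ P) (Set.union_assoc _ _ _) ?_ ?_ ?_ ?_ ?_, Set.subset_union_left,
      d, Or.inr hrefl, hdK⟩
    · rintro q (rfl | hq)
      · exact hA1
      · exact p.P_K q hq
    · rintro q (rfl | hq) q' (rfl | hq') hs
      · rfl
      · exact absurd (hs.symm.trans hsame) (hA3 q' hq')
      · exact absurd (hs.trans hsame) (hA3 q hq)
      · exact p.P_uniq q hq q' hq' hs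
    · rintro q (rfl | hq)
      · exact ⟨d, Or.inl rfl, hsame⟩
      · obtain ⟨e, he, hs⟩ := p.P_ne q hq
        exact ⟨e, Or.inr he, hs⟩
    · rintro e (rfl | he)
      · exact ⟨_, Or.inl rfl, hsame, hdn, Ne.symm hA2, Or.inl ⟨rfl, Nat.lt_succ_self _⟩⟩
      · obtain ⟨q, hq, h1⟩ := oldS (h (nuP θ φ d) + 1) e he
        exact ⟨q, Or.inr hq, h1⟩
    · intro e he
      obtain ⟨q, hq, h1, h2, h3, h4, h5, h6⟩ := p.T_P e he
      refine ⟨q, Or.inr hq, h1, h2, ?_, h4, h5, Or.inr ⟨p.T_K e he, h6⟩⟩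
      rintro (h' | h')
      · apply hdK
        rw [← (show nuP θ φ e = d from h')]
        exact h2
      · exact h3 h'
  · -- one more child of `r`
    have hdr' : d ≠ r := fun h' => hdK (h' ▸ p.P_K r hr)
    refine ⟨_, {d} ∪ S, T, P, _, common (h r + 1) ({d} ∪ S) T P (Set.union_assoc _ _ _)
      p.P_K p.P_uniq ?_ ?_ ?_, Set.subset_union_left, d, Or.inr hrefl, hdK⟩
    · intro q hq
      obtain ⟨e, he, hs⟩ := p.P_ne q hq
      exact ⟨e, Or.inr he, hs⟩
    · rintro e (rfl | he)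
      · exact ⟨r, hr, hrd, hdr', hdr, Or.inl ⟨rfl, Nat.lt_succ_self _⟩⟩
      · exact oldS (h r + 1) e he
    · intro e he
      obtain ⟨q, hq, h1, h2, h3, h4, h5, h6⟩ := p.T_P e he
      refine ⟨q, hq, h1, h2, ?_, h4, h5, Or.inr ⟨p.T_K e he, h6⟩⟩
      rintro (h' | h')
      · apply hdK
        rw [← (show nuP θ φ e = d from h')]
        exact h2
      · exact h3 h'
  · -- the second loop
    refine ⟨_, S, {d} ∪ T, P, _, common (h (nuP θ φ d) + 1) S ({d} ∪ T) P ?_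
      p.P_K p.P_uniq p.P_ne (oldS (h (nuP θ φ d) + 1)) ?_, Set.subset_union_left, d,
      Or.inr hrefl, hdK⟩
    · ext x
      simp only [Set.mem_union, Set.mem_singleton_iff]
      tauto
    · rintro e (rfl | he)
      · exact ⟨r, hr, hdr, hC1, hC2, hC3, hC4, Or.inl ⟨rfl, Nat.lt_succ_self _⟩⟩
      · obtain ⟨q, hq, h1, h2, h3, h4, h5, h6⟩ := p.T_P e he
        exact ⟨q, hq, h1, h2, h3, h4, h5, Or.inr ⟨p.T_K e he, h6⟩⟩

lemma GPart.full [Finite D] (hθ : ∀ d, θ (θ d) = d) :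
    ∀ (n : ℕ) (K S T P : Set D) (h : D → ℕ), GPart θ φ K S T P h → (Kᶜ).ncard ≤ n →
      ∃ (S' T' P' : Set D) (h' : D → ℕ), GPart θ φ Set.univ S' T' P' h' := by
  intro n
  induction n with
  | zero =>
    intro K S T P h p hn
    have h0 : Kᶜ = ∅ := by
      rw [← Set.ncard_eq_zero (Set.toFinite _)]; omega
    have : K = Set.univ := Set.compl_empty_iff.1 h0
    subst this
    exact ⟨S, T, P, h, p⟩
  | succ n ih =>
    intro K S T P h p hn
    by_cases hK : K = Set.univ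
    · subst hK; exact ⟨S, T, P, h, p⟩
    · obtain ⟨d0, hd0⟩ := (Set.ne_univ_iff_exists_notMem K).1 hK
      obtain ⟨K', S', T', P', h', p', hsub, d, hd, hd'⟩ := p.grow hθ hd0
      apply ih K' S' T' P' h' p'
      have : (K'ᶜ).ncard < (Kᶜ).ncard := by
        apply Set.ncard_lt_ncard _ (Set.toFinite _)
        refine ⟨Set.compl_subset_compl.2 hsub, ?_⟩
        intro hsup
        exact hsup hd' hd
      omega

/-- The root faces alone. -/
lemma GPart.start :
    GPart θ φ {x | φ.SameCycle x (root θ φ x) ∨ φ.SameCycle x (θ (root θ φ x))} ∅ ∅ ∅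
      (fun _ => 0) := by
  have hθr : ∀ d, root θ φ (θ (root θ φ d)) = root θ φ d := by
    intro d
    rw [root_eq_of_comp (comp_θ _), root_root]
  constructor
  · intro d
    simp only [Set.mem_ofPred_eq, Equiv.Perm.sameCycle_apply_left, root_eq_of_comp (comp_φ d)]
  · intro d
    left
    rw [root_root]
  · intro d
    right
    rw [hθr]
  · simp
  · simp
  · simp
  · simp
  · simp
  · simp
  · simp
  · simp
  · simp
  · simp
  · intro d hd
    exact Or.inr hd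

end Arbor

open Arbor

/-- **The arborescence lemma for leaves of arbitrary degree.**  `S`: children corners of the first
loop, `T`: child corners of the second loop, `P`: parent corners (of the first loops), `R`: root
darts. -/
theorem garbor {D : Type*} [Finite D] (θ φ : Equiv.Perm D) (hθ : ∀ d, θ (θ d) = d)
    (hne : ∀ d, θ d ≠ d) :
    ∃ (S T P R : Set D) (h : D → ℕ),
      (∀ d, h (φ d) = h d) ∧
      -- loops
      (∀ p ∈ P, ∀ p' ∈ P, (nuP θ φ).SameCycle p p' → p = p') ∧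
      (∀ p ∈ P, ∃ d ∈ S, (nuP θ φ).SameCycle p d) ∧
      (∀ d ∈ S, ∃ p ∈ P, (nuP θ φ).SameCycle p d ∧ d ≠ p ∧ d ≠ nuP θ φ p ∧ h p < h d) ∧
      (∀ d ∈ T, ∃ p ∈ P, d = nuP θ φ p ∧ nuP θ φ d ∉ S ∧ nuP θ φ d ≠ p ∧
        nuP θ φ (nuP θ φ d) ≠ p ∧ h (nuP θ φ d) < h d) ∧
      -- every face has at most one site, and a face with a site has no root
      (∀ d ∈ S ∪ T, ∀ e ∈ S ∪ T, φ.SameCycle d e → d = e) ∧
      (∀ d ∈ S ∪ T, ∀ r ∈ R, ¬ φ.SameCycle d r ∧ ¬ φ.SameCycle d (θ r)) ∧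
      -- every face has a site or a root
      (∀ d, (∃ s ∈ S ∪ T, φ.SameCycle d s) ∨ ∃ r ∈ R, φ.SameCycle d r ∨ φ.SameCycle d (θ r)) ∧
      -- at most one root near every face
      (∀ r ∈ R, ∀ r' ∈ R, (φ.SameCycle r r' ∨ φ.SameCycle r (θ r') ∨ φ.SameCycle (θ r) r' ∨
        φ.SameCycle (θ r) (θ r')) → r = r') ∧
      (∀ r ∈ R, θ r ∉ R) ∧
      -- connection
      (∀ ψ : D → Prop, (∀ d, ψ (φ d) ↔ ψ d) →
        (∀ d ∈ S, ∀ p ∈ P, (nuP θ φ).SameCycle p d → (ψ d ↔ ψ p)) →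
        (∀ d ∈ T, ψ d ↔ ψ (nuP θ φ d)) →
        (∀ r ∈ R, ψ r ↔ ψ (θ r)) → ∀ d, ψ d ↔ ψ (θ d)) := by
  obtain ⟨S, T, P, h, p⟩ := GPart.full (θ := θ) (φ := φ) hθ _ _ _ _ _ _ GPart.start le_rfl
  have hroot : ∀ r ∈ Set.range (root θ φ), root θ φ r = r := by
    rintro _ ⟨d, rfl⟩; exact root_root d
  have huniq : ∀ r ∈ Set.range (root θ φ), ∀ r' ∈ Set.range (root θ φ), comp θ φ r r' →
      r = r' := by
    intro r hr r' hr' hc
    rw [← hroot r hr, ← hroot r' hr', root_eq_of_comp hc]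
  have htr : ∀ {a b c : D}, comp θ φ a b → comp θ φ b c → comp θ φ a c :=
    fun h1 h2 ψ k1 k2 => (h1 ψ k1 k2).trans (h2 ψ k1 k2)
  have hsy : ∀ {a b : D}, comp θ φ a b → comp θ φ b a :=
    fun h1 ψ k1 k2 => (h1 ψ k1 k2).symm
  refine ⟨S, T, P, Set.range (root θ φ), h, p.h_φ, p.P_uniq, p.P_ne, p.S_P, ?_, p.uniq,
    ?_, ?_, ?_, ?_, ?_⟩
  · intro d hd
    obtain ⟨q, hq, h1, -, h3, h4, h5, h6⟩ := p.T_P d hd
    exact ⟨q, hq, h1, h3, h4, h5, h6⟩
  · rintro d hd _ ⟨e, rfl⟩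
    exact p.no_root d hd e
  · intro d
    rcases p.face d (Set.mem_univ d) with h' | h'
    · exact Or.inl h'
    · exact Or.inr ⟨_, ⟨d, rfl⟩, h'⟩
  · intro r hr r' hr' h'
    apply huniq r hr r' hr'
    rcases h' with h' | h' | h' | h'
    · exact comp_of_sameCycle h'
    · exact htr (comp_of_sameCycle h') (comp_θ _)
    · exact htr (hsy (comp_θ _)) (comp_of_sameCycle h')
    · exact htr (hsy (comp_θ _)) (htr (comp_of_sameCycle h') (comp_θ _))
  · intro r hr hr'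
    exact hne r (huniq _ hr' _ hr (comp_θ r))
  · intro ψ h1 h2 h2' h3
    have hν : ∀ x y, (nuP θ φ).SameCycle x y → comp θ φ x y := by
      intro x y hs ψ' k1 k2
      refine inv_sameCycle (ψ := ψ') ?_ hs
      intro z
      rw [nuP_apply, k2, k1]
    have key : ∀ n d, h d = n → (ψ d ↔ ψ (root θ φ d)) := by
      intro n
      induction n using Nat.strong_induction_on with
      | _ n ih =>
        intro d hd
        rcases p.face d (Set.mem_univ d) with ⟨s, hs | hs, hs'⟩ | h' | h'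
        · obtain ⟨q, hq, hsc, -, -, hlt⟩ := p.S_P s hs
          rw [inv_sameCycle h1 hs', h2 s hs q hq hsc]
          rw [← p.h_same hs', hd] at hlt
          rw [ih _ hlt q rfl]
          have hc : comp θ φ q d := htr (hν _ _ hsc) (hsy (comp_of_sameCycle hs'))
          rw [root_eq_of_comp hc]
        · obtain ⟨q, hq, -, -, -, -, -, hlt⟩ := p.T_P s hs
          rw [inv_sameCycle h1 hs', h2' s hs]
          rw [← p.h_same hs', hd] at hlt
          rw [ih _ hlt (nuP θ φ s) rfl]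
          have hc : comp θ φ (nuP θ φ s) d :=
            htr (comp_θ _) (htr (comp_φ _) (hsy (comp_of_sameCycle hs')))
          rw [root_eq_of_comp hc]
        · exact inv_sameCycle h1 h'
        · rw [inv_sameCycle h1 h']
          exact (h3 _ ⟨d, rfl⟩).symm
    intro d
    rw [key _ d rfl, key _ (θ d) rfl, root_eq_of_comp (comp_θ d)]

end Pool.Agent.MP42
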