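import Pool.Agent.MP42.Edges

/-!
The heads on one component of (surface) ∩ (line parallel to the `y`-axis) get different labels in
`Fin 3`, if all vertices have degree three and there are no flush `y`-edges.
-/

namespace Pool.Agent.MP42.Geo

open Pool.Agent.Helper55.UNF Pool.Agent.Helper55.UNF.GridSolid

lemma on_of_cr : ∀ a b c d : Bool, crB a b c d = true → onB a b c d = true := by decide

/-- The one-dimensional statement: two heads on the same component with the same label are at the
same point. -/
lemma line_aux (A B C D : ℤ → Bool)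
    (hg : ∀ t, goodB (A (t - 1)) (B (t - 1)) (C (t - 1)) (D (t - 1)) (A t) (B t) (C t) (D t) = true)
    (hf : ∀ (t : ℤ) (n : ℕ), crB (A t) (B t) (C t) (D t) = true →
      crB (A (t + n)) (B (t + n)) (C (t + n)) (D (t + n)) = true →
      (∀ i : ℕ, i < n → onB (A (t + i)) (B (t + i)) (C (t + i)) (D (t + i)) = true) →
      ∀ i : ℕ, i < n → crB (A (t + i)) (B (t + i)) (C (t + i)) (D (t + i)) = true)
    (t1 t2 : ℤ) (hlt : t1 < t2)
    (hon : ∀ t, t1 ≤ t → t < t2 → onB (A t) (B t) (C t) (D t) = true) (r1 u1 r2 u2 : Bool)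
    (h1 : hdB r1 u1 (A (t1 - 1)) (B (t1 - 1)) (C (t1 - 1)) (D (t1 - 1))
      (A t1) (B t1) (C t1) (D t1) = true)
    (h2 : hdB r2 u2 (A (t2 - 1)) (B (t2 - 1)) (C (t2 - 1)) (D (t2 - 1))
      (A t2) (B t2) (C t2) (D t2) = true)
    (hl : labB r1 (A (t1 - 1)) (B (t1 - 1)) (C (t1 - 1)) (D (t1 - 1))
      (A t1) (B t1) (C t1) (D t1) = labB r2 (A (t2 - 1)) (B (t2 - 1)) (C (t2 - 1)) (D (t2 - 1))
      (A t2) (B t2) (C t2) (D t2)) : False := by
  -- the edge property between two creases, in terms of integers
  have hf' : ∀ s t : ℤ, s ≤ t → crB (A s) (B s) (C s) (D s) = true →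
      crB (A t) (B t) (C t) (D t) = true →
      (∀ i, s ≤ i → i < t → onB (A i) (B i) (C i) (D i) = true) →
      ∀ i, s ≤ i → i ≤ t → crB (A i) (B i) (C i) (D i) = true := by
    intro s t hst hs ht ho i hi1 hi2
    rcases eq_or_lt_of_le hi2 with rfl | hi3
    · exact ht
    · have key := hf s (t - s).toNat hs (by
        have : s + ((t - s).toNat : ℤ) = t := by omega
        rw [this]; exact ht) (by
        intro j hj
        apply ho <;> omega) (i - s).toNat (by omega)
      have : s + ((i - s).toNat : ℤ) = i := by omega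
      rwa [this] at key
  have e0 : ∀ l : Fin 3, l = 0 ∨ l = 1 ∨ l = 2 := by decide
  have hon1 := hon t1 le_rfl hlt
  have hon2 := hon (t2 - 1) (by omega) (by omega)
  rcases e0 (labB r1 (A (t1 - 1)) (B (t1 - 1)) (C (t1 - 1)) (D (t1 - 1))
      (A t1) (B t1) (C t1) (D t1)) with h | h | h
  · rw [h] at hl
    have := lab_zero _ _ _ _ _ _ _ _ _ hl.symm
    rw [this] at hon2
    exact Bool.false_ne_true hon2
  · rw [h] at hl
    rcases lab_one _ _ _ _ _ _ _ _ (hg t1) _ _ h1 h with ⟨-, k⟩ | k | k
    · rw [k] at hon1
      exact Bool.false_ne_true hon1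
    · rcases lab_one _ _ _ _ _ _ _ _ (hg t2) _ _ h2 hl.symm with ⟨l, -⟩ | l | l
      · rw [l] at hon2
        exact Bool.false_ne_true hon2
      · have := hf' t1 t2 hlt.le k.2.1 l.2.1 hon (t2 - 1) (by omega) (by omega)
        rw [l.1] at this
        exact Bool.false_ne_true this
      · have hc := hf' t1 (t2 - 1) (by omega) k.2.1 l.1
          (fun i h1 h2 => hon i h1 (by omega))
        have : ∀ n : ℕ, t1 + n ≤ t2 - 1 → kpB (A (t1 + n)) (B (t1 + n)) (C (t1 + n))
            (D (t1 + n)) = true := by
          intro n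
          induction n with
          | zero => intro _; simpa using k.2.2
          | succ n ih =>
            intro hn
            push_cast at hn ⊢
            have g := kp_eq _ _ _ _ _ _ _ _ (hg (t1 + n + 1))
              (by
                have := hc (t1 + n) (by omega) (by omega)
                rwa [show t1 + (n : ℤ) + 1 - 1 = t1 + n by ring])
              (hc (t1 + n + 1) (by omega) (by omega))
            rw [show t1 + (n : ℤ) + 1 - 1 = t1 + n by ring, ih (by omega)] at g
            rw [← add_assoc, ← g]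
        have := this (t2 - 1 - t1).toNat (by omega)
        rw [show t1 + ((t2 - 1 - t1).toNat : ℤ) = t2 - 1 by omega, l.2.1] at this
        exact Bool.false_ne_true this
    · have hpre : ∀ i, t1 - 1 ≤ i → i < t2 → onB (A i) (B i) (C i) (D i) = true := by
        intro i hi1 hi2
        rcases eq_or_lt_of_le hi1 with rfl | hi3
        · exact on_of_cr _ _ _ _ k.1
        · exact hon i (by omega) hi2
      rcases lab_one _ _ _ _ _ _ _ _ (hg t2) _ _ h2 hl.symm with ⟨l, -⟩ | l | l
      · rw [l] at hon2
        exact Bool.false_ne_true hon2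
      · have := hf' (t1 - 1) t2 (by omega) k.1 l.2.1 hpre t1 (by omega) (by omega)
        rw [k.2.2] at this
        exact Bool.false_ne_true this
      · have := hf' (t1 - 1) (t2 - 1) (by omega) k.1 l.1
          (fun i h1 h2 => hpre i h1 (by omega)) t1 (by omega) (by omega)
        rw [k.2.2] at this
        exact Bool.false_ne_true this
  · have := lab_two _ _ _ _ _ _ _ _ _ h
    rw [this] at hon1
    exact Bool.false_ne_true hon1

variable (P : GridSolid)

/-- Two grid points are on the same component of the intersection of the surface with a line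
parallel to the `y`-axis. -/
def SameK (v w : Fin 3 → ℤ) : Prop :=
  v 0 = w 0 ∧ v 2 = w 2 ∧ ∀ t : ℤ, (v 1 ≤ t ∧ t < w 1 ∨ w 1 ≤ t ∧ t < v 1) →
    InSurf P ![v 0, t, v 2] (1, true)

lemma SameK.refl (v : Fin 3 → ℤ) : SameK P v v := ⟨rfl, rfl, fun t h => by omega⟩

variable {P}

lemma SameK.symm {v w : Fin 3 → ℤ} (h : SameK P v w) : SameK P w v := by
  refine ⟨h.1.symm, h.2.1.symm, fun t ht => ?_⟩
  rw [← h.1, ← h.2.1]
  exact h.2.2 t (by omega)

lemma SameK.trans {u v w : Fin 3 → ℤ} (h : SameK P u v) (h' : SameK P v w) : SameK P u w := by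
  refine ⟨h.1.trans h'.1, h.2.1.trans h'.2.1, fun t ht => ?_⟩
  by_cases hc : u 1 ≤ t ∧ t < v 1 ∨ v 1 ≤ t ∧ t < u 1
  · exact h.2.2 t hc
  · have := h'.2.2 t (by omega)
    rwa [h.1, h.2.1]

/-- One step along a unit `y`-edge of the surface. -/
lemma SameK.step {v w : Fin 3 → ℤ} (h0 : v 0 = w 0) (h2 : v 2 = w 2) (h1 : w 1 = v 1 + 1)
    (hs : InSurf P v (1, true)) : SameK P v w := by
  refine ⟨h0, h2, fun t ht => ?_⟩
  have : t = v 1 := by omega
  subst this
  have : v = ![v 0, v 1, v 2] := by
    funext i; fin_cases i <;> rfl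
  rwa [← this]

variable (P)

lemma bt_succ (x t z : ℤ) (a c : Bool) :
    bt P ![x, t, z] ![a, false, c] = bt P ![x, t - 1, z] ![a, true, c] := by
  unfold bt
  congr 2
  funext i
  fin_cases i <;> simp [corner]

/-- the label of the quadrant `r` at the grid point `v` -/
def lab (v : Fin 3 → ℤ) (r : Bool) : Fin 3 :=
  labB r (bt P v ![false, false, false]) (bt P v ![true, false, false])
      (bt P v ![false, false, true]) (bt P v ![true, false, true])
      (bt P v ![false, true, false]) (bt P v ![true, true, false])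
      (bt P v ![false, true, true]) (bt P v ![true, true, true])

/-- the quadrant `(r, u)` at the grid point `v` is a head -/
def hd (v : Fin 3 → ℤ) (r u : Bool) : Prop :=
  hdB r u (bt P v ![false, false, false]) (bt P v ![true, false, false])
      (bt P v ![false, false, true]) (bt P v ![true, false, true])
      (bt P v ![false, true, false]) (bt P v ![true, true, false])
      (bt P v ![false, true, true]) (bt P v ![true, true, true]) = true

lemma head_lt (hM : P.IsManifold) (hS : IsSimple P) (hF : NoFlush P 1) {v w : Fin 3 → ℤ}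
    (hK : SameK P v w) (hlt : v 1 < w 1) {r u r' u' : Bool} (hv : hd P v r u) (hw : hd P w r' u')
    (hl : lab P v r = lab P w r') : False := by
  obtain ⟨h0, h2, hs⟩ := hK
  have ev : v = ![v 0, v 1, v 2] := by
    funext i; fin_cases i <;> rfl
  have ew : w = ![v 0, w 1, v 2] := by
    funext i; fin_cases i
    · exact h0.symm
    · rfl
    · exact h2.symm
  unfold hd at hv hw
  unfold lab at hl
  rw [ev] at hv hl
  rw [ew] at hw hl
  generalize v 0 = x at *
  generalize v 2 = z at *
  generalize v 1 = t1 at *
  generalize w 1 = t2 at *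
  simp only [bt_succ P x] at hv hw hl
  refine line_aux (fun t => bt P ![x, t, z] ![false, true, false])
    (fun t => bt P ![x, t, z] ![true, true, false])
    (fun t => bt P ![x, t, z] ![false, true, true])
    (fun t => bt P ![x, t, z] ![true, true, true]) ?_ ?_ t1 t2 hlt ?_ r u r' u' hv hw hl
  · intro t
    have := good P hM hS ![x, t, z]
    simp only [bt_succ P x] at this
    exact this
  · intro t n hc1 hc2 ho i hi
    have key := hF ![x, t, z] n ((edge_y1 P _).2 hc1)
    have e : ∀ j : ℕ, mv ![x, t, z] 1 j = ![x, t + j, z] := by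
      intro j
      funext i
      fin_cases i <;> simp [mv, Function.update]
    simp only [e] at key
    exact (edge_y1 P _).1 (key ((edge_y1 P _).2 hc2)
      (fun j hj => (surf_y1 P _).2 (ho j hj)) i hi)
  · intro t ht1 ht2
    exact (surf_y1 P _).1 (hs t (Or.inl ⟨ht1, ht2⟩))

/-- Two heads on the same component with the same label are equal. -/
lemma head_inj (hM : P.IsManifold) (hS : IsSimple P) (hF : NoFlush P 1) {v w : Fin 3 → ℤ}
    (hK : SameK P v w) {r u r' u' : Bool} (hv : hd P v r u) (hw : hd P w r' u')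
    (hl : lab P v r = lab P w r') : v = w ∧ r = r' ∧ u = u' := by
  rcases lt_trichotomy (v 1) (w 1) with h | h | h
  · exact (head_lt P hM hS hF hK h hv hw hl).elim
  · have e : v = w := by
      funext i; fin_cases i
      · exact hK.1
      · exact h
      · exact hK.2.1
    subst e
    exact ⟨rfl, lab_inj _ _ _ _ _ _ _ _ (good P hM hS v) _ _ _ _ hv hw hl⟩
  · exact (head_lt P hM hS hF hK.symm h hw hv hl.symm).elim

end Pool.Agent.MP42.Geo
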