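import Pool.Agent.MP42.A9

/-!
# A geometric form of the condition `Thin`

`LineBound P a`: every segment in the surface that lies on a grid line parallel to the axis `a`
meets at most six corners of facets orthogonal to `a`.
-/

set_option autoImplicit false
set_option linter.unusedSectionVars false

namespace Pool.Agent.MP42

open Pool.Agent.Helper55.UNF Pool.Agent.Helper55.UNF.GridSolid

/-- The number of facets orthogonal to the axis `a` that have the grid point `v` as a corner: the
number of the four pairs of boxes at `v` that are neighbours in the direction of `a` and of which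
exactly one is solid. -/
def corners (P : GridSolid) (a : Fin 3) (v : Fin 3 → ℤ) : ℕ :=
  (Finset.univ.filter fun ε : Fin 3 → Bool => ε a = true ∧
    ¬ (corner v ε ∈ P.cells ↔ corner v (Function.update ε a false) ∈ P.cells)).card

/-- Every segment in the surface that lies on a grid line parallel to the axis `a` meets at most six
corners of facets orthogonal to `a`. -/
def LineBound (P : GridSolid) (a : Fin 3) : Prop := ∀ (v : Fin 3 → ℤ) (m : ℕ),
  (∀ i < m, OnSurf P a (Function.update v a (v a + i))) →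
  ∑ i ∈ Finset.range (m + 1), corners P a (Function.update v a (v a + i)) ≤ 6

/-! ## Eight bits -/

/-- the number of `y`-facets at the point -/
def crnB (a0 b0 c0 d0 a1 b1 c1 d1 : Bool) : ℕ :=
  (xor a0 a1).toNat + (xor b0 b1).toNat + (xor c0 c1).toNat + (xor d0 d1).toNat

/-- the number of heads at the point -/
def hcB (a0 b0 c0 d0 a1 b1 c1 d1 : Bool) : ℕ :=
  (Geo.hdB false false a0 b0 c0 d0 a1 b1 c1 d1).toNat +
  (Geo.hdB true false a0 b0 c0 d0 a1 b1 c1 d1).toNat +
  (Geo.hdB false true a0 b0 c0 d0 a1 b1 c1 d1).toNat +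
  (Geo.hdB true true a0 b0 c0 d0 a1 b1 c1 d1).toNat

/-- the charge of a unit `y`-edge -/
def kapB (a b c d : Bool) : ℤ := (a.toNat : ℤ) - b.toNat - c.toNat + d.toNat

lemma crn_hc : ∀ a0 b0 c0 d0 a1 b1 c1 d1 : Bool,
    (crnB a0 b0 c0 d0 a1 b1 c1 d1 : ℤ) =
      2 * hcB a0 b0 c0 d0 a1 b1 c1 d1 - (kapB a1 b1 c1 d1 - kapB a0 b0 c0 d0) := by
  decide

lemma kap_zero : ∀ a b c d : Bool, Geo.onB a b c d = false → kapB a b c d = 0 := by
  decide

variable {P : GridSolid}

lemma onSurf_iff (v : Fin 3 → ℤ) : OnSurf P 1 v ↔ Geo.InSurf P v (1, true) := by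
  constructor
  · rintro ⟨h1, h2⟩
    constructor
    · obtain ⟨ε, hε⟩ := Finset.card_ne_zero.1 h1
      unfold solid4 at hε
      simp only [Finset.mem_filter, Finset.mem_univ, true_and] at hε
      exact ⟨ε, hε⟩
    · by_contra hcon
      push Not at hcon
      apply h2
      have : solid4 P 1 v = Finset.univ.filter fun ε : Fin 3 → Bool => ε 1 = true := by
        unfold solid4
        ext ε
        simp only [Finset.mem_filter, Finset.mem_univ, true_and]
        exact ⟨fun h => h.1, fun h => ⟨h, hcon ε h⟩⟩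
      rw [this]
      decide
  · exact onSurf_of_inSurf

lemma corners_eq (v : Fin 3 → ℤ) : corners P 1 v =
    crnB (Geo.bt P v ![false, false, false]) (Geo.bt P v ![true, false, false])
      (Geo.bt P v ![false, false, true]) (Geo.bt P v ![true, false, true])
      (Geo.bt P v ![false, true, false]) (Geo.bt P v ![true, true, false])
      (Geo.bt P v ![false, true, true]) (Geo.bt P v ![true, true, true]) := by
  unfold corners
  rw [Finset.card_filter]
  have : ∀ ε : Fin 3 → Bool, (if ε 1 = true ∧ ¬ (corner v ε ∈ P.cells ↔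
      corner v (Function.update ε 1 false) ∈ P.cells) then 1 else 0) =
      (if ε 1 = true then (xor (Geo.bt P v (Function.update ε 1 false))
        (Geo.bt P v ε)).toNat else 0) := by
    intro ε
    by_cases h1 : ε 1 = true <;> by_cases h2 : corner v ε ∈ P.cells <;>
      by_cases h3 : corner v (Function.update ε 1 false) ∈ P.cells <;>
      simp [h1, h2, h3, Geo.bt]
  simp only [this]
  rw [Geo.sum8]
  have e1 : ∀ (x y z s : Bool), Function.update (![x, y, z] : Fin 3 → Bool) 1 s = ![x, s, z] := by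
    decide
  simp only [e1]
  unfold crnB
  simp

/-! ## The maximal segment -/

section

variable (P)

/-- the number of heads at a point -/
def hc (v : Fin 3 → ℤ) : ℕ :=
  hcB (Geo.bt P v ![false, false, false]) (Geo.bt P v ![true, false, false])
      (Geo.bt P v ![false, false, true]) (Geo.bt P v ![true, false, true])
      (Geo.bt P v ![false, true, false]) (Geo.bt P v ![true, true, false])
      (Geo.bt P v ![false, true, true]) (Geo.bt P v ![true, true, true])

/-- the charge of the unit edge to the north of a point -/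
def kap (v : Fin 3 → ℤ) : ℤ :=
  kapB (Geo.bt P v ![false, true, false]) (Geo.bt P v ![true, true, false])
      (Geo.bt P v ![false, true, true]) (Geo.bt P v ![true, true, true])

lemma corners_hc (x t z : ℤ) : (corners P 1 ![x, t, z] : ℤ) =
    2 * hc P ![x, t, z] - (kap P ![x, t, z] - kap P ![x, t - 1, z]) := by
  rw [corners_eq, crn_hc]
  unfold hc kap
  simp only [Geo.bt_succ P x]

lemma kap_off {v : Fin 3 → ℤ} (h : ¬ Geo.InSurf P v (1, true)) : kap P v = 0 := by
  rw [Geo.surf_y1, Bool.not_eq_true] at h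
  exact kap_zero _ _ _ _ h

lemma off_far : ∃ N : ℤ, ∀ x t z : ℤ, N ≤ |t| → ¬ Geo.InSurf P ![x, t, z] (1, true) := by
  refine ⟨(∑ c ∈ P.cells, |c 1|) + 1, fun x t z ht h => ?_⟩
  obtain ⟨⟨ε, h1, h2⟩, -⟩ := h
  have h3 : corner ![x, t, z] ε 1 = t := by
    unfold corner
    simp only at h1
    rw [if_pos h1]
    rfl
  have h4 : |corner ![x, t, z] ε 1| ≤ ∑ c ∈ P.cells, |c 1| :=
    Finset.single_le_sum (f := fun c : Fin 3 → ℤ => |c 1|) (fun _ _ => abs_nonneg _) h2
  rw [h3] at h4
  omega

/-- The component of a point is a segment. -/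
lemma exists_seg (x t z : ℤ) : ∃ (l : ℤ) (m : ℕ), l ≤ t ∧ t ≤ l + m ∧
    (∀ i : ℕ, i < m → Geo.InSurf P ![x, l + i, z] (1, true)) ∧
    ¬ Geo.InSurf P ![x, l - 1, z] (1, true) ∧ ¬ Geo.InSurf P ![x, l + m, z] (1, true) := by
  classical
  obtain ⟨N, hN⟩ := off_far P
  have hup : ∃ n : ℕ, ¬ Geo.InSurf P ![x, t + n, z] (1, true) :=
    ⟨(N + |t|).toNat, hN _ _ _ (by
      have h1 := abs_add_le (t + ((N + |t|).toNat : ℤ)) (-t)
      have h2 : t + ((N + |t|).toNat : ℤ) + -t = ((N + |t|).toNat : ℤ) := by ring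
      rw [h2, abs_neg] at h1
      have h3 : (N + |t|) ≤ |((N + |t|).toNat : ℤ)| := (Int.self_le_toNat _).trans (le_abs_self _)
      linarith)⟩
  have hdn : ∃ n : ℕ, ¬ Geo.InSurf P ![x, t - n - 1, z] (1, true) :=
    ⟨(N + |t|).toNat, hN _ _ _ (by
      have h1 := abs_add_le (t - ((N + |t|).toNat : ℤ) - 1) (-t)
      have h2 : t - ((N + |t|).toNat : ℤ) - 1 + -t = -(((N + |t|).toNat : ℤ) + 1) := by ring
      rw [h2, abs_neg, abs_neg] at h1
      have h3 : (N + |t|) ≤ |((N + |t|).toNat : ℤ) + 1| := by
        have := Int.self_le_toNat (N + |t|)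
        exact (by linarith : N + |t| ≤ ((N + |t|).toNat : ℤ) + 1).trans (le_abs_self _)
      linarith)⟩
  set n := Nat.find hup with hn
  set k := Nat.find hdn with hk
  have h1 := Nat.find_spec hup
  have h2 := Nat.find_spec hdn
  have h3 : ∀ i < n, Geo.InSurf P ![x, t + i, z] (1, true) := fun i hi =>
    not_not.1 (Nat.find_min hup hi)
  have h4 : ∀ i < k, Geo.InSurf P ![x, t - i - 1, z] (1, true) := fun i hi =>
    not_not.1 (Nat.find_min hdn hi)
  refine ⟨t - k, k + n, by omega, by push_cast; omega, ?_, ?_, ?_⟩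
  · intro i hi
    by_cases hik : i < k
    · have := h4 (k - i - 1) (by omega)
      rwa [show t - ((k - i - 1 : ℕ) : ℤ) - 1 = t - k + i by omega] at this
    · have := h3 (i - k) (by omega)
      rwa [show t + ((i - k : ℕ) : ℤ) = t - k + i by omega] at this
  · exact h2
  · have : t - (k : ℤ) + ((k + n : ℕ) : ℤ) = t + n := by push_cast; ring
    rw [this]
    exact h1

/-- On a component the number of corners is twice the number of heads. -/
lemma sum_corners (x l z : ℤ) (m : ℕ) (h1 : ¬ Geo.InSurf P ![x, l - 1, z] (1, true))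
    (h2 : ¬ Geo.InSurf P ![x, l + m, z] (1, true)) :
    ∑ i ∈ Finset.range (m + 1), corners P 1 ![x, l + i, z] =
      2 * ∑ i ∈ Finset.range (m + 1), hc P ![x, l + i, z] := by
  have key : ∀ n : ℕ, (∑ i ∈ Finset.range (n + 1), (corners P 1 ![x, l + i, z] : ℤ)) =
      2 * ∑ i ∈ Finset.range (n + 1), (hc P ![x, l + i, z] : ℤ) -
        (kap P ![x, l + n, z] - kap P ![x, l - 1, z]) := by
    intro n
    induction n with
    | zero =>
      simp only [zero_add, Finset.sum_range_one, Nat.cast_zero, add_zero]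
      exact corners_hc P x l z
    | succ n ih =>
      rw [Finset.sum_range_succ, ih, Finset.sum_range_succ (n := n + 1), corners_hc]
      have : l + ((n + 1 : ℕ) : ℤ) - 1 = l + n := by push_cast; ring
      rw [this]
      ring
  have h := key m
  rw [kap_off P h1, kap_off P h2] at h
  have h3 : ((∑ i ∈ Finset.range (m + 1), corners P 1 ![x, l + i, z] : ℕ) : ℤ) =
      ((2 * ∑ i ∈ Finset.range (m + 1), hc P ![x, l + i, z] : ℕ) : ℤ) := by
    push_cast
    linarith
  exact_mod_cast h3

/-- the heads of a segment -/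
def hds (x l z : ℤ) (m : ℕ) : Finset (ℕ × Bool × Bool) :=
  ((Finset.range (m + 1)) ×ˢ (Finset.univ : Finset (Bool × Bool))).filter fun q =>
    Geo.hdB q.2.1 q.2.2
      (Geo.bt P ![x, l + q.1, z] ![false, false, false])
      (Geo.bt P ![x, l + q.1, z] ![true, false, false])
      (Geo.bt P ![x, l + q.1, z] ![false, false, true])
      (Geo.bt P ![x, l + q.1, z] ![true, false, true])
      (Geo.bt P ![x, l + q.1, z] ![false, true, false])
      (Geo.bt P ![x, l + q.1, z] ![true, true, false])
      (Geo.bt P ![x, l + q.1, z] ![false, true, true])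
      (Geo.bt P ![x, l + q.1, z] ![true, true, true]) = true

lemma mem_hds {x l z : ℤ} {m : ℕ} {q : ℕ × Bool × Bool} : q ∈ hds P x l z m ↔
    q.1 < m + 1 ∧ Geo.hd P ![x, l + q.1, z] q.2.1 q.2.2 := by
  unfold hds Geo.hd
  simp [Finset.mem_filter, Finset.mem_product]

lemma card_hds (x l z : ℤ) (m : ℕ) :
    (hds P x l z m).card = ∑ i ∈ Finset.range (m + 1), hc P ![x, l + i, z] := by
  unfold hds
  rw [Finset.card_filter, Finset.sum_product]
  refine Finset.sum_congr rfl fun i _ => ?_
  unfold hc hcB
  rw [Fintype.sum_prod_type]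
  simp only [Fintype.sum_bool]
  generalize Geo.hdB true true _ _ _ _ _ _ _ _ = p1
  generalize Geo.hdB true false _ _ _ _ _ _ _ _ = p2
  generalize Geo.hdB false true _ _ _ _ _ _ _ _ = p3
  generalize Geo.hdB false false _ _ _ _ _ _ _ _ = p4
  revert p1 p2 p3 p4
  decide

end

/-- `LineBound` implies `Thin`. -/
theorem thin_of_lineBound (hL : LineBound P 1) : Thin P := by
  intro d
  set ν := nu (theta P) (phi P) with hν
  by_contra hcon
  push Not at hcon
  obtain ⟨n1, n2, n3⟩ := hcon
  -- the four heads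
  set s : ℕ → P.FSt := fun i => (ν^[i] d).1 with hs
  have hsd : ∀ i, Geo.IsDart P (s i) := fun i => (ν^[i] d).2
  have hK : ∀ i, Geo.SameK P (Geo.ne (s 0).1) (Geo.ne (s i).1) := by
    intro i
    induction i with
    | zero => exact Geo.SameK.refl P _
    | succ i ih =>
      refine ih.trans ?_
      obtain ⟨t, h1, h2, h3⟩ := nu_step (ν^[i] d)
      have e : s (i + 1) = (ν (ν^[i] d)).1 := by
        rw [hs]
        simp only
        rw [Function.iterate_succ_apply']
      rw [e]
      exact Geo.sameK_nu (hsd i) h1 h2 h3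
  have hinj : ∀ i j : ℕ, i < j → j < 4 → s i ≠ s j := by
    intro i j hij hj h
    have h1 : ν^[i] d = ν^[j] d := Subtype.ext h
    have h2 : ν^[j] d = ν^[i] (ν^[j - i] d) := by
      rw [← Function.iterate_add_apply]
      congr 2
      omega
    rw [h2] at h1
    have h3 : d = ν^[j - i] d := (ν.injective.iterate i) h1
    have h4 : j - i = 1 ∨ j - i = 2 ∨ j - i = 3 := by omega
    rcases h4 with h4 | h4 | h4 <;> rw [h4] at h3
    · exact n1 h3.symm
    · exact n2 h3.symm
    · exact n3 h3.symm
  -- the component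
  set x := Geo.ne (s 0).1 0 with hx
  set z := Geo.ne (s 0).1 2 with hz
  obtain ⟨l, m, hl1, hl2, hon, hlo, hhi⟩ := exists_seg P x (Geo.ne (s 0).1 1) z
  have hpt : ∀ i, Geo.ne (s i).1 = ![x, Geo.ne (s i).1 1, z] := by
    intro i
    funext j
    fin_cases j
    · exact (hK i).1.symm
    · rfl
    · exact (hK i).2.1.symm
  have hrange : ∀ i, l ≤ Geo.ne (s i).1 1 ∧ Geo.ne (s i).1 1 ≤ l + m := by
    intro i
    have h3 := (hK i).2.2
    constructor
    · by_contra hlt
      exact hlo (h3 (l - 1) (Or.inr ⟨by omega, by omega⟩))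
    · by_contra hlt
      exact hhi (h3 (l + m) (Or.inl ⟨by omega, by omega⟩))
  let f : Fin 4 → ℕ × Bool × Bool := fun i =>
    ((Geo.ne (s i).1 1 - l).toNat, !(s i).1.e.2, !(cross (s i).1.d (s i).1.e).2)
  have hpos : ∀ i : ℕ, l + ((Geo.ne (s i).1 1 - l).toNat : ℤ) = Geo.ne (s i).1 1 := by
    intro i
    have := (hrange i).1
    omega
  have hfm : ∀ i, f i ∈ hds P x l z m := by
    intro i
    rw [mem_hds]
    refine ⟨?_, ?_⟩
    · show (Geo.ne (s i).1 1 - l).toNat < m + 1
      have := (hrange i).2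
      omega
    · show Geo.hd P ![x, l + ((Geo.ne (s i).1 1 - l).toNat : ℤ), z] _ _
      rw [hpos i, ← hpt i]
      exact Geo.dart_hd _ (hsd i)
  have hfi : Function.Injective f := by
    intro i j h
    by_contra hij
    have h1 : (Geo.ne (s i).1 1 - l).toNat = (Geo.ne (s j).1 1 - l).toNat := congrArg Prod.fst h
    have h2 : (!(s i).1.e.2) = (!(s j).1.e.2) := congrArg (fun q => q.2.1) h
    have h3 : (!(cross (s i).1.d (s i).1.e).2) = (!(cross (s j).1.d (s j).1.e).2) :=
      congrArg (fun q => q.2.2) h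
    have h4 : Geo.ne (s i).1 = Geo.ne (s j).1 := by
      rw [hpt i, hpt j, ← hpos i, ← hpos j, h1]
    have h5 := Geo.dart_ext _ _ (hsd i) (hsd j) h4 h2 h3
    rcases lt_or_gt_of_ne hij with h6 | h6
    · exact hinj i j h6 j.2 h5
    · exact hinj j i h6 i.2 h5.symm
  have hcard : 4 ≤ (hds P x l z m).card := by
    have := Finset.card_le_card_of_injOn (s := (Finset.univ : Finset (Fin 4)))
      (t := hds P x l z m) f (fun i _ => hfm i) (fun i _ j _ h => hfi h)
    simpa using this
  have hsum := sum_corners P x l z m hlo hhi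
  rw [← card_hds] at hsum
  have hb := hL ![x, l, z] m (by
    intro i hi
    have : Function.update ![x, l, z] 1 (![x, l, z] 1 + (i : ℤ)) = ![x, l + i, z] := by
      funext j; fin_cases j <;> simp [Function.update]
    rw [this, onSurf_iff]
    exact hon i hi)
  have hb' : ∑ i ∈ Finset.range (m + 1), corners P 1 ![x, l + i, z] ≤ 6 := by
    refine le_trans (le_of_eq (Finset.sum_congr rfl fun i _ => ?_)) hb
    congr 1
    funext j; fin_cases j <;> simp [Function.update]
  omega

end Pool.Agent.MP42
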