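import Pool.Agent.MP42.Lines

/-!
# The line bound: degree three, and renaming of the axes
-/

set_option autoImplicit false
set_option linter.unusedSectionVars false

namespace Pool.Agent.MP42

open Pool.Agent.Helper55.UNF Pool.Agent.Helper55.UNF.GridSolid

variable (P : GridSolid)

/-- There are at most three heads on a component. -/
lemma card_hds_le (hM : P.IsManifold) (h3 : Deg3 P) (hf : NoFlush P 1) {x l z : ℤ} {m : ℕ}
    (hon : ∀ i : ℕ, i < m → Geo.InSurf P ![x, l + i, z] (1, true)) :
    (hds P x l z m).card ≤ 3 := by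
  have hK : ∀ i j : ℕ, i < m + 1 → j < m + 1 →
      Geo.SameK P ![x, l + i, z] ![x, l + j, z] := by
    intro i j hi hj
    refine ⟨rfl, rfl, fun t ht => ?_⟩
    have ht' : l + i ≤ t ∧ t < l + j ∨ l + j ≤ t ∧ t < l + i := ht
    have : t = l + ((t - l).toNat : ℤ) := by omega
    show Geo.InSurf P ![x, t, z] (1, true)
    rw [this]
    exact hon _ (by omega)
  have := Finset.card_le_card_of_injOn (s := hds P x l z m) (t := (Finset.univ : Finset (Fin 3)))
    (fun q => Geo.lab P ![x, l + q.1, z] q.2.1) (fun _ _ => Finset.mem_univ _) (by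
      intro q hq q' hq' h
      have hq1 := (mem_hds P).1 (Finset.mem_coe.1 hq)
      have hq2 := (mem_hds P).1 (Finset.mem_coe.1 hq')
      obtain ⟨e1, e2, e3⟩ := Geo.head_inj P hM (isSimple_of_deg3 h3) (noFlush_geo hf)
        (hK q.1 q'.1 hq1.1 hq2.1) hq1.2 hq2.2 h
      have e4 := congrFun e1 1
      have e5 : l + (q.1 : ℤ) = l + q'.1 := e4
      exact Prod.ext (by omega) (Prod.ext e2 e3))
  simpa using this

/-- Vertices of degree three and no flush edges give the line bound. -/
theorem lineBound_of_deg3 (hM : P.IsManifold) (h3 : Deg3 P) (hf : NoFlush P 1) :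
    LineBound P 1 := by
  intro v m hon
  have ev : ∀ i : ℤ, Function.update v 1 (v 1 + i) = ![v 0, v 1 + i, v 2] := by
    intro i
    funext j; fin_cases j <;> simp [Function.update]
  simp only [ev] at hon ⊢
  obtain ⟨l, n, h1, h2, h4, h5, h6⟩ := exists_seg P (v 0) (v 1) (v 2)
  have hle : v 1 + m ≤ l + n := by
    by_contra hlt
    apply h6
    have := (onSurf_iff _).1 (hon (l + n - v 1).toNat (by omega))
    rwa [show v 1 + ((l + n - v 1).toNat : ℤ) = l + n by omega] at this
  have hsum := sum_corners P (v 0) l (v 2) n h5 h6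
  rw [← card_hds] at hsum
  have hc := card_hds_le P hM h3 hf h4
  have hsub : ∑ i ∈ Finset.range (m + 1), corners P 1 ![v 0, v 1 + i, v 2] ≤
      ∑ i ∈ Finset.range (n + 1), corners P 1 ![v 0, l + i, v 2] := by
    set k := (v 1 - l).toNat with hk
    have e1 : ∑ i ∈ Finset.range (m + 1), corners P 1 ![v 0, v 1 + i, v 2] =
        ∑ j ∈ (Finset.range (m + 1)).image (fun i => k + i), corners P 1 ![v 0, l + j, v 2] := by
      rw [Finset.sum_image (fun a _ b _ h => by omega)]
      refine Finset.sum_congr rfl fun i _ => ?_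
      have e2 : l + ((k + i : ℕ) : ℤ) = v 1 + i := by push_cast; omega
      rw [e2]
    rw [e1]
    refine Finset.sum_le_sum_of_subset ?_
    intro j hj
    rw [Finset.mem_image] at hj
    obtain ⟨i, hi, rfl⟩ := hj
    rw [Finset.mem_range] at hi ⊢
    omega
  omega

/-! ## Renaming of the axes -/

variable (σ : Equiv.Perm (Fin 3))

lemma rlb_update (ε : Fin 3 → Bool) (a : Fin 3) (t : Bool) :
    rlb σ (Function.update ε (σ a) t) = Function.update (rlb σ ε) a t := by
  funext b
  by_cases hb : b = a
  · subst hb; simp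
  · rw [Function.update_of_ne hb]
    simp only [rlb_apply]
    rw [Function.update_of_ne (σ.injective.ne hb)]

lemma corners_rl (a : Fin 3) (v : Fin 3 → ℤ) :
    corners (rl P σ) a (rlc σ v) = corners P (σ a) v := by
  unfold corners
  symm
  refine Finset.card_bij (fun ε _ => rlb σ ε) ?_ (fun ε _ δ _ h => (rlb σ).injective h) ?_
  · intro ε hε
    simp only [Finset.mem_filter, Finset.mem_univ, true_and] at hε ⊢
    rw [← rlb_update, corner_rl, corner_rl]
    exact hε
  · intro δ hδ
    refine ⟨(rlb σ).symm δ, ?_, by simp⟩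
    simp only [Finset.mem_filter, Finset.mem_univ, true_and] at hδ ⊢
    rw [← corner_rl P σ, ← corner_rl P σ, rlb_update]
    simp only [Equiv.apply_symm_apply]
    refine ⟨?_, hδ.2⟩
    show δ (σ.symm (σ a)) = true
    rw [Equiv.symm_apply_apply]
    exact hδ.1

theorem lineBound_rl (a : Fin 3) (h : LineBound P (σ a)) : LineBound (rl P σ) a := by
  intro v m hon
  have e1 : ∀ z : ℤ, Function.update v a z = rlc σ (Function.update (rlc σ.symm v) (σ a) z) := by
    intro z
    rw [rlc_update, rlc_symm]
    simp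
  have e2 : rlc σ.symm v (σ a) = v a := by simp
  have h1 := h (rlc σ.symm v) m (by
    intro i hi
    rw [← onSurf_rl P σ, e2, ← e1]
    simpa using hon i hi)
  rw [e2] at h1
  refine le_trans (le_of_eq (Finset.sum_congr rfl fun i _ => ?_)) h1
  rw [e1, corners_rl]

lemma lineBound_rl_iff (a : Fin 3) : LineBound (rl P σ) a ↔ LineBound P (σ a) := by
  refine ⟨fun h => ?_, lineBound_rl P σ a⟩
  intro v m hon
  have e1 : ∀ z : ℤ, rlc σ (Function.update v (σ a) z) = Function.update (rlc σ v) a z := by
    intro z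
    rw [rlc_update, Equiv.symm_apply_apply]
  have h1 := h (rlc σ v) m (by
    intro i hi
    have := (onSurf_rl P σ (σ a) (Function.update v (σ a) (v (σ a) + i))).2 (hon i hi)
    rw [e1, Equiv.symm_apply_apply] at this
    exact this)
  refine le_trans (le_of_eq (Finset.sum_congr rfl fun i _ => ?_)) h1
  rw [← corners_rl, e1]
  rfl

/-- Vertices of degree three and no flush edges parallel to an axis give the line bound for this
axis. -/
theorem lineBound_of_deg3' (hP : P.IsManifold) (h3 : Deg3 P) {a : Fin 3}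
    (hf : NoFlush P a) : LineBound P a := by
  have h1 : NoFlush (rl P (Equiv.swap 1 a)) 1 :=
    noFlush_rl P _ 1 (by rw [Equiv.swap_apply_left]; exact hf)
  have h2 := lineBound_of_deg3 _ (isManifold_rl P (Equiv.swap 1 a) hP) (deg3_rl P _ h3) h1
  rw [lineBound_rl_iff, Equiv.swap_apply_left] at h2
  exact h2

end Pool.Agent.MP42
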