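import Pool.Agent.Helper48.UNF.Switch

/-!
# A3: the strands of the arborescence curve are one closed curve

`D` is the finite type of darts, `θ` the fixed point free involution that exchanges the two ends
of a strip, `φ` the permutation to the next side of the same face and `ν = θ ∘ φ`.

A *slot* is a pair `(d, i)` with `i : Fin 4`, in the cyclic order of the face of `d`:
`(d, 0)`, `(d, 1)` are the feet in the middle of the side `d`, `(d, 2)` is the event at the corner
between `d` and `φ d` (`before d` if `d ∈ S`, the gap event if `ν⁻¹ d ∈ S`) and `(d, 3)` is the foot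
`after d` (if `d ∈ S`).  The active slots are the *events*.  Every event has an *in* flag (the foot
`before` of a gap, the foot of a box) and an *out* flag (the foot `after` of a gap, the deep port of
a box foot).  The strand of the curve along the face joins the out flag of an event to the in flag
of the next event.
-/

namespace Pool.Agent.MP42

open Pool.Agent.Helper48.UNF

section Cyc

/-- A predicate on a cycle that changes at most at two points `a`, `b`, and has the same value
after `a` and after `b`, is constant. -/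
lemma const_two {X : Type*} [Finite X] (σ : Equiv.Perm X) {a b : X} (χ : X → Prop)
    (h : ∀ x, σ.SameCycle a x → x ≠ a → x ≠ b → (χ x ↔ χ (σ x))) (h2 : χ (σ a) ↔ χ (σ b))
    {x : X} (hx : σ.SameCycle a x) : χ x ↔ χ (σ a) := by
  have key : ∀ n : ℕ, χ ((σ ^ (n + 1)) a) ↔ χ (σ a) := by
    intro n
    induction n with
    | zero => simp
    | succ n ih =>
      rw [pow_succ', Equiv.Perm.mul_apply]
      by_cases h1 : (σ ^ (n + 1)) a = a
      · rw [h1]
      · by_cases h3 : (σ ^ (n + 1)) a = b
        · rw [h3]; exact h2.symm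
        · rw [← h _ ⟨((n + 1 : ℕ) : ℤ), by rw [zpow_natCast]⟩ h1 h3]
          exact ih
  obtain ⟨n, h1, -, hn⟩ := hx.exists_pow_eq''
  obtain ⟨n, rfl⟩ : ∃ m, n = m + 1 := ⟨n - 1, by omega⟩
  rw [← hn]
  exact key n

end Cyc

section Events

variable {Ev V Si : Type*} [Finite Ev]

/-- **Gap closure.**  Events on faces; every face has two box feet `f0`, `f1`, whose deep ports
are connected; every other event is the gap of a site, whose child face has a larger rank.  Then
all flags of a face are connected. -/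
theorem gap_closure (nx : Equiv.Perm Ev) (face : Ev → V) (hface : ∀ e, face (nx e) = face e)
    (hcyc : ∀ e e', face e = face e' → nx.SameCycle e e')
    (gap boxA boxB : Si → Ev) (f0 f1 : V → Ev) (hf0 : ∀ v, face (f0 v) = v)
    (_hf1 : ∀ v, face (f1 v) = v)
    (hev : ∀ e, e = f0 (face e) ∨ e = f1 (face e) ∨ ∃ s, e = gap s)
    (hAB : ∀ s, face (boxA s) = face (boxB s))
    (h : V → ℕ) (hlt : ∀ s, h (face (gap s)) < h (face (boxA s)))
    (ψi ψo : Ev → Prop) (H1 : ∀ e, ψo e ↔ ψi (nx e)) (H2 : ∀ s, ψi (gap s) ↔ ψi (boxA s))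
    (H3 : ∀ s, ψi (boxB s) ↔ ψo (gap s)) (H5 : ∀ v, ψo (f0 v) ↔ ψo (f1 v)) :
    (∀ e e', face e = face e' → (ψi e ↔ ψi e')) ∧ (∀ e, ψi e ↔ ψo e) := by
  have : Finite V := Finite.of_injective f0 (fun v w hvw => by rw [← hf0 v, ← hf0 w, hvw])
  have main : ∀ v, ∀ e e', face e = v → face e' = v → (ψi e ↔ ψi e') := by
    let Rl : V → V → Prop := fun v w => h w < h v
    have hwf : WellFounded Rl := by
      have : IsTrans V Rl := ⟨fun a b c (h1 : h b < h a) (h2 : h c < h b) => lt_trans h2 h1⟩
      have : Std.Irrefl Rl := ⟨fun a => lt_irrefl _⟩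
      exact Finite.wellFounded_of_trans_of_irrefl Rl
    intro v
    induction v using hwf.induction with
    | _ v ih =>
      have hgap : ∀ s, face (gap s) = v → (ψi (gap s) ↔ ψo (gap s)) := by
        intro s hs
        have h1 := ih (face (boxA s)) (by show h v < h (face (boxA s)); rw [← hs]; exact hlt s)
          (boxA s) (boxB s) rfl (hAB s).symm
        rw [H2, h1, H3]
      have hstep : ∀ e, nx.SameCycle (f0 v) e → e ≠ f0 v → e ≠ f1 v → (ψi e ↔ ψi (nx e)) := by
        intro e he h0 h1
        have hfe : face e = v := by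
          obtain ⟨n, -, -, hn⟩ := he.exists_pow_eq''
          have : ∀ m : ℕ, face ((nx ^ m) (f0 v)) = v := by
            intro m
            induction m with
            | zero => simpa using hf0 v
            | succ m ihm => rw [pow_succ', Equiv.Perm.mul_apply, hface, ihm]
          rw [← hn]
          exact this n
        rcases hev e with h2 | h2 | ⟨s, h2⟩
        · rw [hfe] at h2; exact absurd h2 h0
        · rw [hfe] at h2; exact absurd h2 h1
        · rw [← H1, h2]
          exact hgap s (by rw [← h2, hfe])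
      have hall : ∀ e, face e = v → (ψi e ↔ ψi (nx (f0 v))) := by
        intro e he
        exact const_two nx ψi hstep (by rw [← H1, ← H1]; exact H5 v)
          (hcyc _ _ (by rw [hf0, he]))
      intro e e' he he'
      rw [hall e he, hall e' he']
  refine ⟨fun e e' hee => main (face e) e e' rfl hee.symm, fun e => ?_⟩
  rw [H1]
  exact main (face e) e (nx e) rfl (hface e)

end Events

section Slots

variable {D : Type*} (θ φ : Equiv.Perm D) (S R : D → Prop)

/-- the dart belongs to a root strip -/
def RR (d : D) : Prop := R d ∨ R (θ d)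

/-- both ends of the strip are on the same face -/
def sameF (d : D) : Prop := φ.SameCycle d (θ d)

/-- the box feet -/
def isBox (x : D × Fin 4) : Prop :=
  (x.2 = 0 ∧ RR θ R x.1) ∨ (x.2 = 1 ∧ RR θ R x.1 ∧ ¬ sameF θ φ x.1) ∨
    ((x.2 = 2 ∨ x.2 = 3) ∧ S x.1)

/-- the gap events -/
def isGap (x : D × Fin 4) : Prop := x.2 = 2 ∧ S (φ.symm (θ.symm x.1))

/-- the active slots -/
def act (x : D × Fin 4) : Prop := isBox θ φ S R x ∨ isGap θ φ S x

/-- What is needed about sites `S`, root strips `R` and the rank `h`. -/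
structure IsArbor (h : D → ℕ) : Prop where
  θθ : ∀ d, θ (θ d) = d
  θ_ne : ∀ d, θ d ≠ d
  site : ∀ d, S d → ¬ S (θ (φ d))
  hφ : ∀ d, h (φ d) = h d
  hlt : ∀ d, S d → h (θ (φ d)) < h d
  faceS : ∀ d d', S d → φ.SameCycle d d' → (S d' → d' = d) ∧ ¬ RR θ R d'
  faceR : ∀ d d', RR θ R d → φ.SameCycle d d' → RR θ R d' → d' = d ∨ d' = θ d
  face : ∀ d, ∃ d', φ.SameCycle d d' ∧ (S d' ∨ RR θ R d')

variable {θ φ S R} {h : D → ℕ}

namespace IsArbor

variable (A : IsArbor θ φ S R h)
include A

lemma θsymm (d : D) : θ.symm d = θ d := by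
  rw [Equiv.symm_apply_eq, A.θθ]

lemma RR_θ {d : D} (hd : RR θ R d) : RR θ R (θ d) := by
  rcases hd with hd | hd
  · right; rw [A.θθ]; exact hd
  · left; exact hd

lemma same_θ {d : D} : sameF θ φ (θ d) ↔ sameF θ φ d := by
  unfold sameF
  rw [A.θθ]
  exact ⟨fun h => h.symm, fun h => h.symm⟩

lemma not_box_of_gap {x : D × Fin 4} (hx : isGap θ φ S x) : ¬ isBox θ φ S R x := by
  rintro (h1 | h1 | h1)
  · rw [hx.1] at h1; exact absurd h1.1 (by decide)
  · rw [hx.1] at h1; exact absurd h1.1 (by decide)
  · have h2 := A.site _ hx.2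
    apply h2
    simpa using h1.2

/-- The box feet of a face are two explicit slots. -/
lemma boxes (d : D) : ∃ u w : D × Fin 4, u ≠ w ∧ φ.SameCycle d u.1 ∧ φ.SameCycle d w.1 ∧
    isBox θ φ S R u ∧ isBox θ φ S R w ∧
    ∀ z : D × Fin 4, φ.SameCycle d z.1 → isBox θ φ S R z → z = u ∨ z = w := by
  obtain ⟨c, hc, hc'⟩ := A.face d
  by_cases hS : S c
  · refine ⟨(c, 2), (c, 3), by simp, hc, hc, Or.inr (Or.inr ⟨Or.inl rfl, hS⟩),
      Or.inr (Or.inr ⟨Or.inr rfl, hS⟩), ?_⟩
    rintro ⟨z, i⟩ hz hb
    have hcz : φ.SameCycle c z := hc.symm.trans hz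
    have h1 := A.faceS c z hS hcz
    rcases hb with ⟨-, h2⟩ | ⟨-, h2, -⟩ | ⟨h2, h3⟩
    · exact absurd h2 h1.2
    · exact absurd h2 h1.2
    · have : z = c := h1.1 h3
      subst this
      rcases h2 with h2 | h2
      · left; exact Prod.ext rfl h2
      · right; exact Prod.ext rfl h2
  · have hR : RR θ R c := hc'.resolve_left hS
    have hnS : ∀ z, φ.SameCycle c z → ¬ S z := by
      intro z hz hSz
      exact (A.faceS z c hSz hz.symm).2 hR
    by_cases hs : sameF θ φ c
    · refine ⟨(c, 0), (θ c, 0), ?_, hc, hc.trans hs, Or.inl ⟨rfl, hR⟩,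
        Or.inl ⟨rfl, A.RR_θ hR⟩, ?_⟩
      · intro h'
        exact A.θ_ne c (congrArg Prod.fst h').symm
      · rintro ⟨z, i⟩ hz hb
        have hcz : φ.SameCycle c z := hc.symm.trans hz
        rcases hb with ⟨h1, h2⟩ | ⟨-, h2, h3⟩ | ⟨-, h3⟩
        · rcases A.faceR c z hR hcz h2 with h4 | h4
          · left; exact Prod.ext h4 h1
          · right; exact Prod.ext h4 h1
        · exfalso
          rcases A.faceR c z hR hcz h2 with h4 | h4
          · have h4' : z = c := h4
            subst h4'
            exact h3 hs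
          · have h4' : z = θ c := h4
            subst h4'
            exact h3 (A.same_θ.2 hs)
        · exact absurd h3 (hnS z hcz)
    · refine ⟨(c, 0), (c, 1), by simp, hc, hc, Or.inl ⟨rfl, hR⟩,
        Or.inr (Or.inl ⟨rfl, hR, hs⟩), ?_⟩
      rintro ⟨z, i⟩ hz hb
      have hcz : φ.SameCycle c z := hc.symm.trans hz
      have hz' : RR θ R z → z = c := by
        intro h2
        rcases A.faceR c z hR hcz h2 with h4 | h4
        · exact h4
        · exfalso
          rw [h4] at hcz
          exact hs hcz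
      rcases hb with ⟨h1, h2⟩ | ⟨h1, h2, h3⟩ | ⟨-, h3⟩
      · left; exact Prod.ext (hz' h2) h1
      · right; exact Prod.ext (hz' h2) h1
      · exact absurd h3 (hnS z hcz)

end IsArbor

/-! ### The partner of a flag across lanes and bands -/

section Partner

variable {B : Type*} (f : B × Bool × Bool → D × Fin 4)

/-- the port on the other side of the band -/
noncomputable def opp (x : D × Fin 4) : D × Fin 4 :=
  open Classical in
  if h : ∃ q, f q = x then f (h.choose.1, !h.choose.2.1, h.choose.2.2) else x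

variable {f}

lemma opp_f (hf : Function.Injective f) (b : B) (s i : Bool) : opp f (f (b, s, i)) = f (b, !s, i) := by
  have h : ∃ q, f q = f (b, s, i) := ⟨_, rfl⟩
  unfold opp
  rw [dif_pos h]
  have h1 := hf h.choose_spec
  have h2 : h.choose.1 = b := by rw [h1]
  have h3 : h.choose.2.1 = s := by rw [h1]
  have h4 : h.choose.2.2 = i := by rw [h1]
  rw [h2, h3, h4]

variable (θ φ S R f)

/-- The partner of a flag (`false` = in, `true` = out): the other end of the lane, or the port on
the other side of the band. -/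
noncomputable def pf (x : (D × Fin 4) × Bool) : (D × Fin 4) × Bool :=
  open Classical in
  if x.2 = false then
    if x.1.2 = 0 then (if sameF θ φ x.1.1 then ((θ x.1.1, 0), false) else ((θ x.1.1, 1), false))
    else if x.1.2 = 1 then ((θ x.1.1, 0), false)
    else if x.1.2 = 2 then
      (if S x.1.1 then ((θ (φ x.1.1), 2), true) else ((φ.symm (θ.symm x.1.1), 3), false))
    else ((θ (φ x.1.1), 2), false)
  else if isBox θ φ S R x.1 then (opp f x.1, true) else ((φ.symm (θ.symm x.1.1), 2), false)

variable {θ φ S R f}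

lemma pf_in0 {d : D} (h : sameF θ φ d) : pf θ φ S R f ((d, 0), false) = ((θ d, 0), false) := by
  simp [pf, h]

lemma pf_in0' {d : D} (h : ¬ sameF θ φ d) : pf θ φ S R f ((d, 0), false) = ((θ d, 1), false) := by
  simp [pf, h]

lemma pf_in1 {d : D} : pf θ φ S R f ((d, 1), false) = ((θ d, 0), false) := by
  simp [pf]

lemma pf_in2 {d : D} (h : S d) : pf θ φ S R f ((d, 2), false) = ((θ (φ d), 2), true) := by
  simp [pf, h]

lemma pf_in2' {d : D} (h : ¬ S d) :
    pf θ φ S R f ((d, 2), false) = ((φ.symm (θ.symm d), 3), false) := by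
  simp [pf, h]

lemma pf_in3 {d : D} : pf θ φ S R f ((d, 3), false) = ((θ (φ d), 2), false) := by
  simp [pf]

lemma pf_out {x : D × Fin 4} (h : isBox θ φ S R x) : pf θ φ S R f (x, true) = (opp f x, true) := by
  simp [pf, h]

lemma pf_out' {x : D × Fin 4} (h : ¬ isBox θ φ S R x) :
    pf θ φ S R f (x, true) = ((φ.symm (θ.symm x.1), 2), false) := by
  simp [pf, h]

/-- The assumptions on the ports: `f (b, s, i)` for `i = false, true` are the two box feet of the
face at the side `s` of the band `b`. -/
structure IsPorts (bd : D → B) (sd : D → Bool) (θ φ : Equiv.Perm D) (S R : D → Prop)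
    (f : B × Bool × Bool → D × Fin 4) : Prop where
  lab : ∀ d d', φ.SameCycle d d' ↔ bd d = bd d' ∧ sd d = sd d'
  box : ∀ q, isBox θ φ S R (f q)
  bd_f : ∀ b s i, bd (f (b, s, i)).1 = b
  sd_f : ∀ b s i, sd (f (b, s, i)).1 = s
  ne : ∀ b s, f (b, s, false) ≠ f (b, s, true)

namespace IsPorts

variable {bd : D → B} {sd : D → Bool} (Q : IsPorts bd sd θ φ S R f)
include Q

lemma inj : Function.Injective f := by
  rintro ⟨b, s, i⟩ ⟨b', s', i'⟩ h
  have h1 : b = b' := by rw [← Q.bd_f b s i, h, Q.bd_f]
  have h2 : s = s' := by rw [← Q.sd_f b s i, h, Q.sd_f]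
  subst h1
  subst h2
  have h3 : i = i' := by
    cases i <;> cases i'
    · rfl
    · exact absurd h (Q.ne b s)
    · exact absurd h.symm (Q.ne b s)
    · rfl
  rw [h3]

lemma surj (A : IsArbor θ φ S R h) {x : D × Fin 4} (hx : isBox θ φ S R x) :
    ∃ i, f (bd x.1, sd x.1, i) = x := by
  obtain ⟨u, w, -, -, -, -, -, huw⟩ := A.boxes x.1
  have hin : ∀ i, φ.SameCycle x.1 (f (bd x.1, sd x.1, i)).1 := by
    intro i
    rw [Q.lab, Q.bd_f, Q.sd_f]
    exact ⟨rfl, rfl⟩
  have h0 := huw _ (hin false) (Q.box _)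
  have h1 := huw _ (hin true) (Q.box _)
  have h2 := huw x (Equiv.Perm.SameCycle.refl _ _) hx
  have hne := Q.ne (bd x.1) (sd x.1)
  rcases h0 with h0 | h0 <;> rcases h1 with h1 | h1
  · exact absurd (h0.trans h1.symm) hne
  · rcases h2 with h2 | h2
    · exact ⟨false, h0.trans h2.symm⟩
    · exact ⟨true, h1.trans h2.symm⟩
  · rcases h2 with h2 | h2
    · exact ⟨true, h1.trans h2.symm⟩
    · exact ⟨false, h0.trans h2.symm⟩
  · exact absurd (h0.trans h1.symm) hne

variable (A : IsArbor θ φ S R h)
include A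

/-- The partner of an active flag is active. -/
lemma pf_act {x : (D × Fin 4) × Bool} (hx : act θ φ S R x.1) :
    act θ φ S R (pf θ φ S R f x).1 := by
  obtain ⟨⟨d, i⟩, o⟩ := x
  have hx' : act θ φ S R (d, i) := hx
  cases o with
  | true =>
    by_cases hb : isBox θ φ S R (d, i)
    · rw [pf_out hb]
      left
      obtain ⟨j, hj⟩ := Q.surj A hb
      rw [← hj, opp_f Q.inj]
      exact Q.box _
    · rw [pf_out' hb]
      have hg : isGap θ φ S (d, i) := hx'.resolve_left hb
      left
      exact Or.inr (Or.inr ⟨Or.inl rfl, hg.2⟩)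
  | false =>
    rcases hx' with (⟨h1, h2⟩ | ⟨h1, h2, h3⟩ | ⟨h1, h2⟩) | ⟨h1, h2⟩
    · have h1' : i = 0 := h1
      subst h1'
      by_cases hs : sameF θ φ d
      · rw [pf_in0 hs]
        exact Or.inl (Or.inl ⟨rfl, A.RR_θ h2⟩)
      · rw [pf_in0' hs]
        exact Or.inl (Or.inr (Or.inl ⟨rfl, A.RR_θ h2, fun h' => hs (A.same_θ.1 h')⟩))
    · have h1' : i = 1 := h1
      subst h1'
      rw [pf_in1]
      exact Or.inl (Or.inl ⟨rfl, A.RR_θ h2⟩)
    · have h2' : S d := h2
      rcases h1 with h1 | h1
      · have h1' : i = 2 := h1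
        subst h1'
        rw [pf_in2 h2']
        exact Or.inr ⟨rfl, by simpa using h2'⟩
      · have h1' : i = 3 := h1
        subst h1'
        rw [pf_in3]
        exact Or.inr ⟨rfl, by simpa using h2'⟩
    · have h1' : i = 2 := h1
      subst h1'
      have h2' : S (φ.symm (θ.symm d)) := h2
      have hnS : ¬ S d := by
        have := A.site _ h2'
        simpa using this
      rw [pf_in2' hnS]
      exact Or.inl (Or.inr (Or.inr ⟨Or.inr rfl, h2'⟩))

/-- The partner map is an involution on active flags. -/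
lemma pf_pf {x : (D × Fin 4) × Bool} (hx : act θ φ S R x.1) :
    pf θ φ S R f (pf θ φ S R f x) = x := by
  obtain ⟨⟨d, i⟩, o⟩ := x
  have hx' : act θ φ S R (d, i) := hx
  cases o with
  | true =>
    by_cases hb : isBox θ φ S R (d, i)
    · rw [pf_out hb]
      obtain ⟨j, hj⟩ := Q.surj A hb
      rw [← hj, opp_f Q.inj, pf_out (Q.box _), opp_f Q.inj]
      simp
    · rw [pf_out' hb]
      have hg : isGap θ φ S (d, i) := hx'.resolve_left hb
      rw [pf_in2 hg.2]
      have : i = 2 := hg.1
      subst this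
      simp
  | false =>
    rcases hx' with (⟨h1, h2⟩ | ⟨h1, h2, h3⟩ | ⟨h1, h2⟩) | ⟨h1, h2⟩
    · have h1' : i = 0 := h1
      subst h1'
      by_cases hs : sameF θ φ d
      · rw [pf_in0 hs, pf_in0 (A.same_θ.2 hs), A.θθ]
      · rw [pf_in0' hs, pf_in1, A.θθ]
    · have h1' : i = 1 := h1
      subst h1'
      have h3' : ¬ sameF θ φ d := h3
      rw [pf_in1, pf_in0' (fun h' => h3' (A.same_θ.1 h')), A.θθ]
    · have h2' : S d := h2
      have hS' : ¬ S (θ (φ d)) := A.site d h2'
      rcases h1 with h1 | h1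
      · have h1' : i = 2 := h1
        subst h1'
        rw [pf_in2 h2', pf_out' (A.not_box_of_gap ⟨rfl, by simpa using h2'⟩)]
        simp
      · have h1' : i = 3 := h1
        subst h1'
        rw [pf_in3, pf_in2' hS']
        simp
    · have h1' : i = 2 := h1
      subst h1'
      have h2' : S (φ.symm (θ.symm d)) := h2
      have hnS : ¬ S d := by
        have := A.site _ h2'
        simpa using this
      rw [pf_in2' hnS, pf_in3]
      simp

/-- The partner of an active flag is a different flag. -/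
lemma pf_ne {x : (D × Fin 4) × Bool} (hx : act θ φ S R x.1) : pf θ φ S R f x ≠ x := by
  obtain ⟨⟨d, i⟩, o⟩ := x
  have hx' : act θ φ S R (d, i) := hx
  cases o with
  | true =>
    by_cases hb : isBox θ φ S R (d, i)
    · rw [pf_out hb]
      obtain ⟨j, hj⟩ := Q.surj A hb
      rw [← hj, opp_f Q.inj]
      intro h'
      have h1 := Q.inj (congrArg Prod.fst h')
      have h2 := congrArg (fun q : B × Bool × Bool => q.2.1) h1
      revert h2
      cases sd (d, i).1 <;> simp
    · rw [pf_out' hb]
      intro h'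
      have h1 := congrArg Prod.snd h'
      simp at h1
  | false =>
    rcases hx' with (⟨h1, h2⟩ | ⟨h1, h2, h3⟩ | ⟨h1, h2⟩) | ⟨h1, h2⟩
    · have h1' : i = 0 := h1
      subst h1'
      by_cases hs : sameF θ φ d
      · rw [pf_in0 hs]
        intro h'
        exact A.θ_ne d (congrArg (fun y : (D × Fin 4) × Bool => y.1.1) h')
      · rw [pf_in0' hs]
        intro h'
        have h1 := congrArg (fun y : (D × Fin 4) × Bool => y.1.2) h'
        simp at h1
    · have h1' : i = 1 := h1
      subst h1'
      rw [pf_in1]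
      intro h'
      have h1 := congrArg (fun y : (D × Fin 4) × Bool => y.1.2) h'
      simp at h1
    · have h2' : S d := h2
      rcases h1 with h1 | h1
      · have h1' : i = 2 := h1
        subst h1'
        rw [pf_in2 h2']
        intro h'
        have h1 := congrArg Prod.snd h'
        simp at h1
      · have h1' : i = 3 := h1
        subst h1'
        rw [pf_in3]
        intro h'
        have h1 := congrArg (fun y : (D × Fin 4) × Bool => y.1.2) h'
        simp at h1
    · have h1' : i = 2 := h1
      subst h1'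
      have h2' : S (φ.symm (θ.symm d)) := h2
      have hnS : ¬ S d := by
        have := A.site _ h2'
        simpa using this
      rw [pf_in2' hnS]
      intro h'
      have h1 := congrArg (fun y : (D × Fin 4) × Bool => y.1.2) h'
      simp at h1

end IsPorts

/-- **A3: one closed curve.**  For a suitable choice of the parities `t b` every predicate on the
flags of the events that is invariant under the links of the curve is constant: the strands along
the faces (`nx` is the next event on the face), the lanes of the sites and of the roots, and the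
through strands of the bands. -/
theorem exists_one_curve [Finite D] {bd : D → B} {sd : D → Bool}
    (A : IsArbor θ φ S R h) (Q : IsPorts bd sd θ φ S R f)
    (nx : Equiv.Perm {x // act θ φ S R x})
    (hnx : ∀ e, φ.SameCycle e.1.1 (nx e).1.1)
    (hnx' : ∀ e e' : {x // act θ φ S R x}, φ.SameCycle e.1.1 e'.1.1 → nx.SameCycle e e')
    (rev : D → D) (hbd : ∀ d, bd (rev d) = bd d) (hsd : ∀ d, sd (rev d) = !sd d)
    (conn2 : ∀ Ψ : D → Prop, (∀ d, Ψ (φ d) ↔ Ψ d) → (∀ d, S d → (Ψ d ↔ Ψ (θ (φ d)))) →
      (∀ r, R r → (Ψ r ↔ Ψ (θ r))) → ∀ d, Ψ d ↔ Ψ (θ d))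
    (conn1 : ∀ Ψ : D → Prop, (∀ d, Ψ (φ d) ↔ Ψ d) → (∀ d, Ψ (θ d) ↔ Ψ d) →
      (∀ d, Ψ (rev d) ↔ Ψ d) → ∀ d d', Ψ d ↔ Ψ d') :
    ∃ t : B → Bool, ∀ ψi ψo : D × Fin 4 → Prop,
      (∀ e : {x // act θ φ S R x}, ψo e.1 ↔ ψi (nx e).1) →
      (∀ d, S d → (ψi (θ (φ d), 2) ↔ ψi (d, 3))) →
      (∀ d, S d → (ψi (d, 2) ↔ ψo (θ (φ d), 2))) →
      (∀ r, R r → sameF θ φ r → (ψi (r, 0) ↔ ψi (θ r, 0))) →
      (∀ r, R r → ¬ sameF θ φ r → (ψi (r, 0) ↔ ψi (θ r, 1))) →
      (∀ r, R r → ¬ sameF θ φ r → (ψi (r, 1) ↔ ψi (θ r, 0))) →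
      (∀ b i, ψo (f (b, false, i)) ↔ ψo (f (b, true, xor i (t b)))) →
      ∀ x y, act θ φ S R x → act θ φ S R y → (ψi x ↔ ψi y) ∧ (ψi x ↔ ψo y) := by
  classical
  have : Finite B := Finite.of_injective (fun b => f (b, false, false)) (fun b b' hb => by
    have := Q.inj hb
    exact congrArg Prod.fst this)
  -- the flags
  let X := {x // act θ φ S R x} × Bool
  let m : X → X := fun x => if x.2 = true then (nx x.1, false) else (nx.symm x.1, true)
  have m_out : ∀ e, m (e, true) = (nx e, false) := fun e => by simp [m]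
  have m_in : ∀ e, m (e, false) = (nx.symm e, true) := fun e => by simp [m]
  have hm : ∀ x, m (m x) = x := by
    rintro ⟨e, o⟩
    cases o
    · rw [m_in, m_out]; simp
    · rw [m_out, m_in]; simp
  have hm0 : ∀ x, m x ≠ x := by
    rintro ⟨e, o⟩ h'
    cases o
    · rw [m_in] at h'; simpa using congrArg Prod.snd h'
    · rw [m_out] at h'; simpa using congrArg Prod.snd h'
  let p : X → X := fun x => (⟨(pf θ φ S R f (x.1.1, x.2)).1, Q.pf_act A x.1.2⟩,
    (pf θ φ S R f (x.1.1, x.2)).2)
  have hp : ∀ x, p (p x) = x := by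
    rintro ⟨⟨e, he⟩, o⟩
    have h1 := Q.pf_pf A (x := (e, o)) he
    apply Prod.ext
    · apply Subtype.ext
      show (pf θ φ S R f ((pf θ φ S R f (e, o)).1, (pf θ φ S R f (e, o)).2)).1 = e
      rw [Prod.mk.eta, h1]
    · show (pf θ φ S R f ((pf θ φ S R f (e, o)).1, (pf θ φ S R f (e, o)).2)).2 = o
      rw [Prod.mk.eta, h1]
  have hp0 : ∀ x, p x ≠ x := by
    rintro ⟨⟨e, he⟩, o⟩ h'
    apply Q.pf_ne A (x := (e, o)) he
    apply Prod.ext
    · exact congrArg (fun y : X => y.1.1) h'
    · exact congrArg (fun y : X => y.2) h'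
  let q : B × Bool × Bool → X := fun z => (⟨f z, Or.inl (Q.box z)⟩, true)
  have hq : Function.Injective q := by
    intro z z' hz
    exact Q.inj (congrArg (fun y : X => y.1.1) hz)
  have hpq : ∀ b s i, p (q (b, s, i)) = q (b, !s, i) := by
    intro b s i
    have h1 : pf θ φ S R f (f (b, s, i), true) = (f (b, !s, i), true) := by
      rw [pf_out (Q.box _), opp_f Q.inj]
    apply Prod.ext
    · apply Subtype.ext
      show (pf θ φ S R f (f (b, s, i), true)).1 = _
      rw [h1]
    · show (pf θ φ S R f (f (b, s, i), true)).2 = _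
      rw [h1]
  obtain ⟨t, ht⟩ := exists_switch hm hm0 hp hp0 hq hpq
  refine ⟨t, fun ψi ψo H1 H2 H3 H4 H5 H6 H7 => ?_⟩
  have hsw := ht (fun x => if x.2 = true then ψo x.1.1 else ψi x.1.1) ?_ ?_ ?_
  · -- the two strands of a face are equivalent
    have hP : ∀ b s, ψo (f (b, s, false)) ↔ ψo (f (b, s, true)) := by
      intro b s
      simpa [q] using hsw b s
    -- the faces
    let face : {x // act θ φ S R x} → B × Bool := fun e => (bd e.1.1, sd e.1.1)
    have hface_iff : ∀ e e' : {x // act θ φ S R x}, face e = face e' ↔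
        φ.SameCycle e.1.1 e'.1.1 := by
      intro e e'
      rw [Q.lab]
      show ((bd e.1.1, sd e.1.1) : B × Bool) = (bd e'.1.1, sd e'.1.1) ↔ _
      rw [Prod.mk.injEq]
    have hh : ∀ d d', φ.SameCycle d d' → h d = h d' := by
      intro d d' hd
      obtain ⟨n, -, hn⟩ := hd.exists_pow_eq'
      have : ∀ m : ℕ, h ((φ ^ m) d) = h d := by
        intro m
        induction m with
        | zero => rfl
        | succ m ih => rw [pow_succ', Equiv.Perm.mul_apply, A.hφ, ih]
      rw [← hn, this]
    let f0 : B × Bool → {x // act θ φ S R x} := fun v => ⟨f (v.1, v.2, false), Or.inl (Q.box _)⟩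
    let f1 : B × Bool → {x // act θ φ S R x} := fun v => ⟨f (v.1, v.2, true), Or.inl (Q.box _)⟩
    have hface0 : ∀ v, face (f0 v) = v := by
      rintro ⟨b, s⟩
      show ((bd (f (b, s, false)).1, sd (f (b, s, false)).1) : B × Bool) = (b, s)
      rw [Q.bd_f, Q.sd_f]
    have hface1 : ∀ v, face (f1 v) = v := by
      rintro ⟨b, s⟩
      show ((bd (f (b, s, true)).1, sd (f (b, s, true)).1) : B × Bool) = (b, s)
      rw [Q.bd_f, Q.sd_f]
    let gap : {d // S d} → {x // act θ φ S R x} := fun d =>
      ⟨(θ (φ d.1), 2), Or.inr ⟨rfl, by simpa using d.2⟩⟩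
    let boxA : {d // S d} → {x // act θ φ S R x} := fun d =>
      ⟨(d.1, 3), Or.inl (Or.inr (Or.inr ⟨Or.inr rfl, d.2⟩))⟩
    let boxB : {d // S d} → {x // act θ φ S R x} := fun d =>
      ⟨(d.1, 2), Or.inl (Or.inr (Or.inr ⟨Or.inl rfl, d.2⟩))⟩
    have hclos := gap_closure nx face
      (fun e => (hface_iff _ _).2 (hnx e).symm) (fun e e' he => hnx' e e' ((hface_iff _ _).1 he))
      gap boxA boxB f0 f1 hface0 hface1 ?_ (fun _ => rfl) (fun v => h (f0 v).1.1) ?_
      (fun e => ψi e.1) (fun e => ψo e.1) H1 (fun d => H2 d.1 d.2) (fun d => H3 d.1 d.2)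
      (fun v => hP v.1 v.2)
    · obtain ⟨hc1, hc2⟩ := hclos
      have hc1' : ∀ x y, act θ φ S R x → act θ φ S R y → φ.SameCycle x.1 y.1 →
          (ψi x ↔ ψi y) := fun x y hx hy hxy =>
        hc1 ⟨x, hx⟩ ⟨y, hy⟩ ((hface_iff _ _).2 hxy)
      have hc2' : ∀ x, act θ φ S R x → (ψi x ↔ ψo x) := fun x hx => hc2 ⟨x, hx⟩
      -- the induced predicate on darts
      let Ψ : D → Prop := fun d => ψi (f (bd d, sd d, false))
      have hΨ : ∀ x, act θ φ S R x → (Ψ x.1 ↔ ψi x) := by
        intro x hx
        apply hc1' _ _ (Or.inl (Q.box _)) hx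
        rw [Q.lab, Q.bd_f, Q.sd_f]
        exact ⟨rfl, rfl⟩
      have hΨφ : ∀ d, Ψ (φ d) ↔ Ψ d := by
        intro d
        have h1 : φ.SameCycle (φ d) d := (Equiv.Perm.SameCycle.refl φ d).apply_left 
        have h2 := (Q.lab _ _).1 h1
        show ψi (f (bd (φ d), sd (φ d), false)) ↔ _
        rw [h2.1, h2.2]
      have hΨS : ∀ d, S d → (Ψ d ↔ Ψ (θ (φ d))) := by
        intro d hd
        have h1 := hΨ (d, 3) (Or.inl (Or.inr (Or.inr ⟨Or.inr rfl, hd⟩)))
        have h2 := hΨ (θ (φ d), 2) (Or.inr ⟨rfl, by simpa using hd⟩)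
        have h1' : Ψ d ↔ ψi (d, 3) := h1
        have h2' : Ψ (θ (φ d)) ↔ ψi (θ (φ d), 2) := h2
        rw [h1', h2', H2 d hd]
      have hΨR : ∀ r, R r → (Ψ r ↔ Ψ (θ r)) := by
        intro r hr
        have h1 : Ψ r ↔ ψi (r, 0) := hΨ (r, 0) (Or.inl (Or.inl ⟨rfl, Or.inl hr⟩))
        have h2 : Ψ (θ r) ↔ ψi (θ r, 0) :=
          hΨ (θ r, 0) (Or.inl (Or.inl ⟨rfl, A.RR_θ (Or.inl hr)⟩))
        by_cases hs : sameF θ φ r
        · rw [h1, h2, H4 r hr hs]
        · have h3 : Ψ (θ r) ↔ ψi (θ r, 1) :=
            hΨ (θ r, 1) (Or.inl (Or.inr (Or.inl ⟨rfl, A.RR_θ (Or.inl hr),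
              fun h' => hs (A.same_θ.1 h')⟩)))
          rw [h1, h3, H5 r hr hs]
      have hΨθ := conn2 Ψ hΨφ hΨS hΨR
      have hΨrev : ∀ d, Ψ (rev d) ↔ Ψ d := by
        intro d
        show ψi (f (bd (rev d), sd (rev d), false)) ↔ ψi (f (bd d, sd d, false))
        rw [hbd, hsd]
        have h7 : ∀ b, ψi (f (b, false, false)) ↔ ψi (f (b, true, false)) := by
          intro b
          rw [hc2' _ (Or.inl (Q.box _)), hc2' _ (Or.inl (Q.box _)), H7]
          cases t b
          · exact Iff.rfl
          · exact (hP b true).symm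
        cases sd d
        · exact (h7 _).symm
        · exact h7 _
      have hall := conn1 Ψ hΨφ (fun d => (hΨθ d).symm) hΨrev
      intro x y hx hy
      have h1 : ψi x ↔ ψi y := by rw [← hΨ x hx, ← hΨ y hy]; exact hall _ _
      exact ⟨h1, by rw [h1]; exact hc2' y hy⟩
    · -- every event is a box foot or a gap
      rintro ⟨x, hx⟩
      rcases hx with hx | hx
      · obtain ⟨i, hi⟩ := Q.surj A hx
        cases i
        · left; exact Subtype.ext hi.symm
        · right; left; exact Subtype.ext hi.symm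
      · right; right
        refine ⟨⟨φ.symm (θ.symm x.1), hx.2⟩, Subtype.ext ?_⟩
        show x = (θ (φ (φ.symm (θ.symm x.1))), 2)
        apply Prod.ext
        · simp
        · exact hx.1
    · rintro ⟨d, hd⟩
      show h (f (bd (θ (φ d)), sd (θ (φ d)), false)).1 < h (f (bd d, sd d, false)).1
      have e1 : ∀ d, h (f (bd d, sd d, false)).1 = h d := by
        intro d
        apply hh
        rw [Q.lab, Q.bd_f, Q.sd_f]
        exact ⟨rfl, rfl⟩
      rw [e1, e1]
      exact A.hlt d hd
  · -- invariance under m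
    rintro ⟨e, o⟩
    cases o
    · rw [m_in]
      have := H1 (nx.symm e)
      simp only [Equiv.apply_symm_apply] at this
      simpa using this.symm
    · rw [m_out]
      simpa using H1 e
  · -- invariance under lanes
    rintro ⟨⟨⟨d, i⟩, he⟩, o⟩ hx
    have hpx : ∀ y o', pf θ φ S R f ((d, i), o) = (y, o') →
        ((if o = true then ψo (d, i) else ψi (d, i)) ↔ (if o' = true then ψo y else ψi y)) →
        ((fun x : X => if x.2 = true then ψo x.1.1 else ψi x.1.1) (⟨(d, i), he⟩, o) ↔
          (fun x : X => if x.2 = true then ψo x.1.1 else ψi x.1.1) (p (⟨(d, i), he⟩, o))) := by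
      intro y o' h1 h2
      show (if o = true then ψo (d, i) else ψi (d, i)) ↔
        (if (pf θ φ S R f ((d, i), o)).2 = true then ψo (pf θ φ S R f ((d, i), o)).1
          else ψi (pf θ φ S R f ((d, i), o)).1)
      rw [h1]
      exact h2
    cases o with
    | true =>
      by_cases hb : isBox θ φ S R (d, i)
      · exfalso
        obtain ⟨j, hj⟩ := Q.surj A hb
        apply hx (bd d) (sd d) j
        apply Prod.ext
        · exact Subtype.ext hj
        · rfl
      · have hg : isGap θ φ S (d, i) := he.resolve_left hb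
        apply hpx _ _ (pf_out' hb)
        have h3 := H3 _ hg.2
        have hi : i = 2 := hg.1
        subst hi
        simpa using h3.symm
    | false =>
      rcases he with (⟨h1, h2⟩ | ⟨h1, h2, h3⟩ | ⟨h1, h2⟩) | ⟨h1, h2⟩
      · have h1' : i = 0 := h1
        subst h1'
        have h2' : RR θ R d := h2
        by_cases hs : sameF θ φ d
        · apply hpx _ _ (pf_in0 hs)
          rcases h2' with h2' | h2'
          · simpa using H4 d h2' hs
          · have := H4 (θ d) h2' (A.same_θ.2 hs)
            rw [A.θθ] at this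
            simpa using this.symm
        · apply hpx _ _ (pf_in0' hs)
          rcases h2' with h2' | h2'
          · simpa using H5 d h2' hs
          · have := H6 (θ d) h2' (fun h' => hs (A.same_θ.1 h'))
            rw [A.θθ] at this
            simpa using this.symm
      · have h1' : i = 1 := h1
        subst h1'
        have h2' : RR θ R d := h2
        have h3' : ¬ sameF θ φ d := h3
        apply hpx _ _ pf_in1
        rcases h2' with h2' | h2'
        · simpa using H6 d h2' h3'
        · have := H5 (θ d) h2' (fun h' => h3' (A.same_θ.1 h'))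
          rw [A.θθ] at this
          simpa using this.symm
      · have h2' : S d := h2
        rcases h1 with h1 | h1
        · have h1' : i = 2 := h1
          subst h1'
          apply hpx _ _ (pf_in2 h2')
          simpa using H3 d h2'
        · have h1' : i = 3 := h1
          subst h1'
          apply hpx _ _ pf_in3
          simpa using (H2 d h2').symm
      · have h1' : i = 2 := h1
        subst h1'
        have h2' : S (φ.symm (θ.symm d)) := h2
        have hnS : ¬ S d := by
          have := A.site _ h2'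
          simpa using this
        apply hpx _ _ (pf_in2' hnS)
        have := H2 _ h2'
        simpa using this
  · -- the switched bands
    intro b i
    simpa [q] using H7 b i

end Partner

end Slots

end Pool.Agent.MP42
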