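import Pool.Agent.MP42.A2
import Pool.Agent.MP42.A3
import Pool.Agent.MP42.A4
import Pool.Agent.MP42.A6
import Pool.Agent.MP42.A7

/-!
# Main theorem, stage 1
-/

set_option autoImplicit false
set_option linter.unusedSectionVars false

namespace Pool.Agent.MP42

open Pool.Agent.Helper55.UNF Pool.Agent.Helper55.UNF.GridSolid

theorem main_thin (P : GridSolid) (hP : P.IsOrthogonalPolyhedron) (hT : Thin P) :
    (P.refine 27 (by norm_num)).HasEdgeUnfolding := by
  obtain ⟨A⟩ := exists_arb (theta P) (phi P) (theta_theta P) (theta_ne P) hT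
  obtain ⟨E0, -⟩ := exists_data A
  obtain ⟨t, ht, hconn⟩ := exists_parity hP E0
  let E : Data P := E0.withT t ht
  have hL := localPat E
  have hne : Nonempty P.Facet := hP.2.nonempty
  exact Pat.hasEdgeUnfolding (k := 27) (P := P)
    { hk := by norm_num
      can := can
      can_facet := can_facet
      T := E.T
      vN := hL.vN
      vS := hL.vS
      hh := hL.hh
      bN := hL.bN
      bS := hL.bS
      bN' := hL.bN'
      bS' := hL.bS'
      bE := hL.bE
      bEr := hL.bEr
      bWr := hL.bWr
      bE' := hL.bE'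
      bW' := hL.bW'
      cov := hL.cov
      conn := by
        intro ψ h1 h2 h3 h4 h5 h6 h7 h8 f x y g x' y' hx hy hx' hy' hf hg
        obtain ⟨v, hv1, hv2, hv3⟩ := exists_vals E ψ
          ⟨h1, h2, h3, h4, h5, h6, h7, h8⟩
        obtain ⟨c, hc⟩ := hconn v hv1 hv2
        exact (hv3 c hc f x y hx hy hf).trans (hv3 c hc g x' y' hx' hy' hg).symm
      ne := hne }

theorem main_deg3 (P : GridSolid) (hP : P.IsOrthogonalPolyhedron) (h3 : Deg3 P)
    (hf : NoFlush P 1) : (P.refine 27 (by norm_num)).HasEdgeUnfolding :=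
  main_thin P hP (thin_of_deg3 P hP.1 h3 hf)

end Pool.Agent.MP42
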