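import Pool.Agent.MP42.A2
import Pool.Agent.MP42.A3
import Pool.Agent.MP42.A4
import Pool.Agent.MP42.A6e
import Pool.Agent.MP42.A7
import Pool.Agent.MP42.A9

/-!
# Main theorem, stage 1
-/

set_option autoImplicit false
set_option linter.unusedSectionVars false

namespace Pool.Agent.MP42

open Pool.Agent.Helper55.UNF Pool.Agent.Helper55.UNF.GridSolid

/-- If at most three strips meet at every leaf, the 65-refinement has an edge unfolding. -/
theorem main_thin65 (P : GridSolid) (hP : P.IsOrthogonalPolyhedron) (hT : Thin P) :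
    (P.refine 65 (by norm_num)).HasEdgeUnfolding := by
  obtain ⟨A⟩ := exists_arb (theta P) (phi P) (theta_theta P) (theta_ne P) hT
  obtain ⟨E0, -⟩ := exists_data A
  obtain ⟨t, ht, hconn⟩ := exists_parity hP E0
  have hne : Nonempty P.Facet := hP.2.nonempty
  exact ((E0.withT t ht).tab hne (fun ψ χ I => by
    obtain ⟨v, h1, h2, h3⟩ := exists_valsT (E0.withT t ht) ψ χ I
    obtain ⟨c, hc⟩ := hconn v h1 h2
    exact ⟨c, h3 c hc⟩)).hasEdgeUnfolding

theorem main_deg3_65 (P : GridSolid) (hP : P.IsOrthogonalPolyhedron) (h3 : Deg3 P)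
    (hf : NoFlush P 1) : (P.refine 65 (by norm_num)).HasEdgeUnfolding :=
  main_thin65 P hP (thin_of_deg3 P hP.1 h3 hf)

/-- all vertices of degree three, no flush edges in one direction -/
theorem main_any_axis (P : GridSolid) (hP : P.IsOrthogonalPolyhedron) (h3 : Deg3 P)
    (hf : ∃ a, NoFlush P a) : (P.refine 65 (by norm_num)).HasEdgeUnfolding :=
  any_axis (fun P hP h3 hf => main_deg3_65 P hP h3 hf) P hP h3 hf

end Pool.Agent.MP42
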