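import Pool.Agent.MP42.Main2
import Pool.Agent.MP42.Lines2

/-!
# Main theorem of stage 1 in geometric form
-/

set_option autoImplicit false
set_option linter.unusedSectionVars false

namespace Pool.Agent.MP42

open Pool.Agent.Helper55.UNF Pool.Agent.Helper55.UNF.GridSolid

/-- If, for some axis, every segment in the surface parallel to this axis meets at most six corners
of facets orthogonal to the axis, then the 65-refinement has an edge unfolding. -/
theorem main_lineBound (P : GridSolid) (hP : P.IsOrthogonalPolyhedron)
    (hL : ∃ a, LineBound P a) : (P.refine 65 (by norm_num)).HasEdgeUnfolding := by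
  obtain ⟨a, ha⟩ := hL
  have h1 : LineBound (rl P (Equiv.swap 1 a)) 1 :=
    lineBound_rl P _ 1 (by rw [Equiv.swap_apply_left]; exact ha)
  exact refine_of_rl P (Equiv.swap 1 a)
    (main_thin65 _ (isOrthogonalPolyhedron_rl P _ hP) (thin_of_lineBound h1))

theorem exists_lineBound_of_deg3 (P : GridSolid) (hP : P.IsOrthogonalPolyhedron)
    (h3 : Deg3 P) (hf : ∃ a, NoFlush P a) : ∃ a, LineBound P a := by
  obtain ⟨a, ha⟩ := hf
  exact ⟨a, lineBound_of_deg3' P hP.1 h3 ha⟩

end Pool.Agent.MP42
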