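import Pool.Agent.MP42.H.Refine

/-!
# An edge unfolding of a solid gives an edge unfolding of every refinement
-/

set_option autoImplicit false
set_option linter.unusedSectionVars false

namespace Pool.Agent.MP42H

open Pool.Agent.Helper55.UNF Pool.Agent.Helper55.UNF.GridSolid

variable {P : GridSolid} {k : ℕ}

/-! ## Coordinates -/

lemma refine_crd_add (hk : 0 < k) (a : Fin 3) (q : ℤ) (r : ℕ) (hr : r ≤ k) :
    (P.refine k hk).crd a ((k : ℤ) * q + r) =
      P.crd a q + (r : ℝ) / (k : ℝ) * (P.crd a (q + 1) - P.crd a q) := by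
  have hk' : (0 : ℤ) < k := by exact_mod_cast hk
  have hkR : (0 : ℝ) < k := by exact_mod_cast hk
  show P.crd a (((k : ℤ) * q + r) / (k : ℤ)) +
      (((((k : ℤ) * q + r) % (k : ℤ) : ℤ)) : ℝ) / (k : ℝ) *
        (P.crd a (((k : ℤ) * q + r) / (k : ℤ) + 1) - P.crd a (((k : ℤ) * q + r) / (k : ℤ))) = _
  rcases Nat.lt_or_ge r k with h | h
  · have e1 : ((k : ℤ) * q + r) / (k : ℤ) = q := by
      rw [Int.add_comm, Int.add_mul_ediv_left _ _ hk'.ne',
        Int.ediv_eq_zero_of_lt (by omega) (by omega), zero_add]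
    have e2 : ((k : ℤ) * q + r) % (k : ℤ) = r := by
      rw [Int.add_comm, Int.add_mul_emod_self_left]
      exact Int.emod_eq_of_lt (by omega) (by omega)
    rw [e1, e2]
    push_cast
    rfl
  · have e0 : r = k := le_antisymm hr h
    subst e0
    have e1 : ((r : ℤ) * q + r) / (r : ℤ) = q + 1 := by
      rw [show (r : ℤ) * q + r = r * (q + 1) by ring, Int.mul_ediv_cancel_left _ hk'.ne']
    have e2 : ((r : ℤ) * q + r) % (r : ℤ) = 0 := by
      rw [show (r : ℤ) * q + r = r * (q + 1) by ring]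
      exact Int.mul_emod_right _ _
    rw [e1, e2]
    push_cast
    rw [div_self hkR.ne']
    ring

lemma refine_crd_ge (hk : 0 < k) (a : Fin 3) (n : ℤ) :
    P.crd a (n / (k : ℤ)) ≤ (P.refine k hk).crd a n := by
  have hk' : (0 : ℤ) < k := by exact_mod_cast hk
  have h1 := Int.mul_ediv_add_emod n k
  have h2 := Int.emod_nonneg n hk'.ne'
  have h3 := Int.emod_lt_of_pos n hk'
  have e := refine_crd_add (P := P) hk a (n / (k : ℤ)) (n % (k : ℤ)).toNat (by omega)
  rw [show (k : ℤ) * (n / (k : ℤ)) + ((n % (k : ℤ)).toNat : ℤ) = n by omega] at e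
  rw [e]
  have h4 : P.crd a (n / (k : ℤ)) < P.crd a (n / (k : ℤ) + 1) := P.mono a (by omega)
  have : 0 ≤ (((n % (k : ℤ)).toNat : ℕ) : ℝ) / (k : ℝ) *
      (P.crd a (n / (k : ℤ) + 1) - P.crd a (n / (k : ℤ))) :=
    mul_nonneg (by positivity) (by linarith)
  linarith

lemma refine_crd_le (hk : 0 < k) (a : Fin 3) (n : ℤ) :
    (P.refine k hk).crd a (n + 1) ≤ P.crd a (n / (k : ℤ) + 1) := by
  have hk' : (0 : ℤ) < k := by exact_mod_cast hk
  have hkR : (0 : ℝ) < k := by exact_mod_cast hk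
  have h1 := Int.mul_ediv_add_emod n k
  have h2 := Int.emod_nonneg n hk'.ne'
  have h3 := Int.emod_lt_of_pos n hk'
  have e := refine_crd_add (P := P) hk a (n / (k : ℤ)) ((n % (k : ℤ)).toNat + 1) (by omega)
  rw [show (k : ℤ) * (n / (k : ℤ)) + (((n % (k : ℤ)).toNat + 1 : ℕ) : ℤ) = n + 1 by
    push_cast; omega] at e
  rw [e]
  have h4 : P.crd a (n / (k : ℤ)) < P.crd a (n / (k : ℤ) + 1) := P.mono a (by omega)
  have h5 : ((((n % (k : ℤ)).toNat + 1 : ℕ)) : ℝ) / (k : ℝ) ≤ 1 := by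
    rw [div_le_one hkR]
    exact_mod_cast (by omega : (n % (k : ℤ)).toNat + 1 ≤ k)
  nlinarith

/-- the index of a facet of the refinement along its normal -/
lemma facet_mod (hk : 0 < k) (f : (P.refine k hk).Facet) :
    f.1.1 f.1.2.1 = (k : ℤ) * (f.1.1 f.1.2.1 / (k : ℤ)) + (if f.1.2.2 then (k : ℤ) - 1 else 0) := by
  have hk' : (0 : ℤ) < k := by exact_mod_cast hk
  obtain ⟨⟨c, d⟩, h1, h2⟩ := f
  simp only at h1 h2 ⊢
  rw [mem_refine] at h1 h2
  have h3 := Int.mul_ediv_add_emod (c d.1) k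
  have h4 := Int.emod_nonneg (c d.1) hk'.ne'
  have h5 := Int.emod_lt_of_pos (c d.1) hk'
  rcases dv_shift hk c d with h | h
  · exact absurd (by rw [h]; exact h1) h2
  · rw [shift_same] at h
    have h6 := Int.mul_ediv_add_emod (c d.1 + (if d.2 then 1 else -1)) k
    have h7 := Int.emod_nonneg (c d.1 + (if d.2 then 1 else -1)) hk'.ne'
    have h8 := Int.emod_lt_of_pos (c d.1 + (if d.2 then 1 else -1)) hk'
    rw [h, mul_add] at h6
    by_cases hd : d.2 = true
    · simp only [hd, if_true] at h6 h7 h8 ⊢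
      omega
    · have hd' : d.2 = false := by simpa using hd
      simp only [hd', Bool.false_eq_true, if_false] at h6 h7 h8 ⊢
      omega

theorem rect_subset_co (hk : 0 < k) (f : (P.refine k hk).Facet) :
    (P.refine k hk).rect f.1 ⊆ P.rect (co hk f).1 := by
  intro p hp
  obtain ⟨h1, h2⟩ := hp
  refine ⟨?_, ?_⟩
  · show p f.1.2.1 = P.crd f.1.2.1 (f.1.1 f.1.2.1 / (k : ℤ) + (if f.1.2.2 then 1 else 0))
    rw [h1]
    have h3 := facet_mod hk f
    by_cases hd : f.1.2.2 = true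
    · rw [hd] at h3 ⊢
      simp only [if_true] at h3 ⊢
      have e := refine_crd_add (P := P) hk f.1.2.1 (f.1.1 f.1.2.1 / (k : ℤ)) k le_rfl
      rw [show (k : ℤ) * (f.1.1 f.1.2.1 / (k : ℤ)) + (k : ℤ) = f.1.1 f.1.2.1 + 1 by omega] at e
      rw [e, div_self (by exact_mod_cast hk.ne')]
      ring
    · have hd' : f.1.2.2 = false := by simpa using hd
      rw [hd'] at h3 ⊢
      simp only [Bool.false_eq_true, if_false] at h3 ⊢
      have e := refine_crd_add (P := P) hk f.1.2.1 (f.1.1 f.1.2.1 / (k : ℤ)) 0 (Nat.zero_le _)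
      rw [show (k : ℤ) * (f.1.1 f.1.2.1 / (k : ℤ)) + ((0 : ℕ) : ℤ) = f.1.1 f.1.2.1 + 0 by
        push_cast; omega] at e
      rw [e]
      push_cast
      rw [add_zero]
      ring
  · intro b hb
    obtain ⟨h3, h4⟩ := h2 b hb
    exact ⟨(refine_crd_ge hk b _).trans h3, h4.trans (refine_crd_le hk b _)⟩

/-! ## Rectangles in one facet -/

lemma line_of_ne (hk : 0 < k) {f g : (P.refine k hk).Facet} (hco : co hk f = co hk g)
    (hne : f ≠ g) : ∃ a b : Fin 3, a ≠ b ∧ ∃ α β : ℝ, ∀ p ∈ (P.refine k hk).rect f.1 ∩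
      (P.refine k hk).rect g.1, p a = α ∧ p b = β := by
  have hd : f.1.2 = g.1.2 := congrArg (fun h : P.Facet => h.1.2) hco
  have hc : ∀ a, f.1.1 a / (k : ℤ) = g.1.1 a / (k : ℤ) := fun a =>
    congrFun (congrArg (fun h : P.Facet => h.1.1) hco) a
  have h0 : f.1.1 f.1.2.1 = g.1.1 f.1.2.1 := by
    have h1 := facet_mod hk f
    have h2 := facet_mod hk g
    rw [← hd, ← hc] at h2
    rw [h1, h2]
  obtain ⟨b, hb⟩ : ∃ b, f.1.1 b ≠ g.1.1 b := by
    by_contra h
    push Not at h
    exact hne (Subtype.ext (Prod.ext (funext h) hd))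
  have hbd : b ≠ f.1.2.1 := fun h => hb (by rw [h]; exact h0)
  refine ⟨f.1.2.1, b, hbd.symm, ?_⟩
  rcases lt_or_gt_of_ne hb with h | h
  · refine ⟨_, (P.refine k hk).crd b (g.1.1 b), fun p hp => ⟨hp.1.1, ?_⟩⟩
    have h1 := (hp.1.2 b hbd).2
    have h2 := (hp.2.2 b (by rw [← hd]; exact hbd)).1
    have h3 : (P.refine k hk).crd b (f.1.1 b + 1) ≤ (P.refine k hk).crd b (g.1.1 b) :=
      ((P.refine k hk).mono b).monotone (by omega)
    linarith
  · refine ⟨_, (P.refine k hk).crd b (f.1.1 b), fun p hp => ⟨hp.1.1, ?_⟩⟩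
    have h1 := (hp.1.2 b hbd).1
    have h2 := (hp.2.2 b (by rw [← hd]; exact hbd)).2
    have h3 : (P.refine k hk).crd b (g.1.1 b + 1) ≤ (P.refine k hk).crd b (f.1.1 b) :=
      ((P.refine k hk).mono b).monotone (by omega)
    linarith

lemma dist_line {a b c : Fin 3} (hab : a ≠ b) (hac : a ≠ c) (hbc : b ≠ c) {p q : EuclideanSpace ℝ (Fin 3)}
    (h1 : p a = q a) (h2 : p b = q b) : dist p q = |p c - q c| := by
  rw [EuclideanSpace.dist_eq]
  have key : ∑ i, dist (p.ofLp i) (q.ofLp i) ^ 2 = (p c - q c) ^ 2 := by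
    have : (Finset.univ : Finset (Fin 3)) = {a, b, c} := by
      ext x
      simp only [Finset.mem_univ, Finset.mem_insert, Finset.mem_singleton, true_iff]
      have := c.2; have := a.2; have := b.2; have := x.2
      simp only [Fin.ext_iff, ne_eq] at hab hac hbc ⊢
      omega
    rw [this, Finset.sum_insert (by simp [hab, hac]), Finset.sum_insert (by simp [hbc]),
      Finset.sum_singleton]
    simp [h1, h2, Real.dist_eq, sq_abs]
  rw [key, Real.sqrt_sq_eq_abs]

/-- the isometric image of a segment has no interior point -/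
theorem interior_line {U : EuclideanSpace ℝ (Fin 3) → EuclideanSpace ℝ (Fin 2)}
    {A B R : Set (EuclideanSpace ℝ (Fin 3))} (hA : A ⊆ R) (hB : B ⊆ R)
    (hU : ∀ p ∈ R, ∀ q ∈ R, dist (U p) (U q) = dist p q) {a b : Fin 3} (hab : a ≠ b) {α β : ℝ}
    (hl : ∀ p ∈ A ∩ B, p a = α ∧ p b = β) :
    Disjoint (interior (U '' A)) (interior (U '' B)) := by
  obtain ⟨c, hac, hbc⟩ : ∃ c : Fin 3, a ≠ c ∧ b ≠ c := by
    clear hl hab
    revert a b; decide
  rw [Set.disjoint_left]
  intro w hw1 hw2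
  have hO : interior (U '' A) ∩ interior (U '' B) ∈ nhds w :=
    (isOpen_interior.inter isOpen_interior).mem_nhds ⟨hw1, hw2⟩
  obtain ⟨ε, hε, hball⟩ := Metric.mem_nhds_iff.1 hO
  have key : ∀ z ∈ Metric.ball w ε, ∃ p ∈ A ∩ B, U p = z := by
    intro z hz
    obtain ⟨h1, h2⟩ := hball hz
    obtain ⟨p, hp, hpz⟩ := interior_subset h1
    obtain ⟨q, hq, hqz⟩ := interior_subset h2
    have : dist p q = 0 := by
      rw [← hU p (hA hp) q (hB hq), hpz, hqz, dist_self]
    have e : p = q := dist_eq_zero.1 this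
    exact ⟨p, ⟨hp, by rw [e]; exact hq⟩, hpz⟩
  have hv : ∀ i : Fin 2, w + EuclideanSpace.single i (ε / 2) ∈ Metric.ball w ε := by
    intro i
    rw [Metric.mem_ball, dist_eq_norm, add_sub_cancel_left, PiLp.norm_single,
      Real.norm_eq_abs, abs_of_pos (by linarith)]
    linarith
  obtain ⟨p0, hp0, e0⟩ := key w (Metric.mem_ball_self hε)
  obtain ⟨p1, hp1, e1⟩ := key _ (hv 0)
  obtain ⟨p2, hp2, e2⟩ := key _ (hv 1)
  have d : ∀ p ∈ A ∩ B, ∀ q ∈ A ∩ B, dist (U p) (U q) = |p c - q c| := by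
    intro p hp q hq
    rw [hU p (hA hp.1) q (hA hq.1)]
    exact dist_line hab hac hbc ((hl p hp).1.trans (hl q hq).1.symm)
      ((hl p hp).2.trans (hl q hq).2.symm)
  have d1 := d p1 hp1 p0 hp0
  have d2 := d p2 hp2 p0 hp0
  have d3 := d p1 hp1 p2 hp2
  rw [e1, e0, dist_eq_norm, add_sub_cancel_left, PiLp.norm_single, Real.norm_eq_abs,
    abs_of_pos (by linarith : (0 : ℝ) < ε / 2)] at d1
  rw [e2, e0, dist_eq_norm, add_sub_cancel_left, PiLp.norm_single, Real.norm_eq_abs,
    abs_of_pos (by linarith : (0 : ℝ) < ε / 2)] at d2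
  have h3 : dist (w + EuclideanSpace.single (0 : Fin 2) (ε / 2))
      (w + EuclideanSpace.single (1 : Fin 2) (ε / 2)) ^ 2 = ε ^ 2 / 2 := by
    rw [EuclideanSpace.dist_eq, Real.sq_sqrt (by positivity), Fin.sum_univ_two]
    simp [EuclideanSpace.single]
    rw [abs_of_pos hε]
    ring
  rw [e1, e2] at d3
  rw [d3, sq_abs] at h3
  have h1 : (p1 c - p0 c) ^ 2 = (ε / 2) ^ 2 := by rw [d1, sq_abs]
  have h2 : (p2 c - p0 c) ^ 2 = (ε / 2) ^ 2 := by rw [d2, sq_abs]
  have h4 : (p1 c - p0 c - (p2 c - p0 c)) ^ 2 = ε ^ 2 / 2 := by rw [← h3]; ring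
  have h5 : (p1 c - p0 c) = (p2 c - p0 c) ∨ (p1 c - p0 c) = -(p2 c - p0 c) :=
    sq_eq_sq_iff_eq_or_eq_neg.1 (h1.trans h2.symm)
  rcases h5 with h5 | h5
  · rw [h5, sub_self] at h4
    have : (0 : ℝ) < ε ^ 2 := by positivity
    nlinarith
  · rw [h5] at h4
    have e : (-(p2 c - p0 c) - (p2 c - p0 c)) ^ 2 = 4 * (p2 c - p0 c) ^ 2 := by ring
    rw [e, h2] at h4
    have : (0 : ℝ) < ε ^ 2 := by positivity
    nlinarith

/-! ## The graph -/

variable (T : SimpleGraph P.Facet)

/-- adjacent facets of the refinement in one facet, or in two facets adjacent in the tree -/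
def subG (hk : 0 < k) : SimpleGraph (P.refine k hk).Facet where
  Adj := fun f g => (P.refine k hk).surfaceGraph.Adj f g ∧
    (co hk f = co hk g ∨ T.Adj (co hk f) (co hk g))
  symm := ⟨fun f g h => ⟨h.1.symm, h.2.imp (fun e => e.symm) (fun e => e.symm)⟩⟩
  loopless := ⟨fun f h => (P.refine k hk).surfaceGraph.loopless.irrefl f h.1⟩

variable {T}

lemma subG_reach_zero (hk : 0 < k) (s : P.FSt) : ∀ (x y : ℕ) (hx : x < k) (hy : y < k),
    (subG T hk).Reachable (sub hk s 0 0 hk hk).facet (sub hk s x y hx hy).facet := by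
  have hrow : ∀ (s : P.FSt) (y : ℕ) (hy : y < k) (x : ℕ) (hx : x < k),
      (subG T hk).Reachable (sub hk s 0 y hk hy).facet
        (sub hk s x y hx hy).facet := by
    intro s y hy x
    induction x with
    | zero => intro _; exact SimpleGraph.Reachable.refl _
    | succ x ih =>
      intro hx
      refine (ih (by omega)).trans ?_
      apply SimpleGraph.Adj.reachable
      have h1 : (P.refine k hk).surfaceGraph.Adj (sub hk s x y (by omega) hy).facet
          (sub hk s x y (by omega) hy).stE.facet := FSt.adj_stE _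
      rw [sub_stE_mid s hx hy] at h1
      exact ⟨h1, Or.inl (by rw [co_sub, co_sub])⟩
  intro x y hx hy
  refine SimpleGraph.Reachable.trans ?_ (hrow s y hy x hx)
  have e : ∀ (y : ℕ) (hy : y < k), (sub hk s 0 y hk hy).facet =
      (sub hk s.rL y (k - 1 - 0) hy (by omega)).facet := by
    intro y hy
    rw [← FSt.facet_rL (sub hk s 0 y hk hy), sub_rL s hk hy]
  rw [e 0 hk, e y hy]
  exact hrow s.rL (k - 1 - 0) (by omega) y hy

lemma subG_reach_stE (hk : 0 < k) (s : P.FSt) (hT : T.Adj s.facet s.stE.facet)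
    (x y : ℕ) (hx : x < k) (hy : y < k) (x' y' : ℕ)
    (hx' : x' < k) (hy' : y' < k) :
    (subG T hk).Reachable (sub hk s x y hx hy).facet
      (sub hk s.stE x' y' hx' hy').facet := by
  have h1 : (subG T hk).Adj (sub hk s (k - 1) 0 (by omega) hk).facet
      (sub hk s.stE 0 0 hk hk).facet := by
    have h2 : (P.refine k hk).surfaceGraph.Adj (sub hk s (k - 1) 0 (by omega) hk).facet
        (sub hk s (k - 1) 0 (by omega) hk).stE.facet := FSt.adj_stE _
    rw [sub_stE_end s hk] at h2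
    exact ⟨h2, Or.inr (by rw [co_sub, co_sub]; exact hT)⟩
  exact ((subG_reach_zero hk s x y hx hy).symm.trans (subG_reach_zero hk s _ _ _ _)).trans
    (h1.reachable.trans (subG_reach_zero hk s.stE x' y' hx' hy'))

theorem subG_connected (hM : P.IsManifold) (hT : T.Connected) (hle : T ≤ P.surfaceGraph)
    (hk : 0 < k) : (subG T hk).Connected := by
  have hco : ∀ f : (P.refine k hk).Facet, ∀ s : P.FSt, s.facet = co hk f →
      ∃ (x y : ℕ) (hx : x < k) (hy : y < k), (sub hk s x y hx hy).facet = f := by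
    intro f s hs
    exact ⟨_, _, ix_lt hk _ _, ix_lt hk _ _, sub_ix hk s f hs.symm⟩
  have key : ∀ F G : P.Facet, T.Reachable F G → ∀ f g : (P.refine k hk).Facet,
      co hk f = F → co hk g = G → (subG T hk).Reachable f g := by
    intro F G h
    obtain ⟨w⟩ := h
    induction w with
    | nil =>
      intro f g hf hg
      obtain ⟨s, hs⟩ := exists_st (co hk f)
      obtain ⟨x, y, hx, hy, rfl⟩ := hco f s hs
      obtain ⟨x', y', hx', hy', rfl⟩ := hco g s (by rw [hs, hf, hg])
      exact (subG_reach_zero hk s x y hx hy).symm.trans (subG_reach_zero hk s x' y' hx' hy')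
    | @cons u v w hadj _ ih =>
      intro f g hf hg
      obtain ⟨s, hs1, hs2⟩ := Pool.Agent.MP42.Geo.exists_state_of_adj hM (hle hadj)
      obtain ⟨x, y, hx, hy, rfl⟩ := hco f s (by rw [hs1, hf])
      refine (subG_reach_stE hk s (by rw [hs1, hs2]; exact hadj) x y hx hy 0 0 hk hk).trans ?_
      exact ih _ _ (by rw [co_sub hk s.stE hk hk, hs2]) hg
  have hne : Nonempty (P.refine k hk).Facet := by
    obtain ⟨f⟩ := hT.nonempty
    obtain ⟨s, -⟩ := exists_st f
    exact ⟨(sub hk s 0 0 hk hk).facet⟩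
  exact ⟨fun f g => key _ _ (hT.preconnected _ _) f g rfl rfl⟩

/-- **Monotonicity.**  A refinement of a solid with an edge unfolding has an edge unfolding. -/
theorem hasEdgeUnfolding_refine (hM : P.IsManifold) (h : P.HasEdgeUnfolding) (hk : 0 < k) :
    (P.refine k hk).HasEdgeUnfolding := by
  obtain ⟨T, u, hT, hle, h1, h2, h3⟩ := h
  obtain ⟨T', hle', hT'⟩ := (subG_connected hM hT.connected hle hk).exists_isTree_le
  refine ⟨T', fun f => u (co hk f), hT', fun f g hfg => (hle' hfg).1, ?_, ?_, ?_⟩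
  · intro f p hp q hq
    exact h1 _ p (rect_subset_co hk f hp) q (rect_subset_co hk f hq)
  · intro f g hfg p hp
    rcases (hle' hfg).2 with h | h
    · show u (co hk f) p = u (co hk g) p
      rw [h]
    · exact h2 _ _ h p ⟨rect_subset_co hk f hp.1, rect_subset_co hk g hp.2⟩
  · intro f g hfg
    by_cases hc : co hk f = co hk g
    · obtain ⟨a, b, hab, α, β, hl⟩ := line_of_ne hk hc hfg
      have := interior_line (U := u (co hk f)) (rect_subset_co hk f)
        (by rw [hc]; exact rect_subset_co hk g) (h1 _) hab hl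
      show Disjoint (interior (u (co hk f) '' _)) (interior (u (co hk g) '' _))
      rw [hc] at this ⊢
      exact this
    · exact (h3 _ _ hc).mono (interior_mono (Set.image_mono (rect_subset_co hk f)))
        (interior_mono (Set.image_mono (rect_subset_co hk g)))

end Pool.Agent.MP42H
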