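import Pool.Agent.Helper55.UNF.FSt

/-!
Local facts about the eight boxes around a grid point, as statements about eight booleans.

The boxes are `a0 b0 c0 d0` (negative `y` side) and `a1 b1 c1 d1` (positive `y` side), where
`a = (x-, z-)`, `b = (x+, z-)`, `c = (x-, z+)`, `d = (x+, z+)`.
-/

namespace Pool.Agent.MP42.Geo

/-- not all equal: the unit `y`-edge lies in the surface -/
def onB (a b c d : Bool) : Bool := !(a == b && b == c && c == d)

/-- odd: the unit `y`-edge is part of an edge of the polyhedron -/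
def crB (a b c d : Bool) : Bool := xor (xor a b) (xor c d)

/-- odd and `a - b - c + d = 1` -/
def kpB (a b c d : Bool) : Bool := crB a b c d && ((a && d) || ((a || d) && !(b || c)))

/-- alternating: the edge is not a manifold edge -/
def altB (a b c d : Bool) : Bool := (a == d) && (b == c) && !(a == b)

/-- the pattern depends on all three coordinates -/
def vtB (a0 b0 c0 d0 a1 b1 c1 d1 : Bool) : Bool :=
  (xor a0 b0 || xor c0 d0 || xor a1 b1 || xor c1 d1) &&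
  (xor a0 a1 || xor b0 b1 || xor c0 c1 || xor d0 d1) &&
  (xor a0 c0 || xor b0 d0 || xor a1 c1 || xor b1 d1)

/-- the number of edges of the polyhedron at the point -/
def dgB (a0 b0 c0 d0 a1 b1 c1 d1 : Bool) : ℕ :=
  (crB a0 b0 c0 d0).toNat + (crB a1 b1 c1 d1).toNat +
  (crB a0 c0 a1 c1).toNat + (crB b0 d0 b1 d1).toNat +
  (crB a0 b0 a1 b1).toNat + (crB c0 d0 c1 d1).toNat

/-- no alternating edge, and degree three if the point is a vertex -/
def goodB (a0 b0 c0 d0 a1 b1 c1 d1 : Bool) : Bool :=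
  !altB a0 b0 c0 d0 && !altB a1 b1 c1 d1 &&
  !altB a0 c0 a1 c1 && !altB b0 d0 b1 d1 &&
  !altB a0 b0 a1 b1 && !altB c0 d0 c1 d1 &&
  (!vtB a0 b0 c0 d0 a1 b1 c1 d1 || (dgB a0 b0 c0 d0 a1 b1 c1 d1 == 3))

/-- the quadrant `(r, u)` (right, above) contains a `y`-facet with the orientation of a head -/
def hdB (r u : Bool) (a0 b0 c0 d0 a1 b1 c1 d1 : Bool) : Bool :=
  match r, u with
  | false, false => !a0 && a1
  | true, false => b0 && !b1
  | false, true => c0 && !c1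
  | true, true => !d0 && d1

/-- the label of a head -/
def labB (r : Bool) (a0 b0 c0 d0 a1 b1 c1 d1 : Bool) : Fin 3 :=
  bif !(onB a0 b0 c0 d0) then
    (bif (kpB a1 b1 c1 d1 || !(onB a1 b1 c1 d1)) && r then 1 else 0)
  else bif !(onB a1 b1 c1 d1) then
    (bif (crB a0 b0 c0 d0 && !(kpB a0 b0 c0 d0)) && r then 1 else 2)
  else 1

lemma lab_inj : ∀ (a0 b0 c0 d0 a1 b1 c1 d1 : Bool), goodB a0 b0 c0 d0 a1 b1 c1 d1 = true →
    ∀ (r u r' u' : Bool), hdB r u a0 b0 c0 d0 a1 b1 c1 d1 = true →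
    hdB r' u' a0 b0 c0 d0 a1 b1 c1 d1 = true →
    labB r a0 b0 c0 d0 a1 b1 c1 d1 = labB r' a0 b0 c0 d0 a1 b1 c1 d1 → r = r' ∧ u = u' := by
  decide

lemma lab_zero : ∀ (a0 b0 c0 d0 a1 b1 c1 d1 : Bool) (r : Bool),
    labB r a0 b0 c0 d0 a1 b1 c1 d1 = 0 → onB a0 b0 c0 d0 = false := by
  decide

lemma lab_two : ∀ (a0 b0 c0 d0 a1 b1 c1 d1 : Bool) (r : Bool),
    labB r a0 b0 c0 d0 a1 b1 c1 d1 = 2 → onB a1 b1 c1 d1 = false := by
  decide

lemma lab_one : ∀ (a0 b0 c0 d0 a1 b1 c1 d1 : Bool), goodB a0 b0 c0 d0 a1 b1 c1 d1 = true →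
    ∀ (r u : Bool), hdB r u a0 b0 c0 d0 a1 b1 c1 d1 = true →
    labB r a0 b0 c0 d0 a1 b1 c1 d1 = 1 →
    (onB a0 b0 c0 d0 = false ∧ onB a1 b1 c1 d1 = false) ∨
    (crB a0 b0 c0 d0 = false ∧ crB a1 b1 c1 d1 = true ∧ kpB a1 b1 c1 d1 = true) ∨
    (crB a0 b0 c0 d0 = true ∧ kpB a0 b0 c0 d0 = false ∧ crB a1 b1 c1 d1 = false) := by
  decide

lemma kp_eq : ∀ (a0 b0 c0 d0 a1 b1 c1 d1 : Bool), goodB a0 b0 c0 d0 a1 b1 c1 d1 = true →
    crB a0 b0 c0 d0 = true → crB a1 b1 c1 d1 = true → kpB a0 b0 c0 d0 = kpB a1 b1 c1 d1 := by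
  decide

end Pool.Agent.MP42.Geo
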