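import Mathlib

/-!
# First return permutations

`fr π p` is the first return map of the permutation `π` of a finite type to the subtype `{x // p x}`.
-/

namespace Pool.Agent.MP42

section Return

variable {X : Type*}

lemma perm_apply_inv (σ : Equiv.Perm X) (x : X) : σ (σ⁻¹ x) = x := σ.apply_symm_apply x

lemma perm_inv_apply (σ : Equiv.Perm X) (x : X) : σ⁻¹ (σ x) = x := σ.symm_apply_apply x

variable (π : Equiv.Perm X) (p : X → Prop)

lemma pow_succ_apply' (k : ℕ) (x : X) : (π ^ (k + 1)) x = π ((π ^ k) x) := by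
  rw [pow_succ', Equiv.Perm.mul_apply]

lemma pow_add_apply (k l : ℕ) (x : X) : (π ^ (k + l)) x = (π ^ k) ((π ^ l) x) := by
  rw [pow_add, Equiv.Perm.mul_apply]

variable [Finite X]

lemma exists_return {x : X} (hx : p x) : ∃ k : ℕ, p ((π ^ (k + 1)) x) := by
  refine ⟨orderOf π - 1, ?_⟩
  have h : 0 < orderOf π := orderOf_pos π
  rw [Nat.sub_add_cancel h, pow_orderOf_eq_one]
  exact hx

open Classical in
/-- the number of elements between `x` and its first return -/
noncomputable def rt (x : {x // p x}) : ℕ := Nat.find (exists_return π p x.2)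

lemma rt_spec (x : {x // p x}) : p ((π ^ (rt π p x + 1)) x.1) := by
  classical
  exact Nat.find_spec (exists_return π p x.2)

lemma rt_min (x : {x // p x}) {j : ℕ} (hj : j < rt π p x) : ¬ p ((π ^ (j + 1)) x.1) := by
  classical
  exact Nat.find_min (exists_return π p x.2) hj

/-- the first return map -/
noncomputable def frF (x : {x // p x}) : {x // p x} := ⟨(π ^ (rt π p x + 1)) x.1, rt_spec π p x⟩

lemma frF_injective : Function.Injective (frF π p) := by
  have key : ∀ x y : {x // p x}, rt π p x ≤ rt π p y → frF π p x = frF π p y → x = y := by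
    intro x y hle h
    have h1 : (π ^ (rt π p x + 1)) x.1 = (π ^ (rt π p y + 1)) y.1 := congrArg Subtype.val h
    obtain ⟨m, hm⟩ := Nat.exists_eq_add_of_le hle
    have h2 : (π ^ (rt π p y + 1)) y.1 = (π ^ (rt π p x + 1)) ((π ^ m) y.1) := by
      rw [← pow_add_apply]
      congr 2
      omega
    rw [h2] at h1
    have h3 := (π ^ (rt π p x + 1)).injective h1
    rcases m with _ | m
    · exact Subtype.ext (by simpa using h3)
    · exfalso
      refine rt_min π p y (j := m) (by omega) ?_
      rw [← h3]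
      exact x.2
  intro x y h
  rcases le_total (rt π p x) (rt π p y) with h1 | h1
  · exact key x y h1 h
  · exact (key y x h1 h.symm).symm

/-- the first return permutation -/
noncomputable def fr : Equiv.Perm {x // p x} :=
  Equiv.ofBijective (frF π p) ((Finite.injective_iff_bijective).1 (frF_injective π p))

lemma fr_val (x : {x // p x}) : (fr π p x).1 = (π ^ (rt π p x + 1)) x.1 := rfl

lemma fr_spec (x : {x // p x}) : ∃ k : ℕ, (fr π p x).1 = (π ^ (k + 1)) x.1 ∧
    ∀ j < k, ¬ p ((π ^ (j + 1)) x.1) :=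
  ⟨rt π p x, rfl, fun _ hj => rt_min π p x hj⟩

lemma rt_eq {x : {x // p x}} {k : ℕ} (h : p ((π ^ (k + 1)) x.1))
    (hmin : ∀ j < k, ¬ p ((π ^ (j + 1)) x.1)) : rt π p x = k := by
  rcases lt_trichotomy (rt π p x) k with h1 | h1 | h1
  · exact absurd (rt_spec π p x) (hmin _ h1)
  · exact h1
  · exact absurd h (rt_min π p x h1)

lemma fr_eq {x y : {x // p x}} {k : ℕ} (h : (π ^ (k + 1)) x.1 = y.1)
    (hmin : ∀ j < k, ¬ p ((π ^ (j + 1)) x.1)) : fr π p x = y := by
  apply Subtype.ext
  rw [fr_val, rt_eq π p (by rw [h]; exact y.2) hmin, h]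

/-- one step -/
lemma fr_eq_of_next {x y : {x // p x}} (h : π x.1 = y.1) : fr π p x = y := by
  apply fr_eq π p (k := 0)
  · simpa using h
  · intro j hj; omega

variable {π p}

/-- A predicate invariant under `π` is invariant under the first return. -/
lemma fr_invariant {ψ : X → Prop} (h : ∀ x, ψ (π x) ↔ ψ x) (x : {x // p x}) :
    ψ (fr π p x).1 ↔ ψ x.1 := by
  rw [fr_val]
  have : ∀ k : ℕ, ψ ((π ^ k) x.1) ↔ ψ x.1 := by
    intro k
    induction k with
    | zero => simp
    | succ k ih => rw [pow_succ_apply', h, ih]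
  exact this _

/-- A predicate invariant under the first return is constant on every cycle of `π`. -/
lemma fr_const {ψ : {x // p x} → Prop} (h : ∀ x, ψ (fr π p x) ↔ ψ x) {x y : {x // p x}}
    (hxy : π.SameCycle x.1 y.1) : ψ x ↔ ψ y := by
  have key : ∀ n : ℕ, ∀ x : {x // p x}, (π ^ n) x.1 = y.1 → (ψ x ↔ ψ y) := by
    intro n
    induction n using Nat.strong_induction_on with
    | _ n ih =>
      intro x hx
      rcases Nat.eq_zero_or_pos n with h0 | h0
      · subst h0
        have : x = y := Subtype.ext (by simpa using hx)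
        rw [this]
      · have h1 : rt π p x + 1 ≤ n := by
          by_contra hlt
          refine rt_min π p x (j := n - 1) (by omega) ?_
          rw [Nat.sub_add_cancel h0, hx]
          exact y.2
        rw [← h x]
        apply ih (n - (rt π p x + 1)) (by omega)
        rw [fr_val, ← pow_add_apply, Nat.sub_add_cancel h1, hx]
  obtain ⟨n, hn⟩ := hxy.exists_nat_pow_eq
  exact key n x hn

/-- The first return of `π⁻¹` is the inverse of the first return of `π`. -/
lemma fr_inv : fr π⁻¹ p = (fr π p)⁻¹ := by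
  apply Equiv.ext
  intro x
  apply (fr π p).injective
  rw [perm_apply_inv]
  set y := fr π⁻¹ p x with hy
  apply fr_eq π p (k := rt π⁻¹ p x)
  · rw [hy, fr_val, inv_pow]
    exact perm_apply_inv _ _
  · intro j hj
    have h1 : (π ^ (j + 1)) y.1 = (π⁻¹ ^ (rt π⁻¹ p x - j - 1 + 1)) x.1 := by
      rw [hy, fr_val]
      have h2 : rt π⁻¹ p x + 1 = (j + 1) + (rt π⁻¹ p x - j - 1 + 1) := by omega
      rw [h2, pow_add_apply π⁻¹, inv_pow π (j + 1)]
      exact perm_apply_inv _ _
    rw [h1]
    exact rt_min π⁻¹ p x (by omega)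

/-- First returns of conjugate permutations: if `g` conjugates `π` to `π'` and `p` to `p'`. -/
lemma fr_conj {π' : Equiv.Perm X} {p' : X → Prop} (g : X → X) (hg : ∀ x, g (π x) = π' (g x))
    (hp : ∀ x, p' (g x) ↔ p x) (x : {x // p x}) :
    (fr π' p' ⟨g x.1, (hp _).2 x.2⟩).1 = g (fr π p x).1 := by
  have hk : ∀ (k : ℕ) (x : X), (π' ^ k) (g x) = g ((π ^ k) x) := by
    intro k
    induction k with
    | zero => intro x; simp
    | succ k ih => intro x; rw [pow_succ_apply', ih, ← hg, ← pow_succ_apply']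
  have : fr π' p' ⟨g x.1, (hp _).2 x.2⟩ = ⟨g (fr π p x).1, (hp _).2 (fr π p x).2⟩ := by
    apply fr_eq π' p' (k := rt π p x)
    · show (π' ^ (rt π p x + 1)) (g x.1) = _
      rw [hk]
      rfl
    · intro j hj
      show ¬ p' ((π' ^ (j + 1)) (g x.1))
      rw [hk, hp]
      exact rt_min π p x hj
  rw [this]

end Return

end Pool.Agent.MP42
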