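import Pool.Agent.MP42.Link
import Pool.Agent.MP42.Return

/-!
# The next event on a face

`stp φ` is the cyclic order of the slots `(d, 0), (d, 1), (d, 2), (d, 3), (φ d, 0), …` of a face and
`nxE` is its first return to the events.
-/

namespace Pool.Agent.MP42

variable {D : Type*}

/-- the next slot -/
def stp (φ : Equiv.Perm D) : Equiv.Perm (D × Fin 4) where
  toFun x := if x.2 = 3 then (φ x.1, 0) else (x.1, x.2 + 1)
  invFun x := if x.2 = 0 then (φ.symm x.1, 3) else (x.1, x.2 - 1)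
  left_inv x := by
    obtain ⟨d, i⟩ := x
    fin_cases i <;> simp
  right_inv x := by
    obtain ⟨d, i⟩ := x
    fin_cases i <;> simp

lemma stp_0 (φ : Equiv.Perm D) (d : D) : stp φ (d, 0) = (d, 1) := rfl
lemma stp_1 (φ : Equiv.Perm D) (d : D) : stp φ (d, 1) = (d, 2) := rfl
lemma stp_2 (φ : Equiv.Perm D) (d : D) : stp φ (d, 2) = (d, 3) := rfl
lemma stp_3 (φ : Equiv.Perm D) (d : D) : stp φ (d, 3) = (φ d, 0) := rfl

variable [Finite D]

omit [Finite D] in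
lemma stp_same {φ : Equiv.Perm D} (x : D × Fin 4) : φ.SameCycle x.1 (stp φ x).1 := by
  obtain ⟨d, i⟩ := x
  fin_cases i
  · exact Equiv.Perm.SameCycle.refl _ _
  · exact Equiv.Perm.SameCycle.refl _ _
  · exact Equiv.Perm.SameCycle.refl _ _
  · exact ⟨1, by simp [stp_3]⟩

omit [Finite D] in
lemma stp_pow_same {φ : Equiv.Perm D} (x : D × Fin 4) (k : ℕ) :
    φ.SameCycle x.1 ((stp φ ^ k) x).1 := by
  induction k with
  | zero => exact Equiv.Perm.SameCycle.refl _ _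
  | succ k ih =>
    rw [pow_succ_apply']
    exact ih.trans (stp_same _)

omit [Finite D] in
lemma stp_cycle_zero {φ : Equiv.Perm D} (x : D × Fin 4) : (stp φ).SameCycle (x.1, 0) x := by
  obtain ⟨d, i⟩ := x
  fin_cases i
  · exact ⟨0, by simp⟩
  · exact ⟨1, by simp [stp_0]⟩
  · exact ⟨2, by
      show (stp φ ^ (2 : ℤ)) (d, 0) = (d, 2)
      rw [show (2 : ℤ) = ((2 : ℕ) : ℤ) from rfl, zpow_natCast, pow_succ_apply', pow_succ_apply']
      simp [stp_0, stp_1]⟩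
  · exact ⟨3, by
      show (stp φ ^ (3 : ℤ)) (d, 0) = (d, 3)
      rw [show (3 : ℤ) = ((3 : ℕ) : ℤ) from rfl, zpow_natCast, pow_succ_apply', pow_succ_apply',
        pow_succ_apply']
      simp [stp_0, stp_1, stp_2]⟩

/-- All slots of a face are on one cycle. -/
lemma stp_sameCycle {φ : Equiv.Perm D} {x y : D × Fin 4} (h : φ.SameCycle x.1 y.1) :
    (stp φ).SameCycle x y := by
  have key : ∀ (n : ℕ) (d : D), (stp φ).SameCycle (d, 0) ((φ ^ n) d, 0) := by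
    intro n
    induction n with
    | zero => intro d; exact Equiv.Perm.SameCycle.refl _ _
    | succ n ih =>
      intro d
      refine (ih d).trans ?_
      rw [pow_succ_apply']
      have h1 := stp_cycle_zero (φ := φ) ((φ ^ n) d, 3)
      refine h1.trans ⟨1, ?_⟩
      simp [stp_3]
  obtain ⟨n, -, hn⟩ := h.exists_pow_eq'
  have h1 := key n x.1
  rw [hn] at h1
  exact ((stp_cycle_zero x).symm.trans h1).trans (stp_cycle_zero y)

variable (θ φ : Equiv.Perm D) (S R : D → Prop)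

/-- the next event on the face -/
noncomputable def nxE : Equiv.Perm {x // act θ φ S R x} := fr (stp φ) (act θ φ S R)

variable {θ φ S R}

lemma nxE_same (e : {x // act θ φ S R x}) : φ.SameCycle e.1.1 (nxE θ φ S R e).1.1 := by
  obtain ⟨k, hk, -⟩ := fr_spec (stp φ) (act θ φ S R) e
  unfold nxE
  rw [hk]
  exact stp_pow_same _ _

lemma nxE_trans (e e' : {x // act θ φ S R x}) (h : φ.SameCycle e.1.1 e'.1.1) :
    (nxE θ φ S R).SameCycle e e' := by
  have h1 : (nxE θ φ S R).SameCycle e e ↔ (nxE θ φ S R).SameCycle e e' := by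
    refine fr_const (ψ := fun z => (nxE θ φ S R).SameCycle e z) ?_ (stp_sameCycle h)
    intro x
    exact Equiv.Perm.sameCycle_apply_right
  exact h1.1 (Equiv.Perm.SameCycle.refl _ _)

/-- **A3** with the first return of the slot step. -/
theorem exists_one_curve_nxE {B : Type*} {f : B × Bool × Bool → D × Fin 4} {h : D → ℕ}
    {bd : D → B} {sd : D → Bool}
    (A : IsArbor θ φ S R h) (Q : IsPorts bd sd θ φ S R f)
    (rev : D → D) (hbd : ∀ d, bd (rev d) = bd d) (hsd : ∀ d, sd (rev d) = !sd d)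
    (conn2 : ∀ Ψ : D → Prop, (∀ d, Ψ (φ d) ↔ Ψ d) → (∀ d, S d → (Ψ d ↔ Ψ (θ (φ d)))) →
      (∀ r, R r → (Ψ r ↔ Ψ (θ r))) → ∀ d, Ψ d ↔ Ψ (θ d))
    (conn1 : ∀ Ψ : D → Prop, (∀ d, Ψ (φ d) ↔ Ψ d) → (∀ d, Ψ (θ d) ↔ Ψ d) →
      (∀ d, Ψ (rev d) ↔ Ψ d) → ∀ d d', Ψ d ↔ Ψ d') :
    ∃ t : B → Bool, ∀ ψi ψo : D × Fin 4 → Prop,
      (∀ e : {x // act θ φ S R x}, ψo e.1 ↔ ψi (nxE θ φ S R e).1) →
      (∀ d, S d → (ψi (θ (φ d), 2) ↔ ψi (d, 3))) →
      (∀ d, S d → (ψi (d, 2) ↔ ψo (θ (φ d), 2))) →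
      (∀ r, R r → sameF θ φ r → (ψi (r, 0) ↔ ψi (θ r, 0))) →
      (∀ r, R r → ¬ sameF θ φ r → (ψi (r, 0) ↔ ψi (θ r, 1))) →
      (∀ r, R r → ¬ sameF θ φ r → (ψi (r, 1) ↔ ψi (θ r, 0))) →
      (∀ b i, ψo (f (b, false, i)) ↔ ψo (f (b, true, xor i (t b)))) →
      ∀ x y, act θ φ S R x → act θ φ S R y → (ψi x ↔ ψi y) ∧ (ψi x ↔ ψo y) :=
  exists_one_curve A Q (nxE θ φ S R) nxE_same nxE_trans rev hbd hsd conn2 conn1

end Pool.Agent.MP42
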